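import Pool.Agent.Lib.FD82.Defs

/-! # A1_Sec: the sector and the partition functions

Everything here is about a probability measure `μ` on `V → Fin (k+1)` and finite sets.
NOTE all integrands depend on finitely many coordinates, hence they are measurable and bounded
(first prove: `wt A y · z` and `fun ω => ∏ v ∈ W, z v (ω v)` are measurable, bounded, integrable). -/

set_option autoImplicit false

open MeasureTheory Set Filter Topology

namespace Pool.Agent.FD82

variable {V : Type} {k : ℕ} {μ : Measure (Cfg V k)} [IsProbabilityMeasure μ] {α : ℝ}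

theorem one_mem_Sec (hα : 0 < α) : (1 : ℂ) ∈ Sec α := by
  refine ⟨one_ne_zero, ?_⟩
  rw [Complex.arg_one, abs_zero]
  exact hα

/-- The sector as an intersection of two half planes. -/
theorem mem_Sec_iff (hα : 0 < α) (hα2 : α ≤ Real.pi / 2) (z : ℂ) :
    z ∈ Sec α ↔ 0 < Real.sin α * z.re + Real.cos α * z.im ∧
      0 < Real.sin α * z.re - Real.cos α * z.im := by
  have h1 : Real.sin α * z.re + Real.cos α * z.im = ‖z‖ * Real.sin (α + z.arg) := by
    conv_lhs => rw [← Complex.norm_mul_cos_arg z, ← Complex.norm_mul_sin_arg z]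
    rw [Real.sin_add]
    ring
  have h2 : Real.sin α * z.re - Real.cos α * z.im = ‖z‖ * Real.sin (α - z.arg) := by
    conv_lhs => rw [← Complex.norm_mul_cos_arg z, ← Complex.norm_mul_sin_arg z]
    rw [Real.sin_sub]
    ring
  rw [h1, h2]
  have hπ := Real.pi_pos
  constructor
  · rintro ⟨hz, ha⟩
    have hn : 0 < ‖z‖ := norm_pos_iff.mpr hz
    obtain ⟨ha1, ha2⟩ := abs_lt.mp ha
    exact ⟨mul_pos hn (Real.sin_pos_of_pos_of_lt_pi (by linarith) (by linarith)),
      mul_pos hn (Real.sin_pos_of_pos_of_lt_pi (by linarith) (by linarith))⟩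
  · rintro ⟨ha, hb⟩
    have hn : 0 < ‖z‖ := by
      rcases (norm_nonneg z).eq_or_lt with h | h
      · rw [← h, zero_mul] at ha
        exact absurd ha (lt_irrefl _)
      · exact h
    have ha' : 0 < Real.sin (α + z.arg) := (pos_iff_pos_of_mul_pos ha).mp hn
    have hb' : 0 < Real.sin (α - z.arg) := (pos_iff_pos_of_mul_pos hb).mp hn
    refine ⟨norm_pos_iff.mp hn, abs_lt.mpr ⟨?_, ?_⟩⟩
    · by_contra hc
      rw [not_lt] at hc
      have h3 := Real.sin_nonpos_of_nonpos_of_neg_pi_le (x := α + z.arg) (by linarith)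
        (by linarith [Complex.neg_pi_lt_arg z])
      linarith
    · by_contra hc
      rw [not_lt] at hc
      have h3 := Real.sin_nonpos_of_nonpos_of_neg_pi_le (x := α - z.arg) (by linarith)
        (by linarith [Complex.arg_le_pi z])
      linarith

/-- For `α ≤ π / 2` the sector is a convex cone. -/
theorem add_mem_Sec (hα : 0 < α) (hα2 : α ≤ Real.pi / 2) {z w : ℂ} (hz : z ∈ Sec α)
    (hw : w ∈ Sec α) : z + w ∈ Sec α := by
  rw [mem_Sec_iff hα hα2] at hz hw ⊢
  rw [Complex.add_re, Complex.add_im]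
  constructor
  · linarith [hz.1, hw.1]
  · linarith [hz.2, hw.2]

theorem isOpen_Sec (hα2 : α ≤ Real.pi / 2) : IsOpen (Sec α) := by
  rcases le_or_gt α 0 with hα | hα
  · have : Sec α = ∅ := by
      ext z
      simp only [Sec, mem_ofPred_eq, mem_empty_iff_false, iff_false, not_and, not_lt]
      intro _
      exact hα.trans (abs_nonneg _)
    rw [this]
    exact isOpen_empty
  · have : Sec α = {z : ℂ | 0 < Real.sin α * z.re + Real.cos α * z.im} ∩
        {z : ℂ | 0 < Real.sin α * z.re - Real.cos α * z.im} := by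
      ext z
      rw [mem_Sec_iff hα hα2]
      rfl
    rw [this]
    exact (isOpen_lt continuous_const (by fun_prop)).inter
      (isOpen_lt continuous_const (by fun_prop))

/-- Restriction of configurations to a finite set. -/
theorem measurable_restr (W : Finset V) :
    Measurable (fun (ω : Cfg V k) (w : W) => ω w) :=
  measurable_pi_lambda _ fun _ => measurable_pi_apply _

/-- A function of finitely many coordinates is integrable. -/
theorem int_loc {E : Type} [NormedAddCommGroup E] [NormedSpace ℝ E] (W : Finset V)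
    (φ : (W → Fin (k + 1)) → E) :
    Integrable (fun ω : Cfg V k => φ (fun w => ω w)) μ := by
  have : IsFiniteMeasure (μ.map (fun (ω : Cfg V k) (w : W) => ω w)) := by infer_instance
  have h : Integrable φ (μ.map (fun (ω : Cfg V k) (w : W) => ω w)) := Integrable.of_finite
  exact h.comp_measurable (measurable_restr W)

open Classical in
/-- Its integral is a finite sum. -/
theorem int_fin (W : Finset V) (φ : (W → Fin (k + 1)) → ℂ) :
    ∫ ω, φ (fun w => ω w) ∂μ =
      ∑ η, ((μ.map (fun (ω : Cfg V k) (w : W) => ω w)).real {η} : ℂ) * φ η := by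
  have h : Integrable φ (μ.map (fun (ω : Cfg V k) (w : W) => ω w)) := Integrable.of_finite
  have h1 := integral_map (μ := μ) (φ := fun (ω : Cfg V k) (w : W) => ω w)
    (measurable_restr W).aemeasurable (f := φ) h.aestronglyMeasurable
  rw [← h1, integral_fintype h]
  simp only [Complex.real_smul]

/-- Differentiability in a parameter. -/
theorem diff_int (W : Finset V) (φ : (W → Fin (k + 1)) → ℂ → ℂ)
    (h : ∀ η, Differentiable ℂ (φ η)) :
    Differentiable ℂ (fun z => ∫ ω, φ (fun w => ω w) z ∂μ) := by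
  classical
  have h1 : (fun z => ∫ ω, φ (fun w => ω w) z ∂μ) = fun z =>
      ∑ η, ((μ.map (fun (ω : Cfg V k) (w : W) => ω w)).real {η} : ℂ) * φ η z :=
    funext fun z => int_fin W (fun η => φ η z)
  rw [h1]
  exact Differentiable.fun_sum fun η _ => (h η).const_mul _

/-- The weight as a function of finitely many coordinates. -/
def wtf (A : Finset V) (y : Cfg V k) (η : A → Fin (k + 1)) (z : ℂ) : ℂ :=
  ∏ w : A, if η w = y w then z else 1

theorem wt_eq (A : Finset V) (y ω : Cfg V k) (z : ℂ) :
    wt A y ω z = wtf A y (fun w => ω w) z := by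
  unfold wt wtf
  exact (Finset.prod_coe_sort A (fun w => if ω w = y w then z else 1)).symm

theorem wtf_diff (A : Finset V) (y : Cfg V k) (η : A → Fin (k + 1)) :
    Differentiable ℂ (wtf A y η) := by
  unfold wtf
  refine Differentiable.fun_finsetProd fun w _ => ?_
  split_ifs
  · exact differentiable_id
  · exact differentiable_const _

theorem wt_integrable (A : Finset V) (y : Cfg V k) (z : ℂ) :
    Integrable (fun ω => wt A y ω z) μ := by
  simp only [wt_eq]
  exact int_loc A (fun η => wtf A y η z)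

open Classical in
/-- The weight with a symbol at `v` as a function of finitely many coordinates. -/
noncomputable def wtm (A : Finset V) (y : Cfg V k) (v : V) (a : Fin (k + 1))
    (η : ↥(insert v A) → Fin (k + 1)) (z : ℂ) : ℂ :=
  (if η ⟨v, Finset.mem_insert_self v A⟩ = a then 1 else 0) *
    wtf A y (fun w => η ⟨w, Finset.mem_insert_of_mem w.2⟩) z

theorem wtm_eq (A : Finset V) (y ω : Cfg V k) (v : V) (a : Fin (k + 1)) (z : ℂ) :
    (if ω v = a then 1 else 0) * wt A y ω z = wtm A y v a (fun w => ω w) z := by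
  rw [wt_eq]
  rfl

open Classical in
theorem wtm_diff (A : Finset V) (y : Cfg V k) (v : V) (a : Fin (k + 1))
    (η : ↥(insert v A) → Fin (k + 1)) : Differentiable ℂ (wtm A y v a η) := by
  unfold wtm
  exact (wtf_diff A y _).const_mul _

theorem wtm_integrable (A : Finset V) (y : Cfg V k) (v : V) (a : Fin (k + 1)) (z : ℂ) :
    Integrable (fun ω => (if ω v = a then 1 else 0) * wt A y ω z) μ := by
  simp only [wtm_eq]
  exact int_loc _ (fun η => wtm A y v a η z)

/-- `W = A`, weights `z` or `1`. -/
theorem ZZ_ne (hα : 0 < α) (hst : Stable α μ) (A : Finset V) (y : Cfg V k) {z : ℂ}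
    (hz : z ∈ Sec α) : ZZ μ A y z ≠ 0 := by
  have h := hst A (fun v c => if c = y v then z else 1) (by
    intro v _ c
    split_ifs
    · exact hz
    · exact one_mem_Sec hα)
  exact h

theorem ZZ_diff (A : Finset V) (y : Cfg V k) : Differentiable ℂ (ZZ μ A y) := by
  have h : ZZ μ A y = fun z => ∫ ω, wtf A y (fun w => ω w) z ∂μ := by
    funext z
    unfold ZZ
    simp only [wt_eq]
  rw [h]
  exact diff_int A (wtf A y) (wtf_diff A y)

theorem MM_diff (A : Finset V) (y : Cfg V k) (v : V) (a : Fin (k + 1)) :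
    Differentiable ℂ (MM μ A y v a) := by
  have h : MM μ A y v a = fun z => ∫ ω, wtm A y v a (fun w => ω w) z ∂μ := by
    funext z
    unfold MM
    simp only [wtm_eq]
  rw [h]
  exact diff_int _ (wtm A y v a) (wtm_diff A y v a)

theorem MM_sum (A : Finset V) (y : Cfg V k) (v : V) (z : ℂ) :
    ∑ a, MM μ A y v a z = ZZ μ A y z := by
  unfold MM ZZ
  rw [← integral_finsetSum _ fun a _ => wtm_integrable A y v a z]
  refine integral_congr_ae (Eventually.of_forall fun ω => ?_)
  change ∑ a, (if ω v = a then 1 else 0) * wt A y ω z = wt A y ω z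
  rw [← Finset.sum_mul, Finset.sum_ite_eq, if_pos (Finset.mem_univ _), one_mul]

theorem QQ_sum (hα : 0 < α) (hst : Stable α μ) (A : Finset V) (y : Cfg V k) (v : V) {z : ℂ}
    (hz : z ∈ Sec α) : ∑ a, QQ μ A y v a z = 1 := by
  unfold QQ
  rw [← Finset.sum_div, MM_sum, div_self (ZZ_ne hα hst A y hz)]

/-- The weight at a real number. -/
theorem wt_real (A : Finset V) (y ω : Cfg V k) (x : ℝ) :
    wt A y ω (x : ℂ) = ((∏ w ∈ A, if ω w = y w then x else 1 : ℝ) : ℂ) := by
  unfold wt
  push_cast
  refine Finset.prod_congr rfl fun w _ => ?_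
  split_ifs <;> simp

theorem QQ_real (A : Finset V) (y : Cfg V k) (v : V) (a : Fin (k + 1)) {x : ℝ} (hx : 0 < x) :
    ∃ r : ℝ, 0 ≤ r ∧ r ≤ 1 ∧ QQ μ A y v a (x : ℂ) = r := by
  have hp : ∀ ω : Cfg V k, 0 ≤ ∏ w ∈ A, (if ω w = y w then x else 1 : ℝ) := by
    intro ω
    refine Finset.prod_nonneg fun w _ => ?_
    split_ifs
    · exact hx.le
    · exact zero_le_one
  have hZ : ZZ μ A y (x : ℂ) =
      ((∫ ω, ∏ w ∈ A, (if ω w = y w then x else 1 : ℝ) ∂μ : ℝ) : ℂ) := by
    unfold ZZ
    simp only [wt_real]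
    exact integral_ofReal
  have hM : MM μ A y v a (x : ℂ) = ((∫ ω, (if ω v = a then 1 else 0) *
      ∏ w ∈ A, (if ω w = y w then x else 1 : ℝ) ∂μ : ℝ) : ℂ) := by
    unfold MM
    simp only [wt_real]
    refine Eq.trans (integral_congr_ae (Eventually.of_forall fun ω => ?_)) integral_ofReal
    dsimp only
    split_ifs <;> simp
  have i1 : Integrable (fun ω : Cfg V k => ∏ w ∈ A, (if ω w = y w then x else 1 : ℝ)) μ := by
    have h := (wt_integrable (μ := μ) A y (x : ℂ)).re
    refine h.congr (Eventually.of_forall fun ω => ?_)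
    change (wt A y ω (x : ℂ)).re = _
    rw [wt_real]
    exact Complex.ofReal_re _
  have i2 : Integrable (fun ω : Cfg V k => (if ω v = a then 1 else 0) *
      ∏ w ∈ A, (if ω w = y w then x else 1 : ℝ)) μ := by
    have h := (wtm_integrable (μ := μ) A y v a (x : ℂ)).re
    refine h.congr (Eventually.of_forall fun ω => ?_)
    change ((if ω v = a then 1 else 0) * wt A y ω (x : ℂ)).re = _
    rw [wt_real]
    dsimp only
    by_cases hc : ω v = a
    · rw [if_pos hc, if_pos hc, one_mul, one_mul]
      exact Complex.ofReal_re _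
    · rw [if_neg hc, if_neg hc, zero_mul, zero_mul]
      rfl
  have j1 : 0 ≤ ∫ ω, ∏ w ∈ A, (if ω w = y w then x else 1 : ℝ) ∂μ :=
    integral_nonneg fun ω => hp ω
  have j2 : 0 ≤ ∫ ω, (if ω v = a then 1 else 0) *
      ∏ w ∈ A, (if ω w = y w then x else 1 : ℝ) ∂μ := by
    refine integral_nonneg fun ω => mul_nonneg ?_ (hp ω)
    split_ifs <;> norm_num
  have j3 : ∫ ω, (if ω v = a then 1 else 0) *
      ∏ w ∈ A, (if ω w = y w then x else 1 : ℝ) ∂μ ≤
        ∫ ω, ∏ w ∈ A, (if ω w = y w then x else 1 : ℝ) ∂μ := by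
    refine integral_mono i2 i1 fun ω => ?_
    dsimp only
    split_ifs
    · rw [one_mul]
    · rw [zero_mul]
      exact hp ω
  refine ⟨_, div_nonneg j2 j1, div_le_one_of_le₀ j3 j1, ?_⟩
  unfold QQ
  rw [hM, hZ, ← Complex.ofReal_div]

end Pool.Agent.FD82
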