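import Pool.Agent.Lib.FD82.A1_Sec

/-! # A2_QBound: bound of the complex posterior

Everything here is about a probability measure `μ` on `V → Fin (k+1)` and finite sets.
NOTE all integrands depend on finitely many coordinates, hence they are measurable and bounded
(first prove: `wt A y · z` and `fun ω => ∏ v ∈ W, z v (ω v)` are measurable, bounded, integrable). -/

set_option autoImplicit false

open MeasureTheory Set Filter Topology

namespace Pool.Agent.FD82

variable {V : Type} {k : ℕ} {μ : Measure (Cfg V k)} [IsProbabilityMeasure μ] {α : ℝ}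

/-- The disc of radius `sin α` around `1` is contained in the sector. -/
theorem mem_Sec_of_norm (hα : 0 < α) (hα2 : α ≤ Real.pi / 2) {l : ℂ}
    (hl : ‖l - 1‖ < Real.sin α) : l ∈ Sec α := by
  rw [mem_Sec_iff hα hα2]
  have h1 : (l - 1).re = l.re - 1 := by simp
  have h2 : (l - 1).im = l.im := by simp
  have h3 : (l - 1).re ^ 2 + (l - 1).im ^ 2 = ‖l - 1‖ ^ 2 := by
    rw [← Complex.normSq_eq_norm_sq, Complex.normSq_apply]
    ring
  have h4 := Real.sin_sq_add_cos_sq α
  have key : ∀ e : ℝ, e ^ 2 = 1 →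
      -‖l - 1‖ ≤ Real.sin α * (l - 1).re + e * (Real.cos α * (l - 1).im) := by
    intro e he
    have h5 : (Real.sin α * (l - 1).re + e * (Real.cos α * (l - 1).im)) ^ 2 ≤ ‖l - 1‖ ^ 2 := by
      rw [← h3]
      have h6 : (l - 1).re ^ 2 + (l - 1).im ^ 2 -
          (Real.sin α * (l - 1).re + e * (Real.cos α * (l - 1).im)) ^ 2 =
          (e * Real.cos α * (l - 1).re - Real.sin α * (l - 1).im) ^ 2 := by
        linear_combination (-((l - 1).re ^ 2 + (l - 1).im ^ 2)) * h4 -
          (Real.cos α ^ 2 * ((l - 1).im ^ 2 + (l - 1).re ^ 2)) * he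
      linarith [sq_nonneg (e * Real.cos α * (l - 1).re - Real.sin α * (l - 1).im)]
    have h7 := abs_le_of_sq_le_sq h5 (norm_nonneg _)
    linarith [(abs_le.mp h7).1]
  have k1 := key 1 (by norm_num)
  have k2 := key (-1) (by norm_num)
  rw [h1, h2] at k1 k2
  constructor
  · linarith
  · linarith

/-- For `ζ_a = l`, `ζ_c = 1` else, `∑_c ζ_c M_c = Z (1 + (l - 1) Q_a) ≠ 0` if `|l - 1| < sin α`
(then `|arg l| < α`). Take `l = 1 - 1/Q_a` if `|Q_a| > 1 / sin α`: contradiction. -/
theorem QQ_bound (hα : 0 < α) (hα2 : α ≤ Real.pi / 2) (hst : Stable α μ) (A : Finset V)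
    (y : Cfg V k) (v : V) (hv : v ∉ A) (a : Fin (k + 1)) {z : ℂ} (hz : z ∈ Sec α) :
    ‖QQ μ A y v a z‖ ≤ 1 / Real.sin α := by
  classical
  have hs : 0 < Real.sin α :=
    Real.sin_pos_of_pos_of_lt_pi hα (by linarith [Real.pi_pos])
  by_contra hc
  rw [not_le] at hc
  set Q := QQ μ A y v a z with hQ
  have hQn : 0 < ‖Q‖ := lt_trans (by positivity) hc
  have hQ0 : Q ≠ 0 := norm_pos_iff.mp hQn
  have hl : (1 - 1 / Q : ℂ) ∈ Sec α := by
    refine mem_Sec_of_norm hα hα2 ?_
    rw [sub_sub_cancel_left, norm_neg, norm_div, norm_one]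
    rw [div_lt_iff₀ hs] at hc
    rw [div_lt_iff₀ hQn]
    linarith
  have h := hst (insert v A) (fun w c => if w = v then (if c = a then 1 - 1 / Q else 1) else
    (if c = y w then z else 1)) (by
      intro w _ c
      split_ifs
      · exact hl
      · exact one_mem_Sec hα
      · exact hz
      · exact one_mem_Sec hα)
  apply h
  have h1 : ∀ ω : Cfg V k, (∏ w ∈ insert v A, if w = v then (if ω w = a then 1 - 1 / Q else 1) else
      (if ω w = y w then z else 1)) =
      wt A y ω z + (-(1 / Q)) * ((if ω v = a then 1 else 0) * wt A y ω z) := by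
    intro ω
    rw [Finset.prod_insert hv, if_pos rfl]
    have h2 : (∏ w ∈ A, if w = v then (if ω w = a then 1 - 1 / Q else 1) else
        (if ω w = y w then z else 1)) = wt A y ω z := by
      unfold wt
      refine Finset.prod_congr rfl fun w hw => ?_
      rw [if_neg]
      rintro rfl
      exact hv hw
    rw [h2]
    split_ifs
    · ring
    · ring
  have h3 : ∫ ω, (∏ w ∈ insert v A, if w = v then (if ω w = a then 1 - 1 / Q else 1) else
      (if ω w = y w then z else 1)) ∂μ = ZZ μ A y z + (-(1 / Q)) * MM μ A y v a z := by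
    simp only [h1]
    rw [integral_add (wt_integrable A y z) ((wtm_integrable A y v a z).const_mul _),
      integral_const_mul]
    rfl
  have hM : MM μ A y v a z = Q * ZZ μ A y z := by
    rw [hQ, QQ, div_mul_cancel₀ _ (ZZ_ne hα hst A y hz)]
  rw [h3, hM]
  field_simp
  ring

end Pool.Agent.FD82
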