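import Pool.Agent.Lib.FD82.A1_Sec

/-! # A3_QCol: the column bound

Everything here is about a probability measure `μ` on `V → Fin (k+1)` and finite sets.
NOTE all integrands depend on finitely many coordinates, hence they are measurable and bounded
(first prove: `wt A y · z` and `fun ω => ∏ v ∈ W, z v (ω v)` are measurable, bounded, integrable). -/

set_option autoImplicit false

open MeasureTheory Set Filter Topology

namespace Pool.Agent.FD82

variable {V : Type} {k : ℕ} {μ : Measure (Cfg V k)} [IsProbabilityMeasure μ] {α : ℝ}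

/-! ### Functions of finitely many coordinates -/

/-- Restriction to finitely many coordinates. -/
def resF (W : Finset V) (ω : Cfg V k) : W → Fin (k + 1) := fun w => ω w

lemma measurable_resF (W : Finset V) : Measurable (resF (k := k) W) :=
  measurable_pi_lambda _ fun w => measurable_pi_apply (w : V)

lemma measurable_of_res (W : Finset V) (f : (W → Fin (k + 1)) → ℂ) :
    Measurable (fun ω : Cfg V k => f (resF W ω)) :=
  (measurable_of_finite f).comp (measurable_resF W)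

lemma integrable_of_res (W : Finset V) (f : (W → Fin (k + 1)) → ℂ) :
    Integrable (fun ω : Cfg V k => f (resF W ω)) μ := by
  have : IsProbabilityMeasure (μ.map (resF W)) :=
    Measure.isProbabilityMeasure_map (measurable_resF W).aemeasurable
  have h : Integrable f (μ.map (resF W)) := Integrable.of_finite
  exact h.comp_measurable (measurable_resF W)

open Classical in
lemma integral_of_res (W : Finset V) (f : (W → Fin (k + 1)) → ℂ) :
    ∫ ω, f (resF W ω) ∂μ = ∑ η : W → Fin (k + 1), ((μ.map (resF W)).real {η} : ℂ) * f η := by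
  have : IsProbabilityMeasure (μ.map (resF W)) :=
    Measure.isProbabilityMeasure_map (measurable_resF W).aemeasurable
  rw [← integral_map (φ := resF W) (measurable_resF W).aemeasurable (f := f)
    (measurable_of_finite f).aestronglyMeasurable, integral_fintype Integrable.of_finite]
  refine Finset.sum_congr rfl fun η _ => ?_
  rw [Complex.real_smul]

/-- Differentiation under the integral. -/
lemma hasDerivAt_int (W : Finset V) (g E : (W → Fin (k + 1)) → ℂ) (θ : ℂ) :
    HasDerivAt (fun θ : ℂ => ∫ ω, g (resF W ω) * Complex.exp (θ * E (resF W ω)) ∂μ)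
      (∫ ω, g (resF W ω) * (E (resF W ω) * Complex.exp (θ * E (resF W ω))) ∂μ) θ := by
  classical
  have h1 : (fun θ : ℂ => ∫ ω, g (resF W ω) * Complex.exp (θ * E (resF W ω)) ∂μ) =
      fun θ => ∑ η : W → Fin (k + 1), ((μ.map (resF W)).real {η} : ℂ) *
        (g η * Complex.exp (θ * E η)) := by
    funext θ
    exact integral_of_res W (fun η => g η * Complex.exp (θ * E η))
  rw [h1, integral_of_res W (fun η => g η * (E η * Complex.exp (θ * E η)))]
  refine HasDerivAt.fun_sum fun η _ => ?_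
  have h2 : HasDerivAt (fun θ : ℂ => θ * E η) (E η) θ := by
    simpa using (hasDerivAt_id θ).mul_const (E η)
  have h3 := ((h2.cexp).const_mul (g η)).const_mul ((μ.map (resF W)).real {η} : ℂ)
  rw [mul_comm (Complex.exp (θ * E η)) (E η)] at h3
  exact h3

open Classical in
/-- Extension of a function on finitely many coordinates. -/
noncomputable def extF (W : Finset V) (η : W → Fin (k + 1)) : Cfg V k :=
  fun v => if h : v ∈ W then η ⟨v, h⟩ else 0

/-- `F` depends on the coordinates in `W` only. -/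
def Dep (W : Finset V) (F : Cfg V k → ℂ) : Prop :=
  ∀ ω ω', (∀ v ∈ W, ω v = ω' v) → F ω = F ω'

lemma Dep.eq {W : Finset V} {F : Cfg V k → ℂ} (h : Dep W F) (ω : Cfg V k) :
    F (extF W (resF W ω)) = F ω := by
  refine h _ _ fun v hv => ?_
  simp only [extF, dif_pos hv, resF]

lemma Dep.integrable {W : Finset V} {F : Cfg V k → ℂ} (h : Dep W F) : Integrable F μ := by
  have h1 := integrable_of_res (μ := μ) W (fun η => F (extF W η))
  have h2 : (fun ω => F (extF W (resF W ω))) = F := funext h.eq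
  rwa [h2] at h1

lemma Dep.hasDerivAt {W : Finset V} {g E : Cfg V k → ℂ} (hg : Dep W g) (hE : Dep W E) (θ : ℂ) :
    HasDerivAt (fun θ : ℂ => ∫ ω, g ω * Complex.exp (θ * E ω) ∂μ)
      (∫ ω, g ω * (E ω * Complex.exp (θ * E ω)) ∂μ) θ := by
  have h1 := hasDerivAt_int (μ := μ) W (fun η => g (extF W η)) (fun η => E (extF W η)) θ
  simp only [hg.eq, hE.eq] at h1
  exact h1

lemma Dep.mul {W : Finset V} {F F' : Cfg V k → ℂ} (h : Dep W F) (h' : Dep W F') :
    Dep W (fun ω => F ω * F' ω) := fun ω ω' hω => by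
  simp only [h ω ω' hω, h' ω ω' hω]

/-! ### The sector -/

lemma smul_mem_Sec {t : ℝ} (ht : 0 < t) {z : ℂ} (hz : z ∈ Sec α) : (t : ℂ) * z ∈ Sec α := by
  refine ⟨mul_ne_zero (by exact_mod_cast ht.ne') hz.1, ?_⟩
  rw [Complex.arg_real_mul _ ht]
  exact hz.2

lemma exp_mem_Sec (hα2 : α ≤ Real.pi / 2) {x : ℂ} (hx : |x.im| < α) :
    Complex.exp x ∈ Sec α := by
  refine ⟨Complex.exp_ne_zero x, ?_⟩
  have hpi := Real.pi_pos
  have h1 : x.im ∈ Set.Ioc (-Real.pi) Real.pi := by
    have := abs_lt.1 hx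
    constructor <;> linarith [this.1, this.2]
  have h2 : Complex.exp x = (Real.exp x.re : ℂ) * (Complex.cos x.im + Complex.sin x.im * Complex.I) := by
    rw [Complex.exp_eq_exp_re_mul_sin_add_cos, Complex.ofReal_exp]
  rw [h2, Complex.arg_mul_cos_add_sin_mul_I (Real.exp_pos _) h1]
  exact hx

/-! ### The functions `Φ_b` -/

open Classical in
/-- The weight at `A`, the symbol `b` at `w`. -/
noncomputable def wb (A : Finset V) (w : V) (y : Cfg V k) (z : ℂ) (b : Fin (k + 1))
    (ω : Cfg V k) : ℂ :=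
  (if ω w = b then z else 1) * ∏ u ∈ A.erase w, if ω u = y u then z else 1

/-- The exponent. -/
noncomputable def eT (T : Finset V) (ε : V → Fin (k + 1) → ℝ) (ω : Cfg V k) : ℂ :=
  ∑ v ∈ T, (ε v (ω v) : ℂ)

/-- The function `Φ_b`. -/
noncomputable def PhiF (μ : Measure (Cfg V k)) (A : Finset V) (w : V) (y : Cfg V k) (z : ℂ)
    (T : Finset V) (ε : V → Fin (k + 1) → ℝ) (b : Fin (k + 1)) (θ : ℂ) : ℂ :=
  ∫ ω, wb A w y z b ω * Complex.exp (θ * eT T ε ω) ∂μ

open Classical in
/-- The main nonvanishing statement: weights `ζ c` at `w`. -/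
lemma int_ne (hα : 0 < α) (hα2 : α ≤ Real.pi / 2) (hst : Stable α μ) (A : Finset V) (w : V)
    (hw : w ∈ A) (y : Cfg V k) (T : Finset V) (hT : ∀ v ∈ T, v ∉ A)
    (ε : V → Fin (k + 1) → ℝ) (hε : ∀ v a, |ε v a| ≤ 1) {z : ℂ} (hz : z ∈ Sec α)
    {θ : ℂ} (hθ : |θ.im| < α) (ζ : Fin (k + 1) → ℂ) (hζ : ∀ c, ζ c ∈ Sec α) :
    ∫ ω, (ζ (ω w) * ∏ u ∈ A.erase w, if ω u = y u then z else 1) *
      Complex.exp (θ * eT T ε ω) ∂μ ≠ 0 := by
  have hdisj : Disjoint A T := by
    rw [Finset.disjoint_left]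
    exact fun v hv hv' => hT v hv' hv
  let zz : V → Fin (k + 1) → ℂ := fun v c =>
    if v = w then ζ c else if v ∈ A then (if c = y v then z else 1) else
      Complex.exp (θ * ε v c)
  have h1 := hst (A ∪ T) zz ?_
  · have h2 : (fun ω : Cfg V k => ∏ v ∈ A ∪ T, zz v (ω v)) = fun ω =>
        (ζ (ω w) * ∏ u ∈ A.erase w, if ω u = y u then z else 1) *
          Complex.exp (θ * eT T ε ω) := by
      funext ω
      rw [Finset.prod_union hdisj, ← Finset.mul_prod_erase A _ hw]
      congr 1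
      · congr 1
        · change (if w = w then _ else _) = _
          rw [if_pos rfl]
        · refine Finset.prod_congr rfl fun u hu => ?_
          obtain ⟨hu1, hu2⟩ := Finset.mem_erase.1 hu
          change (if u = w then _ else _) = _
          rw [if_neg hu1, if_pos hu2]
      · rw [eT, Finset.mul_sum, Complex.exp_sum]
        refine Finset.prod_congr rfl fun v hv => ?_
        have hvA := hT v hv
        change (if v = w then _ else _) = _
        have hvw : v ≠ w := by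
          rintro rfl
          exact hvA hw
        rw [if_neg hvw, if_neg hvA]
    rw [h2] at h1
    exact h1
  · intro v hv c
    change (if v = w then _ else _) ∈ _
    split_ifs with h2 h3 h4
    · exact hζ c
    · exact hz
    · exact one_mem_Sec hα
    · refine exp_mem_Sec hα2 ?_
      have h5 : (θ * (ε v c : ℂ)).im = θ.im * ε v c := by
        rw [Complex.mul_im, Complex.ofReal_im, Complex.ofReal_re]
        ring
      rw [h5, abs_mul]
      exact (mul_le_of_le_one_right (abs_nonneg _) (hε v c)).trans_lt hθ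

lemma dep_wb (A T : Finset V) (w : V) (hw : w ∈ A) (y : Cfg V k) (z : ℂ) (b : Fin (k + 1)) :
    ∃ W : Finset V, A ⊆ W ∧ T ⊆ W ∧ Dep W (wb A w y z b) := by
  classical
  refine ⟨A ∪ T, Finset.subset_union_left, Finset.subset_union_right, fun ω ω' h => ?_⟩
  unfold wb
  rw [h w (Finset.mem_union_left _ hw)]
  congr 1
  refine Finset.prod_congr rfl fun u hu => ?_
  rw [h u (Finset.mem_union_left _ (Finset.mem_of_mem_erase hu))]

lemma dep_eT {W T : Finset V} (hTW : T ⊆ W) (ε : V → Fin (k + 1) → ℝ) : Dep W (eT T ε) := by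
  intro ω ω' h
  unfold eT
  refine Finset.sum_congr rfl fun v hv => ?_
  rw [h v (hTW hv)]

section

variable (A : Finset V) (w : V) (y : Cfg V k) (z : ℂ) (T : Finset V)
  (ε : V → Fin (k + 1) → ℝ)

lemma integrable_phi (hw : w ∈ A) (b : Fin (k + 1)) (θ : ℂ) :
    Integrable (fun ω => wb A w y z b ω * Complex.exp (θ * eT T ε ω)) μ := by
  obtain ⟨W, h1, h2, h3⟩ := dep_wb A T w hw y z b
  refine (h3.mul (F' := fun ω => Complex.exp (θ * eT T ε ω)) ?_).integrable
  intro ω ω' h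
  simp only [dep_eT h2 ε ω ω' h]

lemma phi_add (b b' : Fin (k + 1)) (hα : 0 < α) (hα2 : α ≤ Real.pi / 2) (hst : Stable α μ)
    (hw : w ∈ A) (hT : ∀ v ∈ T, v ∉ A) (hε : ∀ v a, |ε v a| ≤ 1) (hz : z ∈ Sec α)
    {θ : ℂ} (hθ : |θ.im| < α) {t : ℝ} (ht : 0 ≤ t) :
    PhiF μ A w y z T ε b θ + t * PhiF μ A w y z T ε b' θ ≠ 0 := by
  classical
  have hsec : ∀ (c d : Fin (k + 1)), (if c = d then z else 1) ∈ Sec α := by
    intro c d
    split_ifs
    · exact hz
    · exact one_mem_Sec hα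
  have h1 := int_ne hα hα2 hst A w hw y T hT ε hε hz hθ
    (fun c => (if c = b then z else 1) + t * (if c = b' then z else 1)) ?_
  · have h3 : PhiF μ A w y z T ε b θ + t * PhiF μ A w y z T ε b' θ =
        ∫ ω, ((fun c => (if c = b then z else 1) + t * (if c = b' then z else 1)) (ω w) *
          ∏ u ∈ A.erase w, if ω u = y u then z else 1) * Complex.exp (θ * eT T ε ω) ∂μ := by
      unfold PhiF
      rw [← integral_const_mul, ← integral_add (integrable_phi A w y z T ε hw b θ)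
        ((integrable_phi A w y z T ε hw b' θ).const_mul _)]
      refine integral_congr_ae (Eventually.of_forall fun ω => ?_)
      simp only [wb]
      ring
    rw [h3]
    exact h1
  · intro c
    rcases ht.eq_or_lt with h | h
    · rw [← h]
      simpa using hsec c b
    · exact add_mem_Sec hα hα2 (hsec _ _) (smul_mem_Sec h (hsec _ _))

lemma phi_hasDerivAt (hw : w ∈ A) (b : Fin (k + 1)) (θ : ℂ) :
    HasDerivAt (PhiF μ A w y z T ε b)
      (∫ ω, wb A w y z b ω * (eT T ε ω * Complex.exp (θ * eT T ε ω)) ∂μ) θ := by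
  obtain ⟨W, h1, h2, h3⟩ := dep_wb A T w hw y z b
  exact h3.hasDerivAt (dep_eT h2 ε) θ

end

/-- A holomorphic function without values in `(-∞, 0]` has a small logarithmic derivative. -/
lemma log_deriv_bound (hα : 0 < α) {R : ℂ → ℂ} {R' : ℂ}
    (hR : DifferentiableOn ℂ R (Metric.ball 0 α)) (hs : ∀ θ ∈ Metric.ball (0 : ℂ) α,
      R θ ∈ Complex.slitPlane) (h0 : HasDerivAt R R' 0) : ‖R' / R 0‖ ≤ 4 * Real.pi / α := by
  have hpi := Real.pi_pos
  set g : ℂ → ℂ := fun θ => -Complex.I * (Complex.log (R θ) - Complex.log (R 0)) with hg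
  have h0mem : (0 : ℂ) ∈ Metric.ball (0 : ℂ) α := Metric.mem_ball_self hα
  have hgd : DifferentiableOn ℂ g (Metric.ball 0 α) :=
    ((hR.clog hs).sub_const _).const_mul _
  have hg0 : g 0 = 0 := by simp [hg]
  have hgM : Set.MapsTo g (Metric.ball 0 α) {z | z.re ≤ 2 * Real.pi} := by
    intro θ _
    have h1 : (g θ).re = (Complex.log (R θ)).im - (Complex.log (R 0)).im := by
      simp [hg, Complex.mul_re]
    change (g θ).re ≤ 2 * Real.pi
    rw [h1, Complex.log_im, Complex.log_im]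
    have h2 := Complex.arg_le_pi (R θ)
    have h3 := Complex.neg_pi_lt_arg (R 0)
    linarith
  have hgder : HasDerivAt g (-Complex.I * (R' / R 0)) 0 := by
    have h1 := (h0.clog (hs 0 h0mem)).sub_const (Complex.log (R 0))
    exact h1.const_mul (-Complex.I)
  have hb : ∀ θ ∈ Metric.ball (0 : ℂ) α, ‖g θ‖ ≤ 2 * (2 * Real.pi) * ‖θ‖ / (α - ‖θ‖) :=
    fun θ hθ => Complex.borelCaratheodory_zero (by positivity) hgd hgM hα hθ hg0
  have h1 : Tendsto (fun θ : ℂ => ‖slope g 0 θ‖) (𝓝[≠] 0) (𝓝 ‖-Complex.I * (R' / R 0)‖) :=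
    (hasDerivAt_iff_tendsto_slope.1 hgder).norm
  have h2 : Tendsto (fun θ : ℂ => 4 * Real.pi / (α - ‖θ‖)) (𝓝[≠] 0) (𝓝 (4 * Real.pi / (α - 0))) := by
    have h3 : Tendsto (fun θ : ℂ => ‖θ‖) (𝓝[≠] 0) (𝓝 0) := by
      have := (continuous_norm (E := ℂ)).tendsto 0
      rw [norm_zero] at this
      exact this.mono_left nhdsWithin_le_nhds
    exact (tendsto_const_nhds).div (tendsto_const_nhds.sub h3) (by linarith)
  have h3 : ∀ᶠ θ in 𝓝[≠] (0 : ℂ), ‖slope g 0 θ‖ ≤ 4 * Real.pi / (α - ‖θ‖) := by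
    have h4 : ∀ᶠ θ in 𝓝[≠] (0 : ℂ), θ ∈ Metric.ball (0 : ℂ) α :=
      nhdsWithin_le_nhds (Metric.ball_mem_nhds 0 hα)
    filter_upwards [h4, self_mem_nhdsWithin] with θ h5 h6
    have h7 : (0 : ℝ) < ‖θ‖ := norm_pos_iff.2 h6
    have h8 : (0 : ℝ) < α - ‖θ‖ := by
      rw [Metric.mem_ball, dist_zero_right] at h5
      linarith
    rw [slope_def_field, hg0, sub_zero, sub_zero, norm_div, div_le_iff₀ h7]
    refine (hb θ h5).trans (le_of_eq ?_)
    ring
  have h4 := le_of_tendsto_of_tendsto h1 h2 h3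
  rw [norm_mul, norm_neg, Complex.norm_I, one_mul, sub_zero] at h4
  exact h4

lemma wt_eq_wb (A : Finset V) (w : V) (hw : w ∈ A) (y y' : Cfg V k)
    (hyy : ∀ u, u ≠ w → y u = y' u) (z : ℂ) (ω : Cfg V k) :
    wt A y' ω z = wb A w y z (y' w) ω := by
  classical
  unfold wt wb
  rw [← Finset.mul_prod_erase A _ hw]
  congr 1
  refine Finset.prod_congr rfl fun u hu => ?_
  rw [hyy u (Finset.ne_of_mem_erase hu)]

/-- The derivative at zero. -/
lemma phi_deriv_zero (A : Finset V) (w : V) (hw : w ∈ A) (y y' : Cfg V k)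
    (hyy : ∀ u, u ≠ w → y u = y' u) (z : ℂ) (T : Finset V) (ε : V → Fin (k + 1) → ℝ) :
    ∫ ω, wb A w y z (y' w) ω * (eT T ε ω * Complex.exp (0 * eT T ε ω)) ∂μ =
      ∑ v ∈ T, ∑ a, (ε v a : ℂ) * MM μ A y' v a z := by
  classical
  have h1 : ∀ ω, wb A w y z (y' w) ω * (eT T ε ω * Complex.exp (0 * eT T ε ω)) =
      ∑ v ∈ T, ∑ a, (ε v a : ℂ) * ((if ω v = a then 1 else 0) * wt A y' ω z) := by
    intro ω
    rw [zero_mul, Complex.exp_zero, mul_one, wt_eq_wb A w hw y y' hyy, eT, Finset.mul_sum]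
    refine Finset.sum_congr rfl fun v _ => ?_
    rw [Finset.sum_eq_single (ω v)]
    · rw [if_pos rfl]
      ring
    · intro a _ ha
      rw [if_neg ha.symm]
      ring
    · intro h
      exact absurd (Finset.mem_univ _) h
  have h2 : ∀ v ∈ T, ∀ a : Fin (k + 1), Integrable (fun ω : Cfg V k =>
      (ε v a : ℂ) * ((if ω v = a then 1 else 0) * wt A y' ω z)) μ := by
    intro v hv a
    obtain ⟨W, h3, h4, h5⟩ := dep_wb A T w hw y z (y' w)
    have h6 : Dep W (fun ω : Cfg V k => (ε v a : ℂ) * ((if ω v = a then 1 else 0) * wt A y' ω z)) := by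
      intro ω ω' h
      simp only [wt_eq_wb A w hw y y' hyy, h5 ω ω' h, h v (h4 hv)]
    exact h6.integrable
  simp only [h1]
  rw [integral_finset_sum _ (fun v hv => integrable_finset_sum _ (fun a _ => h2 v hv a))]
  refine Finset.sum_congr rfl fun v hv => ?_
  rw [integral_finset_sum _ (fun a _ => h2 v hv a)]
  refine Finset.sum_congr rfl fun a _ => ?_
  rw [integral_const_mul]
  rfl

/-- COLUMN BOUND. WLOG `w ∈ A` (else the difference is `0`), `b = y w`, `b' = y' w`.
`Φ_b(θ) = E[z^{1(σ_w = b)} ∏_{u ∈ A - w} z^{1(σ_u = y_u)} ∏_{v ∈ T} exp (θ ε v σ_v)]` for `|θ| < α`: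
`Φ_b(θ) + t Φ_b'(θ) ≠ 0` for real `t ≥ 0` (the weights at `w` are `z + t`, `1 + t z`, `1 + t`, in the
sector), `Φ_b' ≠ 0`; so `R = Φ_b / Φ_b'` avoids `(-∞, 0]`, `L = log R` is analytic on `|θ| < α`,
`|Im L| < π`, `L'(0)` is the sum in question. `g = -i (L - L(0))` has `Re g < 2π`, `g 0 = 0`:
`Complex.borelCaratheodory_zero` gives `|g θ| ≤ 4 π |θ| / (α - |θ|)`, so `|g' 0| ≤ 4 π / α`. -/
theorem QQ_col (hα : 0 < α) (hα2 : α ≤ Real.pi / 2) (hst : Stable α μ) (A : Finset V) (w : V)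
    (y y' : Cfg V k) (hyy : ∀ u, u ≠ w → y u = y' u) (T : Finset V) (hT : ∀ v ∈ T, v ∉ A)
    (ε : V → Fin (k + 1) → ℝ) (hε : ∀ v a, |ε v a| ≤ 1) {z : ℂ} (hz : z ∈ Sec α) :
    ‖∑ v ∈ T, ∑ a, (ε v a : ℂ) * (QQ μ A y v a z - QQ μ A y' v a z)‖ ≤ 4 * Real.pi / α := by
  classical
  by_cases hw : w ∈ A
  swap
  · have h1 : ∀ ω : Cfg V k, wt A y ω z = wt A y' ω z := by
      intro ω
      unfold wt
      refine Finset.prod_congr rfl fun u hu => ?_
      have hne : u ≠ w := by
        rintro rfl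
        exact hw hu
      rw [hyy u hne]
    have h2 : ∀ v a, QQ μ A y v a z = QQ μ A y' v a z := by
      intro v a
      simp only [QQ, MM, ZZ, h1]
    simp only [h2, sub_self, mul_zero, Finset.sum_const_zero, norm_zero]
    have := Real.pi_pos
    positivity
  set Φ : ℂ → ℂ := PhiF μ A w y z T ε (y w) with hΦ
  set Φ' : ℂ → ℂ := PhiF μ A w y z T ε (y' w) with hΦ'
  have him : ∀ θ ∈ Metric.ball (0 : ℂ) α, |θ.im| < α := by
    intro θ hθ
    rw [Metric.mem_ball, dist_zero_right] at hθ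
    exact (Complex.abs_im_le_norm θ).trans_lt hθ
  have hadd : ∀ θ ∈ Metric.ball (0 : ℂ) α, ∀ t : ℝ, 0 ≤ t → Φ θ + t * Φ' θ ≠ 0 :=
    fun θ hθ t ht => phi_add A w y z T ε _ _ hα hα2 hst hw hT hε hz (him θ hθ) ht
  have hne' : ∀ θ ∈ Metric.ball (0 : ℂ) α, Φ' θ ≠ 0 := by
    intro θ hθ
    have := phi_add A w y z T ε (y' w) (y' w) hα hα2 hst hw hT hε hz (him θ hθ) le_rfl
    simpa using this
  have h0mem : (0 : ℂ) ∈ Metric.ball (0 : ℂ) α := Metric.mem_ball_self hα
  have hd := fun θ => phi_hasDerivAt (μ := μ) A w y z T ε hw (y w) θ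
  have hd' := fun θ => phi_hasDerivAt (μ := μ) A w y z T ε hw (y' w) θ
  have hR : DifferentiableOn ℂ (fun θ => Φ θ / Φ' θ) (Metric.ball 0 α) := fun θ hθ =>
    ((hd θ).differentiableAt.div (hd' θ).differentiableAt (hne' θ hθ)).differentiableWithinAt
  have hs : ∀ θ ∈ Metric.ball (0 : ℂ) α, Φ θ / Φ' θ ∈ Complex.slitPlane := by
    intro θ hθ
    rw [Complex.mem_slitPlane_iff_not_le_zero]
    intro hle
    obtain ⟨h1, h2⟩ := Complex.le_def.1 hle
    have h3 : Φ θ / Φ' θ = ((Φ θ / Φ' θ).re : ℂ) := by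
      apply Complex.ext
      · simp
      · simpa using h2
    obtain ⟨r, hr, h4⟩ : ∃ r : ℝ, r ≤ 0 ∧ Φ θ = (r : ℂ) * Φ' θ :=
      ⟨(Φ θ / Φ' θ).re, by simpa using h1, by rw [← h3, div_mul_cancel₀ _ (hne' θ hθ)]⟩
    refine hadd θ hθ (-r) (by linarith) ?_
    rw [h4]
    push_cast
    ring
  have h0 := (hd 0).div (hd' 0) (hne' 0 h0mem)
  have hbound := log_deriv_bound hα hR hs h0
  rw [phi_deriv_zero A w hw y y (fun _ _ => rfl), phi_deriv_zero A w hw y y' hyy] at hbound
  have hZ : Φ 0 = ZZ μ A y z := by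
    simp only [hΦ, PhiF, zero_mul, Complex.exp_zero, mul_one, ZZ]
    exact integral_congr_ae (Eventually.of_forall fun ω =>
      (wt_eq_wb A w hw y y (fun _ _ => rfl) z ω).symm)
  have hZ' : Φ' 0 = ZZ μ A y' z := by
    simp only [hΦ', PhiF, zero_mul, Complex.exp_zero, mul_one, ZZ]
    exact integral_congr_ae (Eventually.of_forall fun ω => (wt_eq_wb A w hw y y' hyy z ω).symm)
  have hz1 := ZZ_ne hα hst A y hz
  have hz2 := ZZ_ne hα hst A y' hz
  refine le_of_eq_of_le ?_ hbound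
  congr 1
  have e1 : ∑ v ∈ T, ∑ a, (ε v a : ℂ) * (QQ μ A y v a z - QQ μ A y' v a z) =
      (∑ v ∈ T, ∑ a, (ε v a : ℂ) * MM μ A y v a z) / ZZ μ A y z -
        (∑ v ∈ T, ∑ a, (ε v a : ℂ) * MM μ A y' v a z) / ZZ μ A y' z := by
    rw [Finset.sum_div, Finset.sum_div, ← Finset.sum_sub_distrib]
    refine Finset.sum_congr rfl fun v _ => ?_
    rw [Finset.sum_div, Finset.sum_div, ← Finset.sum_sub_distrib]
    refine Finset.sum_congr rfl fun a _ => ?_
    unfold QQ
    ring
  rw [e1]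
  change _ = (_ * Φ' 0 - Φ 0 * _) / (Φ' 0) ^ 2 / (Φ 0 / Φ' 0)
  rw [hZ, hZ']
  field_simp

end Pool.Agent.FD82
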