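import Pool.Agent.Lib.FD82.Defs

/-! # A4_Local: locality of the power series

`a(B) = μ(σ = y on B)`, `Z_A(z) = ∑_{B ⊆ A} (z-1)^{|B|} a(B)`,
`M_A(z) = ∑_{B ⊆ A} (z-1)^{|B|} μ(σ = y on B, σ_v = a)` (`v ∉ A`). By `m`-dependence `a(B ∪ B') = a(B) a(B')` if
`dist(B, B') > m`.
Put `A' = A ∩ B_{mn}(v)`. The terms of degree `≤ n` in `z - 1` of `M_A Z_{A'} - M_{A'} Z_A` cancel: for a pair
`(B, B')`, `B ⊆ A`, `B' ⊆ A'`, `|B| + |B'| ≤ n`, let `K` be the set of the elements of
`B ∪ B'` that are joined to `v` by a chain of steps `≤ m` in `{v} ∪ B ∪ B'`; then `K ⊆ B_{mn}(v)`, and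
`(B, B') ↦ ((B ∩ K) ∪ (B' \ K), (B' ∩ K) ∪ (B \ K))` is an (involutive) bijection onto the pairs with `B ⊆ A'`, `B' ⊆ A`,
that preserves `|B| + |B'|`, the set `K`, and the product `a(B + v) a(B')`. -/

set_option autoImplicit false
set_option linter.unusedSectionVars false

open MeasureTheory Set Filter Topology

namespace Pool.Agent.FD82

variable {V : Type} {k : ℕ} {μ : Measure (Cfg V k)} [IsProbabilityMeasure μ]

namespace A4

/-- The graph of steps of length at most `m` on the finite set `T`. -/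
def Hg (G : SimpleGraph V) (m : ℕ) (T : Finset V) : SimpleGraph T where
  Adj x y := x ≠ y ∧ G.dist x.1 y.1 ≤ m
  symm := ⟨fun x y h => ⟨h.1.symm, by rw [SimpleGraph.dist_comm]; exact h.2⟩⟩
  loopless := ⟨fun x h => h.1 rfl⟩

open Classical in
/-- The elements of `S` that are joined to `v`. -/
noncomputable def Kf (G : SimpleGraph V) (m : ℕ) (v : V) (S : Finset V) : Finset V :=
  S.filter (fun w => ∃ h : w ∈ insert v S,
    (Hg G m (insert v S)).Reachable ⟨v, Finset.mem_insert_self v S⟩ ⟨w, h⟩)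

theorem walk_dist {G : SimpleGraph V} (hG : G.Connected) (m : ℕ) (T : Finset V) {x y : T}
    (p : (Hg G m T).Walk x y) : G.dist x.1 y.1 ≤ m * p.length := by
  induction p with
  | nil => simp
  | @cons u v w h q ih =>
    rw [SimpleGraph.Walk.length_cons]
    have h1 : G.dist u.1 w.1 ≤ G.dist u.1 v.1 + G.dist v.1 w.1 := hG.dist_triangle
    have h2 := h.2
    nlinarith

theorem Kf_sub (G : SimpleGraph V) (m : ℕ) (v : V) (S : Finset V) : Kf G m v S ⊆ S := by
  classical
  exact Finset.filter_subset _ _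

theorem Kf_ball {G : SimpleGraph V} (hG : G.Connected) (m n : ℕ) (v : V) (S : Finset V)
    (hv : v ∉ S) (hS : S.card ≤ n) {w : V} (hw : w ∈ Kf G m v S) : G.dist v w ≤ m * n := by
  classical
  unfold Kf at hw
  rw [Finset.mem_filter] at hw
  obtain ⟨hwS, hT, hr⟩ := hw
  obtain ⟨p, hp⟩ := hr.exists_isPath
  have h1 := hp.length_lt
  have h2 := walk_dist hG m _ p
  have h3 : Fintype.card (↥(insert v S)) = S.card + 1 := by
    rw [Fintype.card_coe, Finset.card_insert_of_notMem hv]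
  have h4 : p.length ≤ n := by
    have : p.length < S.card + 1 := by
      rw [← h3]; exact h1
    omega
  exact h2.trans (Nat.mul_le_mul_left m h4)

theorem Kf_far (G : SimpleGraph V) (m : ℕ) (v : V) (S : Finset V) {x w : V}
    (hx : x = v ∨ x ∈ Kf G m v S) (hw : w ∈ S) (hwK : w ∉ Kf G m v S) (hvw : w ≠ v) :
    m < G.dist x w := by
  classical
  by_contra hcon
  push Not at hcon
  apply hwK
  unfold Kf
  rw [Finset.mem_filter]
  refine ⟨hw, Finset.mem_insert_of_mem hw, ?_⟩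
  have hxw : x ≠ w := by
    rintro rfl
    rcases hx with rfl | hx
    · exact hvw rfl
    · exact hwK hx
  have hreach : ∃ h : x ∈ insert v S,
      (Hg G m (insert v S)).Reachable ⟨v, Finset.mem_insert_self v S⟩ ⟨x, h⟩ := by
    rcases hx with rfl | hx
    · exact ⟨Finset.mem_insert_self _ _, SimpleGraph.Reachable.refl _⟩
    · unfold Kf at hx
      rw [Finset.mem_filter] at hx
      exact hx.2
  obtain ⟨hxT, hr⟩ := hreach
  refine hr.trans (SimpleGraph.Adj.reachable ?_)
  exact ⟨fun h => hxw (congrArg Subtype.val h), hcon⟩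

/-- The cylinder probabilities. -/
noncomputable def cc (μ : Measure (Cfg V k)) (y : Cfg V k) (B : Finset V) : ℝ :=
  μ.real {ω | ∀ w ∈ B, ω w = y w}

open Classical in
theorem cc_mul {G : SimpleGraph V} {m : ℕ} (hdep : MDep G m μ) (y : Cfg V k) (A B : Finset V)
    (h : ∀ a ∈ A, ∀ b ∈ B, m < G.dist a b) : cc μ y (A ∪ B) = cc μ y A * cc μ y B := by
  have := hdep A B h y
  unfold cc
  rw [← this]
  congr 1
  ext ω
  simp only [Finset.mem_union, Set.mem_ofPred_eq]

open Classical in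
theorem sum_swap (Kf : Finset V → Finset V) (A A' : Finset V) (hA' : A' ⊆ A) (n : ℕ)
    (hball : ∀ S, S ⊆ A → S.card ≤ n → Kf S ⊆ A') (F : Finset V → Finset V → ℂ)
    (hF : ∀ B B', B ⊆ A → B' ⊆ A → F B B' =
      F ((B ∩ Kf (B ∪ B')) ∪ (B' \ Kf (B ∪ B'))) ((B' ∩ Kf (B ∪ B')) ∪ (B \ Kf (B ∪ B')))) :
    ∑ x ∈ (A.powerset ×ˢ A'.powerset).filter (fun x => x.1.card + x.2.card ≤ n), F x.1 x.2 =
    ∑ x ∈ (A'.powerset ×ˢ A.powerset).filter (fun x => x.1.card + x.2.card ≤ n), F x.1 x.2 := by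
  obtain ⟨sw, hsw⟩ : ∃ sw : Finset V × Finset V → Finset V × Finset V, sw = fun x =>
    ((x.1 ∩ Kf (x.1 ∪ x.2)) ∪ (x.2 \ Kf (x.1 ∪ x.2)),
      (x.2 ∩ Kf (x.1 ∪ x.2)) ∪ (x.1 \ Kf (x.1 ∪ x.2))) := ⟨_, rfl⟩
  have hs1 : ∀ x, (sw x).1 = (x.1 ∩ Kf (x.1 ∪ x.2)) ∪ (x.2 \ Kf (x.1 ∪ x.2)) := fun x => by
    rw [hsw]
  have hs2 : ∀ x, (sw x).2 = (x.2 ∩ Kf (x.1 ∪ x.2)) ∪ (x.1 \ Kf (x.1 ∪ x.2)) := fun x => by
    rw [hsw]
  clear hsw
  have hunion : ∀ x, (sw x).1 ∪ (sw x).2 = x.1 ∪ x.2 := by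
    intro x
    rw [hs1, hs2]
    ext w
    simp only [Finset.mem_union, Finset.mem_inter, Finset.mem_sdiff]
    by_cases h : w ∈ Kf (x.1 ∪ x.2)
    · simp [h]
    · simp only [h, and_false, not_false_eq_true, and_true, false_or]
      exact or_comm
  have hinv : ∀ x, sw (sw x) = x := by
    intro x
    have hu := hunion x
    apply Prod.ext
    · rw [hs1 (sw x), hu, hs1 x, hs2 x]
      ext w
      simp only [Finset.mem_union, Finset.mem_inter, Finset.mem_sdiff]
      by_cases h : w ∈ Kf (x.1 ∪ x.2) <;> simp [h]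
    · rw [hs2 (sw x), hu, hs1 x, hs2 x]
      ext w
      simp only [Finset.mem_union, Finset.mem_inter, Finset.mem_sdiff]
      by_cases h : w ∈ Kf (x.1 ∪ x.2) <;> simp [h]
  have hcard : ∀ x, (sw x).1.card + (sw x).2.card = x.1.card + x.2.card := by
    intro x
    have d1 : Disjoint (x.1 ∩ Kf (x.1 ∪ x.2)) (x.2 \ Kf (x.1 ∪ x.2)) := by
      rw [Finset.disjoint_left]; intro w hw hw'
      simp only [Finset.mem_inter, Finset.mem_sdiff] at hw hw'
      exact hw'.2 hw.2
    have d2 : Disjoint (x.2 ∩ Kf (x.1 ∪ x.2)) (x.1 \ Kf (x.1 ∪ x.2)) := by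
      rw [Finset.disjoint_left]; intro w hw hw'
      simp only [Finset.mem_inter, Finset.mem_sdiff] at hw hw'
      exact hw'.2 hw.2
    have e1 : (sw x).1.card = (x.1 ∩ Kf (x.1 ∪ x.2)).card + (x.2 \ Kf (x.1 ∪ x.2)).card := by
      rw [hs1]; exact Finset.card_union_of_disjoint d1
    have e2 : (sw x).2.card = (x.2 ∩ Kf (x.1 ∪ x.2)).card + (x.1 \ Kf (x.1 ∪ x.2)).card := by
      rw [hs2]; exact Finset.card_union_of_disjoint d2
    have e3 := Finset.card_inter_add_card_sdiff x.1 (Kf (x.1 ∪ x.2))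
    have e4 := Finset.card_inter_add_card_sdiff x.2 (Kf (x.1 ∪ x.2))
    omega
  have hkey : ∀ x : Finset V × Finset V, x.1 ⊆ A → x.2 ⊆ A → x.1.card + x.2.card ≤ n →
      Kf (x.1 ∪ x.2) ⊆ A' := by
    intro x h1 h2 h3
    exact hball _ (Finset.union_subset h1 h2) ((Finset.card_union_le _ _).trans h3)
  refine Finset.sum_nbij' sw sw ?_ ?_ ?_ ?_ ?_
  · intro x hx
    rw [Finset.mem_filter, Finset.mem_product, Finset.mem_powerset, Finset.mem_powerset] at hx ⊢
    obtain ⟨⟨h1, h2⟩, h3⟩ := hx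
    have hK := hkey x h1 (h2.trans hA') h3
    refine ⟨⟨?_, ?_⟩, by rw [hcard]; exact h3⟩
    · rw [hs1]
      exact Finset.union_subset (Finset.inter_subset_right.trans hK)
        (Finset.sdiff_subset.trans h2)
    · rw [hs2]
      exact Finset.union_subset (Finset.inter_subset_left.trans (h2.trans hA'))
        (Finset.sdiff_subset.trans h1)
  · intro x hx
    rw [Finset.mem_filter, Finset.mem_product, Finset.mem_powerset, Finset.mem_powerset] at hx ⊢
    obtain ⟨⟨h1, h2⟩, h3⟩ := hx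
    have hK := hkey x (h1.trans hA') h2 h3
    refine ⟨⟨?_, ?_⟩, by rw [hcard]; exact h3⟩
    · rw [hs1]
      exact Finset.union_subset (Finset.inter_subset_left.trans (h1.trans hA'))
        (Finset.sdiff_subset.trans h2)
    · rw [hs2]
      exact Finset.union_subset (Finset.inter_subset_right.trans hK)
        (Finset.sdiff_subset.trans h1)
  · intro x _
    exact hinv x
  · intro x _
    exact hinv x
  · intro x hx
    rw [Finset.mem_filter, Finset.mem_product, Finset.mem_powerset, Finset.mem_powerset] at hx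
    obtain ⟨⟨h1, h2⟩, h3⟩ := hx
    rw [hs1, hs2]
    exact hF x.1 x.2 h1 (h2.trans hA')

open Classical in
theorem cc_inv {G : SimpleGraph V} {m : ℕ} (hdep : MDep G m μ) (y : Cfg V k) (v : V)
    (A : Finset V) (hv : v ∉ A) (B B' : Finset V) (hB : B ⊆ A) (hB' : B' ⊆ A) :
    cc μ y (insert v B) * cc μ y B' =
      cc μ y (insert v ((B ∩ Kf G m v (B ∪ B')) ∪ (B' \ Kf G m v (B ∪ B')))) *
        cc μ y ((B' ∩ Kf G m v (B ∪ B')) ∪ (B \ Kf G m v (B ∪ B'))) := by
  obtain ⟨K, hK⟩ : ∃ K, K = Kf G m v (B ∪ B') := ⟨_, rfl⟩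
  rw [← hK]
  have hfar : ∀ x w, (x = v ∨ x ∈ K) → w ∈ B ∪ B' → w ∉ K → m < G.dist x w := by
    intro x w hx hw hwK
    rw [hK] at hx hwK
    refine Kf_far G m v _ hx hw hwK ?_
    rintro rfl
    exact hv ((Finset.union_subset hB hB') hw)
  have e1 : ∀ X Y : Finset V, X ⊆ K → Y ⊆ B ∪ B' → (∀ w ∈ Y, w ∉ K) →
      cc μ y (insert v (X ∪ Y)) = cc μ y (insert v X) * cc μ y Y := by
    intro X Y hX hY hYK
    rw [← Finset.insert_union]
    refine cc_mul hdep y _ _ ?_
    intro x hx w hw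
    refine hfar x w ?_ (hY hw) (hYK w hw)
    rcases Finset.mem_insert.1 hx with h | h
    · exact Or.inl h
    · exact Or.inr (hX h)
  have e2 : ∀ X Y : Finset V, X ⊆ K → Y ⊆ B ∪ B' → (∀ w ∈ Y, w ∉ K) →
      cc μ y (X ∪ Y) = cc μ y X * cc μ y Y := by
    intro X Y hX hY hYK
    refine cc_mul hdep y _ _ ?_
    intro x hx w hw
    exact hfar x w (Or.inr (hX hx)) (hY hw) (hYK w hw)
  have d1 : B = (B ∩ K) ∪ (B \ K) := by
    rw [Finset.union_comm]; exact (Finset.sdiff_union_inter B K).symm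
  have d2 : B' = (B' ∩ K) ∪ (B' \ K) := by
    rw [Finset.union_comm]; exact (Finset.sdiff_union_inter B' K).symm
  have s1 : B ∩ K ⊆ K := Finset.inter_subset_right
  have s2 : B' ∩ K ⊆ K := Finset.inter_subset_right
  have s3 : B \ K ⊆ B ∪ B' := Finset.sdiff_subset.trans Finset.subset_union_left
  have s4 : B' \ K ⊆ B ∪ B' := Finset.sdiff_subset.trans Finset.subset_union_right
  have s5 : ∀ w ∈ B \ K, w ∉ K := fun w hw => (Finset.mem_sdiff.1 hw).2
  have s6 : ∀ w ∈ B' \ K, w ∉ K := fun w hw => (Finset.mem_sdiff.1 hw).2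
  rw [e1 _ _ s1 s4 s6, e2 _ _ s2 s3 s5]
  conv_lhs => rw [d1, d2]
  rw [e1 _ _ s1 s3 s5, e2 _ _ s2 s4 s6]
  ring

open Classical in
theorem wt_expand (A : Finset V) (y ω : Cfg V k) (z : ℂ) :
    wt A y ω z = ∑ B ∈ A.powerset, (z - 1) ^ B.card *
      ({ω : Cfg V k | ∀ w ∈ B, ω w = y w}.indicator (fun _ => (1 : ℂ)) ω) := by
  unfold wt
  have h1 : ∀ w ∈ A, (if ω w = y w then z else 1) =
      1 + (if ω w = y w then (z - 1) else 0) := by
    intro w _
    split_ifs <;> ring
  rw [Finset.prod_congr rfl h1, Finset.prod_one_add]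
  refine Finset.sum_congr rfl fun B _ => ?_
  by_cases h : ∀ w ∈ B, ω w = y w
  · rw [Set.indicator_of_mem (by exact h), mul_one, Finset.prod_congr rfl (fun w hw => if_pos (h w hw)),
      Finset.prod_const]
  · rw [Set.indicator_of_notMem (by exact h), mul_zero]
    push Not at h
    obtain ⟨w, hw, hne⟩ := h
    exact Finset.prod_eq_zero hw (if_neg hne)

theorem meas_cyl (B : Finset V) (y : Cfg V k) : MeasurableSet {ω : Cfg V k | ∀ w ∈ B, ω w = y w} := by
  have : {ω : Cfg V k | ∀ w ∈ B, ω w = y w} = ⋂ w ∈ B, (fun ω : Cfg V k => ω w) ⁻¹' {y w} := by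
    ext ω; simp
  rw [this]
  exact Finset.measurableSet_biInter _ fun w _ => measurable_pi_apply w (measurableSet_singleton _)

open Classical in
theorem ZZ_expand (A : Finset V) (y : Cfg V k) (z : ℂ) :
    ZZ μ A y z = ∑ B ∈ A.powerset, (z - 1) ^ B.card * (cc μ y B : ℂ) := by
  unfold ZZ
  simp_rw [wt_expand]
  rw [integral_finsetSum]
  · refine Finset.sum_congr rfl fun B _ => ?_
    rw [integral_const_mul, integral_indicator (meas_cyl B y), setIntegral_const]
    simp [cc]
  · intro B _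
    exact ((integrable_const (1 : ℂ)).indicator (meas_cyl B y)).const_mul _

open Classical in
theorem MM_expand (A : Finset V) (y : Cfg V k) (v : V) (hv : v ∉ A) (a : Fin (k + 1)) (z : ℂ) :
    MM μ A y v a z =
      ∑ B ∈ A.powerset, (z - 1) ^ B.card * (cc μ (Function.update y v a) (insert v B) : ℂ) := by
  have h1 : ∀ ω : Cfg V k, (if ω v = a then (1 : ℂ) else 0) * wt A y ω z =
      ∑ B ∈ A.powerset, (z - 1) ^ B.card *
      ({ω : Cfg V k | ∀ w ∈ insert v B, ω w = Function.update y v a w}.indicator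
        (fun _ => (1 : ℂ)) ω) := by
    intro ω
    rw [wt_expand, Finset.mul_sum]
    refine Finset.sum_congr rfl fun B hB => ?_
    have hvB : v ∉ B := fun h => hv (Finset.mem_powerset.1 hB h)
    have hiff : (∀ w ∈ insert v B, ω w = Function.update y v a w) ↔
        ω v = a ∧ ∀ w ∈ B, ω w = y w := by
      rw [Finset.forall_mem_insert]
      rw [Function.update_self]
      refine and_congr Iff.rfl (forall₂_congr fun w hw => ?_)
      have hne : w ≠ v := by
        rintro rfl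
        exact hvB hw
      rw [Function.update_of_ne hne]
    by_cases h1 : ω v = a
    · by_cases h2 : ∀ w ∈ B, ω w = y w
      · rw [Set.indicator_of_mem (by exact h2), Set.indicator_of_mem (by exact hiff.2 ⟨h1, h2⟩),
          if_pos h1, one_mul]
      · rw [Set.indicator_of_notMem (by exact h2),
          Set.indicator_of_notMem (by exact fun h => h2 (hiff.1 h).2), if_pos h1, one_mul]
    · rw [if_neg h1, zero_mul, Set.indicator_of_notMem (by exact fun h => h1 (hiff.1 h).1),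
        mul_zero]
  unfold MM
  simp_rw [h1]
  rw [integral_finsetSum]
  · refine Finset.sum_congr rfl fun B _ => ?_
    rw [integral_const_mul, integral_indicator (meas_cyl _ _), setIntegral_const]
    simp [cc]
  · intro B _
    exact ((integrable_const (1 : ℂ)).indicator (meas_cyl _ _)).const_mul _

end A4

open Classical in
theorem locality {G : SimpleGraph V} (hG : G.Connected) {m : ℕ} (hdep : MDep G m μ)
    (A : Finset V) (y : Cfg V k) (v : V) (hv : v ∉ A) (a : Fin (k + 1)) (n : ℕ) :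
    ∃ P : Polynomial ℂ, ∀ z : ℂ,
      MM μ A y v a z * ZZ μ (A.filter (fun w => G.dist v w ≤ m * n)) y z -
        MM μ (A.filter (fun w => G.dist v w ≤ m * n)) y v a z * ZZ μ A y z =
      (z - 1) ^ (n + 1) * P.eval z := by
  obtain ⟨A', hA'⟩ : ∃ A', A' = A.filter (fun w => G.dist v w ≤ m * n) := ⟨_, rfl⟩
  rw [← hA']
  have hA'A : A' ⊆ A := by rw [hA']; exact Finset.filter_subset _ _
  have hvA' : v ∉ A' := fun h => hv (hA'A h)
  obtain ⟨y', hy'⟩ : ∃ y', y' = Function.update y v a := ⟨_, rfl⟩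
  obtain ⟨F, hF⟩ : ∃ F : Finset V → Finset V → ℂ, F = fun B B' =>
    (A4.cc μ y' (insert v B) : ℂ) * (A4.cc μ y' B' : ℂ) := ⟨_, rfl⟩
  have hF' : ∀ B B', F B B' = (A4.cc μ y' (insert v B) : ℂ) * (A4.cc μ y' B' : ℂ) :=
    fun B B' => by rw [hF]
  have hcc : ∀ B, B ⊆ A → A4.cc μ y B = A4.cc μ y' B := by
    intro B hB
    unfold A4.cc
    congr 1
    ext ω
    refine forall₂_congr fun w hw => ?_
    have hne : w ≠ v := by
      rintro rfl
      exact hv (hB hw)
    rw [hy', Function.update_of_ne hne]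
  have hprod : ∀ (P Q : Finset V), P ⊆ A → Q ⊆ A → ∀ z : ℂ, MM μ P y v a z * ZZ μ Q y z =
      ∑ x ∈ P.powerset ×ˢ Q.powerset, (z - 1) ^ (x.1.card + x.2.card) * F x.1 x.2 := by
    intro P Q hP hQ z
    rw [A4.MM_expand P y v (fun h => hv (hP h)) a z, A4.ZZ_expand Q y z, Finset.sum_mul_sum,
      Finset.sum_product]
    refine Finset.sum_congr rfl fun B hB => Finset.sum_congr rfl fun B' hB' => ?_
    rw [hF', hcc B' ((Finset.mem_powerset.1 hB').trans hQ), pow_add, ← hy']
    ring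
  have hsplit : ∀ (T : Finset (Finset V × Finset V)) (z : ℂ),
      ∑ x ∈ T, (z - 1) ^ (x.1.card + x.2.card) * F x.1 x.2 =
      (∑ x ∈ T.filter (fun x : Finset V × Finset V => x.1.card + x.2.card ≤ n),
        (z - 1) ^ (x.1.card + x.2.card) * F x.1 x.2) +
      (z - 1) ^ (n + 1) * (∑ x ∈ T.filter (fun x : Finset V × Finset V => ¬ x.1.card + x.2.card ≤ n),
        ((Polynomial.X : Polynomial ℂ) - Polynomial.C 1) ^ (x.1.card + x.2.card - (n + 1)) *
          Polynomial.C (F x.1 x.2)).eval z := by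
    intro T z
    rw [← Finset.sum_filter_add_sum_filter_not T
      (fun x : Finset V × Finset V => x.1.card + x.2.card ≤ n)]
    congr 1
    rw [Polynomial.eval_finsetSum, Finset.mul_sum]
    refine Finset.sum_congr rfl fun x hx => ?_
    rw [Finset.mem_filter] at hx
    have h1 : x.1.card + x.2.card = (n + 1) + (x.1.card + x.2.card - (n + 1)) := by
      have := hx.2
      omega
    rw [Polynomial.eval_mul, Polynomial.eval_pow, Polynomial.eval_sub, Polynomial.eval_X,
      Polynomial.eval_C, Polynomial.eval_C]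
    conv_lhs => rw [h1, pow_add]
    ring
  refine ⟨(∑ x ∈ (A.powerset ×ˢ A'.powerset).filter (fun x => ¬ x.1.card + x.2.card ≤ n),
        (Polynomial.X - Polynomial.C 1) ^ (x.1.card + x.2.card - (n + 1)) *
          Polynomial.C (F x.1 x.2)) -
    (∑ x ∈ (A'.powerset ×ˢ A.powerset).filter (fun x => ¬ x.1.card + x.2.card ≤ n),
        (Polynomial.X - Polynomial.C 1) ^ (x.1.card + x.2.card - (n + 1)) *
          Polynomial.C (F x.1 x.2)), fun z => ?_⟩
  rw [hprod A A' (Finset.Subset.refl _) hA'A z, hprod A' A hA'A (Finset.Subset.refl _) z,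
    hsplit (A.powerset ×ˢ A'.powerset) z, hsplit (A'.powerset ×ˢ A.powerset) z,
    Polynomial.eval_sub]
  have hsw := A4.sum_swap (A4.Kf G m v) A A' hA'A n
    (fun S hS hSn w hw => by
      rw [hA', Finset.mem_filter]
      exact ⟨hS (A4.Kf_sub G m v S hw), A4.Kf_ball hG m n v S (fun h => hv (hS h)) hSn hw⟩)
    (fun B B' => (z - 1) ^ (B.card + B'.card) * F B B')
    (fun B B' hB hB' => by
      have hcard : ((B ∩ A4.Kf G m v (B ∪ B')) ∪ (B' \ A4.Kf G m v (B ∪ B'))).card +
          ((B' ∩ A4.Kf G m v (B ∪ B')) ∪ (B \ A4.Kf G m v (B ∪ B'))).card =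
          B.card + B'.card := by
        have d1 : Disjoint (B ∩ A4.Kf G m v (B ∪ B')) (B' \ A4.Kf G m v (B ∪ B')) := by
          rw [Finset.disjoint_left]; intro w hw hw'
          simp only [Finset.mem_inter, Finset.mem_sdiff] at hw hw'
          exact hw'.2 hw.2
        have d2 : Disjoint (B' ∩ A4.Kf G m v (B ∪ B')) (B \ A4.Kf G m v (B ∪ B')) := by
          rw [Finset.disjoint_left]; intro w hw hw'
          simp only [Finset.mem_inter, Finset.mem_sdiff] at hw hw'
          exact hw'.2 hw.2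
        rw [Finset.card_union_of_disjoint d1, Finset.card_union_of_disjoint d2]
        have e3 := Finset.card_inter_add_card_sdiff B (A4.Kf G m v (B ∪ B'))
        have e4 := Finset.card_inter_add_card_sdiff B' (A4.Kf G m v (B ∪ B'))
        omega
      show (z - 1) ^ (B.card + B'.card) * F B B' = (z - 1) ^ _ * F _ _
      rw [hcard, hF', hF', ← Complex.ofReal_mul, ← Complex.ofReal_mul,
        A4.cc_inv hdep y' v A hv B B' hB hB'])
  rw [hsw]
  ring

end Pool.Agent.FD82
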