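import Pool.Agent.Lib.FD82.Defs

/-! # A5_Uz: the uniformisation of the sector

-/

set_option autoImplicit false

open MeasureTheory Set Filter Topology

namespace Pool.Agent.FD82

variable {α : ℝ}

private theorem A5_one_sub_ne {u : ℂ} (hu : ‖u‖ < 1) : 1 - u ≠ 0 := by
  intro h
  have : u = 1 := (sub_eq_zero.1 h).symm
  rw [this] at hu
  simp at hu

private theorem A5_re_pos {u : ℂ} (hu : ‖u‖ < 1) : 0 < ((1 + u) / (1 - u)).re := by
  have h1 := A5_one_sub_ne hu
  have h2 : 0 < Complex.normSq (1 - u) := Complex.normSq_pos.2 h1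
  have h3 : ((1 + u) / (1 - u)).re = (1 - Complex.normSq u) / Complex.normSq (1 - u) := by
    rw [Complex.div_re]
    field_simp
    simp only [Complex.add_re, Complex.sub_re, Complex.one_re, Complex.add_im, Complex.sub_im,
      Complex.one_im, Complex.normSq_apply]
    ring
  rw [h3]
  apply div_pos _ h2
  rw [Complex.normSq_eq_norm_sq]
  have h0 := norm_nonneg u
  nlinarith

theorem uz_mem (hα : 0 < α) (hα2 : α ≤ Real.pi / 2) {u : ℂ} (hu : ‖u‖ < 1) : uz α u ∈ Sec α := by
  refine ⟨Complex.exp_ne_zero _, ?_⟩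
  have hpi := Real.pi_pos
  set w : ℂ := ((2 * α / Real.pi : ℝ) : ℂ) * Complex.log ((1 + u) / (1 - u)) with hw
  have h1 : |Complex.arg ((1 + u) / (1 - u))| < Real.pi / 2 :=
    Complex.abs_arg_lt_pi_div_two_iff.2 (Or.inl (A5_re_pos hu))
  have h2 : w.im = 2 * α / Real.pi * Complex.arg ((1 + u) / (1 - u)) := by
    rw [hw, Complex.im_ofReal_mul, Complex.log_im]
  have h3 : |w.im| < α := by
    rw [h2, abs_mul, abs_of_pos (by positivity)]
    calc 2 * α / Real.pi * |Complex.arg ((1 + u) / (1 - u))|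
        < 2 * α / Real.pi * (Real.pi / 2) := by
          apply mul_lt_mul_of_pos_left h1 (by positivity)
      _ = α := by field_simp
  have h4 := abs_lt.1 h3
  have h5 : Complex.log (Complex.exp w) = w :=
    Complex.log_exp (by linarith) (by linarith)
  have h6 : (Complex.exp w).arg = w.im := by
    rw [← Complex.log_im, h5]
  change |(Complex.exp w).arg| < α
  rw [h6]
  exact h3

theorem uz_zero : uz α 0 = 1 := by simp [uz]

theorem uz_diff : DifferentiableOn ℂ (uz α) (Metric.ball 0 1) := by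
  intro u hu
  have hu' : ‖u‖ < 1 := by simpa using hu
  have h1 := A5_one_sub_ne hu'
  have h2 : (1 + u) / (1 - u) ∈ Complex.slitPlane := Or.inl (A5_re_pos hu')
  apply DifferentiableAt.differentiableWithinAt
  unfold uz
  have h3 : DifferentiableAt ℂ (fun u : ℂ => (1 + u) / (1 - u)) u := by
    apply DifferentiableAt.div (by fun_prop) (by fun_prop) h1
  exact ((h3.clog h2).const_mul _).cexp

theorem uz_surj (hα : 0 < α) {x : ℝ} (hx : 1 ≤ x) :
    ∃ u : ℝ, 0 ≤ u ∧ u < 1 ∧ uz α (u : ℂ) = (x : ℂ) := by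
  have hpi := Real.pi_pos
  set y : ℝ := Real.exp (Real.pi / (2 * α) * Real.log x) with hy
  have hy1 : 1 ≤ y := by
    rw [hy]
    apply Real.one_le_exp
    have := Real.log_nonneg hx
    positivity
  refine ⟨(y - 1) / (y + 1), div_nonneg (by linarith) (by linarith), ?_, ?_⟩
  · rw [div_lt_one (by linarith)]
    linarith
  · have h1 : (1 + (((y - 1) / (y + 1) : ℝ) : ℂ)) / (1 - (((y - 1) / (y + 1) : ℝ) : ℂ)) = (y : ℂ) := by
      rw [← Complex.ofReal_one, ← Complex.ofReal_add, ← Complex.ofReal_sub, ← Complex.ofReal_div]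
      congr 1
      have : y + 1 ≠ 0 := by linarith
      field_simp
      ring
    unfold uz
    rw [h1, ← Complex.ofReal_log (by linarith), hy, Real.log_exp, ← Complex.ofReal_mul,
      ← Complex.ofReal_exp]
    congr 1
    rw [show 2 * α / Real.pi * (Real.pi / (2 * α) * Real.log x) = Real.log x by field_simp]
    exact Real.exp_log (by linarith)

theorem uz_sub_one : ∃ g : ℂ → ℂ, DifferentiableOn ℂ g (Metric.ball 0 1) ∧
    ∀ u ∈ Metric.ball (0 : ℂ) 1, uz α u - 1 = u * g u := by
  refine ⟨dslope (uz α) 0, ?_, ?_⟩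
  · exact (Complex.differentiableOn_dslope (Metric.ball_mem_nhds 0 one_pos)).2 uz_diff
  · intro u _
    have h := sub_smul_dslope (uz α) 0 u
    rw [sub_zero, smul_eq_mul, uz_zero] at h
    exact h.symm

end Pool.Agent.FD82
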