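import Pool.Agent.Lib.FD82.Defs

/-! # A6_Taylor: Taylor polynomials

-/

set_option autoImplicit false

open MeasureTheory Set Filter Topology

namespace Pool.Agent.FD82

variable {α : ℝ}

theorem TT_congr (n : ℕ) (u : ℂ) {f g : ℂ → ℂ} (h : ∀ x ∈ Metric.ball (0 : ℂ) 1, f x = g x) :
    TT n u f = TT n u g := by
  have h1 : f =ᶠ[𝓝 (0 : ℂ)] g := by
    filter_upwards [Metric.ball_mem_nhds (0 : ℂ) one_pos] with x hx using h x hx
  unfold TT
  refine Finset.sum_congr rfl fun j _ => ?_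
  rw [h1.iteratedDeriv_eq]

theorem contDiffAt_of_ball {f : ℂ → ℂ} (hf : DifferentiableOn ℂ f (Metric.ball 0 1)) (j : ℕ) :
    ContDiffAt ℂ j f 0 := by
  have h := (hf.analyticOnNhd Metric.isOpen_ball) 0 (Metric.mem_ball_self one_pos)
  exact h.contDiffAt

theorem TT_sum {ι : Type} (n : ℕ) (u : ℂ) (s : Finset ι) (c : ι → ℂ) (f : ι → ℂ → ℂ)
    (hf : ∀ i ∈ s, DifferentiableOn ℂ (f i) (Metric.ball 0 1)) :
    TT n u (fun x => ∑ i ∈ s, c i * f i x) = ∑ i ∈ s, c i * TT n u (f i) := by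
  unfold TT
  have h1 : ∀ j : ℕ, iteratedDeriv j (fun x => ∑ i ∈ s, c i * f i x) 0 =
      ∑ i ∈ s, c i * iteratedDeriv j (f i) 0 := by
    intro j
    rw [iteratedDeriv_fun_sum fun i hi => contDiffAt_const.mul (contDiffAt_of_ball (hf i hi) j)]
    refine Finset.sum_congr rfl fun i _ => ?_
    exact iteratedDeriv_const_mul_field (c i) (f i)
  simp only [h1, Finset.sum_div, Finset.sum_mul, Finset.mul_sum]
  rw [Finset.sum_comm]
  refine Finset.sum_congr rfl fun i _ => Finset.sum_congr rfl fun j _ => ?_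
  ring

/-- Cauchy's estimate on small circles. -/
theorem cauchy_small {f : ℂ → ℂ} (hf : DifferentiableOn ℂ f (Metric.ball 0 1)) {R B : ℝ}
    (hR : 0 < R) (hR1 : R < 1) (hB : ∀ x, ‖x‖ = R → ‖f x‖ ≤ B) (j : ℕ) :
    ‖iteratedDeriv j f 0‖ ≤ j.factorial * B / R ^ j := by
  refine Complex.norm_iteratedDeriv_le_of_forall_mem_sphere_norm_le j hR ?_ ?_
  · have h1 : closure (Metric.ball (0 : ℂ) R) ⊆ Metric.ball 0 1 :=
      Metric.closure_ball_subset_closedBall.trans (Metric.closedBall_subset_ball hR1)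
    exact (hf.mono h1).diffContOnCl
  · intro z hz
    exact hB z (by simpa using hz)

/-- Cauchy's estimate on the unit disc. -/
theorem coef_le {f : ℂ → ℂ} (hf : DifferentiableOn ℂ f (Metric.ball 0 1)) {B : ℝ}
    (hB : ∀ x ∈ Metric.ball (0 : ℂ) 1, ‖f x‖ ≤ B) (j : ℕ) :
    ‖iteratedDeriv j f 0 / (j.factorial : ℂ)‖ ≤ B := by
  have hj : (0 : ℝ) < j.factorial := by positivity
  rw [norm_div, Complex.norm_natCast, div_le_iff₀ hj]
  have h1 : ∀ R : ℝ, 0 < R → R < 1 → ‖iteratedDeriv j f 0‖ * R ^ j ≤ j.factorial * B := by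
    intro R hR hR1
    have h2 := cauchy_small hf hR hR1 (fun x hx => hB x (by simpa [hx] using hR1)) j
    rwa [le_div_iff₀ (by positivity)] at h2
  have h3 : Tendsto (fun R : ℝ => ‖iteratedDeriv j f 0‖ * R ^ j) (𝓝[<] 1)
      (𝓝 (‖iteratedDeriv j f 0‖ * 1 ^ j)) := by
    have : Continuous fun R : ℝ => ‖iteratedDeriv j f 0‖ * R ^ j := by fun_prop
    exact (this.tendsto 1).mono_left nhdsWithin_le_nhds
  have h4 : ∀ᶠ R : ℝ in 𝓝[<] 1, ‖iteratedDeriv j f 0‖ * R ^ j ≤ j.factorial * B := by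
    filter_upwards [Ioo_mem_nhdsLT (zero_lt_one' ℝ)] with R hR using h1 R hR.1 hR.2
  have h5 := le_of_tendsto h3 h4
  rw [one_pow, mul_one] at h5
  linarith

/-- Cauchy estimates on circles of radius `r → 1`. -/
theorem TT_err (n : ℕ) {f : ℂ → ℂ} (hf : DifferentiableOn ℂ f (Metric.ball 0 1)) {B : ℝ}
    (hB : ∀ x ∈ Metric.ball (0 : ℂ) 1, ‖f x‖ ≤ B) {u : ℂ} (hu : ‖u‖ < 1) :
    ‖f u - TT n u f‖ ≤ B * ‖u‖ ^ (n + 1) / (1 - ‖u‖) := by
  have hu' : u ∈ Metric.ball (0 : ℂ) 1 := by simpa using hu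
  have h1 := Complex.hasSum_taylorSeries_on_ball hf hu'
  have h2 : HasSum (fun j : ℕ => (iteratedDeriv j f 0 / (j.factorial : ℂ)) * u ^ j) (f u) := by
    have e : (fun j : ℕ => (iteratedDeriv j f 0 / (j.factorial : ℂ)) * u ^ j) =
        fun j : ℕ => ((j.factorial : ℂ))⁻¹ • (u - 0) ^ j • iteratedDeriv j f 0 := by
      funext j
      rw [sub_zero, smul_eq_mul, smul_eq_mul]
      ring
    rw [e]
    exact h1
  have h3 := (hasSum_nat_add_iff' (n + 1)).mpr h2
  have h4 : HasSum (fun j : ℕ => B * ‖u‖ ^ (n + 1) * ‖u‖ ^ j)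
      (B * ‖u‖ ^ (n + 1) * (1 - ‖u‖)⁻¹) :=
    (hasSum_geometric_of_lt_one (norm_nonneg u) hu).mul_left _
  have h5 : ‖f u - ∑ j ∈ Finset.range (n + 1),
      (iteratedDeriv j f 0 / (j.factorial : ℂ)) * u ^ j‖ ≤ B * ‖u‖ ^ (n + 1) * (1 - ‖u‖)⁻¹ := by
    refine h3.norm_le_of_bounded h4 fun j => ?_
    rw [norm_mul, norm_pow, mul_assoc, ← pow_add, add_comm (n + 1) j]
    exact mul_le_mul_of_nonneg_right (coef_le hf hB _) (by positivity)
  rw [div_eq_mul_inv]
  exact h5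

theorem TT_zero (n : ℕ) (u : ℂ) {f g : ℂ → ℂ} (hg : DifferentiableOn ℂ g (Metric.ball 0 1))
    (h : ∀ x ∈ Metric.ball (0 : ℂ) 1, f x = x ^ (n + 1) * g x) : TT n u f = 0 := by
  rw [TT_congr n u (g := fun x => x ^ (n + 1) * g x) h]
  unfold TT
  refine Finset.sum_eq_zero fun j hj => ?_
  have hj' : j ≤ n := Nat.lt_succ_iff.mp (Finset.mem_range.mp hj)
  have hF : DifferentiableOn ℂ (fun x : ℂ => x ^ (n + 1) * g x) (Metric.ball 0 1) :=
    (differentiable_pow (n + 1)).differentiableOn.mul hg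
  -- a bound of `g` on a smaller disc
  obtain ⟨M, hM⟩ : ∃ M, ∀ x ∈ Metric.closedBall (0 : ℂ) (1 / 2), ‖g x‖ ≤ M := by
    have hc : ContinuousOn g (Metric.closedBall (0 : ℂ) (1 / 2)) :=
      hg.continuousOn.mono (Metric.closedBall_subset_ball (by norm_num))
    exact (isCompact_closedBall (0 : ℂ) (1 / 2)).exists_bound_of_continuousOn hc
  have h0 : iteratedDeriv j (fun x : ℂ => x ^ (n + 1) * g x) 0 = 0 := by
    rw [← norm_le_zero_iff]
    have h1 : ∀ R : ℝ, 0 < R → R < 1 / 2 →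
        ‖iteratedDeriv j (fun x : ℂ => x ^ (n + 1) * g x) 0‖ ≤
          j.factorial * (R ^ (n + 1 - j) * M) := by
      intro R hR hR1
      have h2 := cauchy_small hF hR (by linarith) (B := R ^ (n + 1) * M) (fun x hx => by
        rw [norm_mul, norm_pow, hx]
        exact mul_le_mul_of_nonneg_left
          (hM x (by rw [mem_closedBall_zero_iff, hx]; exact hR1.le)) (by positivity)) j
      refine h2.trans (le_of_eq ?_)
      have h3 : R ^ (n + 1) = R ^ (n + 1 - j) * R ^ j := by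
        rw [← pow_add]
        congr 1
        omega
      rw [h3]
      field_simp
    have h3 : Tendsto (fun R : ℝ => (j.factorial : ℝ) * (R ^ (n + 1 - j) * M)) (𝓝[>] 0)
        (𝓝 (j.factorial * (0 ^ (n + 1 - j) * M))) := by
      have : Continuous fun R : ℝ => (j.factorial : ℝ) * (R ^ (n + 1 - j) * M) := by fun_prop
      exact (this.tendsto 0).mono_left nhdsWithin_le_nhds
    have h4 : ∀ᶠ R : ℝ in 𝓝[>] 0, ‖iteratedDeriv j (fun x : ℂ => x ^ (n + 1) * g x) 0‖ ≤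
        (j.factorial : ℝ) * (R ^ (n + 1 - j) * M) := by
      filter_upwards [Ioo_mem_nhdsGT (by norm_num : (0 : ℝ) < 1 / 2)] with R hR
      exact h1 R hR.1 hR.2
    have h5 := ge_of_tendsto h3 h4
    rwa [zero_pow (by omega), zero_mul, mul_zero] at h5
  rw [h0, zero_div, zero_mul]

end Pool.Agent.FD82
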