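import Pool.Agent.Lib.FD82.B3_Cond

/-! # D1_Noise: the noise

-/

set_option autoImplicit false

open MeasureTheory Set Filter Topology

namespace Pool.Agent.FD82

variable {V : Type} {k : ℕ} {G : SimpleGraph V} {s s' : ℝ}

private theorem noise_sum (h0 : 0 ≤ s) (h1 : s ≤ 1) :
    ENNReal.ofReal s + (k + 1 : ℕ) * ENNReal.ofReal ((1 - s) / (k + 1)) = 1 := by
  have hk : (0 : ℝ) < (k + 1 : ℕ) := by positivity
  rw [← ENNReal.ofReal_natCast, ← ENNReal.ofReal_mul hk.le,
    ← ENNReal.ofReal_add h0 (by
      have : (0 : ℝ) ≤ (1 - s) / (k + 1) := div_nonneg (by linarith) (by positivity)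
      positivity)]
  rw [show s + ((k + 1 : ℕ) : ℝ) * ((1 - s) / (k + 1)) = 1 by
    push_cast
    field_simp
    ring]
  simp

theorem noiseM_prob (h0 : 0 ≤ s) (h1 : s ≤ 1) : IsProbabilityMeasure (noiseM k s) := by
  refine ⟨?_⟩
  simp only [noiseM, Measure.coe_add, Measure.coe_smul, Pi.add_apply, Pi.smul_apply,
    measure_univ, smul_eq_mul, mul_one, Measure.coe_finsetSum, Finset.sum_apply,
    Finset.sum_const, Finset.card_univ, Fintype.card_fin, nsmul_eq_mul]
  exact noise_sum h0 h1

theorem nsL_prob (h0 : 0 ≤ s) (h1 : s ≤ 1) : IsProbabilityMeasure (nsL V k s) := by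
  have := noiseM_prob (k := k) h0 h1
  unfold nsL
  infer_instance

theorem meas_corr : Measurable (fun x : Cfg V k × (V → Option (Fin (k + 1))) => corr x.1 x.2) := by
  refine measurable_pi_iff.2 fun v => ?_
  have h : Measurable (fun z : Fin (k + 1) × Option (Fin (k + 1)) => z.2.getD z.1) :=
    measurable_of_countable _
  have h1 : Measurable (fun x : Cfg V k × (V → Option (Fin (k + 1))) => x.1 v) :=
    (measurable_pi_apply v).comp measurable_fst
  have h2 : Measurable (fun x : Cfg V k × (V → Option (Fin (k + 1))) => x.2 v) :=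
    (measurable_pi_apply v).comp measurable_snd
  exact h.comp (h1.prodMk h2)

theorem nz_prob (h0 : 0 ≤ s) (h1 : s ≤ 1) (μ : Measure (Cfg V k)) [IsProbabilityMeasure μ] :
    IsProbabilityMeasure (nz s μ) := by
  have := nsL_prob (V := V) (k := k) h0 h1
  exact Measure.isProbabilityMeasure_map meas_corr.aemeasurable

private theorem div_mem (h0 : 0 < s) (h1 : s ≤ s') : 0 ≤ s / s' ∧ s / s' ≤ 1 :=
  ⟨div_nonneg h0.le (h0.le.trans h1), div_le_one_of_le₀ h1 (h0.le.trans h1)⟩

private theorem meas_cpl : Measurable (fun x : Cfg V k × (V → Option (Fin (k + 1))) =>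
    (x.1, corr x.1 x.2)) := measurable_fst.prodMk meas_corr

theorem cpl_prob (h0 : 0 < s) (h1 : s ≤ s') (h2 : s' ≤ 1) (μ : Measure (Cfg V k))
    [IsProbabilityMeasure μ] : IsProbabilityMeasure (cpl s s' μ) := by
  have := nsL_prob (V := V) (k := k) (div_mem h0 h1).1 (div_mem h0 h1).2
  have := nz_prob (h0.le.trans h1) h2 μ
  exact Measure.isProbabilityMeasure_map meas_cpl.aemeasurable

private theorem noiseM_lint (f : Option (Fin (k + 1)) → ENNReal) :
    ∫⁻ o, f o ∂(noiseM k s) = ENNReal.ofReal s * f none +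
      ∑ a, ENNReal.ofReal ((1 - s) / (k + 1)) * f (some a) := by
  rw [noiseM, lintegral_add_measure, lintegral_smul_measure, lintegral_finsetSum_measure]
  simp

private theorem kap_nonneg (h0 : 0 ≤ s) (h1 : s ≤ 1) (b c : Fin (k + 1)) : 0 ≤ kap k s b c := by
  unfold kap
  have : (0 : ℝ) ≤ (1 - s) / (k + 1) := div_nonneg (by linarith) (by positivity)
  split_ifs <;> nlinarith

private theorem kap_sum (b : Fin (k + 1)) : ∑ c, kap k s b c = 1 := by
  unfold kap
  rw [Finset.sum_add_distrib, ← Finset.mul_sum]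
  simp
  field_simp
  ring

private theorem kap_le (h0 : 0 ≤ s) (h1 : s ≤ 1) (b c : Fin (k + 1)) : kap k s b c ≤ 1 := by
  rw [← kap_sum (s := s) b]
  exact Finset.single_le_sum (f := fun c => kap k s b c) (fun c _ => kap_nonneg h0 h1 b c)
    (Finset.mem_univ c)

private theorem noiseM_getD (h0 : 0 ≤ s) (h1 : s ≤ 1) (f : Fin (k + 1) → ENNReal)
    (b : Fin (k + 1)) :
    ∫⁻ o, f (o.getD b) ∂(noiseM k s) = ∑ c, ENNReal.ofReal (kap k s b c) * f c := by
  rw [noiseM_lint]
  have h : (0 : ℝ) ≤ (1 - s) / (k + 1) := div_nonneg (by linarith) (by positivity)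
  simp only [kap, Option.getD_none, Option.getD_some]
  have : ∀ c, ENNReal.ofReal (s * (if b = c then 1 else 0) + (1 - s) / (k + 1)) * f c =
      (if b = c then ENNReal.ofReal s * f b else 0) + ENNReal.ofReal ((1 - s) / (k + 1)) * f c := by
    intro c
    split_ifs with hb
    · subst hb
      rw [mul_one, ENNReal.ofReal_add h0 h, add_mul]
    · simp
  simp only [this, Finset.sum_add_distrib]
  simp

/-- Product formula. -/
private theorem ns_lint_prod (h0 : 0 ≤ s) (h1 : s ≤ 1) (A : Finset V)
    (f : V → Option (Fin (k + 1)) → ENNReal) :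
    ∫⁻ N, ∏ w ∈ A, f w (N w) ∂(nsL V k s) = ∏ w ∈ A, ∫⁻ o, f w o ∂(noiseM k s) := by
  have := noiseM_prob (k := k) h0 h1
  have hf : ∀ w, Measurable (f w) := fun w => measurable_of_countable (f w)
  have h := ProbabilityTheory.lintegral_prod_eq_prod_lintegral_of_indepFun (μ := nsL V k s) A
    (fun w N => f w (N w))
    (ProbabilityTheory.iIndepFun_infinitePi (P := fun _ : V => noiseM k s) (X := f) hf)
    (fun w => (hf w).comp (measurable_pi_apply w))
  rw [h]
  refine Finset.prod_congr rfl fun w _ => ?_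
  rw [← Measure.infinitePi_map_eval (fun _ : V => noiseM k s) w,
    lintegral_map (hf w) (measurable_pi_apply w)]
  rfl

private theorem nz_lint_prod (h0 : 0 ≤ s) (h1 : s ≤ 1) (μ : Measure (Cfg V k))
    [IsProbabilityMeasure μ] (A : Finset V) (f : V → Fin (k + 1) → ENNReal) :
    ∫⁻ ω, ∏ w ∈ A, f w (ω w) ∂(nz s μ) =
      ∫⁻ ω, ∏ w ∈ A, ∑ c, ENNReal.ofReal (kap k s (ω w) c) * f w c ∂μ := by
  have := nsL_prob (V := V) (k := k) h0 h1
  have hm : Measurable (fun ω : Cfg V k => ∏ w ∈ A, f w (ω w)) :=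
    Finset.measurable_prod _ fun w _ => (measurable_of_countable (f w)).comp (measurable_pi_apply w)
  have hm2 : Measurable (fun x : Cfg V k × (V → Option (Fin (k + 1))) =>
    ∏ w ∈ A, f w (corr x.1 x.2 w)) := hm.comp meas_corr
  rw [nz, lintegral_map hm meas_corr, lintegral_prod _ hm2.aemeasurable]
  refine lintegral_congr fun ω => ?_
  have := ns_lint_prod (V := V) (k := k) h0 h1 A (fun w o => f w (o.getD (ω w)))
  simp only [corr]
  rw [this]
  exact Finset.prod_congr rfl fun w _ => noiseM_getD h0 h1 (f w) (ω w)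

private theorem meas_cyl (A : Finset V) (y : Cfg V k) :
    MeasurableSet {ω : Cfg V k | ∀ w ∈ A, ω w = y w} := by
  have : {ω : Cfg V k | ∀ w ∈ A, ω w = y w} = ⋂ w ∈ A, {ω | ω w = y w} := by
    ext ω
    simp
  rw [this]
  exact Finset.measurableSet_biInter _ fun w _ =>
    measurableSet_eq_fun (measurable_pi_apply w) measurable_const

private theorem nz_cyl' (h0 : 0 ≤ s) (h1 : s ≤ 1) (μ : Measure (Cfg V k)) [IsProbabilityMeasure μ]
    (A : Finset V) (y : Cfg V k) :
    (nz s μ) {ω | ∀ w ∈ A, ω w = y w} = ∫⁻ ω, ENNReal.ofReal (∏ w ∈ A, kap k s (ω w) (y w)) ∂μ := by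
  have h := nz_lint_prod h0 h1 μ A (fun w c => if c = y w then 1 else 0)
  have e : ∀ ω : Cfg V k, ∏ w ∈ A, (if ω w = y w then (1 : ENNReal) else 0) =
      {ω : Cfg V k | ∀ w ∈ A, ω w = y w}.indicator 1 ω := by
    intro ω
    rw [Set.indicator_apply, Finset.prod_ite_zero]
    simp
  simp only [e] at h
  rw [lintegral_indicator_one (meas_cyl A y)] at h
  rw [h]
  refine lintegral_congr fun ω => ?_
  rw [ENNReal.ofReal_prod_of_nonneg fun w _ => kap_nonneg h0 h1 _ _]
  refine Finset.prod_congr rfl fun w _ => ?_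
  simp

theorem nz_cyl (h0 : 0 ≤ s) (h1 : s ≤ 1) (μ : Measure (Cfg V k)) [IsProbabilityMeasure μ]
    (A : Finset V) (y : Cfg V k) :
    (nz s μ).real {ω | ∀ w ∈ A, ω w = y w} = ∫ ω, ∏ w ∈ A, kap k s (ω w) (y w) ∂μ := by
  rw [Measure.real, nz_cyl' h0 h1 μ A y, integral_eq_lintegral_of_nonneg_ae]
  · exact ae_of_all _ fun ω => Finset.prod_nonneg fun w _ => kap_nonneg h0 h1 _ _
  · exact (Finset.measurable_prod _ fun w _ =>
      (measurable_of_countable (fun b => kap k s b (y w))).comp
        (measurable_pi_apply w)).aestronglyMeasurable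

private theorem meas_comp (g : V → V) {X : Type} [MeasurableSpace X] :
    Measurable (fun y : V → X => y ∘ g) :=
  measurable_pi_iff.2 fun v => measurable_pi_apply (g v)

private theorem ns_perm (h0 : 0 ≤ s) (h1 : s ≤ 1) (g : V ≃ V) :
    (nsL V k s).map (fun N => N ∘ g) = nsL V k s := by
  have := noiseM_prob (k := k) h0 h1
  exact Measure.map_infinitePi_infinitePi_of_inj (P := fun _ : V => noiseM k s) g.injective

/-- `corr (y ∘ g) (N ∘ g) = corr y N ∘ g`. -/
theorem nz_inv (h0 : 0 ≤ s) (h1 : s ≤ 1) {μ : Measure (Cfg V k)} [IsProbabilityMeasure μ]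
    (hμ : Inv G μ) : Inv G (nz s μ) := by
  intro g
  have := nsL_prob (V := V) (k := k) h0 h1
  rw [nz, Measure.map_map (meas_comp _) meas_corr]
  have e : (fun y : Cfg V k => y ∘ g) ∘ (fun x : Cfg V k × (V → Option (Fin (k + 1))) =>
      corr x.1 x.2) = (fun x => corr x.1 x.2) ∘
        (Prod.map (fun y : Cfg V k => y ∘ g) (fun N : V → Option (Fin (k + 1)) => N ∘ g)) := rfl
  rw [e, ← Measure.map_map meas_corr ((meas_comp g).prodMap (meas_comp g)),
    ← Measure.map_prod_map _ _ (meas_comp g) (meas_comp g), hμ g]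
  have := ns_perm (V := V) (k := k) h0 h1 g.toEquiv
  erw [this]

theorem cpl_fst (h0 : 0 < s) (h1 : s ≤ s') (h2 : s' ≤ 1) (μ : Measure (Cfg V k))
    [IsProbabilityMeasure μ] : (cpl s s' μ).map Prod.fst = nz s' μ := by
  have := nsL_prob (V := V) (k := k) (div_mem h0 h1).1 (div_mem h0 h1).2
  have := nz_prob (h0.le.trans h1) h2 μ
  rw [cpl, Measure.map_map measurable_fst meas_cpl]
  exact (Measure.map_fst_prod).trans (by simp)

/-- `∑_b kap s' σ b * kap (s / s') b c = kap s σ c`; `nz_cyl`, `cyl_ext`. -/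
theorem cpl_snd (h0 : 0 < s) (h1 : s ≤ s') (h2 : s' ≤ 1) (μ : Measure (Cfg V k))
    [IsProbabilityMeasure μ] : (cpl s s' μ).map Prod.snd = nz s μ := by
  have hs' : 0 < s' := h0.trans_le h1
  obtain ⟨r0, r1⟩ := div_mem h0 h1
  have := nsL_prob (V := V) (k := k) r0 r1
  have := nz_prob (h0.le.trans h1) h2 μ
  have := nz_prob h0.le (h1.trans h2) μ
  have e : (cpl s s' μ).map Prod.snd = nz (s / s') (nz s' μ) := by
    rw [cpl, Measure.map_map measurable_snd meas_cpl]
    rfl
  rw [e]
  have := nz_prob r0 r1 (nz s' μ)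
  refine cyl_ext fun A y => ?_
  rw [Measure.real, Measure.real]
  congr 1
  rw [nz_cyl' r0 r1, nz_cyl' h0.le (h1.trans h2)]
  have h := nz_lint_prod hs'.le h2 μ A (fun w c => ENNReal.ofReal (kap k (s / s') c (y w)))
  simp only [ENNReal.ofReal_prod_of_nonneg fun w _ => kap_nonneg r0 r1 _ _,
    ENNReal.ofReal_prod_of_nonneg fun w _ => kap_nonneg h0.le (h1.trans h2) _ _]
  rw [h]
  refine lintegral_congr fun ω => Finset.prod_congr rfl fun w _ => ?_
  simp only [← ENNReal.ofReal_mul (kap_nonneg hs'.le h2 _ _)]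
  rw [← ENNReal.ofReal_sum_of_nonneg fun c _ =>
    mul_nonneg (kap_nonneg hs'.le h2 _ _) (kap_nonneg r0 r1 _ _)]
  congr 1
  have e2 : ∀ c, kap k s' (ω w) c * kap k (s / s') c (y w) =
      (if c = y w then kap k s' (ω w) c * (s / s') else 0) +
        kap k s' (ω w) c * ((1 - s / s') / (k + 1)) := by
    intro c
    simp only [kap]
    split_ifs <;> ring
  simp only [e2, Finset.sum_add_distrib, ← Finset.sum_mul, kap_sum]
  simp only [Finset.sum_ite_eq', Finset.mem_univ, if_true]
  simp only [kap]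
  field_simp
  split_ifs <;> ring

theorem cpl_inv (h0 : 0 < s) (h1 : s ≤ s') (h2 : s' ≤ 1) {μ : Measure (Cfg V k)}
    [IsProbabilityMeasure μ] (hμ : Inv G μ) (g : G ≃g G) :
    (cpl s s' μ).map (fun x => (x.1 ∘ g, x.2 ∘ g)) = cpl s s' μ := by
  obtain ⟨r0, r1⟩ := div_mem h0 h1
  have := nsL_prob (V := V) (k := k) r0 r1
  have := nz_prob (h0.le.trans h1) h2 μ
  have hm1 : Measurable (fun x : Cfg V k × Cfg V k => (x.1 ∘ g, x.2 ∘ g)) :=
    (meas_comp g).prodMap (meas_comp g)
  rw [cpl, Measure.map_map hm1 meas_cpl]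
  have e : (fun x : Cfg V k × Cfg V k => (x.1 ∘ g, x.2 ∘ g)) ∘
      (fun x : Cfg V k × (V → Option (Fin (k + 1))) => (x.1, corr x.1 x.2)) =
      (fun x => (x.1, corr x.1 x.2)) ∘
        (Prod.map (fun y : Cfg V k => y ∘ g) (fun N : V → Option (Fin (k + 1)) => N ∘ g)) := rfl
  rw [e, ← Measure.map_map meas_cpl ((meas_comp g).prodMap (meas_comp g)),
    ← Measure.map_prod_map _ _ (meas_comp g) (meas_comp g), nz_inv (h0.le.trans h1) h2 hμ g]
  have := ns_perm (V := V) (k := k) r0 r1 g.toEquiv
  erw [this]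

private theorem ns_eval (h0 : 0 ≤ s) (h1 : s ≤ 1) (v : V) :
    (nsL V k s).map (fun N => N v) = noiseM k s := by
  have := noiseM_prob (k := k) h0 h1
  exact Measure.infinitePi_map_eval (fun _ : V => noiseM k s) v

theorem cpl_dis (h0 : 0 < s) (h1 : s ≤ s') (h2 : s' ≤ 1) (μ : Measure (Cfg V k))
    [IsProbabilityMeasure μ] (v : V) :
    (cpl s s' μ) {x | x.1 v ≠ x.2 v} ≤ ENNReal.ofReal (1 - s / s') := by
  obtain ⟨r0, r1⟩ := div_mem h0 h1
  have := nsL_prob (V := V) (k := k) r0 r1
  have := nz_prob (h0.le.trans h1) h2 μ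
  have hm : MeasurableSet {x : Cfg V k × Cfg V k | x.1 v ≠ x.2 v} :=
    (measurableSet_eq_fun ((measurable_pi_apply v).comp measurable_fst)
      ((measurable_pi_apply v).comp measurable_snd)).compl
  rw [cpl, Measure.map_apply meas_cpl hm]
  calc ((nz s' μ).prod (nsL V k (s / s')))
        ((fun x : Cfg V k × (V → Option (Fin (k + 1))) => (x.1, corr x.1 x.2)) ⁻¹'
          {x | x.1 v ≠ x.2 v})
      ≤ ((nz s' μ).prod (nsL V k (s / s'))) (univ ×ˢ {N | N v ≠ none}) := by
        refine measure_mono fun x hx => ⟨mem_univ _, ?_⟩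
        intro h
        apply hx
        simp [corr, h]
    _ = (nsL V k (s / s')) {N | N v ≠ none} := by
        rw [Measure.prod_prod]
        simp
    _ = (noiseM k (s / s')) {o | o ≠ none} := by
        rw [← ns_eval r0 r1 v, Measure.map_apply (measurable_pi_apply v)
          (MeasurableSpace.measurableSet_top)]
        rfl
    _ = ENNReal.ofReal (1 - s / s') := by
        have e : ∀ o : Option (Fin (k + 1)), ({o | o ≠ none} : Set (Option (Fin (k + 1)))).indicator
          (1 : Option (Fin (k + 1)) → ENNReal) o = if o = none then 0 else 1 := by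
          intro o
          cases o <;> simp
        rw [← lintegral_indicator_one (μ := noiseM k (s / s')) MeasurableSpace.measurableSet_top]
        simp only [e]
        rw [noiseM_lint]
        simp only [if_true, mul_zero, zero_add, reduceCtorEq, if_false, mul_one, Finset.sum_const,
          Finset.card_univ, Fintype.card_fin, nsmul_eq_mul]
        rw [← ENNReal.ofReal_natCast, ← ENNReal.ofReal_mul (by positivity)]
        congr 1
        push_cast
        field_simp

theorem nz_tendsto (μ : Measure (Cfg V k)) [IsProbabilityMeasure μ] (A : Finset V) (y : Cfg V k)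
    {r : ℕ → ℝ} (hr : ∀ j, 0 < r j ∧ r j < 1) (h : Tendsto r atTop (𝓝 1)) :
    Tendsto (fun j => (nz (r j) μ).real {ω | ∀ w ∈ A, ω w = y w}) atTop
      (𝓝 (μ.real {ω | ∀ w ∈ A, ω w = y w})) := by
  have e : μ.real {ω | ∀ w ∈ A, ω w = y w} = ∫ ω, ∏ w ∈ A, kap k 1 (ω w) (y w) ∂μ := by
    rw [← integral_indicator_one (meas_cyl A y)]
    refine integral_congr_ae (ae_of_all _ fun ω => ?_)
    simp only [kap, Set.indicator_apply, Pi.one_apply, mem_ofPred_eq]
    simp only [one_mul, sub_self, zero_div, add_zero]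
    rw [Finset.prod_ite_zero]
    simp
  rw [e]
  simp only [nz_cyl (hr _).1.le (hr _).2.le]
  refine tendsto_integral_of_dominated_convergence (fun _ => 1) ?_ (integrable_const _) ?_ ?_
  · exact fun j => (Finset.measurable_prod _ fun w _ =>
      (measurable_of_countable (fun b => kap k (r j) b (y w))).comp
        (measurable_pi_apply w)).aestronglyMeasurable
  · refine fun j => ae_of_all _ fun ω => ?_
    rw [Real.norm_of_nonneg (Finset.prod_nonneg fun w _ => kap_nonneg (hr j).1.le (hr j).2.le _ _)]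
    exact Finset.prod_le_one (fun w _ => kap_nonneg (hr j).1.le (hr j).2.le _ _)
      fun w _ => kap_le (hr j).1.le (hr j).2.le _ _
  · refine ae_of_all _ fun ω => tendsto_finsetProd _ fun w _ => ?_
    have hc : Continuous (fun s : ℝ => kap k s (ω w) (y w)) := by
      unfold kap
      fun_prop
    exact (hc.tendsto 1).comp h

open Classical in
private theorem ns_upd (h0 : 0 ≤ s) (h1 : s ≤ 1) (v : V) :
    ((nsL V k s).prod (noiseM k s)).map (fun x => Function.update x.1 v x.2) = nsL V k s := by
  have := noiseM_prob (k := k) h0 h1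
  have := nsL_prob (V := V) (k := k) h0 h1
  have hm : Measurable (fun x : (V → Option (Fin (k + 1))) × Option (Fin (k + 1)) =>
      Function.update x.1 v x.2) := by
    refine measurable_pi_iff.2 fun w => ?_
    by_cases hw : w = v
    · subst hw
      simpa using measurable_snd
    · simp only [Function.update_of_ne hw]
      exact (measurable_pi_apply w).comp measurable_fst
  refine Measure.eq_infinitePi _ fun t u hu => ?_
  rw [Measure.map_apply hm (MeasurableSet.pi t.countable_toSet fun i _ => hu i)]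
  by_cases hv : v ∈ t
  · have e : (fun x : (V → Option (Fin (k + 1))) × Option (Fin (k + 1)) =>
        Function.update x.1 v x.2) ⁻¹' (Set.pi t u) =
        (Set.pi (t.erase v : Finset V) u) ×ˢ (u v) := by
      ext x
      simp only [Set.mem_preimage, Set.mem_pi, Set.mem_prod, Finset.mem_coe, Finset.mem_erase]
      constructor
      · intro h
        refine ⟨fun i hi => ?_, ?_⟩
        · have := h i hi.2
          rwa [Function.update_of_ne hi.1] at this
        · have := h v hv
          rwa [Function.update_self] at this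
      · rintro ⟨h, h'⟩ i hi
        by_cases hiv : i = v
        · subst hiv
          rwa [Function.update_self]
        · rw [Function.update_of_ne hiv]
          exact h i ⟨hiv, hi⟩
    rw [e, Measure.prod_prod, nsL, Measure.infinitePi_pi _ (fun i _ => hu i),
      Finset.prod_erase_mul t (fun i => noiseM k s (u i)) hv]
  · have e : (fun x : (V → Option (Fin (k + 1))) × Option (Fin (k + 1)) =>
        Function.update x.1 v x.2) ⁻¹' (Set.pi t u) = (Set.pi t u) ×ˢ univ := by
      ext x
      simp only [Set.mem_preimage, Set.mem_pi, Set.mem_prod, Finset.mem_coe, Set.mem_univ, and_true]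
      refine forall₂_congr fun i hi => ?_
      have hiv : i ≠ v := fun h => hv (h ▸ hi)
      rw [Function.update_of_ne hiv]
    rw [e, Measure.prod_prod, nsL, Measure.infinitePi_pi _ (fun i _ => hu i), measure_univ, mul_one]

/-- The noise at `v ∉ A` is independent of the noise on `A`. -/
theorem ns_indep (h0 : 0 ≤ s) (h1 : s ≤ 1) (A : Set V) (v : V) (hv : v ∉ A)
    {F : (V → Option (Fin (k + 1))) → ENNReal} (hF : Measurable F)
    (hFA : ∀ N N', (∀ w ∈ A, N w = N' w) → F N = F N')
    (g : Option (Fin (k + 1)) → ENNReal) :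
    ∫⁻ N, F N * g (N v) ∂(nsL V k s) = (∫⁻ N, F N ∂(nsL V k s)) *
      (ENNReal.ofReal s * g none + ∑ a, ENNReal.ofReal ((1 - s) / (k + 1)) * g (some a)) := by
  classical
  have := noiseM_prob (k := k) h0 h1
  have := nsL_prob (V := V) (k := k) h0 h1
  have hg : Measurable g := measurable_of_countable g
  have hm : Measurable (fun x : (V → Option (Fin (k + 1))) × Option (Fin (k + 1)) =>
      Function.update x.1 v x.2) := by
    refine measurable_pi_iff.2 fun w => ?_
    by_cases hw : w = v
    · subst hw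
      simpa using measurable_snd
    · simp only [Function.update_of_ne hw]
      exact (measurable_pi_apply w).comp measurable_fst
  have hFg : Measurable (fun N : V → Option (Fin (k + 1)) => F N * g (N v)) :=
    hF.mul (hg.comp (measurable_pi_apply v))
  conv_lhs => rw [← ns_upd h0 h1 v]
  rw [lintegral_map hFg hm]
  have e : ∀ x : (V → Option (Fin (k + 1))) × Option (Fin (k + 1)),
      F (Function.update x.1 v x.2) * g (Function.update x.1 v x.2 v) = F x.1 * g x.2 := by
    intro x
    rw [Function.update_self, hFA (Function.update x.1 v x.2) x.1]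
    intro w hw
    have hwv : w ≠ v := fun h => hv (h ▸ hw)
    exact Function.update_of_ne hwv _ _
  simp only [e]
  rw [lintegral_prod_mul hF.aemeasurable hg.aemeasurable, noiseM_lint]

end Pool.Agent.FD82
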