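import Pool.Agent.Lib.FD82.A2_QBound
import Pool.Agent.Lib.FD82.A3_QCol
import Pool.Agent.Lib.FD82.A4_Local
import Pool.Agent.Lib.FD82.A5_Uz
import Pool.Agent.Lib.FD82.A6_Taylor
import Pool.Agent.Lib.FD82.D1_Noise

/-! # A7_Ker: existence of the kernel of the noisy process

`x = 1 + (k+1) s / (1-s) ≥ 1`, `u₀ ∈ [0,1)` with `uz α u₀ = x`. For `A ⊆ V`, `Bl n v A` = the finite set
`(A \ {v}) ∩ ball(v, m n)`,
`q n v A y a = s * Re (TT n u₀ (fun u => QQ μ (Bl n v A) y v a (uz α u))) + (1 - s) / (k + 1)`, `R n = m * n`.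
* (L) for finite `A ∌ v`: `TT n u₀ (QQ μ A y v a ∘ uz) = TT n u₀ (QQ μ (A ∩ ball(v, m n)) y v a ∘ uz)` (`locality`, `TT_zero`,
  `uz_sub_one`, `ZZ_ne`).
* (E) `|s * Re QQ μ A y v a x + (1-s)/(k+1) - q n v A y a| ≤ (1 / sin α) u₀^(n+1) / (1 - u₀)` for finite `A ∌ v`
  (`TT_err`, `QQ_bound`). So `q n v A y a` is uniformly Cauchy for every `A`; `p v A y a = lim`.
* `col`: choose signs `ε`, the finite set `A* = ⋃_{v ∈ T} Bl n v A`, `(L)`, `TT_sum`, and `TT_err` for the
  function `u ↦ ∑ ε (QQ μ A* y v a (uz α u) - QQ μ A* y' v a (uz α u))`, bounded by `4 π / α` (`QQ_col`).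
* `nonneg`, `sum`: `QQ_real`, `QQ_sum` for finite `A`, then limits.
* `equiv`: `QQ μ (A.map g) y (g v) a z = QQ μ A (y ∘ g) v a z` by `Inv G μ`, `Geo.dist`.
* `Cond`: `nz_cyl`: `kap k s b c = ((1-s)/(k+1)) * (if b = c then x else 1)`, so
  `P(Y = y on A) = ((1-s)/(k+1))^|A| Z_A(x)` and `P(Y = y on A, Y_v = a) = ((1-s)/(k+1))^(|A|+1) (Z_A + (x-1) M_A)`. -/

set_option autoImplicit false

open MeasureTheory Set Filter Topology

namespace Pool.Agent.FD82

variable {V : Type} {k : ℕ} {μ : Measure (Cfg V k)} [IsProbabilityMeasure μ] {α : ℝ}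

namespace KerAux

open Classical in
/-- The finite set `(A \ {v}) ∩ ball(v, N)`. -/
noncomputable def Bl {G : SimpleGraph V} (hG : Geo G) (N : ℕ) (v : V) (A : Set V) : Finset V :=
  ((hG.ball v N).toFinset).filter (fun w => w ∈ A ∧ w ≠ v)

theorem mem_Bl {G : SimpleGraph V} {hG : Geo G} {N : ℕ} {v w : V} {A : Set V} :
    w ∈ Bl hG N v A ↔ G.dist v w ≤ N ∧ w ∈ A ∧ w ≠ v := by
  classical
  simp [Bl]

theorem not_mem_Bl {G : SimpleGraph V} {hG : Geo G} {N : ℕ} {v : V} {A : Set V} :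
    v ∉ Bl hG N v A := by
  rw [mem_Bl]
  tauto

theorem wt_congr {A : Finset V} {y y' : Cfg V k} (h : ∀ w ∈ A, y w = y' w) (ω : Cfg V k) (z : ℂ) :
    wt A y ω z = wt A y' ω z := Finset.prod_congr rfl (fun w hw => by rw [h w hw])

omit [IsProbabilityMeasure μ] in
theorem QQ_congr {A : Finset V} {y y' : Cfg V k} (h : ∀ w ∈ A, y w = y' w) (v : V)
    (a : Fin (k + 1)) (z : ℂ) : QQ μ A y v a z = QQ μ A y' v a z := by
  unfold QQ MM ZZ
  simp only [wt_congr h]

theorem meas_coord (w : V) (c : Fin (k + 1)) : MeasurableSet {ω : Cfg V k | ω w = c} :=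
  measurableSet_eq_fun (measurable_pi_apply w) measurable_const

theorem meas_wt (A : Finset V) (y : Cfg V k) (z : ℂ) :
    Measurable (fun ω : Cfg V k => wt A y ω z) := by
  unfold wt
  refine Finset.measurable_fun_prod _ (fun w _ => ?_)
  exact Measurable.ite (meas_coord w (y w)) measurable_const measurable_const

omit [IsProbabilityMeasure μ] in
theorem int_inv {G : SimpleGraph V} (hinv : Inv G μ) (g : G ≃g G) {F : Cfg V k → ℂ}
    (hF : Measurable F) : ∫ ω, F (ω ∘ g) ∂μ = ∫ ω, F ω ∂μ := by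
  have hm : Measurable (fun y : Cfg V k => y ∘ g) :=
    measurable_pi_lambda _ (fun w => measurable_pi_apply (g w))
  have h := integral_map (μ := μ) (φ := fun y : Cfg V k => y ∘ g) (f := F) hm.aemeasurable
    hF.aestronglyMeasurable
  rw [hinv g] at h
  exact h.symm

theorem wt_map {G : SimpleGraph V} (g : G ≃g G) (B : Finset V) (y ω : Cfg V k) (z : ℂ) :
    wt (B.map g.toEquiv.toEmbedding) y ω z = wt B (y ∘ g) (ω ∘ g) z := by
  unfold wt
  rw [Finset.prod_map]
  rfl

omit [IsProbabilityMeasure μ] in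
theorem QQ_map {G : SimpleGraph V} (hinv : Inv G μ) (g : G ≃g G) (B : Finset V) (y : Cfg V k)
    (v : V) (a : Fin (k + 1)) (z : ℂ) :
    QQ μ (B.map g.toEquiv.toEmbedding) y (g v) a z = QQ μ B (y ∘ g) v a z := by
  have h1 : ZZ μ (B.map g.toEquiv.toEmbedding) y z = ZZ μ B (y ∘ g) z := by
    unfold ZZ
    simp only [wt_map]
    exact int_inv hinv g (F := fun ω => wt B (y ∘ g) ω z) (meas_wt _ _ _)
  have h2 : MM μ (B.map g.toEquiv.toEmbedding) y (g v) a z = MM μ B (y ∘ g) v a z := by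
    unfold MM
    simp only [wt_map]
    refine int_inv hinv g (F := fun ω => (if ω v = a then 1 else 0) * wt B (y ∘ g) ω z) ?_
    exact (Measurable.ite (meas_coord v a) measurable_const measurable_const).mul (meas_wt _ _ _)
  unfold QQ
  rw [h1, h2]

theorem Bl_map {G : SimpleGraph V} (hG : Geo G) (g : G ≃g G) (N : ℕ) (v : V) (A : Set V) :
    Bl hG N (g v) A = (Bl hG N v (g ⁻¹' A)).map g.toEquiv.toEmbedding := by
  ext w
  rw [Finset.mem_map]
  constructor
  · intro hw
    refine ⟨g.symm w, ?_, ?_⟩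
    · rw [mem_Bl] at hw ⊢
      obtain ⟨h1, h2, h3⟩ := hw
      refine ⟨?_, ?_, ?_⟩
      · have := hG.dist g v (g.symm w)
        rw [RelIso.apply_symm_apply] at this
        rwa [← this]
      · show g (g.symm w) ∈ A
        rwa [RelIso.apply_symm_apply]
      · rintro h
        apply h3
        rw [← h, RelIso.apply_symm_apply]
    · exact g.apply_symm_apply w
  · rintro ⟨u, hu, rfl⟩
    rw [mem_Bl] at hu ⊢
    obtain ⟨h1, h2, h3⟩ := hu
    refine ⟨?_, h2, ?_⟩
    · show G.dist (g v) (g u) ≤ N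
      rwa [hG.dist g]
    · intro h
      exact h3 (g.injective h)

/-! ### The functions on the disc -/

variable {G : SimpleGraph V} {m : ℕ}

/-- The posterior as a function on the disc. -/
noncomputable def fd (μ : Measure (Cfg V k)) (α : ℝ) (A : Finset V) (y : Cfg V k) (v : V)
    (a : Fin (k + 1)) : ℂ → ℂ := fun t => QQ μ A y v a (uz α t)

theorem fd_diff (hα : 0 < α) (hα2 : α ≤ Real.pi / 2) (hst : Stable α μ) (A : Finset V)
    (y : Cfg V k) (v : V) (a : Fin (k + 1)) :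
    DifferentiableOn ℂ (fd μ α A y v a) (Metric.ball 0 1) := by
  unfold fd QQ
  refine DifferentiableOn.div ?_ ?_ ?_
  · exact (MM_diff A y v a).comp_differentiableOn uz_diff
  · exact (ZZ_diff A y).comp_differentiableOn uz_diff
  · intro t ht
    exact ZZ_ne hα hst A y (uz_mem hα hα2 (by simpa using ht))

theorem fd_le (hα : 0 < α) (hα2 : α ≤ Real.pi / 2) (hst : Stable α μ) (A : Finset V)
    (y : Cfg V k) (v : V) (hv : v ∉ A) (a : Fin (k + 1)) :
    ∀ t ∈ Metric.ball (0 : ℂ) 1, ‖fd μ α A y v a t‖ ≤ 1 / Real.sin α := by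
  intro t ht
  exact QQ_bound hα hα2 hst A y v hv a (uz_mem hα hα2 (by simpa using ht))

theorem TT_sub (n : ℕ) (u : ℂ) {f g : ℂ → ℂ} (hf : DifferentiableOn ℂ f (Metric.ball 0 1))
    (hg : DifferentiableOn ℂ g (Metric.ball 0 1)) :
    TT n u (fun x => f x - g x) = TT n u f - TT n u g := by
  have h := TT_sum n u (Finset.univ : Finset Bool) (fun b => if b then 1 else -1)
    (fun b => if b then f else g) (by
      intro b _
      cases b
      · simpa using hg
      · simpa using hf)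
  simp only [Fintype.sum_bool, if_true, Bool.false_eq_true, if_false] at h
  have e1 : (fun x => f x - g x) = fun x => 1 * f x + -1 * g x := by
    funext x
    ring
  rw [e1, h]
  ring

theorem fd_local (hG : Geo G) (hdep : MDep G m μ) (hα : 0 < α) (hα2 : α ≤ Real.pi / 2)
    (hst : Stable α μ) (A : Finset V) (y : Cfg V k) (v : V) (hv : v ∉ A) (a : Fin (k + 1)) (n : ℕ)
    (u : ℂ) :
    TT n u (fd μ α A y v a) = TT n u (fd μ α (Bl hG (m * n) v (A : Set V)) y v a) := by
  classical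
  obtain ⟨P, hP⟩ := locality hG.conn hdep A y v hv a n
  obtain ⟨g, hg, hgu⟩ := uz_sub_one (α := α)
  have e : (A.filter (fun w => G.dist v w ≤ m * n)) = Bl hG (m * n) v (A : Set V) := by
    ext w
    rw [mem_Bl, Finset.mem_filter]
    constructor
    · rintro ⟨h1, h2⟩
      refine ⟨h2, h1, ?_⟩
      rintro rfl
      exact hv h1
    · rintro ⟨h1, h2, -⟩
      exact ⟨h2, h1⟩
  have hP' : ∀ z : ℂ,
      MM μ A y v a z * ZZ μ (Bl hG (m * n) v (A : Set V)) y z -
        MM μ (Bl hG (m * n) v (A : Set V)) y v a z * ZZ μ A y z =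
      (z - 1) ^ (n + 1) * P.eval z := by
    intro z
    have := hP z
    rw [← e]
    convert this using 3
  set A' := Bl hG (m * n) v (A : Set V) with hA'
  rw [← sub_eq_zero, ← TT_sub n u (fd_diff hα hα2 hst A y v a) (fd_diff hα hα2 hst A' y v a)]
  refine TT_zero n u (g := fun t => (g t) ^ (n + 1) * P.eval (uz α t) /
    (ZZ μ A y (uz α t) * ZZ μ A' y (uz α t))) ?_ ?_
  · refine DifferentiableOn.div ?_ ?_ ?_
    · exact (hg.pow _).mul (P.differentiable.comp_differentiableOn uz_diff)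
    · exact ((ZZ_diff A y).comp_differentiableOn uz_diff).mul
        ((ZZ_diff A' y).comp_differentiableOn uz_diff)
    · intro t ht
      have hs := uz_mem hα hα2 (u := t) (by simpa using ht)
      exact mul_ne_zero (ZZ_ne hα hst A y hs) (ZZ_ne hα hst A' y hs)
  · intro t ht
    have hs := uz_mem hα hα2 (u := t) (by simpa using ht)
    have z1 := ZZ_ne hα hst A y hs
    have z2 := ZZ_ne hα hst A' y hs
    have h3 := hP' (uz α t)
    rw [hgu t ht] at h3
    unfold fd QQ
    rw [div_sub_div _ _ z1 z2]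
    rw [mul_comm (ZZ μ A y (uz α t)) (MM μ A' y v a (uz α t)), h3]
    ring

/-! ### Exact values and approximations -/

/-- The exact value. -/
noncomputable def ff (μ : Measure (Cfg V k)) (s x : ℝ) (A : Finset V) (y : Cfg V k) (v : V)
    (a : Fin (k + 1)) : ℝ := s * (QQ μ A y v a (x : ℂ)).re + (1 - s) / (k + 1)

/-- The approximation. -/
noncomputable def qq (μ : Measure (Cfg V k)) (α s u : ℝ) (n : ℕ) (A : Finset V) (y : Cfg V k)
    (v : V) (a : Fin (k + 1)) : ℝ := s * (TT n (u : ℂ) (fd μ α A y v a)).re + (1 - s) / (k + 1)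

/-- The error. -/
noncomputable def dl (α u : ℝ) (n : ℕ) : ℝ :=
  (1 / Real.sin α + 4 * Real.pi / α) * (u ^ (n + 1) / (1 - u))

theorem sin_pos' (hα : 0 < α) (hα2 : α ≤ Real.pi / 2) : 0 < Real.sin α :=
  Real.sin_pos_of_pos_of_lt_pi hα (by linarith [Real.pi_pos])

theorem err_le {u : ℝ} (h0 : 0 ≤ u) (h1 : u < 1) (n : ℕ) {f : ℂ → ℂ}
    (hf : DifferentiableOn ℂ f (Metric.ball 0 1)) {B : ℝ}
    (hB : ∀ x ∈ Metric.ball (0 : ℂ) 1, ‖f x‖ ≤ B) :
    ‖f u - TT n (u : ℂ) f‖ ≤ B * (u ^ (n + 1) / (1 - u)) := by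
  have hu : ‖(u : ℂ)‖ = u := by
    rw [Complex.norm_real, Real.norm_eq_abs, abs_of_nonneg h0]
  have h := TT_err n hf hB (u := (u : ℂ)) (by rw [hu]; exact h1)
  rw [hu, mul_div_assoc] at h
  exact h

theorem exact_err (hG : Geo G) (hdep : MDep G m μ) (hα : 0 < α) (hα2 : α ≤ Real.pi / 2)
    (hst : Stable α μ) {s u x : ℝ} (hs : 0 < s) (hs1 : s < 1) (h0 : 0 ≤ u) (h1 : u < 1)
    (hx : uz α (u : ℂ) = (x : ℂ)) (A : Finset V) (y : Cfg V k) (v : V) (hv : v ∉ A)
    (a : Fin (k + 1)) (n : ℕ) :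
    |ff μ s x A y v a - qq μ α s u n (Bl hG (m * n) v (A : Set V)) y v a| ≤ dl α u n := by
  have e1 : ff μ s x A y v a - qq μ α s u n (Bl hG (m * n) v (A : Set V)) y v a =
      s * (fd μ α A y v a u - TT n (u : ℂ) (fd μ α A y v a)).re := by
    unfold ff qq
    rw [← fd_local hG hdep hα hα2 hst A y v hv a n (u : ℂ), Complex.sub_re]
    have : fd μ α A y v a u = QQ μ A y v a (x : ℂ) := by
      unfold fd
      rw [hx]
    rw [this]
    ring
  rw [e1, abs_mul, abs_of_pos hs]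
  have h2 := err_le h0 h1 n (fd_diff hα hα2 hst A y v a) (fd_le hα hα2 hst A y v hv a)
  have h3 := Complex.abs_re_le_norm (fd μ α A y v a u - TT n (u : ℂ) (fd μ α A y v a))
  have h4 : 0 ≤ u ^ (n + 1) / (1 - u) := div_nonneg (pow_nonneg h0 _) (by linarith)
  have h5 : (1 / Real.sin α) * (u ^ (n + 1) / (1 - u)) ≤ dl α u n := by
    unfold dl
    refine mul_le_mul_of_nonneg_right ?_ h4
    have : 0 ≤ 4 * Real.pi / α := by positivity
    linarith
  calc s * |(fd μ α A y v a u - TT n (u : ℂ) (fd μ α A y v a)).re|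
      ≤ 1 * |(fd μ α A y v a u - TT n (u : ℂ) (fd μ α A y v a)).re| :=
        mul_le_mul_of_nonneg_right hs1.le (abs_nonneg _)
    _ ≤ dl α u n := by rw [one_mul]; exact h3.trans (h2.trans h5)

theorem Bl_Bl (hG : Geo G) {N M : ℕ} (h : N ≤ M) (v : V) (A : Set V) :
    Bl hG N v (Bl hG M v A : Set V) = Bl hG N v A := by
  ext w
  rw [mem_Bl, mem_Bl, Finset.mem_coe, mem_Bl]
  constructor
  · rintro ⟨h1, ⟨-, h3, -⟩, h5⟩
    exact ⟨h1, h3, h5⟩
  · rintro ⟨h1, h2, h3⟩
    exact ⟨h1, ⟨h1.trans h, h2, h3⟩, h3⟩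

theorem dl_tendsto {u : ℝ} (h0 : 0 ≤ u) (h1 : u < 1) : Tendsto (dl α u) atTop (𝓝 0) := by
  have h := ((tendsto_pow_atTop_nhds_zero_of_lt_one h0 h1).comp (tendsto_add_atTop_nat 1))
  have h2 := (h.div_const (1 - u)).const_mul (1 / Real.sin α + 4 * Real.pi / α)
  rw [zero_div, mul_zero] at h2
  exact h2

theorem seq_err (hG : Geo G) (hdep : MDep G m μ) (hα : 0 < α) (hα2 : α ≤ Real.pi / 2)
    (hst : Stable α μ) {s u x : ℝ} (hs : 0 < s) (hs1 : s < 1) (h0 : 0 ≤ u) (h1 : u < 1)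
    (hx : uz α (u : ℂ) = (x : ℂ)) (A : Set V) (y : Cfg V k) (v : V)
    (a : Fin (k + 1)) {n N : ℕ} (hn : n ≤ N) :
    |ff μ s x (Bl hG (m * N) v A) y v a - qq μ α s u n (Bl hG (m * n) v A) y v a| ≤ dl α u n := by
  have h := exact_err hG hdep hα hα2 hst hs hs1 h0 h1 hx (Bl hG (m * N) v A) y v not_mem_Bl a n
  rwa [Bl_Bl hG (Nat.mul_le_mul_left m hn)] at h

theorem exists_lim (hG : Geo G) (hdep : MDep G m μ) (hα : 0 < α) (hα2 : α ≤ Real.pi / 2)
    (hst : Stable α μ) {s u x : ℝ} (hs : 0 < s) (hs1 : s < 1) (h0 : 0 ≤ u) (h1 : u < 1)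
    (hx : uz α (u : ℂ) = (x : ℂ)) (v : V) (A : Set V) (y : Cfg V k) (a : Fin (k + 1)) :
    ∃ L, Tendsto (fun N => ff μ s x (Bl hG (m * N) v A) y v a) atTop (𝓝 L) := by
  refine cauchySeq_tendsto_of_complete ?_
  refine cauchySeq_of_le_tendsto_0' (fun n => 2 * dl α u n) ?_ ?_
  · intro n N hn
    have a1 := seq_err hG hdep hα hα2 hst hs hs1 h0 h1 hx A y v a (le_refl n)
    have a2 := seq_err hG hdep hα hα2 hst hs hs1 h0 h1 hx A y v a hn
    rw [Real.dist_eq]
    rw [abs_sub_comm] at a2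
    have a3 := abs_sub_le (ff μ s x (Bl hG (m * n) v A) y v a)
      (qq μ α s u n (Bl hG (m * n) v A) y v a) (ff μ s x (Bl hG (m * N) v A) y v a)
    linarith
  · have := (dl_tendsto (α := α) h0 h1).const_mul 2
    rwa [mul_zero] at this

/-! ### The column bound -/

theorem col_bound (hG : Geo G) (hdep : MDep G m μ) (hα : 0 < α) (hα2 : α ≤ Real.pi / 2)
    (hst : Stable α μ) {s u : ℝ} (hs : 0 < s) (hs1 : s < 1) (h0 : 0 ≤ u) (h1 : u < 1)
    (n : ℕ) (A : Set V) (w : V) (y y' : Cfg V k) (hyy : ∀ u, u ≠ w → y u = y' u)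
    (T : Finset V) (hT : ∀ v ∈ T, v ∉ A) :
    ∑ v ∈ T, ∑ a, |qq μ α s u n (Bl hG (m * n) v A) y v a -
      qq μ α s u n (Bl hG (m * n) v A) y' v a| ≤ 4 * Real.pi / α + dl α u n := by
  classical
  set As : Finset V := T.biUnion (fun v => Bl hG (m * n) v A) with hAs
  have hsub : ∀ w ∈ As, w ∈ A := by
    intro w hw
    rw [hAs, Finset.mem_biUnion] at hw
    obtain ⟨v, -, hv⟩ := hw
    exact (mem_Bl.1 hv).2.1
  have hTA : ∀ v ∈ T, v ∉ As := fun v hv h => hT v hv (hsub v h)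
  have hBl : ∀ v ∈ T, Bl hG (m * n) v (As : Set V) = Bl hG (m * n) v A := by
    intro v hv
    ext w
    rw [mem_Bl, mem_Bl, Finset.mem_coe]
    constructor
    · rintro ⟨a1, a2, a3⟩
      exact ⟨a1, hsub w a2, a3⟩
    · rintro ⟨a1, a2, a3⟩
      refine ⟨a1, ?_, a3⟩
      rw [hAs, Finset.mem_biUnion]
      exact ⟨v, hv, mem_Bl.2 ⟨a1, a2, a3⟩⟩
  have hq : ∀ v ∈ T, ∀ (z : Cfg V k) a, TT n (u : ℂ) (fd μ α (Bl hG (m * n) v A) z v a) =
      TT n (u : ℂ) (fd μ α As z v a) := by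
    intro v hv z a
    rw [fd_local hG hdep hα hα2 hst As z v (hTA v hv) a n (u : ℂ), hBl v hv]
  set D : V → Fin (k + 1) → ℝ := fun v a => (TT n (u : ℂ) (fd μ α As y v a)).re -
    (TT n (u : ℂ) (fd μ α As y' v a)).re with hD
  set ε : V → Fin (k + 1) → ℝ := fun v a => if 0 ≤ D v a then 1 else -1 with hε
  have hε1 : ∀ v a, |ε v a| ≤ 1 := by
    intro v a
    rw [hε]
    simp only
    split_ifs
    · rw [abs_one]
    · rw [abs_neg, abs_one]
  have hεD : ∀ v a, ε v a * D v a = |D v a| := by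
    intro v a
    rw [hε]
    simp only
    split_ifs with h
    · rw [abs_of_nonneg h, one_mul]
    · rw [abs_of_neg (not_le.1 h)]
      ring
  set F : ℂ → ℂ := fun t => ∑ x ∈ T ×ˢ (Finset.univ : Finset (Fin (k + 1))),
    (ε x.1 x.2 : ℂ) * (fd μ α As y x.1 x.2 t - fd μ α As y' x.1 x.2 t) with hF
  have hFd : DifferentiableOn ℂ F (Metric.ball 0 1) := by
    rw [hF]
    refine DifferentiableOn.fun_sum (fun x _ => ?_)
    exact ((fd_diff hα hα2 hst As y x.1 x.2).sub (fd_diff hα hα2 hst As y' x.1 x.2)).const_mul _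
  have hFB : ∀ x ∈ Metric.ball (0 : ℂ) 1, ‖F x‖ ≤ 4 * Real.pi / α := by
    intro t ht
    have h := QQ_col hα hα2 hst As w y y' hyy T hTA ε hε1 (z := uz α t)
      (uz_mem hα hα2 (by simpa using ht))
    have e : F t = ∑ v ∈ T, ∑ a, (ε v a : ℂ) *
        (QQ μ As y v a (uz α t) - QQ μ As y' v a (uz α t)) := by
      rw [hF]
      simp only
      rw [Finset.sum_product]
      rfl
    rw [e]
    exact h
  have hTT : TT n (u : ℂ) F = ∑ x ∈ T ×ˢ (Finset.univ : Finset (Fin (k + 1))),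
      (ε x.1 x.2 : ℂ) * (TT n (u : ℂ) (fd μ α As y x.1 x.2) -
        TT n (u : ℂ) (fd μ α As y' x.1 x.2)) := by
    rw [hF, TT_sum n (u : ℂ) (T ×ˢ (Finset.univ : Finset (Fin (k + 1))))
      (fun x => (ε x.1 x.2 : ℂ)) (fun x t => fd μ α As y x.1 x.2 t - fd μ α As y' x.1 x.2 t)
      (fun x _ => (fd_diff hα hα2 hst As y x.1 x.2).sub (fd_diff hα hα2 hst As y' x.1 x.2))]
    refine Finset.sum_congr rfl (fun x _ => ?_)
    rw [TT_sub n (u : ℂ) (fd_diff hα hα2 hst As y x.1 x.2) (fd_diff hα hα2 hst As y' x.1 x.2)]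
  have hre : (TT n (u : ℂ) F).re = ∑ v ∈ T, ∑ a, |D v a| := by
    rw [hTT, Complex.re_sum, Finset.sum_product]
    refine Finset.sum_congr rfl (fun v _ => Finset.sum_congr rfl (fun a _ => ?_))
    rw [Complex.re_ofReal_mul, Complex.sub_re, ← hεD]
  have hsum : ∑ v ∈ T, ∑ a, |qq μ α s u n (Bl hG (m * n) v A) y v a -
      qq μ α s u n (Bl hG (m * n) v A) y' v a| = s * ∑ v ∈ T, ∑ a, |D v a| := by
    rw [Finset.mul_sum]
    refine Finset.sum_congr rfl (fun v hv => ?_)
    rw [Finset.mul_sum]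
    refine Finset.sum_congr rfl (fun a _ => ?_)
    unfold qq
    rw [hq v hv, hq v hv]
    have : s * (TT n (u : ℂ) (fd μ α As y v a)).re + (1 - s) / (k + 1) -
        (s * (TT n (u : ℂ) (fd μ α As y' v a)).re + (1 - s) / (k + 1)) = s * D v a := by
      rw [hD]
      ring
    rw [this, abs_mul, abs_of_pos hs]
  rw [hsum, ← hre]
  have hn0 : 0 ≤ (TT n (u : ℂ) F).re := by
    rw [hre]
    exact Finset.sum_nonneg (fun v _ => Finset.sum_nonneg (fun a _ => abs_nonneg _))
  have hub : ‖(u : ℂ)‖ < 1 := by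
    rw [Complex.norm_real, Real.norm_eq_abs, abs_of_nonneg h0]
    exact h1
  have b1 := err_le h0 h1 n hFd hFB
  have b2 := hFB u (by simpa using hub)
  have b3 : ‖TT n (u : ℂ) F‖ ≤ ‖F u‖ + ‖F u - TT n (u : ℂ) F‖ := by
    have : TT n (u : ℂ) F = F u - (F u - TT n (u : ℂ) F) := by ring
    conv_lhs => rw [this]
    exact norm_sub_le _ _
  have b4 : 4 * Real.pi / α * (u ^ (n + 1) / (1 - u)) ≤ dl α u n := by
    unfold dl
    refine mul_le_mul_of_nonneg_right ?_ (div_nonneg (pow_nonneg h0 _) (by linarith))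
    have : 0 ≤ 1 / Real.sin α := by
      have := sin_pos' hα hα2
      positivity
    linarith
  have b5 := (le_abs_self _).trans (Complex.abs_re_le_norm (TT n (u : ℂ) F))
  calc s * (TT n (u : ℂ) F).re ≤ 1 * (TT n (u : ℂ) F).re :=
        mul_le_mul_of_nonneg_right hs1.le hn0
    _ ≤ 4 * Real.pi / α + dl α u n := by
        rw [one_mul]
        linarith

/-! ### The law of the noisy process -/

/-- The real weight. -/
noncomputable def wr (A : Finset V) (y ω : Cfg V k) (x : ℝ) : ℝ :=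
  ∏ w ∈ A, if ω w = y w then x else 1

theorem wr_coe (A : Finset V) (y ω : Cfg V k) (x : ℝ) : ((wr A y ω x : ℝ) : ℂ) = wt A y ω x := by
  unfold wr wt
  rw [Complex.ofReal_prod]
  refine Finset.prod_congr rfl (fun w _ => ?_)
  split_ifs
  · rfl
  · exact Complex.ofReal_one

theorem meas_wr (A : Finset V) (y : Cfg V k) (x : ℝ) :
    Measurable (fun ω : Cfg V k => wr A y ω x) := by
  unfold wr
  refine Finset.measurable_fun_prod _ (fun w _ => ?_)
  exact Measurable.ite (meas_coord w (y w)) measurable_const measurable_const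

theorem wr_le (A : Finset V) (y ω : Cfg V k) {x : ℝ} (hx : 1 ≤ x) :
    0 ≤ wr A y ω x ∧ wr A y ω x ≤ x ^ A.card := by
  have h0 : ∀ w ∈ A, 0 ≤ (if ω w = y w then x else 1 : ℝ) := by
    intro w _
    split_ifs <;> linarith
  refine ⟨Finset.prod_nonneg h0, ?_⟩
  refine (Finset.prod_le_prod h0 (g := fun _ => x) ?_).trans ?_
  · intro w _
    split_ifs
    · exact le_refl _
    · exact hx
  · rw [Finset.prod_const]

theorem int_wr (A : Finset V) (y : Cfg V k) {x : ℝ} (hx : 1 ≤ x) :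
    Integrable (fun ω : Cfg V k => wr A y ω x) μ := by
  refine Integrable.of_bound (meas_wr A y x).aestronglyMeasurable (x ^ A.card) ?_
  refine Filter.Eventually.of_forall (fun ω => ?_)
  obtain ⟨a1, a2⟩ := wr_le A y ω hx
  rw [Real.norm_eq_abs, abs_of_nonneg a1]
  exact a2

theorem int_wr1 (A : Finset V) (y : Cfg V k) {x : ℝ} (hx : 1 ≤ x) (v : V) (a : Fin (k + 1)) :
    Integrable (fun ω : Cfg V k => (if ω v = a then 1 else 0) * wr A y ω x) μ := by
  refine Integrable.of_bound ((Measurable.ite (meas_coord v a) measurable_const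
    measurable_const).mul (meas_wr A y x)).aestronglyMeasurable (x ^ A.card) ?_
  refine Filter.Eventually.of_forall (fun ω => ?_)
  obtain ⟨a1, a2⟩ := wr_le A y ω hx
  split_ifs
  · rw [one_mul, Real.norm_eq_abs, abs_of_nonneg a1]
    exact a2
  · rw [zero_mul, norm_zero]
    exact a1.trans a2

/-- The conditional probabilities of the noisy process. -/
theorem cond_ff (hα : 0 < α) (hst : Stable α μ) {s x : ℝ} (hs : 0 < s) (hs1 : s < 1)
    (hx1 : 1 ≤ x) (hxe : (1 - s) / (k + 1) * (x - 1) = s) (hxS : (x : ℂ) ∈ Sec α)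
    (A : Finset V) (v : V) (hv : v ∉ A) (y : Cfg V k) (a : Fin (k + 1)) :
    (nz s μ).real {ω | (∀ w ∈ A, ω w = y w) ∧ ω v = a} =
      ff μ s x A y v a * (nz s μ).real {ω | ∀ w ∈ A, ω w = y w} := by
  classical
  set κ : ℝ := (1 - s) / (k + 1) with hκ
  have hkap : ∀ b c : Fin (k + 1), kap k s b c = κ * (if b = c then x else 1) := by
    intro b c
    unfold kap
    rw [← hκ]
    split_ifs
    · linarith
    · ring
  have e0 : (nz s μ).real {ω | ∀ w ∈ A, ω w = y w} = κ ^ A.card * ∫ ω, wr A y ω x ∂μ := by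
    rw [nz_cyl hs.le hs1.le μ A y, ← integral_const_mul]
    refine integral_congr_ae (Filter.Eventually.of_forall (fun ω => ?_))
    simp only
    unfold wr
    rw [← Finset.prod_const, ← Finset.prod_mul_distrib]
    exact Finset.prod_congr rfl (fun w _ => hkap _ _)
  have e1 : {ω : Cfg V k | (∀ w ∈ A, ω w = y w) ∧ ω v = a} =
      {ω | ∀ w ∈ insert v A, ω w = (Function.update y v a) w} := by
    ext ω
    rw [mem_ofPred_eq, mem_ofPred_eq, Finset.forall_mem_insert, Function.update_self]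
    constructor
    · rintro ⟨h1, h2⟩
      refine ⟨h2, fun w hw => ?_⟩
      rw [Function.update_of_ne (by rintro rfl; exact hv hw)]
      exact h1 w hw
    · rintro ⟨h1, h2⟩
      refine ⟨fun w hw => ?_, h1⟩
      have := h2 w hw
      rwa [Function.update_of_ne (by rintro rfl; exact hv hw)] at this
  have e2 : (nz s μ).real {ω | (∀ w ∈ A, ω w = y w) ∧ ω v = a} =
      κ ^ A.card * κ * (∫ ω, wr A y ω x ∂μ +
        (x - 1) * ∫ ω, (if ω v = a then 1 else 0) * wr A y ω x ∂μ) := by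
    rw [e1, nz_cyl hs.le hs1.le μ (insert v A) (Function.update y v a), ← integral_const_mul,
      ← integral_add (int_wr A y hx1) ((int_wr1 A y hx1 v a).const_mul _), ← integral_const_mul]
    refine integral_congr_ae (Filter.Eventually.of_forall (fun ω => ?_))
    simp only
    rw [Finset.prod_insert hv, Function.update_self, hkap]
    have : ∏ w ∈ A, kap k s (ω w) (Function.update y v a w) = κ ^ A.card * wr A y ω x := by
      unfold wr
      rw [← Finset.prod_const, ← Finset.prod_mul_distrib]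
      refine Finset.prod_congr rfl (fun w hw => ?_)
      rw [Function.update_of_ne (by rintro rfl; exact hv hw)]
      exact hkap _ _
    rw [this]
    split_ifs
    · ring
    · ring
  have z1 : ZZ μ A y (x : ℂ) = ((∫ ω, wr A y ω x ∂μ : ℝ) : ℂ) := by
    unfold ZZ
    rw [← integral_complex_ofReal]
    exact integral_congr_ae (Filter.Eventually.of_forall (fun ω => (wr_coe A y ω x).symm))
  have z2 : MM μ A y v a (x : ℂ) =
      ((∫ ω, (if ω v = a then 1 else 0) * wr A y ω x ∂μ : ℝ) : ℂ) := by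
    unfold MM
    rw [← integral_complex_ofReal]
    refine integral_congr_ae (Filter.Eventually.of_forall (fun ω => ?_))
    simp only
    rw [Complex.ofReal_mul, wr_coe]
    split_ifs
    · rw [Complex.ofReal_one]
    · rw [Complex.ofReal_zero]
  have z3 := ZZ_ne hα hst A y hxS
  rw [z1] at z3
  have z4 : (∫ ω, wr A y ω x ∂μ) ≠ 0 := by exact_mod_cast z3
  have z5 : (QQ μ A y v a (x : ℂ)).re =
      (∫ ω, (if ω v = a then 1 else 0) * wr A y ω x ∂μ) / ∫ ω, wr A y ω x ∂μ := by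
    unfold QQ
    rw [z1, z2, ← Complex.ofReal_div, Complex.ofReal_re]
  rw [e0, e2]
  unfold ff
  rw [z5, ← hκ]
  set I := ∫ ω, wr A y ω x ∂μ with hI
  set J := ∫ ω, (if ω v = a then 1 else 0) * wr A y ω x ∂μ with hJ
  have : s * (J / I) + κ = (s * J + κ * I) / I := by
    field_simp
  rw [this]
  have h6 : (s * J + κ * I) / I * (κ ^ A.card * I) = (s * J + κ * I) * κ ^ A.card := by
    field_simp
  rw [h6]
  calc κ ^ A.card * κ * (I + (x - 1) * J) = κ ^ A.card * (κ * I + (κ * (x - 1)) * J) := by ring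
    _ = (s * J + κ * I) * κ ^ A.card := by rw [hxe]; ring

theorem ff_nonneg {s x : ℝ} (hs : 0 < s) (hs1 : s < 1) (hx : 0 < x) (A : Finset V) (y : Cfg V k)
    (v : V) (a : Fin (k + 1)) : 0 ≤ ff μ s x A y v a := by
  obtain ⟨r, r0, r1, hr⟩ := QQ_real (μ := μ) A y v a hx
  unfold ff
  rw [hr, Complex.ofReal_re]
  have : 0 ≤ (1 - s) / ((k : ℝ) + 1) := div_nonneg (by linarith) (by positivity)
  have := mul_nonneg hs.le r0
  linarith

theorem ff_sum (hα : 0 < α) (hst : Stable α μ) {s x : ℝ} (hxS : (x : ℂ) ∈ Sec α)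
    (A : Finset V) (y : Cfg V k) (v : V) : ∑ a, ff μ s x A y v a = 1 := by
  unfold ff
  rw [Finset.sum_add_distrib, ← Finset.mul_sum, ← Complex.re_sum, QQ_sum hα hst A y v hxS,
    Finset.sum_const, Finset.card_univ, Fintype.card_fin, Complex.one_re, nsmul_eq_mul]
  push_cast
  field_simp
  ring

end KerAux

open KerAux in
theorem exists_ker {G : SimpleGraph V} (hG : Geo G) {m : ℕ} (hinv : Inv G μ) (hdep : MDep G m μ)
    (hα : 0 < α) (hα2 : α ≤ Real.pi / 2) (hst : Stable α μ) {s : ℝ} (hs : 0 < s) (hs1 : s < 1) :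
    ∃ p : Kern V k, IsKer G (4 * Real.pi / α) p ∧ Cond (nz s μ) p := by
  have hk : (0 : ℝ) < (k : ℝ) + 1 := by positivity
  have h1s : 0 < 1 - s := by linarith
  set x : ℝ := 1 + (k + 1) * s / (1 - s) with hxdef
  have hx1 : 1 ≤ x := by
    have : 0 ≤ (k + 1) * s / (1 - s) := by positivity
    linarith
  have hxe : (1 - s) / (k + 1) * (x - 1) = s := by
    rw [hxdef]
    field_simp
    ring
  obtain ⟨u, h0, h1, hx⟩ := uz_surj hα hx1
  have hxS : (x : ℂ) ∈ Sec α := by
    rw [← hx]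
    refine uz_mem hα hα2 ?_
    rw [Complex.norm_real, Real.norm_eq_abs, abs_of_nonneg h0]
    exact h1
  choose p hp using exists_lim (μ := μ) hG hdep hα hα2 hst hs hs1 h0 h1 hx
  have hclose : ∀ n v A y a, |qq μ α s u n (Bl hG (m * n) v A) y v a - p v A y a| ≤ dl α u n := by
    intro n v A y a
    have h2 : Tendsto (fun N => |qq μ α s u n (Bl hG (m * n) v A) y v a -
        ff μ s x (Bl hG (m * N) v A) y v a|) atTop
        (𝓝 |qq μ α s u n (Bl hG (m * n) v A) y v a - p v A y a|) :=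
      ((hp v A y a).const_sub _).abs
    refine le_of_tendsto h2 ?_
    filter_upwards [eventually_ge_atTop n] with N hN
    rw [abs_sub_comm]
    exact seq_err hG hdep hα hα2 hst hs hs1 h0 h1 hx A y v a hN
  refine ⟨p, ⟨?_, ?_, ?_, ?_⟩, ?_⟩
  · intro v A y a
    exact ge_of_tendsto' (hp v A y a) (fun N => ff_nonneg hs hs1 (by linarith) _ y v a)
  · intro v A y
    have h2 := tendsto_finsetSum (Finset.univ : Finset (Fin (k + 1)))
      (fun a _ => hp v A y a)
    have h3 : (fun N => ∑ a, ff μ s x (Bl hG (m * N) v A) y v a) = fun _ => (1 : ℝ) := by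
      funext N
      exact ff_sum hα hst hxS _ y v
    rw [h3] at h2
    exact tendsto_nhds_unique h2 tendsto_const_nhds
  · intro g v A y a
    have h2 := hp (g v) A y a
    have h3 : (fun N => ff μ s x (Bl hG (m * N) (g v) A) y (g v) a) =
        fun N => ff μ s x (Bl hG (m * N) v (g ⁻¹' A)) (y ∘ g) v a := by
      funext N
      unfold ff
      rw [Bl_map, QQ_map hinv]
    rw [h3] at h2
    exact tendsto_nhds_unique h2 (hp v (g ⁻¹' A) (y ∘ g) a)
  · refine ⟨fun n v A y a => qq μ α s u n (Bl hG (m * n) v A) y v a, fun n => m * n, dl α u,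
      ⟨dl_tendsto h0 h1, ?_, hclose, ?_, ?_⟩⟩
    · intro n v A A' y y' a hA hy
      have e1 : Bl hG (m * n) v A = Bl hG (m * n) v A' := by
        ext w
        rw [mem_Bl, mem_Bl]
        constructor
        · rintro ⟨a1, a2, a3⟩
          exact ⟨a1, (hA w a1).1 a2, a3⟩
        · rintro ⟨a1, a2, a3⟩
          exact ⟨a1, (hA w a1).2 a2, a3⟩
      show qq μ α s u n (Bl hG (m * n) v A) y v a = qq μ α s u n (Bl hG (m * n) v A') y' v a
      rw [← e1]
      unfold qq fd
      have e2 : ∀ z, QQ μ (Bl hG (m * n) v A) y v a z = QQ μ (Bl hG (m * n) v A) y' v a z := by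
        intro z
        refine QQ_congr (fun w hw => ?_) v a z
        rw [mem_Bl] at hw
        exact hy w hw.2.1 hw.1
      simp only [e2]
    · intro n A w y y' hyy T hT
      exact col_bound hG hdep hα hα2 hst hs hs1 h0 h1 n A w y y' hyy T hT
    · intro n g v A y a
      unfold qq fd
      simp only [Bl_map, QQ_map hinv]
  · intro A v hv y a
    have h2 : p v (A : Set V) y a = ff μ s x A y v a := by
      have h3 : ∀ n, |p v (A : Set V) y a - ff μ s x A y v a| ≤ 2 * dl α u n := by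
        intro n
        have a1 := hclose n v (A : Set V) y a
        have a2 := exact_err hG hdep hα hα2 hst hs hs1 h0 h1 hx A y v hv a n
        rw [abs_sub_comm] at a1 a2
        have a3 := abs_sub_le (p v (A : Set V) y a)
          (qq μ α s u n (Bl hG (m * n) v (A : Set V)) y v a) (ff μ s x A y v a)
        linarith
      have h4 : Tendsto (fun n => 2 * dl α u n) atTop (𝓝 0) := by
        have := (dl_tendsto (α := α) h0 h1).const_mul 2
        rwa [mul_zero] at this
      have h5 := ge_of_tendsto' h4 h3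
      have h6 := abs_nonpos_iff.1 h5
      linarith
    rw [h2]
    exact cond_ff hα hst hs hs1 hx1 hxe hxS A v hv y a

end Pool.Agent.FD82
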