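import Pool.Agent.Lib.FD82.Defs

/-! # B1_Meas: measurability

`p` is a uniform limit of the `q n`; `q n v A y a` only depends on `A ∩ B` and `y` on `A ∩ B`, `B` the ball of radius
`R n` (finite by `Geo.ball`): it is a function of finitely many coordinates with finitely many values
(e.g. factor through `x ↦ (fun w : B => (decide (U x w < s x), Y x w))`, a measurable map to a finite discrete
space). -/

set_option autoImplicit false

open MeasureTheory Set Filter Topology

namespace Pool.Agent.FD82

variable {V : Type} {k : ℕ} {G : SimpleGraph V} {C : ℝ} {p : Kern V k}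

theorem IsKer.dep (hp : IsKer G C p) (v : V) (A : Set V) {y y' : Cfg V k}
    (h : ∀ w ∈ A, y w = y' w) (a : Fin (k + 1)) : p v A y a = p v A y' a := by
  obtain ⟨q, R, δ, hq⟩ := hp.approx
  have key : ∀ n, |p v A y a - p v A y' a| ≤ 2 * δ n := by
    intro n
    have h1 := hq.close n v A y a
    have h2 := hq.close n v A y' a
    have h3 : q n v A y a = q n v A y' a :=
      hq.loc n v A A y y' a (fun w _ => Iff.rfl) (fun w hw _ => h w hw)
    rw [abs_le] at h1 h2 ⊢
    constructor <;> linarith [h1.1, h1.2, h2.1, h2.2]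
  have hlim : Tendsto (fun n => 2 * δ n) atTop (𝓝 (2 * 0)) := hq.tend.const_mul 2
  have h0 : |p v A y a - p v A y' a| ≤ 2 * 0 := ge_of_tendsto' hlim key
  have h1 : |p v A y a - p v A y' a| = 0 := le_antisymm (by simpa using h0) (abs_nonneg _)
  exact sub_eq_zero.1 (abs_eq_zero.1 h1)

theorem meas_q (hG : Geo G) {q : ℕ → Kern V k} {R : ℕ → ℕ} {δ : ℕ → ℝ} (hq : IsApx G C p q R δ)
    (n : ℕ) (v : V) (a : Fin (k + 1)) {X : Type} [MeasurableSpace X] {U : X → V → ℝ}
    (hU : Measurable U) {Y : X → Cfg V k} (hY : Measurable Y) {s : X → ℝ} (hs : Measurable s) :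
    Measurable (fun x => q n v (As (U x) (s x)) (Y x) a) := by
  classical
  set B : Set V := {w | G.dist v w ≤ R n} with hB
  have : Fintype B := (hG.ball v (R n)).fintype
  let φ : X → (B → Bool × Fin (k + 1)) := fun x w => (decide (U x w < s x), Y x w)
  let F : (B → Bool × Fin (k + 1)) → ℝ := fun z =>
    q n v {w | ∃ h : w ∈ B, (z ⟨w, h⟩).1 = true}
      (fun w => if h : w ∈ B then (z ⟨w, h⟩).2 else 0) a
  have hφ : Measurable φ := by
    refine measurable_pi_iff.2 fun w => ?_
    refine Measurable.prodMk ?_ ((measurable_pi_apply (w : V)).comp hY)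
    refine measurable_to_bool ?_
    have : (fun x => decide (U x (w : V) < s x)) ⁻¹' {true} = {x | U x (w : V) < s x} := by
      ext x; simp
    rw [this]
    exact measurableSet_lt ((measurable_pi_apply (w : V)).comp hU) hs
  have hF : Measurable F := Measurable.of_discrete
  have heq : (fun x => q n v (As (U x) (s x)) (Y x) a) = F ∘ φ := by
    funext x
    refine hq.loc n v _ _ _ _ a ?_ ?_
    · intro w hw
      constructor
      · intro h
        exact ⟨hw, by simpa [φ, As] using h⟩
      · rintro ⟨h, h2⟩
        simpa [φ, As] using h2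
    · intro w _ hw
      have hw' : w ∈ B := hw
      simp [φ, hw']
  rw [heq]
  exact hF.comp hφ

theorem meas_ker (hG : Geo G) (hp : IsKer G C p) (v : V) (a : Fin (k + 1)) {X : Type}
    [MeasurableSpace X] {U : X → V → ℝ} (hU : Measurable U) {Y : X → Cfg V k} (hY : Measurable Y)
    {s : X → ℝ} (hs : Measurable s) : Measurable (fun x => p v (As (U x) (s x)) (Y x) a) := by
  obtain ⟨q, R, δ, hq⟩ := hp.approx
  refine measurable_of_tendsto_metrizable
    (f := fun n x => q n v (As (U x) (s x)) (Y x) a)
    (fun n => meas_q hG hq n v a hU hY hs) ?_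
  refine tendsto_pi_nhds.2 fun x => ?_
  refine tendsto_iff_dist_tendsto_zero.2 ?_
  refine squeeze_zero (fun _ => dist_nonneg) (fun n => ?_) hq.tend
  rw [Real.dist_eq]
  exact hq.close n v _ _ a

theorem meas_kerA (hG : Geo G) (hp : IsKer G C p) (v : V) (A : Set V) (a : Fin (k + 1)) {X : Type}
    [MeasurableSpace X] {Y : X → Cfg V k} (hY : Measurable Y) :
    Measurable (fun x => p v A (Y x) a) := by
  classical
  have h := meas_ker hG hp v a (U := fun (_ : X) (w : V) => if w ∈ A then (0 : ℝ) else 1)
    measurable_const hY (s := fun _ => (1 / 2 : ℝ)) measurable_const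
  have hA : As (fun w : V => if w ∈ A then (0 : ℝ) else 1) (1 / 2) = A := by
    ext w
    by_cases hw : w ∈ A
    · simp [As, hw]
    · simp only [As, Set.mem_ofPred_eq, hw, if_false, iff_false, not_lt]
      norm_num
  simp only [hA] at h
  exact h

theorem meas_quant {X : Type} [MeasurableSpace X] {P : X → Fin (k + 1) → ℝ}
    (hP : ∀ a, Measurable (fun x => P x a)) {c : X → ℝ} (hc : Measurable c) :
    Measurable (fun x => quant (P x) (c x)) := by
  classical
  let φ : X → (Fin k → Bool) := fun x a => decide (cum (P x) a.castSucc ≤ c x)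
  let F : (Fin k → Bool) → Fin (k + 1) := fun b =>
    ⟨(Finset.univ.filter (fun a : Fin k => b a = true)).card,
      Nat.lt_succ_of_le ((Finset.card_filter_le _ _).trans (by simp))⟩
  have hφ : Measurable φ := by
    refine measurable_pi_iff.2 fun a => ?_
    refine measurable_to_bool ?_
    have : (fun x => φ x a) ⁻¹' {true} = {x | cum (P x) a.castSucc ≤ c x} := by
      ext x; simp [φ]
    rw [this]
    refine measurableSet_le ?_ hc
    unfold cum
    exact Finset.measurable_sum _ fun b _ => hP b
  have heq : (fun x => quant (P x) (c x)) = F ∘ φ := by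
    funext x
    simp only [quant, F, φ, Function.comp, decide_eq_true_eq]
  have hF : Measurable F := Measurable.of_discrete
  rw [heq]
  exact hF.comp hφ

theorem meas_rr {X : Type} [MeasurableSpace X] {P : X → Fin (k + 1) → ℝ}
    (hP : ∀ a, Measurable (fun x => P x a)) {b : X → Fin (k + 1)} (hb : Measurable b) {c : X → ℝ}
    (hc : Measurable c) : Measurable (fun x => rr (P x) (b x) (c x)) := by
  have h : Measurable (fun z : Fin (k + 1) × X => rr (P z.2) z.1 (c z.2)) := by
    refine measurable_from_prod_countable_right fun a => ?_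
    have h1 : Measurable (fun x => ∑ b ∈ Finset.Iic a, P x b) :=
      Finset.measurable_sum _ fun b _ => hP b
    have h2 : Measurable (fun x => (∑ b ∈ Finset.Iic a, P x b) - P x a + P x a * c x) :=
      (h1.sub (hP a)).add ((hP a).mul hc)
    exact h2
  have h3 : Measurable (fun x => (b x, x)) := hb.prodMk measurable_id
  have h4 : (fun x => rr (P x) (b x) (c x)) =
      (fun z : Fin (k + 1) × X => rr (P z.2) z.1 (c z.2)) ∘ (fun x => (b x, x)) := rfl
  rw [h4]
  exact h.comp h3

theorem meas_l1 {X : Type} [MeasurableSpace X] {P P' : X → Fin (k + 1) → ℝ}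
    (hP : ∀ a, Measurable (fun x => P x a)) (hP' : ∀ a, Measurable (fun x => P' x a)) :
    Measurable (fun x => l1 (P x) (P' x)) := by
  unfold l1
  refine Finset.measurable_sum _ fun a _ => ?_
  exact ENNReal.measurable_ofReal.comp
    (continuous_abs.measurable.comp ((hP a).sub (hP' a)))

theorem meas_xi (hG : Geo G) (hp : IsKer G C p) {X : Type} [MeasurableSpace X]
    {Y : X → Cfg V k} (hY : Measurable Y) {U ζ : X → V → ℝ} (hU : Measurable U)
    (hζ : Measurable ζ) : Measurable (fun x => xi p (Y x) (U x) (ζ x)) := by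
  refine measurable_pi_iff.2 fun v => ?_
  have hg : (fun x => xi p (Y x) (U x) (ζ x) v) =
      fun x => rr (p v (As (U x) (U x v)) (Y x)) (Y x v) (ζ x v) := rfl
  rw [hg]
  exact meas_rr (P := fun x => p v (As (U x) (U x v)) (Y x))
    (fun a => meas_ker hG hp v a hU hY ((measurable_pi_apply v).comp hU))
    ((measurable_pi_apply v).comp hY) ((measurable_pi_apply v).comp hζ)

theorem meas_pic (hG : Geo G) (hp : IsKer G C p) (n : ℕ) {X : Type} [MeasurableSpace X]
    {U ξ : X → V → ℝ} (hU : Measurable U) (hξ : Measurable ξ) :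
    Measurable (fun x => pic p n (U x) (ξ x)) := by
  induction n with
  | zero => exact measurable_const
  | succ n ih =>
    refine measurable_pi_iff.2 fun v => ?_
    have hg : (fun x => pic p (n + 1) (U x) (ξ x) v) =
        fun x => quant (p v (As (U x) (U x v)) (pic p n (U x) (ξ x))) (ξ x v) := rfl
    rw [hg]
    exact meas_quant (P := fun x => p v (As (U x) (U x v)) (pic p n (U x) (ξ x)))
      (fun a => meas_ker hG hp v a hU ih ((measurable_pi_apply v).comp hU))
      ((measurable_pi_apply v).comp hξ)

theorem ev_eq {f : ℕ → Fin (k + 1)} {a : Fin (k + 1)} (h : ∀ᶠ n in atTop, f n = a) : ev f = a := by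
  have hex : ∃ a, ∀ᶠ n in atTop, f n = a := ⟨a, h⟩
  unfold ev
  rw [dif_pos hex]
  obtain ⟨n, hn1, hn2⟩ := (hex.choose_spec.and h).exists
  rw [← hn1, hn2]

theorem meas_ev {X : Type} [MeasurableSpace X] {f : ℕ → X → Fin (k + 1)}
    (hf : ∀ n, Measurable (f n)) : Measurable (fun x => ev (fun n => f n x)) := by
  have hE : ∀ a : Fin (k + 1), MeasurableSet {x | ∀ᶠ n in atTop, f n x = a} := by
    intro a
    have : {x | ∀ᶠ n in atTop, f n x = a} = ⋃ N : ℕ, ⋂ n : ℕ, {x | N ≤ n → f n x = a} := by
      ext x; simp [eventually_atTop]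
    rw [this]
    refine MeasurableSet.iUnion fun N => MeasurableSet.iInter fun n => ?_
    by_cases hn : N ≤ n
    · simp only [hn, forall_const]
      exact (hf n) (measurableSet_singleton a)
    · simp [hn]
  refine measurable_to_countable' fun a => ?_
  have hset : (fun x => ev (fun n => f n x)) ⁻¹' {a} =
      {x | ∀ᶠ n in atTop, f n x = a} ∪
        ({x | a = 0} ∩ ⋂ b : Fin (k + 1), {x | ∀ᶠ n in atTop, f n x = b}ᶜ) := by
    ext x
    simp only [mem_preimage, mem_singleton_iff, mem_union, mem_ofPred_eq, mem_inter_iff, mem_iInter,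
      mem_compl_iff]
    constructor
    · intro h
      by_cases hex : ∃ b, ∀ᶠ n in atTop, f n x = b
      · obtain ⟨b, hb⟩ := hex
        rw [ev_eq hb] at h
        subst h
        exact Or.inl hb
      · refine Or.inr ⟨?_, fun b hb => hex ⟨b, hb⟩⟩
        unfold ev at h
        rw [dif_neg hex] at h
        exact h.symm
    · rintro (h | ⟨h, h2⟩)
      · exact ev_eq h
      · unfold ev
        rw [dif_neg (fun hex => h2 hex.choose hex.choose_spec)]
        exact h.symm
  rw [hset]
  refine (hE a).union (MeasurableSet.inter (MeasurableSet.const _) ?_)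
  exact MeasurableSet.iInter fun b => (hE b).compl

theorem meas_Psi (hG : Geo G) (hp : IsKer G C p) {X : Type} [MeasurableSpace X]
    {U ξ : X → V → ℝ} (hU : Measurable U) (hξ : Measurable ξ) :
    Measurable (fun x => Psi p (U x) (ξ x)) := by
  refine measurable_pi_iff.2 fun v => ?_
  exact meas_ev (fun n => (measurable_pi_apply v).comp (meas_pic hG hp n hU hξ))

end Pool.Agent.FD82
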