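import Pool.Agent.Lib.FD82.Defs

/-! # B2_Quant: the quantile function and the uniform law

-/

set_option autoImplicit false

open MeasureTheory Set Filter Topology

namespace Pool.Agent.FD82

variable {k : ℕ}

theorem cum_sub_eq (P : Fin (k + 1) → ℝ) (a : Fin (k + 1)) :
    cum P a - P a = ∑ b ∈ Finset.univ.filter (fun b : Fin (k + 1) => (b : ℕ) < a), P b := by
  have h : (Finset.Iic a : Finset (Fin (k + 1))) =
      insert a (Finset.univ.filter (fun b : Fin (k + 1) => (b : ℕ) < a)) := by
    ext b
    simp only [Finset.mem_Iic, Finset.mem_insert, Finset.mem_filter, Finset.mem_univ, true_and]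
    rw [le_iff_eq_or_lt, Fin.lt_def]
  unfold cum
  rw [h, Finset.sum_insert (by simp)]
  ring

theorem cum_eq (P : Fin (k + 1) → ℝ) (a : Fin (k + 1)) :
    cum P a = ∑ b ∈ Finset.univ.filter (fun b : Fin (k + 1) => (b : ℕ) < (a : ℕ) + 1), P b := by
  unfold cum
  refine Finset.sum_congr ?_ fun _ _ => rfl
  ext b
  simp only [Finset.mem_Iic, Finset.mem_filter, Finset.mem_univ, true_and, Fin.le_def]
  omega

theorem cum_mono {P : Fin (k + 1) → ℝ} (hP0 : ∀ a, 0 ≤ P a) {a b : Fin (k + 1)} (h : a ≤ b) :
    cum P a ≤ cum P b :=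
  Finset.sum_le_sum_of_subset_of_nonneg (Finset.Iic_subset_Iic.2 h) fun _ _ _ => hP0 _

theorem cum_le_sub {P : Fin (k + 1) → ℝ} (hP0 : ∀ a, 0 ≤ P a) {a b : Fin (k + 1)} (h : a < b) :
    cum P a ≤ cum P b - P b := by
  rw [cum_sub_eq, cum_eq]
  refine Finset.sum_le_sum_of_subset_of_nonneg ?_ fun _ _ _ => hP0 _
  intro c
  simp only [Finset.mem_filter, Finset.mem_univ, true_and]
  have := Fin.lt_def.1 h
  omega

theorem lintegral_rr_one {p b : ℝ} (hp : 0 ≤ p) (f : ℝ → ENNReal) :
    ENNReal.ofReal p * ∫⁻ c, f (b + p * c) ∂lam = ∫⁻ x in Ico b (b + p), f x := by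
  rcases hp.eq_or_lt with rfl | hp
  · simp
  · have himg : (fun c : ℝ => b + p * c) '' Ico 0 1 = Ico b (b + p) := by
      ext x
      simp only [mem_image, mem_Ico]
      constructor
      · rintro ⟨c, ⟨h0, h1⟩, rfl⟩
        constructor <;> nlinarith
      · rintro ⟨h0, h1⟩
        refine ⟨(x - b) / p, ⟨div_nonneg (by linarith) hp.le, ?_⟩, ?_⟩
        · rw [div_lt_one hp]; linarith
        · field_simp; ring
    have h := lintegral_image_eq_lintegral_abs_deriv_mul (s := Ico (0 : ℝ) 1)
      (f := fun c : ℝ => b + p * c) (f' := fun _ => p) measurableSet_Ico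
      (fun x _ => by
        have := ((hasDerivAt_id x).const_mul p).const_add b
        simpa using this.hasDerivWithinAt)
      (fun x _ y _ hxy => by
        have : p * x = p * y := by simpa using hxy
        exact mul_left_cancel₀ hp.ne' this) f
    rw [himg] at h
    rw [h, abs_of_pos hp, lintegral_const_mul' _ _ ENNReal.ofReal_ne_top]
    unfold lam
    rw [Measure.restrict_congr_set (Ico_ae_eq_Icc (a := (0 : ℝ)) (b := 1))]

/-- Partial sums of the interval integrals. -/
theorem sum_Ico {P : Fin (k + 1) → ℝ} (hP0 : ∀ a, 0 ≤ P a) (f : ℝ → ENNReal) (m : ℕ)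
    (hm : m ≤ k + 1) :
    ∑ a ∈ Finset.univ.filter (fun b : Fin (k + 1) => (b : ℕ) < m),
        ∫⁻ x in Ico (cum P a - P a) (cum P a), f x =
      ∫⁻ x in Ico 0 (∑ b ∈ Finset.univ.filter (fun b : Fin (k + 1) => (b : ℕ) < m), P b), f x := by
  induction m with
  | zero => simp
  | succ m ih =>
    set a : Fin (k + 1) := ⟨m, by omega⟩ with ha
    have hins : (Finset.univ.filter (fun b : Fin (k + 1) => (b : ℕ) < m + 1)) =
        insert a (Finset.univ.filter (fun b : Fin (k + 1) => (b : ℕ) < m)) := by
      ext b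
      simp only [Finset.mem_insert, Finset.mem_filter, Finset.mem_univ, true_and, ha, Fin.ext_iff]
      omega
    have hnot : a ∉ (Finset.univ.filter (fun b : Fin (k + 1) => (b : ℕ) < m)) := by
      simp [ha]
    have hS : (∑ b ∈ Finset.univ.filter (fun b : Fin (k + 1) => (b : ℕ) < m), P b) =
        cum P a - P a := by
      rw [cum_sub_eq]
    have hS0 : 0 ≤ cum P a - P a := by
      rw [← hS]; exact Finset.sum_nonneg fun _ _ => hP0 _
    rw [hins, Finset.sum_insert hnot, Finset.sum_insert hnot, ih (by omega), hS]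
    have hc : P a + (cum P a - P a) = cum P a := by ring
    rw [hc, ← Ico_union_Ico_eq_Ico hS0 (by linarith [hP0 a] : cum P a - P a ≤ cum P a),
      lintegral_union measurableSet_Ico, add_comm]
    exact Ico_disjoint_Ico_same

/-- A mixture of the uniform laws on the intervals `[cum P a - P a, cum P a]` with weights `P a` is the uniform law
on `[0, 1]`: each term is `∫⁻ x in Ico (cum P a - P a) (cum P a), f x` (affine substitution), and the intervals
partition `[0, 1)`. -/
theorem lintegral_rr {P : Fin (k + 1) → ℝ} (hP0 : ∀ a, 0 ≤ P a) (hP1 : ∑ a, P a = 1)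
    {f : ℝ → ENNReal} (hf : Measurable f) :
    ∑ a, ENNReal.ofReal (P a) * ∫⁻ c, f (rr P a c) ∂lam = ∫⁻ c, f c ∂lam := by
  have h1 : ∀ a, ENNReal.ofReal (P a) * ∫⁻ c, f (rr P a c) ∂lam =
      ∫⁻ x in Ico (cum P a - P a) (cum P a), f x := by
    intro a
    have h := lintegral_rr_one (b := cum P a - P a) (hP0 a) f
    rw [sub_add_cancel] at h
    rw [← h]
    rfl
  rw [Finset.sum_congr rfl fun a _ => h1 a]
  have h2 := sum_Ico hP0 f (k + 1) le_rfl
  have h3 : (Finset.univ.filter (fun b : Fin (k + 1) => (b : ℕ) < k + 1)) = Finset.univ := by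
    ext b
    simp only [Finset.mem_filter, Finset.mem_univ, true_and, iff_true]
    exact b.2
  rw [h3, hP1] at h2
  rw [h2]
  unfold lam
  rw [Measure.restrict_congr_set (Ico_ae_eq_Icc (a := (0 : ℝ)) (b := 1))]

theorem quant_rr {P : Fin (k + 1) → ℝ} (hP0 : ∀ a, 0 ≤ P a) {a : Fin (k + 1)} (ha : 0 < P a)
    {c : ℝ} (hc0 : 0 ≤ c) (hc1 : c < 1) : quant P (rr P a c) = a := by
  apply Fin.ext
  have hset : (Finset.univ.filter (fun b : Fin k => cum P b.castSucc ≤ rr P a c)) =
      Finset.univ.filter (fun b : Fin k => (b : ℕ) < a) := by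
    ext b
    simp only [Finset.mem_filter, Finset.mem_univ, true_and]
    constructor
    · intro h
      by_contra hlt
      have h1 : a ≤ b.castSucc := by
        rw [Fin.le_def]; simpa using hlt
      have h2 := cum_mono hP0 h1
      have h3 : rr P a c < cum P a := by
        unfold rr
        nlinarith
      linarith
    · intro h
      have h1 : b.castSucc < a := by rw [Fin.lt_def]; simpa using h
      have h2 := cum_le_sub hP0 h1
      have h3 : cum P a - P a ≤ rr P a c := by
        unfold rr
        nlinarith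
      linarith
  show (Finset.univ.filter (fun b : Fin k => cum P b.castSucc ≤ rr P a c)).card = (a : ℕ)
  rw [hset]
  have h4 : (Finset.univ.filter (fun b : Fin k => (b : ℕ) < a)).card =
      (Finset.range (a : ℕ)).card := by
    refine Finset.card_bij (fun b _ => (b : ℕ)) ?_ ?_ ?_
    · intro b hb
      simpa using hb
    · intro b _ b' _ h
      exact Fin.ext h
    · intro n hn
      have hn' : n < a := by simpa using hn
      have hk : n < k := lt_of_lt_of_le hn' (Nat.lt_succ_iff.1 a.2)
      exact ⟨⟨n, hk⟩, by simpa using hn', rfl⟩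
  rw [h4, Finset.card_range]

/-- `quant P x ≠ quant P' x` implies that for some `a < k` the point `x` lies between `cum P a` and `cum P' a`. -/
theorem quant_dis (P P' : Fin (k + 1) → ℝ) :
    lam {x | quant P x ≠ quant P' x} ≤ (k : ENNReal) * l1 P P' := by
  have hsub : {x | quant P x ≠ quant P' x} ⊆
      ⋃ a : Fin k, uIcc (cum P a.castSucc) (cum P' a.castSucc) := by
    intro x hx
    by_contra hno
    simp only [mem_iUnion, not_exists] at hno
    apply hx
    have : ∀ a : Fin k, (cum P a.castSucc ≤ x ↔ cum P' a.castSucc ≤ x) := by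
      intro a
      have h := hno a
      rw [mem_uIcc] at h
      push Not at h
      constructor
      · intro h1
        by_contra h2
        exact absurd (h.1 h1) (not_lt.2 (not_le.1 h2).le)
      · intro h1
        by_contra h2
        exact absurd (h.2 h1) (not_lt.2 (not_le.1 h2).le)
    unfold quant
    simp only [this]
  have hone : ∀ a : Fin k, lam (uIcc (cum P a.castSucc) (cum P' a.castSucc)) ≤ l1 P P' := by
    intro a
    calc lam (uIcc (cum P a.castSucc) (cum P' a.castSucc))
        ≤ volume (uIcc (cum P a.castSucc) (cum P' a.castSucc)) := by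
          unfold lam
          exact Measure.restrict_apply_le _ _
      _ = ENNReal.ofReal |cum P' a.castSucc - cum P a.castSucc| := Real.volume_interval
      _ ≤ ENNReal.ofReal (∑ b, |P b - P' b|) := by
          refine ENNReal.ofReal_le_ofReal ?_
          unfold cum
          rw [← Finset.sum_sub_distrib]
          refine (Finset.abs_sum_le_sum_abs _ _).trans ?_
          refine (Finset.sum_le_sum_of_subset_of_nonneg (Finset.subset_univ _)
            fun _ _ _ => abs_nonneg _).trans ?_
          exact Finset.sum_le_sum fun b _ => by rw [abs_sub_comm]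
      _ = l1 P P' := by
          unfold l1
          exact ENNReal.ofReal_sum_of_nonneg fun _ _ => abs_nonneg _
  calc lam {x | quant P x ≠ quant P' x}
      ≤ lam (⋃ a : Fin k, uIcc (cum P a.castSucc) (cum P' a.castSucc)) := measure_mono hsub
    _ ≤ ∑ a : Fin k, lam (uIcc (cum P a.castSucc) (cum P' a.castSucc)) :=
        measure_iUnion_fintype_le _ _
    _ ≤ ∑ _a : Fin k, l1 P P' := Finset.sum_le_sum fun a _ => hone a
    _ = (k : ENNReal) * l1 P P' := by simp

end Pool.Agent.FD82
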