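import Pool.Agent.Lib.FD82.B1_Meas

/-! # B3_Cond: conditional expectation for infinite sets

Proof. `F y = F (ext y)` for `ext y = fun w => if w ∈ A then y w else 0`, so it is enough to show that the two finite
measures `(ν.restrict {y v = a}).map restr` and `(ν.withDensity (ofReal (p v A · a))).map restr` on `A → Fin (k+1)` agree, and
this can be checked on the cylinders `{y = y₀ on B}`, `B ⊆ A` finite (`π`-system; `Measure.pi`-type uniqueness, e.g.
`MeasureTheory.ext_of_generate_finite` with `generateFrom_measurableCylinders`, or with sets `{y | ∀ w ∈ B, y w = y₀ w}`).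
For `B ⊆ A_N := A ∩ ball(v, R N)` sum `Cond` (finite set `A_N ∪ B`) over the
configurations on `A_N ∪ B` extending `y₀|B`: `ν(y = y₀ on B, y v = a) = ∫_{y = y₀ on B} p v (A_N ∪ B) y a dν`, and
`|p v (A_N ∪ B) y a - p v A y a| ≤ 2 δ_N` by `loc` and `close`. -/

set_option autoImplicit false

open MeasureTheory Set Filter Topology

namespace Pool.Agent.FD82

variable {V : Type} {k : ℕ} {G : SimpleGraph V} {C : ℝ} {p : Kern V k}

theorem measurableSet_cyl {W : Type} {k : ℕ} (A : Finset W) (y : W → Fin (k + 1)) :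
    MeasurableSet {ω : W → Fin (k + 1) | ∀ w ∈ A, ω w = y w} := by
  have h : {ω : W → Fin (k + 1) | ∀ w ∈ A, ω w = y w} =
      ⋂ w ∈ A, (fun ω : W → Fin (k + 1) => ω w) ⁻¹' {y w} := by
    ext ω
    simp
  rw [h]
  exact A.measurableSet_biInter fun w _ => (measurable_pi_apply w) (measurableSet_singleton _)

theorem measurableSet_site (v : V) (a : Fin (k + 1)) :
    MeasurableSet {ω : Cfg V k | ω v = a} :=
  measurableSet_eq_fun (measurable_pi_apply v) measurable_const

/-- Two finite measures that agree on the cylinders `{ω = y on A}` are equal. -/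
theorem cyl_ext_fin {W : Type} {k : ℕ} {ν ν' : Measure (W → Fin (k + 1))} [IsFiniteMeasure ν]
    [IsFiniteMeasure ν']
    (h : ∀ (A : Finset W) (y : W → Fin (k + 1)),
      ν {ω | ∀ w ∈ A, ω w = y w} = ν' {ω | ∀ w ∈ A, ω w = y w}) : ν = ν' := by
  classical
  have h1 : ∀ I : Finset W, ν.map I.restrict = ν'.map I.restrict := by
    intro I
    refine Measure.ext_of_singleton fun x => ?_
    rw [Measure.map_apply (by fun_prop) (measurableSet_singleton _),
      Measure.map_apply (by fun_prop) (measurableSet_singleton _)]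
    have h2 : I.restrict ⁻¹' ({x} : Set (∀ i : I, Fin (k + 1))) =
        {ω : W → Fin (k + 1) | ∀ w ∈ I, ω w = if hw : w ∈ I then x ⟨w, hw⟩ else 0} := by
      ext ω
      simp only [mem_preimage, mem_singleton_iff, mem_ofPred_eq]
      constructor
      · rintro rfl w hw
        rw [dif_pos hw]
        rfl
      · intro h3
        funext i
        have h4 := h3 i.1 i.2
        rw [dif_pos i.2] at h4
        exact h4
    rw [h2, h]
  exact IsProjectiveLimit.unique (P := fun I : Finset W => ν'.map I.restrict) h1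
    (fun _ => rfl)

/-- Two probability measures that agree on the cylinders `{ω = y on A}` are equal. -/
theorem cyl_ext {ν ν' : Measure (Cfg V k)} [IsProbabilityMeasure ν] [IsProbabilityMeasure ν']
    (h : ∀ (A : Finset V) (y : Cfg V k),
      ν.real {ω | ∀ w ∈ A, ω w = y w} = ν'.real {ω | ∀ w ∈ A, ω w = y w}) : ν = ν' := by
  refine cyl_ext_fin fun A y => ?_
  have h1 := h A y
  rw [measureReal_def, measureReal_def] at h1
  exact (ENNReal.toReal_eq_toReal_iff' (measure_ne_top _ _) (measure_ne_top _ _)).mp h1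

theorem IsKer.le_one (hp : IsKer G C p) (v : V) (A : Set V) (y : Cfg V k) (a : Fin (k + 1)) :
    p v A y a ≤ 1 := by
  rw [← hp.sum v A y]
  exact Finset.single_le_sum (fun b _ => hp.nonneg v A y b) (Finset.mem_univ a)

/-- The conditional probability for a finite set, integrated over a cylinder. -/
theorem cond_fin (hG : Geo G) (hp : IsKer G C p) {ν : Measure (Cfg V k)}
    [IsProbabilityMeasure ν] (hc : Cond ν p) (D B : Finset V) (hBD : B ⊆ D) (v : V) (hv : v ∉ D)
    (a : Fin (k + 1)) (y₀ : Cfg V k) :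
    ν {ω | (∀ w ∈ B, ω w = y₀ w) ∧ ω v = a} =
      ∫⁻ y in {ω : Cfg V k | ∀ w ∈ B, ω w = y₀ w}, ENNReal.ofReal (p v (D : Set V) y a) ∂ν := by
  classical
  have hmp : Measurable (fun y : Cfg V k => ENNReal.ofReal (p v (D : Set V) y a)) :=
    (meas_kerA hG hp v (D : Set V) a measurable_id).ennreal_ofReal
  have hma : MeasurableSet {ω : Cfg V k | ω v = a} := measurableSet_site v a
  -- the two measures on the finite set
  have key : (ν.restrict {ω : Cfg V k | ω v = a}).map D.restrict =
      (ν.withDensity (fun y => ENNReal.ofReal (p v (D : Set V) y a))).map D.restrict := by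
    refine Measure.ext_of_singleton fun x => ?_
    have hm : Measurable (D.restrict : Cfg V k → (∀ i : D, Fin (k + 1))) := by fun_prop
    rw [Measure.map_apply hm (measurableSet_singleton _),
      Measure.map_apply hm (measurableSet_singleton _)]
    let y : Cfg V k := fun w => if hw : w ∈ D then x ⟨w, hw⟩ else 0
    have h2 : D.restrict ⁻¹' ({x} : Set (∀ i : D, Fin (k + 1))) =
        {ω : Cfg V k | ∀ w ∈ D, ω w = y w} := by
      ext ω
      simp only [mem_preimage, mem_singleton_iff, mem_ofPred_eq, y]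
      constructor
      · rintro rfl w hw
        rw [dif_pos hw]
        rfl
      · intro h3
        funext i
        have h4 := h3 i.1 i.2
        rw [dif_pos i.2] at h4
        exact h4
    have hmc : MeasurableSet {ω : Cfg V k | ∀ w ∈ D, ω w = y w} := measurableSet_cyl D y
    rw [h2, Measure.restrict_apply hmc, withDensity_apply _ hmc]
    have h5 : ∫⁻ ω in {ω : Cfg V k | ∀ w ∈ D, ω w = y w}, ENNReal.ofReal (p v (D : Set V) ω a) ∂ν =
        ∫⁻ _ in {ω : Cfg V k | ∀ w ∈ D, ω w = y w}, ENNReal.ofReal (p v (D : Set V) y a) ∂ν := by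
      refine setLIntegral_congr_fun hmc fun ω hω => ?_
      rw [hp.dep v (D : Set V) (fun w hw => hω w (Finset.mem_coe.mp hw)) a]
    rw [h5, setLIntegral_const]
    have h6 := hc D v hv y a
    rw [measureReal_def, measureReal_def] at h6
    have h7 : ν {ω : Cfg V k | (∀ w ∈ D, ω w = y w) ∧ ω v = a} =
        ENNReal.ofReal (p v (D : Set V) y a) * ν {ω : Cfg V k | ∀ w ∈ D, ω w = y w} := by
      rw [← ENNReal.ofReal_toReal (measure_ne_top ν {ω : Cfg V k | (∀ w ∈ D, ω w = y w) ∧ ω v = a}),
        h6, ENNReal.ofReal_mul (hp.nonneg _ _ _ _),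
        ENNReal.ofReal_toReal (measure_ne_top ν {ω : Cfg V k | ∀ w ∈ D, ω w = y w})]
    exact h7
  have hm : Measurable (D.restrict : Cfg V k → (∀ i : D, Fin (k + 1))) := by fun_prop
  have h8 := congrArg (fun m : Measure (∀ i : D, Fin (k + 1)) =>
    m {x | ∀ w (hw : w ∈ B), x ⟨w, hBD hw⟩ = y₀ w}) key
  have hms : MeasurableSet {x : ∀ i : D, Fin (k + 1) | ∀ w (hw : w ∈ B), x ⟨w, hBD hw⟩ = y₀ w} :=
    MeasurableSet.of_discrete
  have hpre : (D.restrict : Cfg V k → (∀ i : D, Fin (k + 1))) ⁻¹'
      {x | ∀ w (hw : w ∈ B), x ⟨w, hBD hw⟩ = y₀ w} = {ω : Cfg V k | ∀ w ∈ B, ω w = y₀ w} := rfl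
  rw [Measure.map_apply hm hms, Measure.map_apply hm hms, hpre,
    Measure.restrict_apply (measurableSet_cyl B y₀),
    withDensity_apply _ (measurableSet_cyl B y₀)] at h8
  exact h8

/-- The conditional probability for an arbitrary set, integrated over a cylinder. -/
theorem cond_cyl (hG : Geo G) (hp : IsKer G C p) {ν : Measure (Cfg V k)}
    [IsProbabilityMeasure ν] (hc : Cond ν p) (A : Set V) (v : V) (hv : v ∉ A)
    (a : Fin (k + 1)) (B : Finset V) (hB : (B : Set V) ⊆ A) (y₀ : Cfg V k) :
    ν {ω | (∀ w ∈ B, ω w = y₀ w) ∧ ω v = a} =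
      ∫⁻ y in {ω : Cfg V k | ∀ w ∈ B, ω w = y₀ w}, ENNReal.ofReal (p v A y a) ∂ν := by
  classical
  obtain ⟨q, R, δ, hq⟩ := hp.approx
  -- the finite sets
  let A' : ℕ → Finset V := fun N => ((hG.ball v (R N)).inter_of_left A).toFinset
  have hA' : ∀ N w, w ∈ A' N ↔ G.dist v w ≤ R N ∧ w ∈ A := fun N w => by
    simp only [A', Set.Finite.mem_toFinset, mem_inter_iff, mem_ofPred_eq]
  have hdiff : ∀ N (y : Cfg V k),
      |p v ((A' N ∪ B : Finset V) : Set V) y a - p v A y a| ≤ 2 * δ N := by
    intro N y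
    have h1 := hq.loc N v ((A' N ∪ B : Finset V) : Set V) A y y a (fun w hw => by
      simp only [Finset.coe_union, mem_union, Finset.mem_coe, hA']
      constructor
      · rintro (h | h)
        · exact h.2
        · exact hB h
      · intro h
        exact Or.inl ⟨hw, h⟩) (fun _ _ _ => rfl)
    have h2 := abs_le.mp (hq.close N v ((A' N ∪ B : Finset V) : Set V) y a)
    have h3 := abs_le.mp (hq.close N v A y a)
    rw [h1] at h2
    rw [abs_le]
    constructor <;> linarith [h2.1, h2.2, h3.1, h3.2]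
  have hD : ∀ N, ν {ω | (∀ w ∈ B, ω w = y₀ w) ∧ ω v = a} =
      ∫⁻ y in {ω : Cfg V k | ∀ w ∈ B, ω w = y₀ w},
        ENNReal.ofReal (p v ((A' N ∪ B : Finset V) : Set V) y a) ∂ν := by
    intro N
    refine cond_fin hG hp hc (A' N ∪ B) B Finset.subset_union_right v (fun h => ?_) a y₀
    rcases Finset.mem_union.mp h with h | h
    · exact hv ((hA' N v).mp h).2
    · exact hv (hB h)
  set S : Set (Cfg V k) := {ω : Cfg V k | ∀ w ∈ B, ω w = y₀ w} with hS
  have hSm : MeasurableSet S := measurableSet_cyl B y₀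
  have hmA : Measurable (fun y : Cfg V k => ENNReal.ofReal (p v A y a)) :=
    (meas_kerA hG hp v A a measurable_id).ennreal_ofReal
  have hbd : ∀ (N : ℕ) (f g : Cfg V k → ℝ), Measurable (fun y => ENNReal.ofReal (g y)) →
      (∀ y, f y ≤ g y + 2 * δ N) → (∀ y, 0 ≤ g y) → 0 ≤ 2 * δ N →
      ∫⁻ y in S, ENNReal.ofReal (f y) ∂ν ≤
        ∫⁻ y in S, ENNReal.ofReal (g y) ∂ν + ENNReal.ofReal (2 * δ N) := by
    intro N f g hg hfg hg0 hd0
    calc ∫⁻ y in S, ENNReal.ofReal (f y) ∂ν
        ≤ ∫⁻ y in S, (ENNReal.ofReal (g y) + ENNReal.ofReal (2 * δ N)) ∂ν := by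
          refine lintegral_mono fun y => ?_
          rw [← ENNReal.ofReal_add (hg0 y) hd0]
          exact ENNReal.ofReal_le_ofReal (hfg y)
      _ = ∫⁻ y in S, ENNReal.ofReal (g y) ∂ν + ENNReal.ofReal (2 * δ N) * ν S := by
          rw [lintegral_add_left hg, setLIntegral_const]
      _ ≤ ∫⁻ y in S, ENNReal.ofReal (g y) ∂ν + ENNReal.ofReal (2 * δ N) * 1 := by
          gcongr
          exact prob_le_one
      _ = _ := by rw [mul_one]
  have hδ0 : ∀ N, 0 ≤ 2 * δ N := fun N => (abs_nonneg _).trans (hdiff N 0)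
  have hlim : Tendsto (fun N => ENNReal.ofReal (2 * δ N)) atTop (𝓝 0) := by
    have h := (ENNReal.tendsto_ofReal (hq.tend.const_mul 2))
    simpa using h
  refine le_antisymm ?_ ?_
  · have h1 : Tendsto (fun N => ∫⁻ y in S, ENNReal.ofReal (p v A y a) ∂ν +
        ENNReal.ofReal (2 * δ N)) atTop (𝓝 (∫⁻ y in S, ENNReal.ofReal (p v A y a) ∂ν)) := by
      have h := (tendsto_const_nhds (x := ∫⁻ y in S, ENNReal.ofReal (p v A y a) ∂ν)
        (f := (atTop : Filter ℕ))).add hlim
      simpa using h
    refine ge_of_tendsto' h1 fun N => ?_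
    rw [hD N]
    refine hbd N _ _ hmA (fun y => ?_) (fun y => hp.nonneg _ _ _ _) (hδ0 N)
    linarith [(abs_le.mp (hdiff N y)).2]
  · have h1 : Tendsto (fun N => ν {ω | (∀ w ∈ B, ω w = y₀ w) ∧ ω v = a} +
        ENNReal.ofReal (2 * δ N)) atTop (𝓝 (ν {ω | (∀ w ∈ B, ω w = y₀ w) ∧ ω v = a})) := by
      have h := (tendsto_const_nhds (x := ν {ω | (∀ w ∈ B, ω w = y₀ w) ∧ ω v = a})
        (f := (atTop : Filter ℕ))).add hlim
      simpa using h
    refine ge_of_tendsto' h1 fun N => ?_
    rw [hD N]
    refine hbd N _ _ ((meas_kerA hG hp v _ a measurable_id).ennreal_ofReal) (fun y => ?_)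
      (fun y => hp.nonneg _ _ _ _) (hδ0 N)
    linarith [(abs_le.mp (hdiff N y)).1]

theorem cond_exp (hG : Geo G) (hp : IsKer G C p) {ν : Measure (Cfg V k)} [IsProbabilityMeasure ν]
    (hc : Cond ν p) (A : Set V) (v : V) (hv : v ∉ A) (a : Fin (k + 1)) {F : Cfg V k → ENNReal}
    (hF : Measurable F) (hFA : ∀ y y', (∀ w ∈ A, y w = y' w) → F y = F y') :
    ∫⁻ y, F y * (if y v = a then 1 else 0) ∂ν = ∫⁻ y, F y * ENNReal.ofReal (p v A y a) ∂ν := by
  classical
  let res : Cfg V k → (A → Fin (k + 1)) := fun y w => y w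
  let ext : (A → Fin (k + 1)) → Cfg V k := fun z w => if hw : w ∈ A then z ⟨w, hw⟩ else 0
  have hres : Measurable res := measurable_pi_lambda _ fun w => measurable_pi_apply _
  have hext : Measurable ext := by
    refine measurable_pi_lambda _ fun w => ?_
    by_cases hw : w ∈ A
    · simp only [ext, hw, dif_pos]
      exact measurable_pi_apply _
    · simp only [ext, hw, dif_neg, not_false_eq_true]
      exact measurable_const
  have hFe : ∀ y, F y = (F ∘ ext) (res y) := by
    intro y
    refine hFA _ _ fun w hw => ?_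
    simp only [ext, res, hw, dif_pos]
  have hma : MeasurableSet {ω : Cfg V k | ω v = a} := measurableSet_site v a
  have hmp : Measurable (fun y : Cfg V k => ENNReal.ofReal (p v A y a)) :=
    (meas_kerA hG hp v A a measurable_id).ennreal_ofReal
  have hfin : IsFiniteMeasure (ν.withDensity (fun y => ENNReal.ofReal (p v A y a))) := by
    refine isFiniteMeasure_withDensity ?_
    refine ((lintegral_mono (g := fun _ => (1 : ENNReal)) fun y => ?_).trans_lt ?_).ne
    · exact ENNReal.ofReal_le_one.mpr (hp.le_one v A y a)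
    · rw [lintegral_const, one_mul]
      exact measure_lt_top _ _
  have key : (ν.restrict {ω : Cfg V k | ω v = a}).map res =
      (ν.withDensity (fun y => ENNReal.ofReal (p v A y a))).map res := by
    refine cyl_ext_fin fun B y => ?_
    rw [Measure.map_apply hres (measurableSet_cyl B y),
      Measure.map_apply hres (measurableSet_cyl B y)]
    have hB : ((B.map (Function.Embedding.subtype _) : Finset V) : Set V) ⊆ A := by
      intro w hw
      simp only [Finset.coe_map, Function.Embedding.coe_subtype, mem_image, Finset.mem_coe] at hw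
      obtain ⟨w', -, rfl⟩ := hw
      exact w'.2
    have h1 : res ⁻¹' {ω | ∀ w ∈ B, ω w = y w} =
        {ω : Cfg V k | ∀ w ∈ B.map (Function.Embedding.subtype _), ω w = ext y w} := by
      ext ω
      simp only [mem_preimage, mem_ofPred_eq, res, Finset.mem_map, Function.Embedding.coe_subtype]
      constructor
      · rintro h _ ⟨w, hw, rfl⟩
        rw [h w hw]
        simp only [ext, w.2, dif_pos]
      · intro h w hw
        rw [h w ⟨w, hw, rfl⟩]
        simp only [ext, w.2, dif_pos]
    rw [h1, Measure.restrict_apply (measurableSet_cyl _ _),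
      withDensity_apply _ (measurableSet_cyl _ _)]
    exact cond_cyl hG hp hc A v hv a _ hB (ext y)
  calc ∫⁻ y, F y * (if y v = a then 1 else 0) ∂ν
      = ∫⁻ y in {ω : Cfg V k | ω v = a}, F y ∂ν := by
        rw [← lintegral_indicator hma]
        refine lintegral_congr fun y => ?_
        by_cases h : y v = a
        · rw [if_pos h, mul_one, indicator_of_mem (by exact h)]
        · rw [if_neg h, mul_zero, indicator_of_notMem (by exact h)]
    _ = ∫⁻ z, (F ∘ ext) z ∂((ν.restrict {ω : Cfg V k | ω v = a}).map res) := by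
        rw [lintegral_map (hF.comp hext) hres]
        exact lintegral_congr fun y => hFe y
    _ = ∫⁻ z, (F ∘ ext) z ∂((ν.withDensity (fun y => ENNReal.ofReal (p v A y a))).map res) := by
        rw [key]
    _ = ∫⁻ y, F y * ENNReal.ofReal (p v A y a) ∂ν := by
        rw [lintegral_map (hF.comp hext) hres]
        have h9 := lintegral_withDensity_eq_lintegral_mul ν hmp ((hF.comp hext).comp hres)
        refine h9.trans ?_
        refine lintegral_congr fun y => ?_
        rw [Pi.mul_apply, mul_comm]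
        congr 1
        exact (hFe y).symm

end Pool.Agent.FD82
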