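import Pool.Agent.Lib.FD82.Defs

/-! # B4_Labels: the iid labels

-/

set_option autoImplicit false

open MeasureTheory Set Filter Topology

namespace Pool.Agent.FD82

variable {V : Type} {k : ℕ} {G : SimpleGraph V}

theorem LL_pi (s : Finset V) {t : V → Set ℝ} (ht : ∀ i ∈ s, MeasurableSet (t i)) :
    LL V (Set.pi s t) = ∏ i ∈ s, lam (t i) :=
  Measure.infinitePi_pi (μ := fun _ : V => lam) ht

open Classical in
theorem LL_upd_map (v : V) :
    ((LL V).prod lam).map (fun p : (V → ℝ) × ℝ => Function.update p.1 v p.2) = LL V := by
  have hm : Measurable (fun p : (V → ℝ) × ℝ => Function.update p.1 v p.2) := by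
    refine measurable_pi_iff.2 fun w => ?_
    by_cases hw : w = v
    · subst hw
      simpa using measurable_snd
    · simp only [Function.update_of_ne hw]
      exact (measurable_pi_apply w).comp measurable_fst
  refine Measure.eq_infinitePi (μ := fun _ : V => lam) fun s t ht => ?_
  rw [Measure.map_apply hm (.pi s.countable_toSet fun _ _ => ht _)]
  by_cases hv : v ∈ s
  · have hset : (fun p : (V → ℝ) × ℝ => Function.update p.1 v p.2) ⁻¹' ((s : Set V).pi t) =
        (((s.erase v : Finset V) : Set V).pi t) ×ˢ (t v) := by
      ext p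
      simp only [mem_preimage, Set.mem_pi, Finset.mem_coe, mem_prod, Finset.mem_erase]
      constructor
      · intro h
        refine ⟨fun i hi => ?_, ?_⟩
        · have := h i hi.2
          rwa [Function.update_of_ne hi.1] at this
        · have := h v hv
          rwa [Function.update_self] at this
      · rintro ⟨h1, h2⟩ i hi
        by_cases hiv : i = v
        · subst hiv
          rwa [Function.update_self]
        · rw [Function.update_of_ne hiv]
          exact h1 i ⟨hiv, hi⟩
    rw [hset, Measure.prod_prod, LL_pi _ (fun i _ => ht i), mul_comm,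
      Finset.mul_prod_erase s (fun i => lam (t i)) hv]
  · have hset : (fun p : (V → ℝ) × ℝ => Function.update p.1 v p.2) ⁻¹' ((s : Set V).pi t) =
        ((s : Set V).pi t) ×ˢ univ := by
      ext p
      simp only [mem_preimage, Set.mem_pi, Finset.mem_coe, mem_prod, mem_univ, and_true]
      refine forall₂_congr fun i hi => ?_
      have hiv : i ≠ v := fun h => hv (h ▸ hi)
      rw [Function.update_of_ne hiv]
    rw [hset, Measure.prod_prod, LL_pi _ (fun i _ => ht i), measure_univ, mul_one]

open Classical in
/-- Resampling one coordinate. (The law of `Function.update U v c` under `(LL V).prod lam` is `LL V`: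
`Measure.eq_infinitePi`.) -/
theorem LL_upd (v : V) {f : (V → ℝ) → ENNReal} (hf : Measurable f) :
    ∫⁻ U, f U ∂(LL V) = ∫⁻ U, ∫⁻ c, f (Function.update U v c) ∂lam ∂(LL V) := by
  have hm : Measurable (fun p : (V → ℝ) × ℝ => Function.update p.1 v p.2) := by
    refine measurable_pi_iff.2 fun w => ?_
    by_cases hw : w = v
    · subst hw
      simpa using measurable_snd
    · simp only [Function.update_of_ne hw]
      exact (measurable_pi_apply w).comp measurable_fst
  conv_lhs => rw [← LL_upd_map v]
  rw [lintegral_map hf hm]
  exact lintegral_prod (μ := LL V) (ν := lam)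
    (fun p : (V → ℝ) × ℝ => f (Function.update p.1 v p.2)) (hf.comp hm).aemeasurable

/-- Permuting the coordinates. -/
theorem LL_perm (g : V ≃ V) : (LL V).map (fun U : V → ℝ => U ∘ g) = LL V := by
  classical
  have hm : Measurable (fun U : V → ℝ => U ∘ g) :=
    measurable_pi_iff.2 fun w => measurable_pi_apply (g w)
  refine Measure.eq_infinitePi (μ := fun _ : V => lam) fun s t ht => ?_
  rw [Measure.map_apply hm (.pi s.countable_toSet fun _ _ => ht _)]
  have hset : (fun U : V → ℝ => U ∘ g) ⁻¹' ((s : Set V).pi t) =
      ((s.map g.toEmbedding : Finset V) : Set V).pi (fun w => t (g.symm w)) := by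
    ext U
    simp only [mem_preimage, Set.mem_pi, Finset.mem_coe, Function.comp, Finset.mem_map,
      Equiv.coe_toEmbedding]
    constructor
    · rintro h i ⟨j, hj, rfl⟩
      simpa using h j hj
    · intro h i hi
      simpa using h (g i) ⟨i, hi, rfl⟩
  rw [hset, LL_pi _ (fun i _ => ht _)]
  simp

theorem LL_map_eval (v : V) : (LL V).map (fun U : V → ℝ => U v) = lam :=
  Measure.infinitePi_map_eval (μ := fun _ : V => lam) v

theorem LL_inj [Countable V] : ∀ᵐ U ∂(LL V), Function.Injective U := by
  classical
  have h : ∀ v w : V, v ≠ w → ∀ᵐ U ∂(LL V), U v ≠ U w := by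
    intro v w hvw
    have hms : MeasurableSet {U : V → ℝ | U v = U w} :=
      measurableSet_eq_fun (measurable_pi_apply v) (measurable_pi_apply w)
    have h0 : LL V {U : V → ℝ | U v = U w} = 0 := by
      rw [← lintegral_indicator_one hms, LL_upd v (measurable_one.indicator hms)]
      have hin : ∀ U : V → ℝ, ∫⁻ c, ({U : V → ℝ | U v = U w}.indicator
          (1 : (V → ℝ) → ENNReal)) (Function.update U v c) ∂lam = 0 := by
        intro U
        have : (fun c => ({U : V → ℝ | U v = U w}.indicator (1 : (V → ℝ) → ENNReal))
            (Function.update U v c)) = ({U w} : Set ℝ).indicator 1 := by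
          funext c
          by_cases hc : c = U w
          · rw [indicator_of_mem, indicator_of_mem]
            · rfl
            · exact hc
            · simp [Function.update_of_ne (Ne.symm hvw), hc]
          · rw [indicator_of_notMem, indicator_of_notMem]
            · exact hc
            · simp [Function.update_of_ne (Ne.symm hvw), hc]
        rw [this, lintegral_indicator_one (measurableSet_singleton _)]
        unfold lam
        exact measure_mono_null subset_rfl (by
          rw [Measure.restrict_apply (measurableSet_singleton _)]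
          exact measure_mono_null inter_subset_left (measure_singleton _))
      simp only [hin, lintegral_zero]
    filter_upwards [measure_eq_zero_iff_ae_notMem.1 h0] with U hU
    exact hU
  have h2 : ∀ᵐ U ∂(LL V), ∀ v w : V, v ≠ w → U v ≠ U w := by
    rw [ae_all_iff]; intro v
    rw [ae_all_iff]; intro w
    by_cases hvw : v = w
    · exact Filter.Eventually.of_forall fun U h => absurd hvw h
    · filter_upwards [h v w hvw] with U hU _ using hU
  filter_upwards [h2] with U hU v w hvw
  by_contra hne
  exact hU v w hne hvw

theorem LL_mem [Countable V] : ∀ᵐ U ∂(LL V), ∀ v, 0 ≤ U v ∧ U v < 1 := by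
  rw [ae_all_iff]; intro v
  have h1 : ∀ᵐ c ∂lam, 0 ≤ c ∧ c < 1 := by
    have h2 : ∀ᵐ c ∂lam, c ∈ Icc (0 : ℝ) 1 := ae_restrict_mem measurableSet_Icc
    have h3 : ∀ᵐ c ∂lam, c ≠ 1 := by
      have : lam {(1 : ℝ)} = 0 := by
        unfold lam
        rw [Measure.restrict_apply (measurableSet_singleton _)]
        exact measure_mono_null inter_subset_left (measure_singleton _)
      filter_upwards [measure_eq_zero_iff_ae_notMem.1 this] with c hc
      exact hc
    filter_upwards [h2, h3] with c hc1 hc2
    exact ⟨hc1.1, lt_of_le_of_ne hc1.2 hc2⟩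
  rw [← LL_map_eval v] at h1
  exact ae_of_ae_map (measurable_pi_apply v).aemeasurable h1

theorem Geo.countable (hG : Geo G) : Countable V := by
  obtain ⟨v⟩ := hG.conn.nonempty
  have : (univ : Set V) = ⋃ n : ℕ, {w | G.dist v w ≤ n} := by
    ext w
    simp only [mem_univ, mem_iUnion, true_iff]
    exact ⟨G.dist v w, show G.dist v w ≤ G.dist v w from le_rfl⟩
  rw [← Set.countable_univ_iff, this]
  exact countable_iUnion fun n => (hG.ball v n).countable

/-- Uniqueness: a probability measure on `(V → ℝ)` with `μ(∀ v ∈ A, f v (U v))` product-like is `LL V`. -/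
theorem LL_ext {ν : Measure (V → ℝ)} [IsProbabilityMeasure ν]
    (h : ∀ (A : Finset V) (f : V → ℝ → ENNReal), (∀ v, Measurable (f v)) →
      ∫⁻ U, ∏ v ∈ A, f v (U v) ∂ν = ∏ v ∈ A, ∫⁻ c, f v c ∂lam) : ν = LL V := by
  classical
  refine Measure.eq_infinitePi (μ := fun _ : V => lam) fun s t ht => ?_
  have h1 := h s (fun v => (t v).indicator 1) (fun v => measurable_one.indicator (ht v))
  have h2 : (fun U : V → ℝ => ∏ v ∈ s, (t v).indicator (1 : ℝ → ENNReal) (U v)) =
      ((s : Set V).pi t).indicator 1 := by
    funext U
    by_cases hU : U ∈ (s : Set V).pi t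
    · rw [indicator_of_mem hU]
      refine Finset.prod_eq_one fun v hv => ?_
      rw [indicator_of_mem (hU v (Finset.mem_coe.2 hv))]
      rfl
    · rw [indicator_of_notMem hU]
      simp only [Set.mem_pi, Finset.mem_coe, not_forall] at hU
      obtain ⟨v, hv, hvt⟩ := hU
      exact Finset.prod_eq_zero hv (indicator_of_notMem hvt _)
  rw [h2, lintegral_indicator_one (.pi s.countable_toSet fun _ _ => ht _)] at h1
  rw [h1]
  refine Finset.prod_congr rfl fun v _ => ?_
  exact lintegral_indicator_one (ht v)

end Pool.Agent.FD82
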