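import Pool.Agent.Lib.FD82.B1_Meas
import Pool.Agent.Lib.FD82.B2_Quant
import Pool.Agent.Lib.FD82.B3_Cond
import Pool.Agent.Lib.FD82.B4_Labels

/-! # B5_OneStep: the one-step lemma, adaptedness

* `one_step`: resample `ζ v` by `LL_upd` (`Φ` does not depend on `ζ v` as `v ∉ A`), split according to `y v = a`,
  apply `cond_exp` with `F y = ∫⁻ c, Φ y ζ (rr (p v A y) a c) ∂lam` (depends only on `A` by `IsKer.dep`), and then
  `lintegral_rr`.
* `xi_iid`: for fixed injective `U` show `∫⁻ ∏_{v ∈ S} f v (xi p y U ζ v) = ∏_{v ∈ S} ∫⁻ f v dlam` by induction on `#S`: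
  take out the vertex `v ∈ S` with maximal `U v`, use `one_step` with `A = As U (U v)` and
  `Φ y ζ c = f v c * ∏_{w ∈ S - v} f w (xi p y U ζ w)` (`xi_adapt`). Then `LL_ext` and Fubini in `U`. -/

set_option autoImplicit false

open MeasureTheory Set Filter Topology

namespace Pool.Agent.FD82

variable {V : Type} {k : ℕ} {G : SimpleGraph V} {C : ℝ} {p : Kern V k}

theorem one_step (hG : Geo G) (hp : IsKer G C p) {ν : Measure (Cfg V k)} [IsProbabilityMeasure ν]
    (hc : Cond ν p) (A : Set V) (v : V) (hv : v ∉ A) {Φ : Cfg V k → (V → ℝ) → ℝ → ENNReal}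
    (hΦ : Measurable (fun x : (Cfg V k × (V → ℝ)) × ℝ => Φ x.1.1 x.1.2 x.2))
    (hA : ∀ y y' ζ ζ' c, (∀ w ∈ A, y w = y' w) → (∀ w ∈ A, ζ w = ζ' w) → Φ y ζ c = Φ y' ζ' c) :
    ∫⁻ x, Φ x.1 x.2 (rr (p v A x.1) (x.1 v) (x.2 v)) ∂(ν.prod (LL V)) =
      ∫⁻ x, ∫⁻ c, Φ x.1 x.2 c ∂lam ∂(ν.prod (LL V)) := by
  classical
  -- measurability of the transformed integrand
  have hrr : ∀ {X : Type} [MeasurableSpace X] {Y : X → Cfg V k} {b : X → Fin (k + 1)}
      {c : X → ℝ}, Measurable Y → Measurable b → Measurable c →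
      Measurable (fun x => rr (p v A (Y x)) (b x) (c x)) := by
    intro X _ Y b c hY hb hcm
    exact meas_rr (fun a => meas_kerA hG hp v A a hY) hb hcm
  have hcomp : ∀ {X : Type} [MeasurableSpace X] {Y : X → Cfg V k} {Z : X → V → ℝ} {c : X → ℝ},
      Measurable Y → Measurable Z → Measurable c → Measurable (fun x => Φ (Y x) (Z x) (c x)) := by
    intro X _ Y Z c hY hZ hcm
    exact hΦ.comp ((hY.prodMk hZ).prodMk hcm)
  have hev : Measurable (fun y : Cfg V k => y v) := measurable_pi_apply v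
  have hm1 : Measurable (fun x : Cfg V k × (V → ℝ) =>
      Φ x.1 x.2 (rr (p v A x.1) (x.1 v) (x.2 v))) :=
    hcomp measurable_fst measurable_snd (hrr measurable_fst (hev.comp measurable_fst)
      ((measurable_pi_apply v).comp measurable_snd))
  have hm2 : Measurable (fun x : Cfg V k × (V → ℝ) => ∫⁻ c, Φ x.1 x.2 c ∂lam) :=
    Measurable.lintegral_prod_right' hΦ
  rw [lintegral_prod_symm _ hm1.aemeasurable, lintegral_prod_symm _ hm2.aemeasurable]
  have hm3 : Measurable (fun ζ : V → ℝ =>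
      ∫⁻ y, Φ y ζ (rr (p v A y) (y v) (ζ v)) ∂ν) := Measurable.lintegral_prod_left' hm1
  rw [LL_upd v hm3]
  refine lintegral_congr fun ζ => ?_
  -- the value at `v` of `ζ` does not matter
  have h1 : ∀ c : ℝ, (∫⁻ y, Φ y (Function.update ζ v c)
      (rr (p v A y) (y v) (Function.update ζ v c v)) ∂ν) =
      ∫⁻ y, Φ y ζ (rr (p v A y) (y v) c) ∂ν := by
    intro c
    refine lintegral_congr fun y => ?_
    rw [Function.update_self]
    refine hA _ _ _ _ _ (fun _ _ => rfl) fun w hw => ?_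
    have hwv : w ≠ v := fun h => hv (h ▸ hw)
    rw [Function.update_of_ne hwv]
  simp only [h1]
  have hm4 : Measurable (fun x : ℝ × Cfg V k => Φ x.2 ζ (rr (p v A x.2) (x.2 v) x.1)) :=
    hcomp measurable_snd measurable_const (hrr measurable_snd (hev.comp measurable_snd)
      measurable_fst)
  rw [lintegral_lintegral_swap hm4.aemeasurable]
  -- split according to the value at `v`
  have hmG : ∀ a, Measurable (fun y : Cfg V k => ∫⁻ c, Φ y ζ (rr (p v A y) a c) ∂lam) := by
    intro a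
    have h2 : Measurable (fun x : Cfg V k × ℝ => Φ x.1 ζ (rr (p v A x.1) a x.2)) :=
      hcomp measurable_fst measurable_const (hrr measurable_fst measurable_const measurable_snd)
    exact Measurable.lintegral_prod_right' h2
  have hdep : ∀ y y' : Cfg V k, (∀ w ∈ A, y w = y' w) → p v A y = p v A y' := fun y y' h => by
    funext a
    exact hp.dep v A h a
  have h3 : ∀ y : Cfg V k, (∫⁻ c, Φ y ζ (rr (p v A y) (y v) c) ∂lam) =
      ∑ a, (∫⁻ c, Φ y ζ (rr (p v A y) a c) ∂lam) * (if y v = a then 1 else 0) := by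
    intro y
    simp only [mul_ite, mul_one, mul_zero, Finset.sum_ite_eq, Finset.mem_univ, if_true]
  have hmi : ∀ a : Fin (k + 1), Measurable (fun y : Cfg V k => (if y v = a then 1 else 0 : ENNReal)) :=
    fun a => (Measurable.of_discrete (f := fun b : Fin (k + 1) =>
      (if b = a then 1 else 0 : ENNReal))).comp hev
  simp only [h3]
  have hms : ∀ a : Fin (k + 1), Measurable (fun y : Cfg V k =>
      (∫⁻ c, Φ y ζ (rr (p v A y) a c) ∂lam) * (if y v = a then 1 else 0)) :=
    fun a => (hmG a).mul (hmi a)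
  have hms' : ∀ a : Fin (k + 1), Measurable (fun y : Cfg V k =>
      (∫⁻ c, Φ y ζ (rr (p v A y) a c) ∂lam) * ENNReal.ofReal (p v A y a)) :=
    fun a => (hmG a).mul (meas_kerA hG hp v A a measurable_id).ennreal_ofReal
  rw [lintegral_finsetSum _ fun a _ => hms a]
  have h4 : ∀ a, (∫⁻ y, (∫⁻ c, Φ y ζ (rr (p v A y) a c) ∂lam) * (if y v = a then 1 else 0) ∂ν) =
      ∫⁻ y, (∫⁻ c, Φ y ζ (rr (p v A y) a c) ∂lam) * ENNReal.ofReal (p v A y a) ∂ν := by
    intro a
    refine cond_exp hG hp hc A v hv a (hmG a) fun y y' h => ?_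
    rw [hdep y y' h]
    refine lintegral_congr fun c => ?_
    exact hA _ _ _ _ _ h (fun _ _ => rfl)
  simp only [h4]
  rw [← lintegral_finsetSum _ fun a _ => hms' a]
  refine lintegral_congr fun y => ?_
  have h5 := lintegral_rr (P := p v A y) (fun a => hp.nonneg v A y a) (hp.sum v A y)
    (f := fun c => Φ y ζ c) (hcomp measurable_const measurable_const measurable_id)
  rw [← h5]
  exact Finset.sum_congr rfl fun a _ => mul_comm _ _

/-- The sets of earlier vertices agree. -/
theorem as_adapt {U U' : V → ℝ} {s : ℝ}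
    (hU : ∀ w, U w = U' w ∨ (s ≤ U w ∧ s ≤ U' w)) {w : V} (hw : U w < s) :
    As U' (U' w) = As U (U w) := by
  have hw' : U' w = U w := by
    rcases hU w with h | h
    · exact h.symm
    · linarith [h.1]
  ext w'
  change U' w' < U' w ↔ U w' < U w
  rw [hw']
  rcases hU w' with h | ⟨h1, h2⟩
  · rw [h]
  · constructor
    · intro h3
      linarith
    · intro h3
      linarith

/-- `xi` below the level `s` only depends on what is below the level `s`. -/
theorem xi_adapt (hp : IsKer G C p) {y y' : Cfg V k} {U U' ζ ζ' : V → ℝ} {s : ℝ}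
    (hU : ∀ w, U w = U' w ∨ (s ≤ U w ∧ s ≤ U' w)) (hy : ∀ w, U w < s → y w = y' w)
    (hζ : ∀ w, U w < s → ζ w = ζ' w) {w : V} (hw : U w < s) :
    xi p y U ζ w = xi p y' U' ζ' w := by
  have h : p w (As U (U w)) y = p w (As U (U w)) y' := by
    funext a
    exact hp.dep w _ (fun w' hw' => hy w' (lt_trans hw' hw)) a
  change rr (p w (As U (U w)) y) (y w) (ζ w) = rr (p w (As U' (U' w)) y') (y' w) (ζ' w)
  rw [as_adapt hU hw, h, hy w hw, hζ w hw]

/-- `pic` below the level `s` only depends on what is below the level `s`. -/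
theorem pic_adapt (hp : IsKer G C p) {U U' ξ ξ' : V → ℝ} {s : ℝ}
    (hU : ∀ w, U w = U' w ∨ (s ≤ U w ∧ s ≤ U' w)) (hξ : ∀ w, U w < s → ξ w = ξ' w) (n : ℕ)
    {w : V} (hw : U w < s) : pic p n U ξ w = pic p n U' ξ' w := by
  induction n generalizing w with
  | zero => rfl
  | succ n ih =>
    have h : p w (As U (U w)) (pic p n U ξ) = p w (As U (U w)) (pic p n U' ξ') := by
      funext a
      exact hp.dep w _ (fun w' hw' => ih (lt_trans hw' hw)) a
    change quant (p w (As U (U w)) (pic p n U ξ)) (ξ w) =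
      quant (p w (As U' (U' w)) (pic p n U' ξ')) (ξ' w)
    rw [as_adapt hU hw, h, hξ w hw]

end Pool.Agent.FD82
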