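import Pool.Agent.Lib.FD82.B5_OneStep

/-! # B6_Iid: (U, xi) is iid

* `one_step`: resample `ζ v` by `LL_upd` (`Φ` does not depend on `ζ v` as `v ∉ A`), split according to `y v = a`,
  apply `cond_exp` with `F y = ∫⁻ c, Φ y ζ (rr (p v A y) a c) ∂lam` (depends only on `A` by `IsKer.dep`), and then
  `lintegral_rr`.
* `xi_iid`: for fixed injective `U` show `∫⁻ ∏_{v ∈ S} f v (xi p y U ζ v) = ∏_{v ∈ S} ∫⁻ f v dlam` by induction on `#S`:
  take out the vertex `v ∈ S` with maximal `U v`, use `one_step` with `A = As U (U v)` and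
  `Φ y ζ c = f v c * ∏_{w ∈ S - v} f w (xi p y U ζ w)` (`xi_adapt`). Then `LL_ext` and Fubini in `U`. -/

set_option autoImplicit false

open MeasureTheory Set Filter Topology

namespace Pool.Agent.FD82

variable {V : Type} {k : ℕ} {G : SimpleGraph V} {C : ℝ} {p : Kern V k}

/-- The product formula for a fixed injective assignment of the labels. -/
theorem xi_prod (hG : Geo G) (hp : IsKer G C p) {ν : Measure (Cfg V k)} [IsProbabilityMeasure ν]
    (hc : Cond ν p) {U : V → ℝ} (hU : Function.Injective U) {f : V → ℝ → ENNReal}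
    (hf : ∀ v, Measurable (f v)) (n : ℕ) : ∀ A : Finset V, A.card = n →
    ∫⁻ x, ∏ v ∈ A, f v (xi p x.1 U x.2 v) ∂(ν.prod (LL V)) = ∏ v ∈ A, ∫⁻ c, f v c ∂lam := by
  classical
  induction n with
  | zero =>
    intro A hA
    rw [Finset.card_eq_zero] at hA
    subst hA
    simp
  | succ n ih =>
    intro A hA
    have hne : A.Nonempty := Finset.card_pos.1 (by omega)
    obtain ⟨v, hv, hmax⟩ := A.exists_max_image U hne
    set S := A.erase v with hS
    have hvS : v ∉ S := Finset.notMem_erase v A
    have hAS : A = insert v S := (Finset.insert_erase hv).symm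
    have hcard : S.card = n := by
      rw [hS, Finset.card_erase_of_mem hv, hA]
      rfl
    have hlt : ∀ w ∈ S, U w < U v := by
      intro w hw
      have h1 := Finset.mem_erase.1 hw
      exact lt_of_le_of_ne (hmax w h1.2) fun h => h1.1 (hU h)
    have hmxi : ∀ w, Measurable (fun x : Cfg V k × (V → ℝ) => xi p x.1 U x.2 w) := fun w =>
      (measurable_pi_apply w).comp
        (meas_xi hG hp measurable_fst measurable_const measurable_snd)
    have hmS : Measurable (fun x : Cfg V k × (V → ℝ) => ∏ w ∈ S, f w (xi p x.1 U x.2 w)) :=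
      Finset.measurable_fun_prod _ fun w _ => (hf w).comp (hmxi w)
    have hstep := one_step hG hp hc (As U (U v)) v (fun h : U v < U v => lt_irrefl _ h)
      (Φ := fun y ζ c => f v c * ∏ w ∈ S, f w (xi p y U ζ w))
      (((hf v).comp measurable_snd).mul (hmS.comp measurable_fst))
      (by
        intro y y' ζ ζ' c hy hζ
        refine congrArg₂ (· * ·) rfl (Finset.prod_congr rfl fun w hw => ?_)
        rw [xi_adapt hp (s := U v) (fun _ => Or.inl rfl) hy hζ (hlt w hw)])
    rw [hAS]
    simp only [Finset.prod_insert hvS]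
    have h2 : ∀ x : Cfg V k × (V → ℝ), (∫⁻ c, f v c * ∏ w ∈ S, f w (xi p x.1 U x.2 w) ∂lam) =
        (∫⁻ c, f v c ∂lam) * ∏ w ∈ S, f w (xi p x.1 U x.2 w) := fun x =>
      lintegral_mul_const _ (hf v)
    simp only [h2] at hstep
    rw [lintegral_const_mul _ hmS, ih S hcard] at hstep
    exact hstep

theorem xi_law (hG : Geo G) (hp : IsKer G C p) {ν : Measure (Cfg V k)} [IsProbabilityMeasure ν]
    (hc : Cond ν p) {U : V → ℝ} (hU : Function.Injective U) :
    (ν.prod (LL V)).map (fun x => xi p x.1 U x.2) = LL V := by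
  have hm : Measurable (fun x : Cfg V k × (V → ℝ) => xi p x.1 U x.2) :=
    meas_xi hG hp measurable_fst measurable_const measurable_snd
  have : IsProbabilityMeasure ((ν.prod (LL V)).map (fun x => xi p x.1 U x.2)) :=
    Measure.isProbabilityMeasure_map hm.aemeasurable
  refine LL_ext fun A f hf => ?_
  have hmp : Measurable (fun ξ : V → ℝ => ∏ v ∈ A, f v (ξ v)) :=
    Finset.measurable_fun_prod _ fun v _ => (hf v).comp (measurable_pi_apply v)
  rw [lintegral_map hmp hm]
  exact xi_prod hG hp hc hU hf A.card A rfl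

theorem xi_iid (hG : Geo G) (hp : IsKer G C p) {ν : Measure (Cfg V k)} [IsProbabilityMeasure ν]
    (hc : Cond ν p) :
    (ν.prod ((LL V).prod (LL V))).map (fun x => (x.2.1, xi p x.1 x.2.1 x.2.2)) =
      (LL V).prod (LL V) := by
  have := hG.countable
  have hm : Measurable (fun x : Cfg V k × ((V → ℝ) × (V → ℝ)) =>
      (x.2.1, xi p x.1 x.2.1 x.2.2)) :=
    (measurable_fst.comp measurable_snd).prodMk
      (meas_xi hG hp measurable_fst (measurable_fst.comp measurable_snd)
        (measurable_snd.comp measurable_snd))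
  refine Measure.ext_of_lintegral _ fun f hf => ?_
  have hfm : Measurable (fun x : Cfg V k × ((V → ℝ) × (V → ℝ)) =>
      f (x.2.1, xi p x.1 x.2.1 x.2.2)) := hf.comp hm
  rw [lintegral_map hf hm, lintegral_prod _ hfm.aemeasurable, lintegral_prod _ hf.aemeasurable]
  have h1 : ∀ y : Cfg V k, (∫⁻ z, f (z.1, xi p y z.1 z.2) ∂((LL V).prod (LL V))) =
      ∫⁻ U, ∫⁻ ζ, f (U, xi p y U ζ) ∂(LL V) ∂(LL V) := by
    intro y
    have h2 : Measurable (fun z : (V → ℝ) × (V → ℝ) => f (z.1, xi p y z.1 z.2)) :=
      hf.comp (measurable_fst.prodMk (meas_xi hG hp measurable_const measurable_fst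
        measurable_snd))
    exact lintegral_prod _ h2.aemeasurable
  simp only [h1]
  have h3 : Measurable (fun z : Cfg V k × (V → ℝ) => ∫⁻ ζ, f (z.2, xi p z.1 z.2 ζ) ∂(LL V)) := by
    have h4 : Measurable (fun w : (Cfg V k × (V → ℝ)) × (V → ℝ) =>
        f (w.1.2, xi p w.1.1 w.1.2 w.2)) :=
      hf.comp ((measurable_snd.comp measurable_fst).prodMk
        (meas_xi hG hp (measurable_fst.comp measurable_fst) (measurable_snd.comp measurable_fst)
          measurable_snd))
    exact Measurable.lintegral_prod_right' h4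
  rw [lintegral_lintegral_swap h3.aemeasurable]
  refine lintegral_congr_ae ?_
  filter_upwards [LL_inj (V := V)] with U hU
  have h5 := xi_law hG hp hc hU
  have h6 : Measurable (fun ξ : V → ℝ => f (U, ξ)) := hf.comp (measurable_const.prodMk
    measurable_id)
  have hm2 : Measurable (fun x : Cfg V k × (V → ℝ) => xi p x.1 U x.2) :=
    meas_xi hG hp measurable_fst measurable_const measurable_snd
  have h7 : Measurable (fun x : Cfg V k × (V → ℝ) => f (U, xi p x.1 U x.2)) := h6.comp hm2
  have h8 : ∫⁻ ξ, f (U, ξ) ∂(LL V) =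
      ∫⁻ x, f (U, xi p x.1 U x.2) ∂(ν.prod (LL V)) := by
    rw [← lintegral_map h6 hm2, h5]
  rw [h8, lintegral_prod _ h7.aemeasurable]

end Pool.Agent.FD82
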