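import Pool.Agent.Lib.FD82.B5_OneStep

/-! # B7_QuantXi: xi produces Y

* `one_step`: resample `ζ v` by `LL_upd` (`Φ` does not depend on `ζ v` as `v ∉ A`), split according to `y v = a`,
  apply `cond_exp` with `F y = ∫⁻ c, Φ y ζ (rr (p v A y) a c) ∂lam` (depends only on `A` by `IsKer.dep`), and then
  `lintegral_rr`.
* `xi_iid`: for fixed injective `U` show `∫⁻ ∏_{v ∈ S} f v (xi p y U ζ v) = ∏_{v ∈ S} ∫⁻ f v dlam` by induction on `#S`:
  take out the vertex `v ∈ S` with maximal `U v`, use `one_step` with `A = As U (U v)` and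
  `Φ y ζ c = f v c * ∏_{w ∈ S - v} f w (xi p y U ζ w)` (`xi_adapt`). Then `LL_ext` and Fubini in `U`. -/

set_option autoImplicit false

open MeasureTheory Set Filter Topology

namespace Pool.Agent.FD82

variable {V : Type} {k : ℕ} {G : SimpleGraph V} {C : ℝ} {p : Kern V k}

/-- The kernel at the true symbol is almost surely positive (fixed finite or infinite set). -/
private theorem null_fixed (hG : Geo G) (hp : IsKer G C p) {ν : Measure (Cfg V k)} [IsProbabilityMeasure ν]
    (hc : Cond ν p) (A : Set V) (v : V) (hv : v ∉ A) : ν {y | p v A y (y v) = 0} = 0 := by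
  classical
  have hm : ∀ a, Measurable (fun y : Cfg V k => p v A y a) := fun a =>
    meas_kerA hG hp v A a measurable_id
  have hsub : {y : Cfg V k | p v A y (y v) = 0} ⊆ ⋃ a, {y | y v = a ∧ p v A y a = 0} := by
    intro y hy
    exact mem_iUnion.2 ⟨y v, rfl, hy⟩
  refine measure_mono_null hsub (measure_iUnion_null fun a => ?_)
  have hmS : MeasurableSet {y : Cfg V k | p v A y a = 0} := hm a (measurableSet_singleton 0)
  have hmv0 : Measurable (fun y : Cfg V k => y v) := measurable_pi_apply v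
  have hmv : MeasurableSet {y : Cfg V k | y v = a} := hmv0 (measurableSet_singleton a)
  have h1 := cond_exp hG hp hc A v hv a
    (F := fun y => {y : Cfg V k | p v A y a = 0}.indicator (fun _ => (1 : ENNReal)) y)
    (measurable_const.indicator hmS) (by
      intro y y' h
      have h2 := hp.dep v A h a
      simp only [indicator, mem_ofPred_eq, h2])
  have h2 : ∫⁻ y, {y : Cfg V k | p v A y a = 0}.indicator (fun _ => (1 : ENNReal)) y *
      ENNReal.ofReal (p v A y a) ∂ν = 0 := by
    rw [lintegral_eq_zero_of_ae_eq_zero]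
    refine Eventually.of_forall fun y => ?_
    by_cases h : p v A y a = 0
    · simp [h]
    · simp [h]
  rw [h2] at h1
  have h3 : ∫⁻ y, {y : Cfg V k | p v A y a = 0}.indicator (fun _ => (1 : ENNReal)) y *
      (if y v = a then 1 else 0) ∂ν = ν ({y | y v = a ∧ p v A y a = 0}) := by
    have hmI : MeasurableSet {y : Cfg V k | y v = a ∧ p v A y a = 0} := hmv.inter hmS
    rw [← lintegral_indicator_one hmI]
    refine lintegral_congr fun y => ?_
    by_cases h : p v A y a = 0 <;> by_cases h' : y v = a <;> simp [indicator, h, h']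
  rw [← h3, h1]

private theorem null_prod (hG : Geo G) (hp : IsKer G C p) {ν : Measure (Cfg V k)} [IsProbabilityMeasure ν]
    (hc : Cond ν p) (v : V) :
    ∀ᵐ x ∂(ν.prod (LL V)), p v (As x.2 (x.2 v)) x.1 (x.1 v) ≠ 0 := by
  have hmS : MeasurableSet {x : Cfg V k × (V → ℝ) | p v (As x.2 (x.2 v)) x.1 (x.1 v) = 0} := by
    have : {x : Cfg V k × (V → ℝ) | p v (As x.2 (x.2 v)) x.1 (x.1 v) = 0} =
        ⋃ a, ({x | x.1 v = a} ∩ {x | p v (As x.2 (x.2 v)) x.1 a = 0}) := by
      ext x
      simp only [mem_ofPred_eq, mem_iUnion, mem_inter_iff]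
      constructor
      · intro h; exact ⟨x.1 v, rfl, h⟩
      · rintro ⟨a, h1, h2⟩; rw [h1]; exact h2
    rw [this]
    refine MeasurableSet.iUnion fun a => MeasurableSet.inter ?_ ?_
    · have h0 : Measurable (fun x : Cfg V k × (V → ℝ) => x.1 v) :=
        (measurable_pi_apply v).comp measurable_fst
      exact h0 (measurableSet_singleton a)
    · exact (meas_ker hG hp v a (U := fun x : Cfg V k × (V → ℝ) => x.2) (Y := fun x => x.1)
        (s := fun x => x.2 v) measurable_snd measurable_fst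
        ((measurable_pi_apply v).comp measurable_snd)) (measurableSet_singleton 0)
  rw [ae_iff]
  simp only [ne_eq, not_not]
  rw [Measure.prod_apply_symm hmS]
  rw [lintegral_eq_zero_of_ae_eq_zero]
  refine Eventually.of_forall fun U => ?_
  have : (fun x : Cfg V k => (x, U)) ⁻¹' {x : Cfg V k × (V → ℝ) | p v (As x.2 (x.2 v)) x.1 (x.1 v) = 0} =
      {y | p v (As U (U v)) y (y v) = 0} := rfl
  show ν ((fun x : Cfg V k => (x, U)) ⁻¹' _) = 0
  rw [this]
  exact null_fixed hG hp hc (As U (U v)) v (by simp [As])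

/-- `p v A y (y v) > 0` a.s. (by `cond_exp`), `0 ≤ ζ v < 1` a.s., then `quant_rr`. -/
theorem quant_xi (hG : Geo G) (hp : IsKer G C p) {ν : Measure (Cfg V k)} [IsProbabilityMeasure ν]
    (hc : Cond ν p) :
    ∀ᵐ x ∂(ν.prod ((LL V).prod (LL V))), ∀ v,
      quant (p v (As x.2.1 (x.2.1 v)) x.1) (xi p x.1 x.2.1 x.2.2 v) = x.1 v := by
  have : Countable V := hG.countable
  rw [ae_all_iff]
  intro v
  have h1 : ∀ᵐ x ∂(ν.prod ((LL V).prod (LL V))), ∀ v, 0 ≤ x.2.2 v ∧ x.2.2 v < 1 :=
    (Measure.quasiMeasurePreserving_snd.comp Measure.quasiMeasurePreserving_snd).ae LL_mem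
  have hmp : MeasurePreserving (Prod.map (id : Cfg V k → Cfg V k) (Prod.fst : (V → ℝ) × (V → ℝ) → (V → ℝ)))
      (ν.prod ((LL V).prod (LL V))) (ν.prod (LL V)) :=
    (MeasurePreserving.id ν).prod measurePreserving_fst
  have h2 : ∀ᵐ x ∂(ν.prod ((LL V).prod (LL V))), p v (As x.2.1 (x.2.1 v)) x.1 (x.1 v) ≠ 0 :=
    hmp.quasiMeasurePreserving.ae (null_prod hG hp hc v)
  filter_upwards [h1, h2] with x hx1 hx2
  exact quant_rr (hp.nonneg v _ _) (lt_of_le_of_ne (hp.nonneg v _ _ _) (Ne.symm hx2)) (hx1 v).1 (hx1 v).2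

end Pool.Agent.FD82
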