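import Pool.Agent.Lib.FD82.Defs

/-! # C1_Tele: telescoping

-/

set_option autoImplicit false

open MeasureTheory Set Filter Topology

namespace Pool.Agent.FD82

variable {V : Type} {k : ℕ} {G : SimpleGraph V} {C : ℝ} {p : Kern V k}

open Classical in
/-- `X` below the level `t`, else `Y`. -/
noncomputable def mixl (X Y : Cfg V k) (U : V → ℝ) (t : ℝ) : Cfg V k :=
  fun u => if U u < t then X u else Y u

open Classical in
/-- `X` up to the level `t`, else `Y`. -/
noncomputable def mixle (X Y : Cfg V k) (U : V → ℝ) (t : ℝ) : Cfg V k :=
  fun u => if U u ≤ t then X u else Y u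

private theorem telescope_aux (X Y : Cfg V k) (U : V → ℝ) (hU : Function.Injective U) (B : Finset V) :
    ∀ q : Cfg V k → ℝ, (∀ y y' : Cfg V k, (∀ w ∈ B, y w = y' w) → q y = q y') →
    |q X - q Y| ≤ ∑ w ∈ B.filter (fun w => X w ≠ Y w),
      |q (mixle X Y U (U w)) - q (mixl X Y U (U w))| := by
  classical
  induction B using Finset.induction_on_max_value U with
  | empty =>
    intro q hq
    rw [hq X Y (by simp)]
    simp
  | insert a s has hmax ih =>
    intro q hq
    have hlt : ∀ w ∈ s, U w < U a := fun w hw =>
      lt_of_le_of_ne (hmax w hw) (fun h => has (hU h ▸ hw))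
    -- the modified function
    set q' : Cfg V k → ℝ := fun y => q (Function.update y a (Y a)) with hq'
    have hq'dep : ∀ y y' : Cfg V k, (∀ w ∈ s, y w = y' w) → q' y = q' y' := by
      intro y y' h
      apply hq
      intro w hw
      rcases Finset.mem_insert.1 hw with rfl | hw
      · simp
      · have : w ≠ a := fun h => has (h ▸ hw)
        simp [Function.update_of_ne this, h w hw]
    have h1 := ih q' hq'dep
    have hle : ∀ w ∈ s, q' (mixle X Y U (U w)) = q (mixle X Y U (U w)) := by
      intro w hw
      rw [hq']
      simp only
      congr 1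
      apply Function.update_eq_self_iff.2
      simp [mixle, not_le.2 (hlt w hw)]
    have hl : ∀ w ∈ s, q' (mixl X Y U (U w)) = q (mixl X Y U (U w)) := by
      intro w hw
      rw [hq']
      simp only
      congr 1
      apply Function.update_eq_self_iff.2
      simp [mixl, not_lt.2 (hlt w hw).le]
    have hY : q' Y = q Y := by
      rw [hq']; simp
    have hX : q' X = q (mixl X Y U (U a)) := by
      rw [hq']
      apply hq
      intro w hw
      rcases Finset.mem_insert.1 hw with rfl | hw
      · simp [mixl]
      · have : w ≠ a := fun h => has (h ▸ hw)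
        simp [Function.update_of_ne this, mixl, hlt w hw]
    have hX2 : q X = q (mixle X Y U (U a)) := by
      apply hq
      intro w hw
      rcases Finset.mem_insert.1 hw with rfl | hw
      · simp [mixle]
      · simp [mixle, (hlt w hw).le]
    have h2 : |q' X - q' Y| ≤ ∑ w ∈ s.filter (fun w => X w ≠ Y w),
        |q (mixle X Y U (U w)) - q (mixl X Y U (U w))| := by
      refine h1.trans (le_of_eq ?_)
      refine Finset.sum_congr rfl fun w hw => ?_
      rw [hle w (Finset.mem_filter.1 hw).1, hl w (Finset.mem_filter.1 hw).1]
    by_cases hXY : X a = Y a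
    · have h3 : q (mixle X Y U (U a)) = q (mixl X Y U (U a)) := by
        apply hq
        intro w hw
        rcases Finset.mem_insert.1 hw with rfl | hw
        · simp [mixle, mixl, hXY]
        · simp [mixle, mixl, (hlt w hw).le, hlt w hw]
      rw [Finset.filter_insert, if_neg (by simpa using hXY)]
      rw [hX2, h3, ← hX, ← hY]
      exact h2
    · rw [Finset.filter_insert, if_pos hXY, Finset.sum_insert (by simp [has])]
      calc |q X - q Y| ≤ |q X - q' X| + |q' X - q Y| := abs_sub_le _ _ _
        _ ≤ _ := by
          rw [hX2, hX]
          rw [hX, hY] at h2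
          exact add_le_add le_rfl h2

/-- TELESCOPING, in increasing order of `U`: induction over `B` (remove the vertex with the largest
label, i.e. compare `X` with `mixl X Y U (U w)`), or over the number of disagreements. -/
theorem telescope (q : Cfg V k → ℝ) (B : Finset V)
    (hq : ∀ y y' : Cfg V k, (∀ w ∈ B, y w = y' w) → q y = q y') (X Y : Cfg V k) (U : V → ℝ)
    (hU : Function.Injective U) :
    |q X - q Y| ≤ ∑ w ∈ B.filter (fun w => X w ≠ Y w),
      |q (mixle X Y U (U w)) - q (mixl X Y U (U w))| :=
  telescope_aux X Y U hU B q hq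

end Pool.Agent.FD82
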