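import Pool.Agent.Lib.FD82.B1_Meas
import Pool.Agent.Lib.FD82.C1_Tele

/-! # C2_Mtp: mass transport -/

set_option autoImplicit false
set_option linter.unusedVariables false

open MeasureTheory Set Filter Topology

namespace Pool.Agent.FD82

variable {V : Type} {k : ℕ} {G : SimpleGraph V} {C : ℝ} {p : Kern V k}

namespace C2

theorem meas_mixle (w : V) : Measurable (fun x : Cfg V k × (Cfg V k × (V → ℝ)) =>
    mixle x.1 x.2.1 x.2.2 (x.2.2 w)) := by
  classical
  refine measurable_pi_lambda _ fun u => ?_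
  have h1 : MeasurableSet {x : Cfg V k × (Cfg V k × (V → ℝ)) | x.2.2 u ≤ x.2.2 w} :=
    measurableSet_le ((measurable_pi_apply u).comp (measurable_snd.comp measurable_snd))
      ((measurable_pi_apply w).comp (measurable_snd.comp measurable_snd))
  unfold mixle
  exact Measurable.ite h1 ((measurable_pi_apply u).comp measurable_fst)
    ((measurable_pi_apply u).comp (measurable_fst.comp measurable_snd))

theorem meas_mixl (w : V) : Measurable (fun x : Cfg V k × (Cfg V k × (V → ℝ)) =>
    mixl x.1 x.2.1 x.2.2 (x.2.2 w)) := by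
  classical
  refine measurable_pi_lambda _ fun u => ?_
  have h1 : MeasurableSet {x : Cfg V k × (Cfg V k × (V → ℝ)) | x.2.2 u < x.2.2 w} :=
    measurableSet_lt ((measurable_pi_apply u).comp (measurable_snd.comp measurable_snd))
      ((measurable_pi_apply w).comp (measurable_snd.comp measurable_snd))
  unfold mixl
  exact Measurable.ite h1 ((measurable_pi_apply u).comp measurable_fst)
    ((measurable_pi_apply u).comp (measurable_fst.comp measurable_snd))

open Classical in
/-- The mass sent from `v` to `w`. -/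
noncomputable def mass (G : SimpleGraph V) (q : Kern V k) (R : ℕ) (s : ℝ) (v w : V)
    (x : Cfg V k × (Cfg V k × (V → ℝ))) : ENNReal :=
  if s ≤ x.2.2 v ∧ x.2.2 w < s ∧ x.1 w ≠ x.2.1 w ∧ G.dist v w ≤ R then
    ∑ a, ENNReal.ofReal |q v (As x.2.2 s) (mixle x.1 x.2.1 x.2.2 (x.2.2 w)) a -
      q v (As x.2.2 s) (mixl x.1 x.2.1 x.2.2 (x.2.2 w)) a| else 0

theorem meas_mass (hG : Geo G) {q : ℕ → Kern V k} {R : ℕ → ℕ} {δ : ℕ → ℝ}
    (hq : IsApx G C p q R δ) (n : ℕ) (s : ℝ) (v w : V) :
    Measurable (mass G (q n) (R n) s v w) := by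
  classical
  have hU : Measurable (fun x : Cfg V k × (Cfg V k × (V → ℝ)) => x.2.2) :=
    measurable_snd.comp measurable_snd
  unfold mass
  refine Measurable.ite ?_ ?_ measurable_const
  · have h1 : MeasurableSet {x : Cfg V k × (Cfg V k × (V → ℝ)) | s ≤ x.2.2 v} :=
      measurableSet_le measurable_const ((measurable_pi_apply v).comp hU)
    have h2 : MeasurableSet {x : Cfg V k × (Cfg V k × (V → ℝ)) | x.2.2 w < s} :=
      measurableSet_lt ((measurable_pi_apply w).comp hU) measurable_const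
    have h3 : MeasurableSet {x : Cfg V k × (Cfg V k × (V → ℝ)) | x.1 w ≠ x.2.1 w} :=
      (measurableSet_eq_fun ((measurable_pi_apply w).comp measurable_fst)
        ((measurable_pi_apply w).comp (measurable_fst.comp measurable_snd))).compl
    have h4 : MeasurableSet {x : Cfg V k × (Cfg V k × (V → ℝ)) | G.dist v w ≤ R n} :=
      MeasurableSet.const _
    exact h1.inter (h2.inter (h3.inter h4))
  · refine Finset.measurable_sum _ fun a _ => ?_
    have e1 := meas_q hG hq n v a hU (meas_mixle w) (measurable_const (a := s))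
    have e2 := meas_q hG hq n v a hU (meas_mixl w) (measurable_const (a := s))
    have e3 : Measurable (fun x : Cfg V k × (Cfg V k × (V → ℝ)) =>
        |q n v (As x.2.2 s) (mixle x.1 x.2.1 x.2.2 (x.2.2 w)) a -
          q n v (As x.2.2 s) (mixl x.1 x.2.1 x.2.2 (x.2.2 w)) a|) := by
      have := (e1.sub e2)
      exact continuous_abs.measurable.comp this
    exact e3.ennreal_ofReal

theorem mass_equiv (hG : Geo G) {q : ℕ → Kern V k} {R : ℕ → ℕ} {δ : ℕ → ℝ}
    (hq : IsApx G C p q R δ) (n : ℕ) (s : ℝ) (v w : V) (g : G ≃g G)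
    (x : Cfg V k × (Cfg V k × (V → ℝ))) :
    mass G (q n) (R n) s (g v) (g w) x =
      mass G (q n) (R n) s v w (x.1 ∘ g, (x.2.1 ∘ g, x.2.2 ∘ g)) := by
  classical
  unfold mass
  have h1 : G.dist (g v) (g w) = G.dist v w := hG.dist g v w
  have h2 : g ⁻¹' (As x.2.2 s) = As (x.2.2 ∘ g) s := rfl
  have h3 : ∀ a, q n (g v) (As x.2.2 s) (mixle x.1 x.2.1 x.2.2 (x.2.2 (g w))) a =
      q n v (As (x.2.2 ∘ g) s) (mixle (x.1 ∘ g) (x.2.1 ∘ g) (x.2.2 ∘ g) ((x.2.2 ∘ g) w)) a := by
    intro a
    rw [hq.qequiv n g, h2]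
    rfl
  have h4 : ∀ a, q n (g v) (As x.2.2 s) (mixl x.1 x.2.1 x.2.2 (x.2.2 (g w))) a =
      q n v (As (x.2.2 ∘ g) s) (mixl (x.1 ∘ g) (x.2.1 ∘ g) (x.2.2 ∘ g) ((x.2.2 ∘ g) w)) a := by
    intro a
    rw [hq.qequiv n g, h2]
    rfl
  simp only [h1, h3, h4, Function.comp_apply]

theorem mass_symm (hG : Geo G) {q : ℕ → Kern V k} {R : ℕ → ℕ} {δ : ℕ → ℝ}
    (hq : IsApx G C p q R δ) (Q : Measure (Cfg V k × (Cfg V k × (V → ℝ))))
    (hQ : ∀ g : G ≃g G, Q.map (fun x => (x.1 ∘ g, (x.2.1 ∘ g, x.2.2 ∘ g))) = Q)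
    (n : ℕ) (s : ℝ) (v w : V) :
    ∫⁻ x, mass G (q n) (R n) s v w x ∂Q = ∫⁻ x, mass G (q n) (R n) s w v x ∂Q := by
  obtain ⟨g, hgv, hgw⟩ := hG.swap v w
  have hm : Measurable (fun x : Cfg V k × (Cfg V k × (V → ℝ)) =>
      ((x.1 ∘ g, (x.2.1 ∘ g, x.2.2 ∘ g)) : Cfg V k × (Cfg V k × (V → ℝ)))) := by
    have e1 : ∀ {β : Type} [MeasurableSpace β], Measurable (fun y : V → β => y ∘ g) := by
      intro β _
      exact measurable_pi_lambda _ fun u => measurable_pi_apply (g u)
    exact (e1.comp measurable_fst).prodMk ((e1.comp (measurable_fst.comp measurable_snd)).prodMk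
      (e1.comp (measurable_snd.comp measurable_snd)))
  have h1 : ∀ x, mass G (q n) (R n) s w v x =
      mass G (q n) (R n) s v w (x.1 ∘ g, (x.2.1 ∘ g, x.2.2 ∘ g)) := by
    intro x
    rw [← mass_equiv hG hq n s v w g x, hgv, hgw]
  simp_rw [h1]
  conv_lhs => rw [← hQ g]
  rw [lintegral_map (meas_mass hG hq n s v w) hm]

end C2

/-- MASS TRANSPORT. With the local approximations `q = q n`, `B_v` the ball of radius `R n` at `v`:
`f v w x = 1(s ≤ U v) 1(U w < s) 1(X w ≠ Y w) 1(dist v w ≤ R n) ∑_a |q v (As U s) (mixle X Y U (U w)) a - q v (As U s) (mixl X Y U (U w)) a|`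
is diagonally equivariant, `E f v w = E f w v` by the automorphism exchanging `v` and `w` (`Geo.swap`), so
`E 1(s ≤ U v) ∑_a |q v X a - q v Y a| ≤ ∑_w E f v w = ∑_w E f w v ≤ (C + δ n) Q(X v ≠ Y v, U v < s)` (telescoping with the
finite set `B_v ∩ As U s`; then `IsApx.col` with `T` = vertices of the ball of `v` with label `≥ s`).
Then let `n → ∞`. -/
theorem mtp_ineq (hG : Geo G) (hp : IsKer G C p) (hC : 0 ≤ C)
    (Q : Measure (Cfg V k × (Cfg V k × (V → ℝ)))) [IsProbabilityMeasure Q]
    (hQ : ∀ g : G ≃g G, Q.map (fun x => (x.1 ∘ g, (x.2.1 ∘ g, x.2.2 ∘ g))) = Q)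
    (hinj : ∀ᵐ x ∂Q, Function.Injective x.2.2) (v : V) (s : ℝ) :
    ∫⁻ x, ({x : Cfg V k × (Cfg V k × (V → ℝ)) | s ≤ x.2.2 v}.indicator
      (fun x => l1 (p v (As x.2.2 s) x.1) (p v (As x.2.2 s) x.2.1))) x ∂Q ≤
    ENNReal.ofReal C * Q {x | x.1 v ≠ x.2.1 v ∧ x.2.2 v < s} := by
  classical
  obtain ⟨q, R, δ, hq⟩ := hp.approx
  have hδ0 : ∀ n, 0 ≤ δ n := fun n =>
    (abs_nonneg _).trans (hq.close n v ∅ (fun _ => 0) 0)
  -- the sets
  obtain ⟨E, hE⟩ : ∃ E : Set (Cfg V k × (Cfg V k × (V → ℝ))),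
    E = {x | x.1 v ≠ x.2.1 v ∧ x.2.2 v < s} := ⟨_, rfl⟩
  rw [← hE]
  have hEm : MeasurableSet E := by
    rw [hE]
    have h3 : MeasurableSet {x : Cfg V k × (Cfg V k × (V → ℝ)) | x.1 v ≠ x.2.1 v} :=
      (measurableSet_eq_fun ((measurable_pi_apply v).comp measurable_fst)
        ((measurable_pi_apply v).comp (measurable_fst.comp measurable_snd))).compl
    have h2 : MeasurableSet {x : Cfg V k × (Cfg V k × (V → ℝ)) | x.2.2 v < s} :=
      measurableSet_lt ((measurable_pi_apply v).comp (measurable_snd.comp measurable_snd))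
        measurable_const
    exact h3.inter h2
  -- the bound for every n
  have key : ∀ n, ∫⁻ x, ({x : Cfg V k × (Cfg V k × (V → ℝ)) | s ≤ x.2.2 v}.indicator
      (fun x => l1 (p v (As x.2.2 s) x.1) (p v (As x.2.2 s) x.2.1))) x ∂Q ≤
      ENNReal.ofReal (C + δ n) * Q E + ENNReal.ofReal ((k + 1) * (2 * δ n)) := by
    intro n
    obtain ⟨Bv, hBv⟩ : ∃ Bv : Finset V, Bv = (hG.ball v (R n)).toFinset := ⟨_, rfl⟩
    have hBmem : ∀ w, w ∈ Bv ↔ G.dist v w ≤ R n := by
      intro w
      rw [hBv, Set.Finite.mem_toFinset]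
      rfl
    have h1 : ∀ᵐ x ∂Q, ({x : Cfg V k × (Cfg V k × (V → ℝ)) | s ≤ x.2.2 v}.indicator
        (fun x => l1 (p v (As x.2.2 s) x.1) (p v (As x.2.2 s) x.2.1))) x ≤
        (∑ w ∈ Bv, C2.mass G (q n) (R n) s v w x) + ENNReal.ofReal ((k + 1) * (2 * δ n)) := by
      filter_upwards [hinj] with x hx
      by_cases hsv : s ≤ x.2.2 v
      · rw [Set.indicator_of_mem (by exact hsv)]
        have hstep : ∀ a, ENNReal.ofReal |p v (As x.2.2 s) x.1 a - p v (As x.2.2 s) x.2.1 a| ≤
            (∑ w ∈ Bv, if s ≤ x.2.2 v ∧ x.2.2 w < s ∧ x.1 w ≠ x.2.1 w ∧ G.dist v w ≤ R n then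
              ENNReal.ofReal |q n v (As x.2.2 s) (mixle x.1 x.2.1 x.2.2 (x.2.2 w)) a -
                q n v (As x.2.2 s) (mixl x.1 x.2.1 x.2.2 (x.2.2 w)) a| else 0) +
            ENNReal.ofReal (2 * δ n) := by
          intro a
          have t1 : |p v (As x.2.2 s) x.1 a - p v (As x.2.2 s) x.2.1 a| ≤
              |q n v (As x.2.2 s) x.1 a - q n v (As x.2.2 s) x.2.1 a| + 2 * δ n := by
            have c1 := hq.close n v (As x.2.2 s) x.1 a
            have c2 := hq.close n v (As x.2.2 s) x.2.1 a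
            rw [abs_le] at c1 c2
            have c3 := abs_le.1 (le_refl |q n v (As x.2.2 s) x.1 a - q n v (As x.2.2 s) x.2.1 a|)
            rw [abs_le]
            constructor <;> linarith [c3.1, c3.2, c1.1, c1.2, c2.1, c2.2]
          have t2 := telescope (fun y => q n v (As x.2.2 s) y a)
            (Bv.filter (fun w => x.2.2 w < s))
            (fun y y' hyy => hq.loc n v _ _ y y' a (fun w _ => Iff.rfl)
              (fun w hw hwd => hyy w (by
                rw [Finset.mem_filter]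
                exact ⟨(hBmem w).2 hwd, hw⟩))) x.1 x.2.1 x.2.2 hx
          have t3 : |p v (As x.2.2 s) x.1 a - p v (As x.2.2 s) x.2.1 a| ≤
              (∑ w ∈ (Bv.filter (fun w => x.2.2 w < s)).filter (fun w => x.1 w ≠ x.2.1 w),
                |q n v (As x.2.2 s) (mixle x.1 x.2.1 x.2.2 (x.2.2 w)) a -
                q n v (As x.2.2 s) (mixl x.1 x.2.1 x.2.2 (x.2.2 w)) a|) + 2 * δ n := by
            refine t1.trans ?_
            exact add_le_add t2 le_rfl
          refine (ENNReal.ofReal_le_ofReal t3).trans ?_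
          rw [ENNReal.ofReal_add (Finset.sum_nonneg fun _ _ => abs_nonneg _)
            (by have := hδ0 n; linarith)]
          refine add_le_add ?_ le_rfl
          rw [ENNReal.ofReal_sum_of_nonneg (fun _ _ => abs_nonneg _), Finset.filter_filter,
            Finset.sum_filter]
          refine Finset.sum_le_sum fun w hw => ?_
          by_cases hcase : x.2.2 w < s ∧ x.1 w ≠ x.2.1 w
          · rw [if_pos hcase, if_pos ⟨hsv, hcase.1, hcase.2, (hBmem w).1 hw⟩]
          · rw [if_neg hcase]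
            exact zero_le
        have hsum : l1 (p v (As x.2.2 s) x.1) (p v (As x.2.2 s) x.2.1) ≤
            ∑ a, ((∑ w ∈ Bv, if s ≤ x.2.2 v ∧ x.2.2 w < s ∧ x.1 w ≠ x.2.1 w ∧ G.dist v w ≤ R n then
              ENNReal.ofReal |q n v (As x.2.2 s) (mixle x.1 x.2.1 x.2.2 (x.2.2 w)) a -
                q n v (As x.2.2 s) (mixl x.1 x.2.1 x.2.2 (x.2.2 w)) a| else 0) +
            ENNReal.ofReal (2 * δ n)) := by
          unfold l1
          exact Finset.sum_le_sum fun a _ => hstep a
        refine hsum.trans (le_of_eq ?_)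
        rw [Finset.sum_add_distrib]
        congr 1
        · rw [Finset.sum_comm]
          refine Finset.sum_congr rfl fun w _ => ?_
          unfold C2.mass
          by_cases hcase : s ≤ x.2.2 v ∧ x.2.2 w < s ∧ x.1 w ≠ x.2.1 w ∧ G.dist v w ≤ R n
          · rw [if_pos hcase]
            exact Finset.sum_congr rfl fun a _ => if_pos hcase
          · rw [if_neg hcase]
            exact Finset.sum_eq_zero fun a _ => if_neg hcase
        · have e : ENNReal.ofReal (((k : ℝ) + 1) * (2 * δ n)) =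
              ((k + 1 : ℕ) : ENNReal) * ENNReal.ofReal (2 * δ n) := by
            rw [ENNReal.ofReal_mul (by positivity : (0 : ℝ) ≤ (k : ℝ) + 1),
              show ((k : ℝ) + 1) = ((k + 1 : ℕ) : ℝ) by push_cast; ring, ENNReal.ofReal_natCast]
          rw [e, Finset.sum_const, Finset.card_univ, Fintype.card_fin, nsmul_eq_mul]
      · rw [Set.indicator_of_notMem (by exact hsv)]
        exact zero_le
    have h2 : ∀ᵐ x ∂Q, (∑ w ∈ Bv, C2.mass G (q n) (R n) s w v x) ≤
        E.indicator (fun _ => ENNReal.ofReal (C + δ n)) x := by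
      filter_upwards [hinj] with x hx
      by_cases hxE : x ∈ E
      · rw [Set.indicator_of_mem hxE]
        rw [hE] at hxE
        have hcol := hq.col n (As x.2.2 s) v (mixle x.1 x.2.1 x.2.2 (x.2.2 v))
          (mixl x.1 x.2.1 x.2.2 (x.2.2 v)) (by
            intro u hu
            unfold mixle mixl
            have hne : x.2.2 u ≠ x.2.2 v := fun h => hu (hx h)
            by_cases hlt : x.2.2 u < x.2.2 v
            · rw [if_pos hlt.le, if_pos hlt]
            · rw [if_neg (fun h => hlt (lt_of_le_of_ne h hne)), if_neg hlt])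
          (Bv.filter (fun w => s ≤ x.2.2 w)) (by
            intro w hw hwA
            rw [Finset.mem_filter] at hw
            exact absurd hwA (not_lt.2 hw.2))
        refine le_trans ?_ (ENNReal.ofReal_le_ofReal hcol)
        rw [ENNReal.ofReal_sum_of_nonneg
          (fun _ _ => Finset.sum_nonneg fun _ _ => abs_nonneg _), Finset.sum_filter]
        refine Finset.sum_le_sum fun w hw => ?_
        unfold C2.mass
        split_ifs with c1 c2 c3
        · rw [ENNReal.ofReal_sum_of_nonneg (fun _ _ => abs_nonneg _)]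
        · exact absurd c1.1 c2
        · exact zero_le
        · exact zero_le
      · rw [Set.indicator_of_notMem hxE]
        refine le_of_eq (Finset.sum_eq_zero fun w _ => ?_)
        unfold C2.mass
        rw [if_neg]
        rintro ⟨_, c2, c3, _⟩
        apply hxE
        rw [hE]
        exact ⟨c3, c2⟩
    calc ∫⁻ x, ({x : Cfg V k × (Cfg V k × (V → ℝ)) | s ≤ x.2.2 v}.indicator
          (fun x => l1 (p v (As x.2.2 s) x.1) (p v (As x.2.2 s) x.2.1))) x ∂Q
        ≤ ∫⁻ x, ((∑ w ∈ Bv, C2.mass G (q n) (R n) s v w x) +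
          ENNReal.ofReal ((k + 1) * (2 * δ n))) ∂Q := lintegral_mono_ae h1
      _ = (∫⁻ x, (∑ w ∈ Bv, C2.mass G (q n) (R n) s v w x) ∂Q) +
          ENNReal.ofReal ((k + 1) * (2 * δ n)) := by
          rw [lintegral_add_right _ measurable_const, lintegral_const, measure_univ, mul_one]
      _ = (∫⁻ x, (∑ w ∈ Bv, C2.mass G (q n) (R n) s w v x) ∂Q) +
          ENNReal.ofReal ((k + 1) * (2 * δ n)) := by
          congr 1
          rw [lintegral_finsetSum _ fun w _ => C2.meas_mass hG hq n s v w,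
            lintegral_finsetSum _ fun w _ => C2.meas_mass hG hq n s w v]
          exact Finset.sum_congr rfl fun w _ => C2.mass_symm hG hq Q hQ n s v w
      _ ≤ (∫⁻ x, E.indicator (fun _ => ENNReal.ofReal (C + δ n)) x ∂Q) +
          ENNReal.ofReal ((k + 1) * (2 * δ n)) := by
          gcongr ?_ + _
          exact lintegral_mono_ae h2
      _ = ENNReal.ofReal (C + δ n) * Q E + ENNReal.ofReal ((k + 1) * (2 * δ n)) := by
          rw [lintegral_indicator hEm, setLIntegral_const]
  have hlim : Tendsto (fun n => ENNReal.ofReal (C + δ n) * Q E +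
      ENNReal.ofReal ((k + 1) * (2 * δ n))) atTop (𝓝 (ENNReal.ofReal C * Q E + 0)) := by
    refine Tendsto.add ?_ ?_
    · refine ENNReal.Tendsto.mul_const ?_ (Or.inr (measure_ne_top Q E))
      have : Tendsto (fun n => C + δ n) atTop (𝓝 (C + 0)) := tendsto_const_nhds.add hq.tend
      rw [add_zero] at this
      exact ENNReal.tendsto_ofReal this
    · have : Tendsto (fun n => ((k : ℝ) + 1) * (2 * δ n)) atTop (𝓝 (((k : ℝ) + 1) * (2 * 0))) :=
        (hq.tend.const_mul 2).const_mul _
      rw [mul_zero, mul_zero] at this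
      have h := ENNReal.tendsto_ofReal this
      rwa [ENNReal.ofReal_zero] at h
  rw [add_zero] at hlim
  exact ge_of_tendsto' hlim key

end Pool.Agent.FD82
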