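import Pool.Agent.Lib.FD82.B1_Meas

/-! # C3_Equiv: equivariance

-/

set_option autoImplicit false

open MeasureTheory Set Filter Topology

namespace Pool.Agent.FD82

variable {V : Type} {k : ℕ} {G : SimpleGraph V} {C : ℝ} {p p' : Kern V k}

theorem xi_equiv (hp : IsKer G C p) (g : G ≃g G) (y : Cfg V k) (U ζ : V → ℝ) :
    xi p (y ∘ g) (U ∘ g) (ζ ∘ g) = xi p y U ζ ∘ g := by
  funext v
  have h : p (g v) (As U (U (g v))) y = p v (As (U ∘ g) ((U ∘ g) v)) (y ∘ g) := by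
    funext a
    exact hp.equiv g v _ y a
  change rr (p v (As (U ∘ g) ((U ∘ g) v)) (y ∘ g)) (y (g v)) (ζ (g v)) =
    rr (p (g v) (As U (U (g v))) y) (y (g v)) (ζ (g v))
  rw [h]

theorem pic_equiv (hp : IsKer G C p) (g : G ≃g G) (n : ℕ) (U ξ : V → ℝ) :
    pic p n (U ∘ g) (ξ ∘ g) = pic p n U ξ ∘ g := by
  induction n with
  | zero => rfl
  | succ n ih =>
    funext v
    have h : p (g v) (As U (U (g v))) (pic p n U ξ) =
        p v (As (U ∘ g) ((U ∘ g) v)) (pic p n U ξ ∘ g) := by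
      funext a
      exact hp.equiv g v _ _ a
    change quant (p v (As (U ∘ g) ((U ∘ g) v)) (pic p n (U ∘ g) (ξ ∘ g))) (ξ (g v)) =
      quant (p (g v) (As U (U (g v))) (pic p n U ξ)) (ξ (g v))
    rw [h, ih]

theorem Psi_equiv (hp : IsKer G C p) (g : G ≃g G) (U ξ : V → ℝ) :
    Psi p (U ∘ g) (ξ ∘ g) = Psi p U ξ ∘ g := by
  funext v
  change ev (fun n => pic p n (U ∘ g) (ξ ∘ g) v) = ev (fun n => pic p n U ξ (g v))
  congr 1
  funext n
  rw [pic_equiv hp]
  rfl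

end Pool.Agent.FD82
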