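import Pool.Agent.Lib.FD82.B7_QuantXi
import Pool.Agent.Lib.FD82.C3_Equiv

/-! # C4_Gt1: recursion, part (i)

* (i) `Gt_le1`: given `U` (injective), with `A = As U (U v)`: `Y v = quant (p v A Y) ξ_v` a.s. (`quant_xi`),
  `X^{n+1} v = quant (p' v A X^n) ξ_v`, `X^n` on `A` is a function of `(Y, ζ)` on `A` (`xi_adapt`, `pic_adapt`); by
  `one_step`, `ξ_v` may be replaced by an independent uniform variable; then `quant_dis`.
* (ii) `Gt_le2`: Fubini in `U v`: for `s < 1`,
  `E[1(s ≤ U v) Φ(s, U)] = (1 - s) E[Φ(s, update U v s)]` for `Φ(s, U) = l1(p v (As U s) Y, p' v (As U s) (X^n))`, because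
  `Φ(s, ·)` takes the same value at `update U v c` for all `c ≥ s` (adaptedness). With `LL_upd`.
* (iii) triangle inequality and `mtp_ineq` (`Q` = law of `(X^n, (Y, U))`; invariance by `pic_equiv`, `xi_equiv`; the kernel is `p'`). -/

set_option autoImplicit false

open MeasureTheory Set Filter Topology

namespace Pool.Agent.FD82

variable {V : Type} {k : ℕ} {G : SimpleGraph V} {C : ℝ} {p p' : Kern V k}

namespace C4

private theorem reorder {ν : Measure (Cfg V k)} [IsProbabilityMeasure ν]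
    {f : Cfg V k × ((V → ℝ) × (V → ℝ)) → ENNReal} (hf : Measurable f) :
    ∫⁻ x, f x ∂(ν.prod ((LL V).prod (LL V))) =
      ∫⁻ U, ∫⁻ z, f (z.1, (U, z.2)) ∂(ν.prod (LL V)) ∂(LL V) := by
  rw [lintegral_prod _ hf.aemeasurable]
  have e1 : ∀ Y : Cfg V k, ∫⁻ w, f (Y, w) ∂((LL V).prod (LL V)) =
      ∫⁻ U, ∫⁻ ζ, f (Y, (U, ζ)) ∂(LL V) ∂(LL V) := by
    intro Y
    exact lintegral_prod (μ := LL V) (ν := LL V) (fun w => f (Y, w))
      (hf.comp measurable_prodMk_left).aemeasurable
  simp_rw [e1]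
  have hm : Measurable (fun z : Cfg V k × (V → ℝ) => ∫⁻ ζ, f (z.1, (z.2, ζ)) ∂(LL V)) := by
    have : Measurable (fun z : (Cfg V k × (V → ℝ)) × (V → ℝ) => f (z.1.1, (z.1.2, z.2))) :=
      hf.comp (by fun_prop)
    exact this.lintegral_prod_right'
  rw [lintegral_lintegral_swap (f := fun (Y : Cfg V k) (U : V → ℝ) =>
      ∫⁻ ζ, f (Y, (U, ζ)) ∂(LL V)) hm.aemeasurable]
  refine lintegral_congr (fun U => ?_)
  have hU : Measurable (fun z : Cfg V k × (V → ℝ) => f (z.1, (U, z.2))) :=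
    hf.comp (by fun_prop)
  rw [lintegral_prod _ hU.aemeasurable]

end C4

open C4 in
theorem Gt_le1 (hG : Geo G) (hp : IsKer G C p) (hp' : IsKer G C p') {ν : Measure (Cfg V k)}
    [IsProbabilityMeasure ν] (hc : Cond ν p) (v : V) (n : ℕ) (t : ℝ) :
    Gt ν p p' v (n + 1) t ≤ (k : ENNReal) * ∫⁻ x,
      ({x : Cfg V k × ((V → ℝ) × (V → ℝ)) | x.2.1 v < t}.indicator
        (fun x => l1 (p v (As x.2.1 (x.2.1 v)) x.1)
          (p' v (As x.2.1 (x.2.1 v)) (pic p' n x.2.1 (xi p x.1 x.2.1 x.2.2))))) x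
      ∂(ν.prod ((LL V).prod (LL V))) := by
  have hv : Measurable (fun x : Cfg V k × ((V → ℝ) × (V → ℝ)) => x.2.1 v) :=
    (measurable_pi_apply v).comp (by fun_prop)
  have hX : Measurable (fun x : Cfg V k × ((V → ℝ) × (V → ℝ)) =>
      pic p' n x.2.1 (xi p x.1 x.2.1 x.2.2)) :=
    meas_pic hG hp' n (by fun_prop) (meas_xi hG hp (by fun_prop) (by fun_prop) (by fun_prop))
  have hxi : Measurable (fun x : Cfg V k × ((V → ℝ) × (V → ℝ)) =>
      xi p x.1 x.2.1 x.2.2 v) :=
    (measurable_pi_apply v).comp (meas_xi hG hp (by fun_prop) (by fun_prop) (by fun_prop))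
  have hP : ∀ a, Measurable (fun x : Cfg V k × ((V → ℝ) × (V → ℝ)) =>
      p v (As x.2.1 (x.2.1 v)) x.1 a) := fun a => meas_ker hG hp v a (by fun_prop) (by fun_prop) hv
  have hP' : ∀ a, Measurable (fun x : Cfg V k × ((V → ℝ) × (V → ℝ)) =>
      p' v (As x.2.1 (x.2.1 v)) (pic p' n x.2.1 (xi p x.1 x.2.1 x.2.2)) a) :=
    fun a => meas_ker hG hp' v a (by fun_prop) hX hv
  -- the disagreement set
  let D : Set (Cfg V k × ((V → ℝ) × (V → ℝ))) :=
    {x | quant (p v (As x.2.1 (x.2.1 v)) x.1) (xi p x.1 x.2.1 x.2.2 v) ≠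
      quant (p' v (As x.2.1 (x.2.1 v)) (pic p' n x.2.1 (xi p x.1 x.2.1 x.2.2)))
        (xi p x.1 x.2.1 x.2.2 v) ∧ x.2.1 v < t}
  have hD : MeasurableSet D := by
    refine MeasurableSet.inter ?_ (hv measurableSet_Iio)
    exact (measurableSet_eq_fun (meas_quant hP hxi) (meas_quant hP' hxi)).compl
  have h1 : Gt ν p p' v (n + 1) t = (ν.prod ((LL V).prod (LL V))) D := by
    unfold Gt
    apply measure_congr
    filter_upwards [quant_xi hG hp hc] with x hx
    have hx' := hx v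
    apply propext
    change (quant (p' v (As x.2.1 (x.2.1 v)) (pic p' n x.2.1 (xi p x.1 x.2.1 x.2.2)))
        (xi p x.1 x.2.1 x.2.2 v) ≠ x.1 v ∧ x.2.1 v < t) ↔
      (quant (p v (As x.2.1 (x.2.1 v)) x.1) (xi p x.1 x.2.1 x.2.2 v) ≠
      quant (p' v (As x.2.1 (x.2.1 v)) (pic p' n x.2.1 (xi p x.1 x.2.1 x.2.2)))
        (xi p x.1 x.2.1 x.2.2 v) ∧ x.2.1 v < t)
    rw [hx', ne_comm]
  rw [h1, ← lintegral_indicator_one hD]
  have hDm : Measurable (D.indicator (1 : (Cfg V k × ((V → ℝ) × (V → ℝ))) → ENNReal)) :=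
    measurable_one.indicator hD
  rw [reorder hDm]
  have hm : Measurable (({x : Cfg V k × ((V → ℝ) × (V → ℝ)) | x.2.1 v < t}.indicator
        (fun x => l1 (p v (As x.2.1 (x.2.1 v)) x.1)
          (p' v (As x.2.1 (x.2.1 v)) (pic p' n x.2.1 (xi p x.1 x.2.1 x.2.2)))))) := by
    refine Measurable.indicator ?_ (hv measurableSet_Iio)
    exact meas_l1 hP hP'
  rw [← lintegral_const_mul _ hm, reorder (hm.const_mul _)]
  refine lintegral_mono (fun U => ?_)
  by_cases hUt : U v < t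
  swap
  · refine le_of_eq_of_le ?_ bot_le
    rw [bot_eq_zero]
    rw [← lintegral_zero (μ := ν.prod (LL V))]
    refine lintegral_congr (fun x => ?_)
    rw [indicator_of_notMem]
    rintro ⟨-, h⟩
    exact hUt h
  -- the main case
  let A : Set V := As U (U v)
  have hvA : v ∉ A := lt_irrefl (U v)
  let Φ : Cfg V k → (V → ℝ) → ℝ → ENNReal := fun y ζ c =>
    {c : ℝ | quant (p v A y) c ≠ quant (p' v A (pic p' n U (xi p y U ζ))) c}.indicator 1 c
  have hΦ : Measurable (fun x : (Cfg V k × (V → ℝ)) × ℝ => Φ x.1.1 x.1.2 x.2) := by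
    have hS : MeasurableSet {x : (Cfg V k × (V → ℝ)) × ℝ |
        quant (p v A x.1.1) x.2 ≠ quant (p' v A (pic p' n U (xi p x.1.1 U x.1.2))) x.2} := by
      refine (measurableSet_eq_fun (meas_quant (fun a => ?_) measurable_snd)
        (meas_quant (fun a => ?_) measurable_snd)).compl
      · exact meas_kerA hG hp v A a (by fun_prop)
      · exact meas_kerA hG hp' v A a (meas_pic hG hp' n measurable_const
          (meas_xi hG hp (by fun_prop) measurable_const (by fun_prop)))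
    exact measurable_one.indicator hS
  have hA : ∀ y y' ζ ζ' c, (∀ w ∈ A, y w = y' w) → (∀ w ∈ A, ζ w = ζ' w) → Φ y ζ c = Φ y' ζ' c := by
    intro y y' ζ ζ' c hy hζ
    have e1 : p v A y = p v A y' := by
      funext a; exact hp.dep v A hy a
    have e2 : p' v A (pic p' n U (xi p y U ζ)) = p' v A (pic p' n U (xi p y' U ζ')) := by
      funext a
      apply hp'.dep
      intro w hw
      refine pic_adapt hp' (s := U v) (fun _ => Or.inl rfl) ?_ n hw
      intro u hu
      exact xi_adapt hp (fun _ => Or.inl rfl) (fun w hw => hy w hw) (fun w hw => hζ w hw) hu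
    simp only [Φ, e1, e2]
  have key := one_step hG hp hc A v hvA hΦ hA
  calc ∫⁻ z, D.indicator 1 (z.1, (U, z.2)) ∂(ν.prod (LL V))
      = ∫⁻ x, Φ x.1 x.2 (rr (p v A x.1) (x.1 v) (x.2 v)) ∂(ν.prod (LL V)) := by
        refine lintegral_congr (fun z => ?_)
        have : (z.1, (U, z.2)) ∈ D ↔ rr (p v A z.1) (z.1 v) (z.2 v) ∈
            {c : ℝ | quant (p v A z.1) c ≠ quant (p' v A (pic p' n U (xi p z.1 U z.2))) c} :=
          ⟨fun h => h.1, fun h => ⟨h, hUt⟩⟩
        by_cases hz : (z.1, (U, z.2)) ∈ D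
        · rw [indicator_of_mem hz]
          exact (indicator_of_mem (this.mp hz) (1 : ℝ → ENNReal)).symm
        · rw [indicator_of_notMem hz]
          exact (indicator_of_notMem (fun h => hz (this.mpr h)) (1 : ℝ → ENNReal)).symm
    _ = ∫⁻ x, ∫⁻ c, Φ x.1 x.2 c ∂lam ∂(ν.prod (LL V)) := key
    _ ≤ _ := by
        refine lintegral_mono (fun z => ?_)
        have hS : MeasurableSet {c : ℝ | quant (p v A z.1) c ≠
            quant (p' v A (pic p' n U (xi p z.1 U z.2))) c} :=
          (measurableSet_eq_fun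
            (meas_quant (P := fun _ : ℝ => p v A z.1) (c := fun c => c)
              (fun a => measurable_const) measurable_id)
            (meas_quant (P := fun _ : ℝ => p' v A (pic p' n U (xi p z.1 U z.2)))
              (c := fun c => c) (fun a => measurable_const) measurable_id)).compl
        have e3 : ∫⁻ c, Φ z.1 z.2 c ∂lam = lam {c : ℝ | quant (p v A z.1) c ≠
            quant (p' v A (pic p' n U (xi p z.1 U z.2))) c} := lintegral_indicator_one hS
        have e4 := indicator_of_mem (show (z.1, (U, z.2)) ∈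
          {x : Cfg V k × ((V → ℝ) × (V → ℝ)) | x.2.1 v < t} from hUt)
          (fun x => l1 (p v (As x.2.1 (x.2.1 v)) x.1)
          (p' v (As x.2.1 (x.2.1 v)) (pic p' n x.2.1 (xi p x.1 x.2.1 x.2.2))))
        rw [e3, e4]
        exact quant_dis _ _

end Pool.Agent.FD82
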