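import Pool.Agent.Lib.FD82.B5_OneStep

/-! # C5_Gt2: recursion, part (ii)

* (i) `Gt_le1`: given `U` (injective), with `A = As U (U v)`: `Y v = quant (p v A Y) ξ_v` a.s. (`quant_xi`),
  `X^{n+1} v = quant (p' v A X^n) ξ_v`, `X^n` on `A` is a function of `(Y, ζ)` on `A` (`xi_adapt`, `pic_adapt`); by
  `one_step`, `ξ_v` may be replaced by an independent uniform variable; then `quant_dis`.
* (ii) `Gt_le2`: Fubini in `U v`: for `s < 1`,
  `E[1(s ≤ U v) Φ(s, U)] = (1 - s) E[Φ(s, update U v s)]` for `Φ(s, U) = l1(p v (As U s) Y, p' v (As U s) (X^n))`, because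
  `Φ(s, ·)` takes the same value at `update U v c` for all `c ≥ s` (adaptedness). With `LL_upd`.
* (iii) triangle inequality and `mtp_ineq` (`Q` = law of `(X^n, (Y, U))`; invariance by `pic_equiv`, `xi_equiv`; the kernel is `p'`). -/

set_option autoImplicit false

open MeasureTheory Set Filter Topology

namespace Pool.Agent.FD82

variable {V : Type} {k : ℕ} {G : SimpleGraph V} {C : ℝ} {p p' : Kern V k}

namespace C5

/-- The integrand. -/
private noncomputable def Ph (p p' : Kern V k) (v : V) (n : ℕ) (s : ℝ) (Y : Cfg V k)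
    (U ζ : V → ℝ) : ENNReal :=
  l1 (p v (As U s) Y) (p' v (As U s) (pic p' n U (xi p Y U ζ)))

private theorem meas_Ph (hG : Geo G) (hp : IsKer G C p) (hp' : IsKer G C p') (v : V) (n : ℕ)
    {X : Type} [MeasurableSpace X] {s : X → ℝ} (hs : Measurable s) {Y : X → Cfg V k}
    (hY : Measurable Y) {U ζ : X → V → ℝ} (hU : Measurable U) (hζ : Measurable ζ) :
    Measurable (fun x => Ph p p' v n (s x) (Y x) (U x) (ζ x)) :=
  meas_l1 (fun a => meas_ker hG hp v a hU hY hs)
    (fun a => meas_ker hG hp' v a hU (meas_pic hG hp' n hU (meas_xi hG hp hY hU hζ)) hs)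

open Classical in
private theorem Ph_upd (hp : IsKer G C p) (hp' : IsKer G C p') (v : V) (n : ℕ) {s c : ℝ}
    (hc : s ≤ c) (Y : Cfg V k) (U ζ : V → ℝ) :
    Ph p p' v n s Y (Function.update U v c) ζ = Ph p p' v n s Y (Function.update U v s) ζ := by
  have hUU : ∀ w, Function.update U v c w = Function.update U v s w ∨
      (s ≤ Function.update U v c w ∧ s ≤ Function.update U v s w) := by
    intro w
    by_cases hw : w = v
    · subst hw; right; simp [hc]
    · left; simp [hw]
  have hAs : As (Function.update U v c) s = As (Function.update U v s) s := by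
    ext w
    simp only [As, mem_ofPred_eq]
    rcases hUU w with h | ⟨h1, h2⟩
    · rw [h]
    · exact ⟨fun h => absurd h (not_lt.mpr h1), fun h => absurd h (not_lt.mpr h2)⟩
  unfold Ph
  rw [hAs]
  congr 1
  funext a
  apply hp'.dep
  intro w hw
  have hw' : Function.update U v c w < s := by
    have : w ∈ As (Function.update U v c) s := hAs ▸ hw
    exact this
  apply pic_adapt hp' hUU _ n hw'
  intro u hu
  exact xi_adapt hp hUU (fun _ _ => rfl) (fun _ _ => rfl) hu

open Classical in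
private theorem resample {ν : Measure (Cfg V k)} [IsProbabilityMeasure ν] (v : V)
    {f : Cfg V k × ((V → ℝ) × (V → ℝ)) → ENNReal} (hf : Measurable f) :
    ∫⁻ x, f x ∂(ν.prod ((LL V).prod (LL V))) =
      ∫⁻ c, ∫⁻ x, f (x.1, (Function.update x.2.1 v c, x.2.2)) ∂(ν.prod ((LL V).prod (LL V))) ∂lam := by
  have hupd : Measurable (fun z : (V → ℝ) × ℝ => Function.update z.1 v z.2) := measurable_update'
  have e1 : ∀ Y : Cfg V k, ∫⁻ w, f (Y, w) ∂((LL V).prod (LL V)) =
      ∫⁻ c, ∫⁻ w, f (Y, (Function.update w.1 v c, w.2)) ∂((LL V).prod (LL V)) ∂lam := by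
    intro Y
    have hfY : Measurable (fun w : (V → ℝ) × (V → ℝ) => f (Y, w)) := hf.comp measurable_prodMk_left
    rw [lintegral_prod_symm' _ hfY]
    have e2 : ∀ ζ : V → ℝ, ∫⁻ U, f (Y, (U, ζ)) ∂(LL V) =
        ∫⁻ U, ∫⁻ c, f (Y, (Function.update U v c, ζ)) ∂lam ∂(LL V) := by
      intro ζ
      exact LL_upd v (f := fun U => f (Y, (U, ζ))) (hfY.comp measurable_prodMk_right)
    simp_rw [e2]
    have hm : Measurable (fun z : ((V → ℝ) × (V → ℝ)) × ℝ =>
        f (Y, (Function.update z.1.1 v z.2, z.1.2))) := by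
      refine hf.comp (measurable_const.prodMk (Measurable.prodMk ?_ (by fun_prop)))
      exact hupd.comp (by fun_prop : Measurable (fun z : ((V → ℝ) × (V → ℝ)) × ℝ => (z.1.1, z.2)))
    have hm1 : Measurable (fun w : (V → ℝ) × (V → ℝ) =>
        ∫⁻ c, f (Y, (Function.update w.1 v c, w.2)) ∂lam) := hm.lintegral_prod_right'
    have e3 := lintegral_prod_symm' (μ := LL V) (ν := LL V) _ hm1
    rw [← e3]
    exact lintegral_lintegral_swap (f := fun (w : (V → ℝ) × (V → ℝ)) (c : ℝ) =>
      f (Y, (Function.update w.1 v c, w.2))) hm.aemeasurable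
  have hM : Measurable (fun z : (Cfg V k × ((V → ℝ) × (V → ℝ))) × ℝ =>
      f (z.1.1, (Function.update z.1.2.1 v z.2, z.1.2.2))) := by
    refine hf.comp (Measurable.prodMk (by fun_prop) (Measurable.prodMk ?_ (by fun_prop)))
    exact hupd.comp (by fun_prop : Measurable
      (fun z : (Cfg V k × ((V → ℝ) × (V → ℝ))) × ℝ => (z.1.2.1, z.2)))
  rw [lintegral_prod _ hf.aemeasurable]
  simp_rw [e1]
  have hM1 : Measurable (fun z : Cfg V k × ℝ =>
      ∫⁻ w, f (z.1, (Function.update w.1 v z.2, w.2)) ∂((LL V).prod (LL V))) := by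
    have : Measurable (fun z : (Cfg V k × ℝ) × ((V → ℝ) × (V → ℝ)) =>
        f (z.1.1, (Function.update z.2.1 v z.1.2, z.2.2))) :=
      hM.comp (by fun_prop : Measurable (fun z : (Cfg V k × ℝ) × ((V → ℝ) × (V → ℝ)) =>
        ((z.1.1, z.2), z.1.2)))
    exact this.lintegral_prod_right'
  rw [lintegral_lintegral_swap (f := fun (Y : Cfg V k) (c : ℝ) =>
      ∫⁻ w, f (Y, (Function.update w.1 v c, w.2)) ∂((LL V).prod (LL V))) hM1.aemeasurable]
  refine lintegral_congr (fun c => ?_)
  have hMc : Measurable (fun x : Cfg V k × ((V → ℝ) × (V → ℝ)) =>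
      f (x.1, (Function.update x.2.1 v c, x.2.2))) := hM.comp measurable_prodMk_right
  rw [lintegral_prod _ hMc.aemeasurable]

end C5

open C5 in
theorem Gt_le2 (hG : Geo G) (hp : IsKer G C p) (hp' : IsKer G C p') {ν : Measure (Cfg V k)}
    [IsProbabilityMeasure ν] (v : V) (n : ℕ) {t : ℝ} (ht : t < 1) :
    ∫⁻ x, ({x : Cfg V k × ((V → ℝ) × (V → ℝ)) | x.2.1 v < t}.indicator
        (fun x => l1 (p v (As x.2.1 (x.2.1 v)) x.1)
          (p' v (As x.2.1 (x.2.1 v)) (pic p' n x.2.1 (xi p x.1 x.2.1 x.2.2))))) x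
      ∂(ν.prod ((LL V).prod (LL V))) =
    ∫⁻ s in Ico 0 t, ENNReal.ofReal (1 / (1 - s)) *
      ∫⁻ x, ({x : Cfg V k × ((V → ℝ) × (V → ℝ)) | s ≤ x.2.1 v}.indicator
        (fun x => l1 (p v (As x.2.1 s) x.1)
          (p' v (As x.2.1 s) (pic p' n x.2.1 (xi p x.1 x.2.1 x.2.2))))) x
      ∂(ν.prod ((LL V).prod (LL V))) := by
  classical
  have hv : Measurable (fun x : Cfg V k × ((V → ℝ) × (V → ℝ)) => x.2.1 v) :=
    (measurable_pi_apply v).comp (by fun_prop)
  let g : ℝ → ENNReal := fun c =>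
    ∫⁻ x, Ph p p' v n c x.1 (Function.update x.2.1 v c) x.2.2 ∂(ν.prod ((LL V).prod (LL V)))
  -- the left side
  have hL : ∫⁻ x, ({x : Cfg V k × ((V → ℝ) × (V → ℝ)) | x.2.1 v < t}.indicator
        (fun x => l1 (p v (As x.2.1 (x.2.1 v)) x.1)
          (p' v (As x.2.1 (x.2.1 v)) (pic p' n x.2.1 (xi p x.1 x.2.1 x.2.2))))) x
      ∂(ν.prod ((LL V).prod (LL V))) = ∫⁻ c in Ico 0 t, g c := by
    have hm : Measurable (({x : Cfg V k × ((V → ℝ) × (V → ℝ)) | x.2.1 v < t}.indicator
        (fun x => l1 (p v (As x.2.1 (x.2.1 v)) x.1)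
          (p' v (As x.2.1 (x.2.1 v)) (pic p' n x.2.1 (xi p x.1 x.2.1 x.2.2)))))) := by
      refine Measurable.indicator ?_ (hv measurableSet_Iio)
      exact meas_Ph hG hp hp' v n hv (by fun_prop) (by fun_prop) (by fun_prop)
    rw [resample v hm]
    have e1 : ∀ c, ∫⁻ x, ({x : Cfg V k × ((V → ℝ) × (V → ℝ)) | x.2.1 v < t}.indicator
        (fun x => l1 (p v (As x.2.1 (x.2.1 v)) x.1)
          (p' v (As x.2.1 (x.2.1 v)) (pic p' n x.2.1 (xi p x.1 x.2.1 x.2.2)))))
          (x.1, (Function.update x.2.1 v c, x.2.2)) ∂(ν.prod ((LL V).prod (LL V))) =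
        (Iio t).indicator g c := by
      intro c
      by_cases hc : c < t
      · rw [indicator_of_mem (show c ∈ Iio t from hc)]
        refine lintegral_congr (fun x => ?_)
        rw [indicator_of_mem]
        · simp only [Function.update_self]
          rfl
        · simpa using hc
      · rw [indicator_of_notMem (show c ∉ Iio t from hc)]
        rw [← lintegral_zero (μ := ν.prod ((LL V).prod (LL V)))]
        refine lintegral_congr (fun x => ?_)
        rw [indicator_of_notMem]
        simpa using hc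
    simp_rw [e1]
    rw [lintegral_indicator measurableSet_Iio, lam, Measure.restrict_restrict measurableSet_Iio]
    congr 2
    ext c
    simp only [mem_inter_iff, mem_Iio, mem_Icc, mem_Ico]
    constructor
    · rintro ⟨h1, h2, h3⟩; exact ⟨h2, h1⟩
    · rintro ⟨h1, h2⟩; exact ⟨h2, h1, by linarith⟩
  rw [hL]
  refine setLIntegral_congr_fun measurableSet_Ico (fun s hs => ?_)
  obtain ⟨hs0, hst⟩ := hs
  have hs1 : s < 1 := hst.trans ht
  have hm : Measurable (({x : Cfg V k × ((V → ℝ) × (V → ℝ)) | s ≤ x.2.1 v}.indicator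
        (fun x => l1 (p v (As x.2.1 s) x.1)
          (p' v (As x.2.1 s) (pic p' n x.2.1 (xi p x.1 x.2.1 x.2.2)))))) := by
    refine Measurable.indicator ?_ (hv measurableSet_Ici)
    exact meas_Ph hG hp hp' v n measurable_const (by fun_prop) (by fun_prop) (by fun_prop)
  rw [resample v hm]
  have e1 : ∀ c, ∫⁻ x, ({x : Cfg V k × ((V → ℝ) × (V → ℝ)) | s ≤ x.2.1 v}.indicator
        (fun x => l1 (p v (As x.2.1 s) x.1)
          (p' v (As x.2.1 s) (pic p' n x.2.1 (xi p x.1 x.2.1 x.2.2)))))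
          (x.1, (Function.update x.2.1 v c, x.2.2)) ∂(ν.prod ((LL V).prod (LL V))) =
        (Ici s).indicator (fun _ => g s) c := by
    intro c
    by_cases hc : s ≤ c
    · rw [indicator_of_mem (show c ∈ Ici s from hc)]
      refine lintegral_congr (fun x => ?_)
      rw [indicator_of_mem]
      · exact Ph_upd hp hp' v n hc x.1 x.2.1 x.2.2
      · simpa using hc
    · rw [indicator_of_notMem (show c ∉ Ici s from hc)]
      rw [← lintegral_zero (μ := ν.prod ((LL V).prod (LL V)))]
      refine lintegral_congr (fun x => ?_)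
      rw [indicator_of_notMem]
      simpa using hc
  simp_rw [e1]
  rw [lintegral_indicator measurableSet_Ici, lintegral_const, Measure.restrict_apply_univ, lam,
    Measure.restrict_apply measurableSet_Ici]
  have e2 : Ici s ∩ Icc 0 1 = Icc s 1 := by
    ext c
    simp only [mem_inter_iff, mem_Ici, mem_Icc]
    constructor
    · rintro ⟨h1, h2, h3⟩; exact ⟨h1, h3⟩
    · rintro ⟨h1, h2⟩; exact ⟨h1, by linarith, h2⟩
  rw [e2, Real.volume_Icc, mul_comm (g s), ← mul_assoc, ← ENNReal.ofReal_mul (by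
    have : 0 < 1 - s := by linarith
    positivity)]
  have : 1 / (1 - s) * (1 - s) = 1 := by
    have : 1 - s ≠ 0 := by linarith
    field_simp
  rw [this, ENNReal.ofReal_one, one_mul]

end Pool.Agent.FD82
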