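import Pool.Agent.Lib.FD82.C2_Mtp
import Pool.Agent.Lib.FD82.C3_Equiv
import Pool.Agent.Lib.FD82.C4_Gt1
import Pool.Agent.Lib.FD82.C5_Gt2

/-! # C6_GtSucc: recursion, part (iii)

* (i) `Gt_le1`: given `U` (injective), with `A = As U (U v)`: `Y v = quant (p v A Y) ξ_v` a.s. (`quant_xi`),
  `X^{n+1} v = quant (p' v A X^n) ξ_v`, `X^n` on `A` is a function of `(Y, ζ)` on `A` (`xi_adapt`, `pic_adapt`); by
  `one_step`, `ξ_v` may be replaced by an independent uniform variable; then `quant_dis`.
* (ii) `Gt_le2`: Fubini in `U v`: for `s < 1`,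
  `E[1(s ≤ U v) Φ(s, U)] = (1 - s) E[Φ(s, update U v s)]` for `Φ(s, U) = l1(p v (As U s) Y, p' v (As U s) (X^n))`, because
  `Φ(s, ·)` takes the same value at `update U v c` for all `c ≥ s` (adaptedness). With `LL_upd`.
* (iii) triangle inequality and `mtp_ineq` (`Q` = law of `(X^n, (Y, U))`; invariance by `pic_equiv`, `xi_equiv`; the kernel is `p'`). -/

set_option autoImplicit false

open MeasureTheory Set Filter Topology

namespace Pool.Agent.FD82

variable {V : Type} {k : ℕ} {G : SimpleGraph V} {C : ℝ} {p p' : Kern V k}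

private theorem l1_tri (P P' P'' : Fin (k + 1) → ℝ) : l1 P P'' ≤ l1 P P' + l1 P' P'' := by
  unfold l1
  rw [← Finset.sum_add_distrib]
  refine Finset.sum_le_sum fun a _ => ?_
  rw [← ENNReal.ofReal_add (abs_nonneg _) (abs_nonneg _)]
  exact ENNReal.ofReal_le_ofReal (abs_sub_le _ _ _)

private theorem l1_comm (P P' : Fin (k + 1) → ℝ) : l1 P P' = l1 P' P := by
  unfold l1
  refine Finset.sum_congr rfl fun a _ => ?_
  rw [abs_sub_comm]

private theorem meas_comp' (g : V → V) {X : Type} [MeasurableSpace X] :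
    Measurable (fun y : V → X => y ∘ g) :=
  measurable_pi_iff.2 fun v => measurable_pi_apply (g v)

theorem Gt_succ (hG : Geo G) (hp : IsKer G C p) (hp' : IsKer G C p') (hC : 0 ≤ C)
    {ν : Measure (Cfg V k)} [IsProbabilityMeasure ν] (hν : Inv G ν) (hc : Cond ν p) (v : V)
    (n : ℕ) {t : ℝ} (ht : t < 1) :
    Gt ν p p' v (n + 1) t ≤ ∫⁻ s in Ico 0 t, ENNReal.ofReal (1 / (1 - s)) *
      ((k : ENNReal) * ee ν p p' v s + ENNReal.ofReal (k * C) * Gt ν p p' v n s) := by
  have hcount : Countable V := hG.countable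
  refine (Gt_le1 hG hp hp' hc v n t).trans ?_
  rw [Gt_le2 hG hp hp' v n ht, ← lintegral_const_mul' _ _ (ENNReal.natCast_ne_top k)]
  refine lintegral_mono fun s => ?_
  rw [← mul_assoc, mul_comm (k : ENNReal), mul_assoc]
  refine mul_le_mul_right ?_ _
  rw [ENNReal.ofReal_mul (Nat.cast_nonneg k), ENNReal.ofReal_natCast, mul_assoc, ← mul_add]
  refine mul_le_mul_right ?_ _
  -- the law of (X, (Y, U))
  set P := ν.prod ((LL V).prod (LL V)) with hP
  set X : Cfg V k × ((V → ℝ) × (V → ℝ)) → Cfg V k :=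
    fun x => pic p' n x.2.1 (xi p x.1 x.2.1 x.2.2) with hX
  have mY : Measurable (fun x : Cfg V k × ((V → ℝ) × (V → ℝ)) => x.1) := measurable_fst
  have mU : Measurable (fun x : Cfg V k × ((V → ℝ) × (V → ℝ)) => x.2.1) :=
    measurable_fst.comp measurable_snd
  have mζ : Measurable (fun x : Cfg V k × ((V → ℝ) × (V → ℝ)) => x.2.2) :=
    measurable_snd.comp measurable_snd
  have mX : Measurable X := meas_pic hG hp' n mU (meas_xi hG hp mY mU mζ)
  set F : Cfg V k × ((V → ℝ) × (V → ℝ)) → Cfg V k × (Cfg V k × (V → ℝ)) :=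
    fun x => (X x, (x.1, x.2.1)) with hF
  have mF : Measurable F := mX.prodMk (mY.prodMk mU)
  have hQp : IsProbabilityMeasure (P.map F) := Measure.isProbabilityMeasure_map mF.aemeasurable
  have hQ : ∀ g : G ≃g G, (P.map F).map
      (fun x => (x.1 ∘ g, (x.2.1 ∘ g, x.2.2 ∘ g))) = P.map F := by
    intro g
    have m1 : Measurable (fun x : Cfg V k × (Cfg V k × (V → ℝ)) =>
        (x.1 ∘ g, (x.2.1 ∘ g, x.2.2 ∘ g))) :=
      (meas_comp' g).prodMap ((meas_comp' g).prodMap (meas_comp' g))
    have m2 : Measurable (Prod.map (fun y : Cfg V k => y ∘ g)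
        (Prod.map (fun U : V → ℝ => U ∘ g) (fun U : V → ℝ => U ∘ g))) :=
      (meas_comp' g).prodMap ((meas_comp' g).prodMap (meas_comp' g))
    rw [Measure.map_map m1 mF]
    have e : (fun x : Cfg V k × (Cfg V k × (V → ℝ)) => (x.1 ∘ g, (x.2.1 ∘ g, x.2.2 ∘ g))) ∘ F =
        F ∘ (Prod.map (fun y : Cfg V k => y ∘ g)
          (Prod.map (fun U : V → ℝ => U ∘ g) (fun U : V → ℝ => U ∘ g))) := by
      funext x
      simp only [hF, hX, Function.comp_apply, Prod.map]
      rw [xi_equiv hp g, pic_equiv hp' g]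
    have hL : (LL V).map (fun U : V → ℝ => U ∘ g) = LL V := LL_perm g.toEquiv
    rw [e, ← Measure.map_map mF m2, hP, ← Measure.map_prod_map _ _ (meas_comp' g)
      ((meas_comp' g).prodMap (meas_comp' g)), ← Measure.map_prod_map _ _ (meas_comp' g)
      (meas_comp' g), hν g, hL]
  have hinj : ∀ᵐ x ∂(P.map F), Function.Injective x.2.2 := by
    have m3 : Measurable (fun x : Cfg V k × (Cfg V k × (V → ℝ)) => x.2.2) :=
      measurable_snd.comp measurable_snd
    refine ae_of_ae_map (f := fun x : Cfg V k × (Cfg V k × (V → ℝ)) => x.2.2) m3.aemeasurable ?_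
    rw [Measure.map_map m3 mF]
    have e : (fun x : Cfg V k × (Cfg V k × (V → ℝ)) => x.2.2) ∘ F =
      Prod.fst ∘ (Prod.snd : Cfg V k × ((V → ℝ) × (V → ℝ)) → (V → ℝ) × (V → ℝ)) := rfl
    rw [e, ← Measure.map_map measurable_fst measurable_snd, hP, Measure.map_snd_prod,
      measure_univ, one_smul, Measure.map_fst_prod, measure_univ, one_smul]
    exact LL_inj
  have key := mtp_ineq hG hp' hC (P.map F) hQ hinj v s
  have mind : Measurable ({x : Cfg V k × (Cfg V k × (V → ℝ)) | s ≤ x.2.2 v}.indicator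
      (fun x => l1 (p' v (As x.2.2 s) x.1) (p' v (As x.2.2 s) x.2.1))) := by
    have m3 : Measurable (fun x : Cfg V k × (Cfg V k × (V → ℝ)) => x.2.2) :=
      measurable_snd.comp measurable_snd
    have m4 : Measurable (fun x : Cfg V k × (Cfg V k × (V → ℝ)) => x.2.1) :=
      measurable_fst.comp measurable_snd
    refine Measurable.indicator ?_ (measurableSet_le measurable_const
      ((measurable_pi_apply v).comp m3))
    exact meas_l1 (fun a => meas_ker hG hp' v a m3 measurable_fst measurable_const)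
      (fun a => meas_ker hG hp' v a m3 m4 measurable_const)
  rw [lintegral_map mind mF] at key
  have mset : MeasurableSet {x : Cfg V k × (Cfg V k × (V → ℝ)) | x.1 v ≠ x.2.1 v ∧ x.2.2 v < s} := by
    refine MeasurableSet.inter ?_ ?_
    · exact (measurableSet_eq_fun ((measurable_pi_apply v).comp measurable_fst)
        ((measurable_pi_apply v).comp (measurable_fst.comp measurable_snd))).compl
    · exact measurableSet_lt ((measurable_pi_apply v).comp (measurable_snd.comp measurable_snd))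
        measurable_const
  rw [Measure.map_apply mF mset] at key
  have hG1 : P (F ⁻¹' {x | x.1 v ≠ x.2.1 v ∧ x.2.2 v < s}) = Gt ν p p' v n s := rfl
  rw [hG1] at key
  -- the first term
  have hee : ∫⁻ x, ({x : Cfg V k × ((V → ℝ) × (V → ℝ)) | s ≤ x.2.1 v}.indicator
      (fun x => l1 (p v (As x.2.1 s) x.1) (p' v (As x.2.1 s) x.1))) x ∂P = ee ν p p' v s := by
    have m5 : Measurable (Prod.map (id : Cfg V k → Cfg V k)
        (Prod.fst : (V → ℝ) × (V → ℝ) → (V → ℝ))) := measurable_id.prodMap measurable_fst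
    have e : ν.prod (LL V) = P.map (Prod.map (id : Cfg V k → Cfg V k)
        (Prod.fst : (V → ℝ) × (V → ℝ) → (V → ℝ))) := by
      rw [hP, ← Measure.map_prod_map _ _ measurable_id measurable_fst, Measure.map_id,
        Measure.map_fst_prod, measure_univ, one_smul]
    have mind2 : Measurable ({x : Cfg V k × (V → ℝ) | s ≤ x.2 v}.indicator
        (fun x => l1 (p v (As x.2 s) x.1) (p' v (As x.2 s) x.1))) := by
      refine Measurable.indicator ?_ (measurableSet_le measurable_const
        ((measurable_pi_apply v).comp measurable_snd))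
      exact meas_l1 (fun a => meas_ker hG hp v a measurable_snd measurable_fst measurable_const)
        (fun a => meas_ker hG hp' v a measurable_snd measurable_fst measurable_const)
    rw [ee, e, lintegral_map mind2 m5]
    rfl
  calc ∫⁻ x, ({x : Cfg V k × ((V → ℝ) × (V → ℝ)) | s ≤ x.2.1 v}.indicator
        (fun x => l1 (p v (As x.2.1 s) x.1) (p' v (As x.2.1 s) (X x)))) x ∂P
      ≤ ∫⁻ x, (({x : Cfg V k × ((V → ℝ) × (V → ℝ)) | s ≤ x.2.1 v}.indicator
          (fun x => l1 (p v (As x.2.1 s) x.1) (p' v (As x.2.1 s) x.1))) x +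
        ({x : Cfg V k × (Cfg V k × (V → ℝ)) | s ≤ x.2.2 v}.indicator
          (fun x => l1 (p' v (As x.2.2 s) x.1) (p' v (As x.2.2 s) x.2.1))) (F x)) ∂P := by
        refine lintegral_mono fun x => ?_
        by_cases hx : s ≤ x.2.1 v
        · have hx2 : F x ∈ {x : Cfg V k × (Cfg V k × (V → ℝ)) | s ≤ x.2.2 v} := hx
          have hx1 : x ∈ {x : Cfg V k × ((V → ℝ) × (V → ℝ)) | s ≤ x.2.1 v} := hx
          rw [indicator_of_mem hx1, indicator_of_mem hx1, indicator_of_mem hx2]
          refine (l1_tri _ (p' v (As x.2.1 s) x.1) _).trans ?_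
          exact add_le_add le_rfl (le_of_eq (l1_comm _ _))
        · have hx1 : x ∉ {x : Cfg V k × ((V → ℝ) × (V → ℝ)) | s ≤ x.2.1 v} := hx
          rw [indicator_of_notMem hx1]
          exact bot_le
    _ = ee ν p p' v s + ∫⁻ x, ({x : Cfg V k × (Cfg V k × (V → ℝ)) | s ≤ x.2.2 v}.indicator
          (fun x => l1 (p' v (As x.2.2 s) x.1) (p' v (As x.2.2 s) x.2.1))) (F x) ∂P := by
        have mind3 : Measurable (fun x => ({x : Cfg V k × (Cfg V k × (V → ℝ)) |
            s ≤ x.2.2 v}.indicator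
          (fun x => l1 (p' v (As x.2.2 s) x.1) (p' v (As x.2.2 s) x.2.1))) (F x)) := mind.comp mF
        rw [lintegral_add_right _ mind3, hee]
    _ ≤ ee ν p p' v s + ENNReal.ofReal C * Gt ν p p' v n s := add_le_add le_rfl key

end Pool.Agent.FD82
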