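import Pool.Agent.Lib.FD82.C6_GtSucc

/-! # C7_Gron: Gronwall

-/

set_option autoImplicit false

open MeasureTheory Set Filter Topology

namespace Pool.Agent.FD82

variable {V : Type} {k : ℕ} {G : SimpleGraph V} {C : ℝ} {p p' : Kern V k}

private theorem lint_ftc {f F : ℝ → ℝ} (hF : ∀ r, HasDerivAt F (f r) r) (hf : Continuous f)
    (h0 : ∀ r, 0 ≤ r → 0 ≤ f r) (hF0 : F 0 = 0) {s : ℝ} (hs : 0 ≤ s) :
    ∫⁻ r in Ico 0 s, ENNReal.ofReal (f r) = ENNReal.ofReal (F s) := by
  rw [← ofReal_integral_eq_lintegral_ofReal]
  · rw [integral_Ico_eq_integral_Ioc, ← intervalIntegral.integral_of_le hs,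
      intervalIntegral.integral_eq_sub_of_hasDerivAt (fun x _ => hF x) (hf.intervalIntegrable _ _), hF0,
      sub_zero]
  · exact (hf.continuousOn.integrableOn_Icc).mono_set Ico_subset_Icc_self
  · exact ae_restrict_of_forall_mem measurableSet_Ico (fun r hr => h0 r hr.1)

private theorem deriv_mono (D : ℝ) (j : ℕ) (r : ℝ) :
    HasDerivAt (fun r : ℝ => (D * r) ^ (j + 1) / ((j + 1).factorial : ℝ))
      (D * ((D * r) ^ j / (j.factorial : ℝ))) r := by
  have h1 : HasDerivAt (fun r : ℝ => D * r) D r := by
    simpa using (hasDerivAt_id r).const_mul D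
  have h2 := (h1.pow (j + 1)).div_const ((j + 1).factorial : ℝ)
  refine h2.congr_deriv ?_
  rw [Nat.factorial_succ]
  have hj : ((j : ℝ) + 1) ≠ 0 := by positivity
  have hj2 : (j.factorial : ℝ) ≠ 0 := by positivity
  push_cast
  field_simp

/-- Gronwall; `Gt ν p p' v 0 t ≤ 1`. -/
theorem Gt_bound (hG : Geo G) (hp : IsKer G C p) (hp' : IsKer G C p') (hC : 0 ≤ C)
    {ν : Measure (Cfg V k)} [IsProbabilityMeasure ν] (hν : Inv G ν) (hc : Cond ν p) (v : V)
    (n : ℕ) {t : ℝ} (ht0 : 0 ≤ t) (ht : t < 1) :
    Gt ν p p' v n t ≤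
      ENNReal.ofReal (k / (1 - t) * Real.exp (k / (1 - t) * C * t)) *
        (∫⁻ s in Ico 0 t, ee ν p p' v s) +
      ENNReal.ofReal ((k / (1 - t) * C * t) ^ n / n.factorial) := by
  have h1t : 0 < 1 - t := by linarith
  set K : ℝ := k / (1 - t) with hK
  have hK0 : 0 ≤ K := by positivity
  set D : ℝ := K * C with hD
  have hD0 : 0 ≤ D := mul_nonneg hK0 hC
  set A : ENNReal := ENNReal.ofReal K * ∫⁻ s in Ico 0 t, ee ν p p' v s with hA
  have key : ∀ n : ℕ, ∀ s : ℝ, 0 ≤ s → s ≤ t → Gt ν p p' v n s ≤
      A * ENNReal.ofReal (∑ j ∈ Finset.range n, (D * s) ^ j / (j.factorial : ℝ)) +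
        ENNReal.ofReal ((D * s) ^ n / (n.factorial : ℝ)) := by
    intro n
    induction n with
    | zero =>
      intro s _ _
      simp only [Finset.range_zero, Finset.sum_empty, ENNReal.ofReal_zero, mul_zero, zero_add,
        pow_zero, Nat.factorial_zero, Nat.cast_one, div_one, ENNReal.ofReal_one]
      exact prob_le_one
    | succ n ih =>
      intro s hs0 hst
      have hmS : Measurable (fun r : ℝ =>
          A * ENNReal.ofReal (D * ∑ j ∈ Finset.range n, (D * r) ^ j / (j.factorial : ℝ)) +
            ENNReal.ofReal (D * ((D * r) ^ n / (n.factorial : ℝ)))) := by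
        fun_prop
      have hmS2 : Measurable (fun r : ℝ =>
          ENNReal.ofReal (D * ∑ j ∈ Finset.range n, (D * r) ^ j / (j.factorial : ℝ))) := by
        fun_prop
      have hmS3 : Measurable (fun r : ℝ => ENNReal.ofReal (D * ((D * r) ^ n / (n.factorial : ℝ)))) := by
        fun_prop
      calc Gt ν p p' v (n + 1) s
          ≤ ∫⁻ r in Ico 0 s, ENNReal.ofReal (1 / (1 - r)) *
            ((k : ENNReal) * ee ν p p' v r + ENNReal.ofReal (k * C) * Gt ν p p' v n r) :=
            Gt_succ hG hp hp' hC hν hc v n (lt_of_le_of_lt hst ht)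
        _ ≤ ∫⁻ r in Ico 0 s, (ENNReal.ofReal K * ee ν p p' v r +
            (A * ENNReal.ofReal (D * ∑ j ∈ Finset.range n, (D * r) ^ j / (j.factorial : ℝ)) +
              ENNReal.ofReal (D * ((D * r) ^ n / (n.factorial : ℝ))))) := by
            refine setLIntegral_mono' measurableSet_Ico fun r hr => ?_
            have hr1 : r ≤ t := hr.2.le.trans hst
            have h1 : ENNReal.ofReal (1 / (1 - r)) ≤ ENNReal.ofReal (1 / (1 - t)) := by
              apply ENNReal.ofReal_le_ofReal
              apply one_div_le_one_div_of_le h1t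
              linarith
            refine (mul_le_mul_left h1 _).trans ?_
            rw [mul_add]
            refine add_le_add ?_ ?_
            · rw [← mul_assoc]
              refine mul_le_mul_left (le_of_eq ?_) _
              rw [← ENNReal.ofReal_natCast, ← ENNReal.ofReal_mul (by positivity), hK]
              congr 1; ring
            · rw [← mul_assoc, ← ENNReal.ofReal_mul (by positivity)]
              have h2 : 1 / (1 - t) * (k * C) = D := by rw [hD, hK]; ring
              rw [h2]
              refine (mul_le_mul_right (ih r hr.1 hr1) _).trans (le_of_eq ?_)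
              rw [mul_add, ENNReal.ofReal_mul hD0, ENNReal.ofReal_mul hD0]
              ring
        _ = ENNReal.ofReal K * (∫⁻ r in Ico 0 s, ee ν p p' v r) +
            (A * (∫⁻ r in Ico 0 s, ENNReal.ofReal (D * ∑ j ∈ Finset.range n, (D * r) ^ j / (j.factorial : ℝ))) +
              ∫⁻ r in Ico 0 s, ENNReal.ofReal (D * ((D * r) ^ n / (n.factorial : ℝ)))) := by
            rw [lintegral_add_right _ hmS, lintegral_add_right _ hmS3,
              lintegral_const_mul' _ _ ENNReal.ofReal_ne_top, lintegral_const_mul _ hmS2]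
        _ ≤ A + (A * ENNReal.ofReal (∑ j ∈ Finset.range n, (D * s) ^ (j + 1) / ((j + 1).factorial : ℝ)) +
              ENNReal.ofReal ((D * s) ^ (n + 1) / ((n + 1).factorial : ℝ))) := by
            refine add_le_add ?_ (add_le_add ?_ ?_)
            · rw [hA]
              refine mul_le_mul_right (lintegral_mono_set ?_) _
              exact Ico_subset_Ico_right hst
            · refine mul_le_mul_right (le_of_eq ?_) _
              refine lint_ftc (F := fun r => ∑ j ∈ Finset.range n, (D * r) ^ (j + 1) / ((j + 1).factorial : ℝ))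
                ?_ (by fun_prop) ?_ ?_ hs0
              · intro r
                have := HasDerivAt.fun_sum (u := Finset.range n) (fun j _ => deriv_mono D j r)
                rw [← Finset.mul_sum] at this
                exact this
              · intro r hr; positivity
              · simp
            · refine le_of_eq ?_
              refine lint_ftc (F := fun r => (D * r) ^ (n + 1) / ((n + 1).factorial : ℝ))
                (fun r => deriv_mono D n r) (by fun_prop) ?_ ?_ hs0
              · intro r hr; positivity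
              · simp
        _ = A * ENNReal.ofReal (∑ j ∈ Finset.range (n + 1), (D * s) ^ j / (j.factorial : ℝ)) +
              ENNReal.ofReal ((D * s) ^ (n + 1) / ((n + 1).factorial : ℝ)) := by
            rw [Finset.sum_range_succ' , ENNReal.ofReal_add (by positivity) (by positivity)]
            simp only [pow_zero, Nat.factorial_zero, Nat.cast_one, div_one, ENNReal.ofReal_one]
            ring
  refine (key n t ht0 le_rfl).trans (add_le_add ?_ le_rfl)
  rw [hA, ENNReal.ofReal_mul hK0]
  calc ENNReal.ofReal K * (∫⁻ s in Ico 0 t, ee ν p p' v s) *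
        ENNReal.ofReal (∑ j ∈ Finset.range n, (D * t) ^ j / (j.factorial : ℝ))
      ≤ ENNReal.ofReal K * (∫⁻ s in Ico 0 t, ee ν p p' v s) * ENNReal.ofReal (Real.exp (D * t)) := by
        refine mul_le_mul_right (ENNReal.ofReal_le_ofReal ?_) _
        exact Real.sum_le_exp_of_nonneg (by positivity) n
    _ = _ := by ring

end Pool.Agent.FD82
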