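import Pool.Agent.Lib.FD82.C7_Gron
import Pool.Agent.Lib.FD82.B6_Iid

/-! # D2_Sol: the solution map

-/

set_option autoImplicit false

open MeasureTheory Set Filter Topology

namespace Pool.Agent.FD82

variable {V : Type} {k : ℕ} {G : SimpleGraph V} {C : ℝ} {p p' : Kern V k}

namespace D2

lemma ee_self (ν : Measure (Cfg V k)) (p : Kern V k) (v : V) (s : ℝ) : ee ν p p v s = 0 := by
  unfold ee
  have h : ∀ x : Cfg V k × (V → ℝ), ({x : Cfg V k × (V → ℝ) | s ≤ x.2 v}.indicator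
      (fun x => l1 (p v (As x.2 s) x.1) (p v (As x.2 s) x.1))) x = 0 := by
    intro x
    simp [l1]
  simp only [h, lintegral_zero]

end D2

/-- `ee ν p p = 0`, so `Gt ν p p v n t ≤ K^n / n!`, summable: Borel-Cantelli for `t = 1 - 1/(j+1)`, `U v < 1` a.s. -/
theorem pic_eventually (hG : Geo G) (hp : IsKer G C p) (hC : 0 ≤ C) {ν : Measure (Cfg V k)}
    [IsProbabilityMeasure ν] (hν : Inv G ν) (hc : Cond ν p) :
    ∀ᵐ x ∂(ν.prod ((LL V).prod (LL V))), ∀ v,
      ∀ᶠ n in atTop, pic p n x.2.1 (xi p x.1 x.2.1 x.2.2) v = x.1 v := by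
  have hV : Countable V := hG.countable
  have hU : ∀ᵐ x ∂(ν.prod ((LL V).prod (LL V))), ∀ v, 0 ≤ x.2.1 v ∧ x.2.1 v < 1 :=
    Measure.quasiMeasurePreserving_snd.ae (Measure.quasiMeasurePreserving_fst.ae LL_mem)
  have hBC : ∀ v (j : ℕ), ∀ᵐ x ∂(ν.prod ((LL V).prod (LL V))), ∀ᶠ n in atTop,
      x ∉ {x : Cfg V k × (V → ℝ) × (V → ℝ) |
        pic p n x.2.1 (xi p x.1 x.2.1 x.2.2) v ≠ x.1 v ∧ x.2.1 v < 1 - 1 / ((j : ℝ) + 1)} := by
    intro v j
    have hj : (0 : ℝ) < 1 / ((j : ℝ) + 1) := by positivity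
    have hj' : 1 / ((j : ℝ) + 1) ≤ 1 := by
      rw [div_le_one (by positivity)]
      have : (0 : ℝ) ≤ j := Nat.cast_nonneg j
      linarith
    have ht0 : (0 : ℝ) ≤ 1 - 1 / ((j : ℝ) + 1) := by linarith
    have ht1 : 1 - 1 / ((j : ℝ) + 1) < 1 := by linarith
    refine ae_eventually_notMem (ne_top_of_le_ne_top ?_ (ENNReal.tsum_le_tsum fun n =>
      (Gt_bound hG hp hp hC hν hc v n ht0 ht1)))
    simp only [D2.ee_self, lintegral_zero, mul_zero, zero_add]
    exact (Real.summable_pow_div_factorial _).tsum_ofReal_ne_top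
  have hBC' : ∀ᵐ x ∂(ν.prod ((LL V).prod (LL V))), ∀ v (j : ℕ), ∀ᶠ n in atTop,
      x ∉ {x : Cfg V k × (V → ℝ) × (V → ℝ) |
        pic p n x.2.1 (xi p x.1 x.2.1 x.2.2) v ≠ x.1 v ∧ x.2.1 v < 1 - 1 / ((j : ℝ) + 1)} := by
    rw [ae_all_iff]
    intro v
    rw [ae_all_iff]
    exact hBC v
  filter_upwards [hU, hBC'] with x hx hx' v
  obtain ⟨j, hj⟩ := exists_nat_one_div_lt (sub_pos.2 (hx v).2)
  filter_upwards [hx' v j] with n hn
  by_contra h
  exact hn ⟨h, by linarith⟩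

theorem Psi_ae (hG : Geo G) (hp : IsKer G C p) (hC : 0 ≤ C) {ν : Measure (Cfg V k)}
    [IsProbabilityMeasure ν] (hν : Inv G ν) (hc : Cond ν p) :
    ∀ᵐ x ∂(ν.prod ((LL V).prod (LL V))), Psi p x.2.1 (xi p x.1 x.2.1 x.2.2) = x.1 := by
  filter_upwards [pic_eventually hG hp hC hν hc] with x hx
  funext v
  exact ev_eq (hx v)

namespace D2

lemma meas_pair (hG : Geo G) (hp : IsKer G C p) :
    Measurable (fun x : Cfg V k × (V → ℝ) × (V → ℝ) => (x.2.1, xi p x.1 x.2.1 x.2.2)) :=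
  (measurable_snd.fst).prodMk (meas_xi hG hp measurable_fst measurable_snd.fst measurable_snd.snd)

end D2

theorem Psi_law (hG : Geo G) (hp : IsKer G C p) (hC : 0 ≤ C) {ν : Measure (Cfg V k)}
    [IsProbabilityMeasure ν] (hν : Inv G ν) (hc : Cond ν p) :
    ((LL V).prod (LL V)).map (fun x => Psi p x.1 x.2) = ν := by
  have h1 : Measurable (fun x : (V → ℝ) × (V → ℝ) => Psi p x.1 x.2) :=
    meas_Psi hG hp measurable_fst measurable_snd
  rw [← xi_iid hG hp hc, Measure.map_map h1 (D2.meas_pair hG hp)]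
  have h2 : ((fun x : (V → ℝ) × (V → ℝ) => Psi p x.1 x.2) ∘
      (fun x : Cfg V k × (V → ℝ) × (V → ℝ) => (x.2.1, xi p x.1 x.2.1 x.2.2)))
      =ᵐ[ν.prod ((LL V).prod (LL V))] Prod.fst := by
    filter_upwards [Psi_ae hG hp hC hν hc] with x hx
    exact hx
  rw [Measure.map_congr h2, Measure.map_fst_prod]
  simp

namespace D2

/-- transfer of almost sure statements to the iid pair -/
lemma ae_pair (hG : Geo G) (hp : IsKer G C p) {ν : Measure (Cfg V k)} [IsProbabilityMeasure ν]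
    (hc : Cond ν p) {P : (V → ℝ) × (V → ℝ) → Prop} (hP : MeasurableSet {x | P x}) :
    (∀ᵐ x ∂((LL V).prod (LL V)), P x) ↔
      ∀ᵐ x ∂(ν.prod ((LL V).prod (LL V))), P (x.2.1, xi p x.1 x.2.1 x.2.2) := by
  conv_lhs => rw [← xi_iid hG hp hc]
  exact ae_map_iff (meas_pair hG hp).aemeasurable hP

end D2

/-- Comparison of two kernels: `P(Psi p ≠ Psi p') ≤ Gt ν p p' v n t + P(pic p' n ≠ Psi p')`, `n → ∞`. -/
theorem Psi_compare (hG : Geo G) (hp : IsKer G C p) (hp' : IsKer G C p') (hC : 0 ≤ C)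
    {ν ν' : Measure (Cfg V k)} [IsProbabilityMeasure ν] [IsProbabilityMeasure ν'] (hν : Inv G ν)
    (hν' : Inv G ν') (hc : Cond ν p) (hc' : Cond ν' p') (v : V) {t : ℝ} (ht0 : 0 ≤ t)
    (ht : t < 1) :
    ((LL V).prod (LL V)) {x | Psi p x.1 x.2 v ≠ Psi p' x.1 x.2 v ∧ x.1 v < t} ≤
      ENNReal.ofReal (k / (1 - t) * Real.exp (k / (1 - t) * C * t)) *
        (∫⁻ s in Ico 0 t, ee ν p p' v s) := by
  have mP : Measurable (fun x : (V → ℝ) × (V → ℝ) => Psi p x.1 x.2 v) :=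
    (measurable_pi_apply v).comp (meas_Psi hG hp measurable_fst measurable_snd)
  have mP' : Measurable (fun x : (V → ℝ) × (V → ℝ) => Psi p' x.1 x.2 v) :=
    (measurable_pi_apply v).comp (meas_Psi hG hp' measurable_fst measurable_snd)
  have mn : ∀ n, Measurable (fun x : (V → ℝ) × (V → ℝ) => pic p' n x.1 x.2 v) := fun n =>
    (measurable_pi_apply v).comp (meas_pic hG hp' n measurable_fst measurable_snd)
  have mne : ∀ n, MeasurableSet {x : (V → ℝ) × (V → ℝ) |
      pic p' n x.1 x.2 v ≠ Psi p' x.1 x.2 v} := fun n =>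
    (measurableSet_eq_fun (mn n) mP').compl
  -- the Picard iteration for `p'` converges almost surely under the iid law
  have hconv : ∀ᵐ x ∂((LL V).prod (LL V)), ∀ᶠ n in atTop,
      pic p' n x.1 x.2 v = Psi p' x.1 x.2 v := by
    have hms : MeasurableSet {x : (V → ℝ) × (V → ℝ) | ∀ᶠ n in atTop,
        pic p' n x.1 x.2 v = Psi p' x.1 x.2 v} := by
      have h1 : {x : (V → ℝ) × (V → ℝ) | ∀ᶠ n in atTop,
          pic p' n x.1 x.2 v = Psi p' x.1 x.2 v} =
          ⋃ N : ℕ, ⋂ n : ℕ, ⋂ _ : N ≤ n, {x | pic p' n x.1 x.2 v = Psi p' x.1 x.2 v} := by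
        ext x
        simp only [mem_ofPred_eq, eventually_atTop, mem_iUnion, mem_iInter]
      rw [h1]
      exact MeasurableSet.iUnion fun N => MeasurableSet.iInter fun n =>
        MeasurableSet.iInter fun _ => measurableSet_eq_fun (mn n) mP'
    rw [D2.ae_pair hG hp' hc' hms]
    filter_upwards [pic_eventually hG hp' hC hν' hc', Psi_ae hG hp' hC hν' hc'] with x hx hx'
    filter_upwards [hx v] with n hn
    rw [hn, hx']
  have hlim : Tendsto (fun n => ((LL V).prod (LL V)) {x : (V → ℝ) × (V → ℝ) |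
      pic p' n x.1 x.2 v ≠ Psi p' x.1 x.2 v}) atTop (𝓝 0) := by
    have := tendsto_measure_of_ae_tendsto_indicator_of_isFiniteMeasure atTop
      (μ := (LL V).prod (LL V)) (A := ∅) MeasurableSet.empty mne (by
        filter_upwards [hconv] with x hx
        filter_upwards [hx] with n hn
        simp [hn])
    simpa using this
  -- the bound for each `n`
  have hn : ∀ n, ((LL V).prod (LL V)) {x | Psi p x.1 x.2 v ≠ Psi p' x.1 x.2 v ∧ x.1 v < t} ≤
      (ENNReal.ofReal (k / (1 - t) * Real.exp (k / (1 - t) * C * t)) *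
        (∫⁻ s in Ico 0 t, ee ν p p' v s) +
      ENNReal.ofReal ((k / (1 - t) * C * t) ^ n / n.factorial)) +
      ((LL V).prod (LL V)) {x : (V → ℝ) × (V → ℝ) |
        pic p' n x.1 x.2 v ≠ Psi p' x.1 x.2 v} := by
    intro n
    have hm : Measurable (fun x : Cfg V k × (V → ℝ) × (V → ℝ) =>
        (x.2.1, xi p x.1 x.2.1 x.2.2)) := D2.meas_pair hG hp
    have h0 : MeasurableSet {x : (V → ℝ) × (V → ℝ) |
        Psi p x.1 x.2 v ≠ Psi p' x.1 x.2 v ∧ x.1 v < t} :=
      (measurableSet_eq_fun mP mP').compl.inter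
        (measurableSet_lt ((measurable_pi_apply v).comp measurable_fst) measurable_const)
    have h1 : ((LL V).prod (LL V)) {x | Psi p x.1 x.2 v ≠ Psi p' x.1 x.2 v ∧ x.1 v < t} =
        (ν.prod ((LL V).prod (LL V))) ((fun x : Cfg V k × (V → ℝ) × (V → ℝ) =>
          (x.2.1, xi p x.1 x.2.1 x.2.2)) ⁻¹'
            {x | Psi p x.1 x.2 v ≠ Psi p' x.1 x.2 v ∧ x.1 v < t}) := by
      conv_lhs => rw [← xi_iid hG hp hc]
      rw [Measure.map_apply hm h0]
    have h2 : ((LL V).prod (LL V)) {x : (V → ℝ) × (V → ℝ) |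
        pic p' n x.1 x.2 v ≠ Psi p' x.1 x.2 v} =
        (ν.prod ((LL V).prod (LL V))) ((fun x : Cfg V k × (V → ℝ) × (V → ℝ) =>
          (x.2.1, xi p x.1 x.2.1 x.2.2)) ⁻¹' {x : (V → ℝ) × (V → ℝ) |
            pic p' n x.1 x.2 v ≠ Psi p' x.1 x.2 v}) := by
      conv_lhs => rw [← xi_iid hG hp hc]
      rw [Measure.map_apply hm (mne n)]
    rw [h1, h2]
    refine le_trans ?_ (add_le_add_left (Gt_bound hG hp hp' hC hν hc v n ht0 ht) _)
    unfold Gt
    refine le_trans (measure_mono_ae ?_) (measure_union_le _ _)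
    filter_upwards [Psi_ae hG hp hC hν hc] with x hx hx'
    have hx1 : Psi p x.2.1 (xi p x.1 x.2.1 x.2.2) v ≠
      Psi p' x.2.1 (xi p x.1 x.2.1 x.2.2) v ∧ x.2.1 v < t := hx'
    rw [hx] at hx1
    by_cases h3 : pic p' n x.2.1 (xi p x.1 x.2.1 x.2.2) v = x.1 v
    · right
      change pic p' n x.2.1 (xi p x.1 x.2.1 x.2.2) v ≠
        Psi p' x.2.1 (xi p x.1 x.2.1 x.2.2) v
      rw [h3]
      exact hx1.1
    · left
      exact ⟨h3, hx1.2⟩
  have hfac : Tendsto (fun n : ℕ => ENNReal.ofReal ((k / (1 - t) * C * t) ^ n / n.factorial))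
      atTop (𝓝 0) := by
    have h1 := (FloorSemiring.tendsto_pow_div_factorial_atTop ((k : ℝ) / (1 - t) * C * t))
    have h2 := ENNReal.tendsto_ofReal h1
    simpa using h2
  have hall := (tendsto_const_nhds (x := ENNReal.ofReal
    (k / (1 - t) * Real.exp (k / (1 - t) * C * t)) *
      (∫⁻ s in Ico 0 t, ee ν p p' v s))).add hfac |>.add hlim
  simp only [add_zero] at hall
  exact ge_of_tendsto' hall hn

/-- `ee` does not depend on the vertex. -/
theorem ee_vertex (hG : Geo G) (hp : IsKer G C p) (hp' : IsKer G C p') {ν : Measure (Cfg V k)}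
    [IsProbabilityMeasure ν] (hν : Inv G ν) (v w : V) (s : ℝ) :
    ee ν p p' v s = ee ν p p' w s := by
  obtain ⟨g, hg, -⟩ := hG.swap v w
  have hm1 : MeasurePreserving (fun y : Cfg V k => y ∘ g) ν ν :=
    ⟨measurable_pi_lambda _ fun u => measurable_pi_apply (g u), hν g⟩
  have hm2 : MeasurePreserving (fun U : V → ℝ => U ∘ g) (LL V) (LL V) :=
    ⟨measurable_pi_lambda _ fun u => measurable_pi_apply (g u), LL_perm g.toEquiv⟩
  have hm := hm1.prod hm2
  have hmeas : Measurable (fun x : Cfg V k × (V → ℝ) =>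
      ({x : Cfg V k × (V → ℝ) | s ≤ x.2 v}.indicator
        (fun x => l1 (p v (As x.2 s) x.1) (p' v (As x.2 s) x.1))) x) := by
    refine Measurable.indicator (meas_l1 (fun a => ?_) (fun a => ?_)) ?_
    · exact meas_ker hG hp v a measurable_snd measurable_fst measurable_const
    · exact meas_ker hG hp' v a measurable_snd measurable_fst measurable_const
    · exact measurableSet_le measurable_const ((measurable_pi_apply v).comp measurable_snd)
  unfold ee
  rw [← hm.lintegral_comp hmeas]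
  refine lintegral_congr fun x => ?_
  have hA : As (x.2 ∘ g) s = g ⁻¹' (As x.2 s) := rfl
  have hk : ∀ {q : Kern V k}, IsKer G C q → q v (As (x.2 ∘ g) s) (x.1 ∘ g) =
      q w (As x.2 s) x.1 := by
    intro q hq
    funext a
    rw [hA, ← hg, hq.equiv g v]
  have hx2 : (x.2 ∘ g) v = x.2 w := by rw [Function.comp_apply, hg]
  simp only [indicator, mem_ofPred_eq]
  change (if s ≤ (x.2 ∘ g) v then l1 (p v (As (x.2 ∘ g) s) (x.1 ∘ g))
    (p' v (As (x.2 ∘ g) s) (x.1 ∘ g)) else 0) = _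
  rw [hk hp, hk hp', hx2]

end Pool.Agent.FD82
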