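import Pool.Agent.Lib.FD82.D1_Noise

/-! # D3_Mart: martingale property

Under `cpl s s' μ`: `x.1 = Y' ~ nz s' μ`, `x.2 = Y ~ nz s μ`.
* `mart`: for `F ≥ 0` (or bounded real) depending on `A ∌ v` only, `E[F(Y) 1(Y v = a)]` is, on the one hand
  `E[F(Y) p v A Y a]` (`cond_exp` for `nz s μ`), on the other hand `E[F(Y) (r p' v A Y' a + (1 - r)/(k+1))]`, `r = s/s'`
  (`ns_indep` for the noise `N`, then `cond_exp` for `nz s' μ` with `F̃ y' = ∫⁻ N, F (corr y' N)`).
  In terms of `PS`: `PS p s v A Y a = E[r PS p' s' v A Y' a | Y_A]` (use `s = r s'`, so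
  `r (1-s')/(k+1) + (1-r)/(k+1) = (1-s)/(k+1)`).
* `pyth`: expand the square, `mart` with `F = PS p s v A · a` (bounded).
* `ee_bound`: `l1 (p(A,Y)) (p'(A,Y)) ≤ l1 (p(A,Y)) (p'(A,Y')) + l1 (p'(A,Y')) (p'(A,Y))`; the second term is handled by
  `mtp_ineq` for `Q` = law of `(Y', (Y, U))` and `cpl_dis`; for the first term
  `|p_a - p'_a| ≤ |PS - r PS'| + (1 - r) + (s' - s)`, `|PS'| ≤ 1`, and Cauchy-Schwarz:
  `∫_t E_U 1(t ≤ U v) E_cpl |PS - r PS'| ≤ (∫_t E_U 1(t ≤ U v) (r² JJ s' - JJ s))^{1/2} ≤ (s² (II s' - II s))^{1/2}` for each `a`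
  (each term `a` of `s² (II s' - II s)` is `≥ 0`). -/

set_option autoImplicit false

open MeasureTheory Set Filter Topology

namespace Pool.Agent.FD82

variable {V : Type} {k : ℕ} {G : SimpleGraph V} {C : ℝ} {p p' : Kern V k} {s s' : ℝ}

theorem IsKer.le_one' (hp : IsKer G C p) (v : V) (A : Set V) (y : Cfg V k) (a : Fin (k + 1)) :
    p v A y a ≤ 1 := by
  rw [← hp.sum v A y]
  exact Finset.single_le_sum (fun b _ => hp.nonneg v A y b) (Finset.mem_univ a)

/-- First half: `E[F(Y) 1(Y v = a)] = E[F(Y) p v A Y a]`. -/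
theorem mart_fst (hG : Geo G) (hp : IsKer G C p) (h0 : 0 < s) (h1 : s ≤ s')
    (h2 : s' < 1) {μ : Measure (Cfg V k)} [IsProbabilityMeasure μ] (hc : Cond (nz s μ) p)
    (A : Set V) (v : V) (hv : v ∉ A) (a : Fin (k + 1))
    {F : Cfg V k → ENNReal} (hF : Measurable F)
    (hFA : ∀ y y', (∀ w ∈ A, y w = y' w) → F y = F y') :
    ∫⁻ x, F x.2 * (if x.2 v = a then 1 else 0) ∂(cpl s s' μ) =
      ∫⁻ x, F x.2 * ENNReal.ofReal (p v A x.2 a) ∂(cpl s s' μ) := by
  classical
  have := nz_prob h0.le (h1.trans h2.le) μ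
  have hma : Measurable (fun y : Cfg V k => (if y v = a then (1 : ENNReal) else 0)) :=
    Measurable.ite (measurableSet_eq_fun (measurable_pi_apply v) measurable_const)
      measurable_const measurable_const
  have hmp : Measurable (fun y : Cfg V k => ENNReal.ofReal (p v A y a)) :=
    (meas_kerA hG hp v A a measurable_id).ennreal_ofReal
  have e := cond_exp hG hp hc A v hv a hF hFA
  have m1 : Measurable (fun y : Cfg V k => F y * (if y v = a then (1 : ENNReal) else 0)) :=
    hF.mul hma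
  have m2 : Measurable (fun y : Cfg V k => F y * ENNReal.ofReal (p v A y a)) := hF.mul hmp
  rw [← cpl_snd h0 h1 h2.le μ, lintegral_map m1 measurable_snd,
    lintegral_map m2 measurable_snd] at e
  exact e

/-- Second half. -/
theorem mart_snd (hG : Geo G) (hp' : IsKer G C p') (h0 : 0 < s) (h1 : s ≤ s')
    (h2 : s' < 1) {μ : Measure (Cfg V k)} [IsProbabilityMeasure μ]
    (hc' : Cond (nz s' μ) p') (A : Set V) (v : V) (hv : v ∉ A) (a : Fin (k + 1))
    {F : Cfg V k → ENNReal} (hF : Measurable F)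
    (hFA : ∀ y y', (∀ w ∈ A, y w = y' w) → F y = F y') :
    ∫⁻ x, F x.2 * (if x.2 v = a then 1 else 0) ∂(cpl s s' μ) =
      ∫⁻ x, F x.2 * (ENNReal.ofReal (s / s') * ENNReal.ofReal (p' v A x.1 a) +
        ENNReal.ofReal ((1 - s / s') / (k + 1))) ∂(cpl s s' μ) := by
  classical
  have h0' : 0 < s' := h0.trans_le h1
  have hr0 : 0 ≤ s / s' := by positivity
  have hr1 : s / s' ≤ 1 := (div_le_one h0').mpr h1
  have := nz_prob h0'.le h2.le μ
  have := nsL_prob (V := V) (k := k) hr0 hr1
  have hcm : Measurable (fun x : Cfg V k × (V → Option (Fin (k + 1))) => corr x.1 x.2) := meas_corr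
  have hpair : Measurable (fun x : Cfg V k × (V → Option (Fin (k + 1))) => (x.1, corr x.1 x.2)) :=
    measurable_fst.prodMk hcm
  have hma : Measurable (fun y : Cfg V k => (if y v = a then (1 : ENNReal) else 0)) :=
    Measurable.ite (measurableSet_eq_fun (measurable_pi_apply v) measurable_const)
      measurable_const measurable_const
  have hmp : Measurable (fun y : Cfg V k => ENNReal.ofReal (p' v A y a)) :=
    (meas_kerA hG hp' v A a measurable_id).ennreal_ofReal
  set r := s / s' with hr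
  -- the conditional expectation given `Y'`
  set Ft : Cfg V k → ENNReal := fun y => ∫⁻ N, F (corr y N) ∂(nsL V k r) with hFt
  have hFc : Measurable (fun x : Cfg V k × (V → Option (Fin (k + 1))) => F (corr x.1 x.2)) :=
    hF.comp hcm
  have hFtm : Measurable Ft := hFc.lintegral_prod_right'
  have hFtA : ∀ y y', (∀ w ∈ A, y w = y' w) → Ft y = Ft y' := by
    intro y y' h
    refine lintegral_congr fun N => hFA _ _ fun w hw => ?_
    change (N w).getD (y w) = (N w).getD (y' w)
    rw [h w hw]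
  have hin : ∀ y : Cfg V k, ∫⁻ N, F (corr y N) * (if corr y N v = a then 1 else 0) ∂(nsL V k r) =
      Ft y * (ENNReal.ofReal r * (if y v = a then 1 else 0) +
        ENNReal.ofReal ((1 - r) / (k + 1))) := by
    intro y
    have hFy : Measurable (fun N : V → Option (Fin (k + 1)) => F (corr y N)) :=
      hFc.comp measurable_prodMk_left
    have h3 := ns_indep (V := V) (k := k) hr0 hr1 A v hv (F := fun N => F (corr y N)) hFy
      (fun N N' hN => hFA _ _ fun w hw => by
        change (N w).getD (y w) = (N' w).getD (y w)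
        rw [hN w hw])
      (fun o => if o.getD (y v) = a then 1 else 0)
    refine h3.trans ?_
    congr 1
    congr 1
    simp only [Option.getD_some]
    rw [Finset.sum_eq_single a]
    · rw [if_pos rfl, mul_one]
    · intro b _ hb
      rw [if_neg hb, mul_zero]
    · intro h
      exact absurd (Finset.mem_univ a) h
  have hin2 : ∀ y : Cfg V k, ∫⁻ N, F (corr y N) * (ENNReal.ofReal r * ENNReal.ofReal (p' v A y a) +
        ENNReal.ofReal ((1 - r) / (k + 1))) ∂(nsL V k r) =
      Ft y * (ENNReal.ofReal r * ENNReal.ofReal (p' v A y a) +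
        ENNReal.ofReal ((1 - r) / (k + 1))) := by
    intro y
    have hFy : Measurable (fun N : V → Option (Fin (k + 1)) => F (corr y N)) :=
      hFc.comp measurable_prodMk_left
    rw [lintegral_mul_const _ hFy]
  have hce := cond_exp hG hp' hc' A v hv a hFtm hFtA
  have m1 : Measurable (fun x : Cfg V k × Cfg V k =>
      F x.2 * (if x.2 v = a then (1 : ENNReal) else 0)) :=
    (hF.comp measurable_snd).mul (hma.comp measurable_snd)
  have m2 : Measurable (fun x : Cfg V k × Cfg V k => F x.2 * (ENNReal.ofReal r *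
      ENNReal.ofReal (p' v A x.1 a) + ENNReal.ofReal ((1 - r) / (k + 1)))) :=
    (hF.comp measurable_snd).mul (((hmp.comp measurable_fst).const_mul _).add measurable_const)
  have m3 : Measurable (fun x : Cfg V k × (V → Option (Fin (k + 1))) =>
      F (corr x.1 x.2) * (if corr x.1 x.2 v = a then (1 : ENNReal) else 0)) :=
    hFc.mul (hma.comp hcm)
  have m4 : Measurable (fun x : Cfg V k × (V → Option (Fin (k + 1))) =>
      F (corr x.1 x.2) * (ENNReal.ofReal r * ENNReal.ofReal (p' v A x.1 a) +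
        ENNReal.ofReal ((1 - r) / (k + 1)))) :=
    hFc.mul (((hmp.comp measurable_fst).const_mul _).add measurable_const)
  unfold cpl
  rw [← hr, lintegral_map m1 hpair, lintegral_map m2 hpair,
    lintegral_prod _ m3.aemeasurable, lintegral_prod _ m4.aemeasurable]
  simp only [hin, hin2]
  have e1 : ∀ f : Cfg V k → ENNReal, Measurable f → ∫⁻ y, Ft y * (ENNReal.ofReal r * f y +
        ENNReal.ofReal ((1 - r) / (k + 1))) ∂(nz s' μ) =
      ENNReal.ofReal r * ∫⁻ y, Ft y * f y ∂(nz s' μ) +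
        ENNReal.ofReal ((1 - r) / (k + 1)) * ∫⁻ y, Ft y ∂(nz s' μ) := by
    intro f hf
    have hm : Measurable (fun y => Ft y * f y) := hFtm.mul hf
    rw [← lintegral_const_mul _ hm, ← lintegral_const_mul _ hFtm,
      ← lintegral_add_left (hm.const_mul _)]
    refine lintegral_congr fun y => ?_
    ring
  rw [e1 _ hma, e1 _ hmp, hce]

theorem mart (hG : Geo G) (hp : IsKer G C p) (hp' : IsKer G C p') (h0 : 0 < s) (h1 : s ≤ s')
    (h2 : s' < 1) {μ : Measure (Cfg V k)} [IsProbabilityMeasure μ] (hc : Cond (nz s μ) p)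
    (hc' : Cond (nz s' μ) p') (A : Set V) (v : V) (hv : v ∉ A) (a : Fin (k + 1))
    {F : Cfg V k → ℝ} (hF : Measurable F) {B : ℝ} (hFB : ∀ y, |F y| ≤ B)
    (hFA : ∀ y y', (∀ w ∈ A, y w = y' w) → F y = F y') :
    ∫ x, F x.2 * PS p s v A x.2 a ∂(cpl s s' μ) =
      ∫ x, F x.2 * ((s / s') * PS p' s' v A x.1 a) ∂(cpl s s' μ) := by
  classical
  have h0' : 0 < s' := h0.trans_le h1
  have hr0 : 0 ≤ s / s' := by positivity
  have hr1 : s / s' ≤ 1 := (div_le_one h0').mpr h1
  have := cpl_prob h0 h1 h2.le μ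
  have hk : (0 : ℝ) < (k : ℝ) + 1 := by positivity
  have hmp : Measurable (fun x : Cfg V k × Cfg V k => p v A x.2 a) :=
    meas_kerA hG hp v A a measurable_snd
  have hmp' : Measurable (fun x : Cfg V k × Cfg V k => p' v A x.1 a) :=
    meas_kerA hG hp' v A a measurable_fst
  -- nonnegative functions
  have key : ∀ H : Cfg V k → ℝ, Measurable H → (∀ y, 0 ≤ H y) → (∃ D, ∀ y, H y ≤ D) →
      (∀ y y', (∀ w ∈ A, y w = y' w) → H y = H y') →
      ∫ x, H x.2 * p v A x.2 a ∂(cpl s s' μ) =
        ∫ x, H x.2 * ((s / s') * p' v A x.1 a + (1 - s / s') / (k + 1)) ∂(cpl s s' μ) := by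
    intro H hH hH0 _ hHA
    have e1 := mart_fst hG hp h0 h1 h2 hc A v hv a hH.ennreal_ofReal
      (fun y y' h => by rw [hHA y y' h])
    have e2 := mart_snd hG hp' h0 h1 h2 hc' A v hv a hH.ennreal_ofReal
      (fun y y' h => by rw [hHA y y' h])
    rw [integral_eq_lintegral_of_nonneg_ae
        (Eventually.of_forall fun x => mul_nonneg (hH0 _) (hp.nonneg _ _ _ _))
        ((hH.comp measurable_snd).mul hmp).aestronglyMeasurable,
      integral_eq_lintegral_of_nonneg_ae
        (Eventually.of_forall fun x => mul_nonneg (hH0 _) (add_nonneg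
          (mul_nonneg hr0 (hp'.nonneg _ _ _ _)) (div_nonneg (sub_nonneg.mpr hr1) hk.le)))
        ((hH.comp measurable_snd).mul ((hmp'.const_mul _).add
          measurable_const)).aestronglyMeasurable]
    congr 1
    calc ∫⁻ x, ENNReal.ofReal (H x.2 * p v A x.2 a) ∂(cpl s s' μ)
        = ∫⁻ x, ENNReal.ofReal (H x.2) * ENNReal.ofReal (p v A x.2 a) ∂(cpl s s' μ) :=
          lintegral_congr fun x => ENNReal.ofReal_mul (hH0 _)
      _ = ∫⁻ x, ENNReal.ofReal (H x.2) * (ENNReal.ofReal (s / s') *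
            ENNReal.ofReal (p' v A x.1 a) + ENNReal.ofReal ((1 - s / s') / (k + 1)))
            ∂(cpl s s' μ) := by rw [← e1, e2]
      _ = _ := by
          refine lintegral_congr fun x => ?_
          rw [ENNReal.ofReal_mul (hH0 _), ENNReal.ofReal_add
            (mul_nonneg hr0 (hp'.nonneg _ _ _ _)) (div_nonneg (sub_nonneg.mpr hr1) hk.le),
            ENNReal.ofReal_mul hr0]
  have hB : 0 ≤ B := (abs_nonneg _).trans (hFB 0)
  have k1 := key (fun y => F y + B) (hF.add measurable_const)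
    (fun y => by linarith [(abs_le.mp (hFB y)).1]) ⟨B + B, fun y => by
      linarith [(abs_le.mp (hFB y)).2]⟩ (fun y y' h => by rw [hFA y y' h])
  have k2 := key (fun _ => B) measurable_const (fun _ => hB) ⟨B, fun _ => le_rfl⟩
    (fun _ _ _ => rfl)
  -- integrability
  have hint : ∀ (f g : Cfg V k × Cfg V k → ℝ), Measurable f → Measurable g →
      (∃ D, ∀ x, |f x| ≤ D) → (∃ D, ∀ x, |g x| ≤ D) →
      Integrable (fun x => f x * g x) (cpl s s' μ) := by
    rintro f g hf hg ⟨D, hD⟩ ⟨D', hD'⟩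
    refine Integrable.of_bound (hf.mul hg).aestronglyMeasurable (D * D')
      (Eventually.of_forall fun x => ?_)
    rw [Real.norm_eq_abs, abs_mul]
    exact mul_le_mul (hD x) (hD' x) (abs_nonneg _) ((abs_nonneg _).trans (hD x))
  have hF2 : Measurable (fun x : Cfg V k × Cfg V k => F x.2) := hF.comp measurable_snd
  have hpb : ∃ D, ∀ x : Cfg V k × Cfg V k, |p v A x.2 a| ≤ D :=
    ⟨1, fun x => by rw [abs_of_nonneg (hp.nonneg _ _ _ _)]; exact hp.le_one' v A x.2 a⟩
  have hp'b : ∃ D, ∀ x : Cfg V k × Cfg V k,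
      |(s / s') * p' v A x.1 a + (1 - s / s') / (k + 1)| ≤ D := by
    refine ⟨(s / s') * 1 + (1 - s / s') / (k + 1), fun x => ?_⟩
    rw [abs_of_nonneg (add_nonneg (mul_nonneg hr0 (hp'.nonneg _ _ _ _))
      (div_nonneg (sub_nonneg.mpr hr1) hk.le))]
    gcongr
    exact hp'.le_one' v A x.1 a
  have hmr : Measurable (fun x : Cfg V k × Cfg V k =>
      (s / s') * p' v A x.1 a + (1 - s / s') / (k + 1)) := (hmp'.const_mul _).add measurable_const
  have i1 := hint _ _ hF2 hmp ⟨B, fun x => hFB _⟩ hpb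
  have i2 := hint _ _ hF2 hmr ⟨B, fun x => hFB _⟩ hp'b
  have i3 := hint (fun _ => B) _ measurable_const hmp ⟨|B|, fun _ => le_rfl⟩ hpb
  have i4 := hint (fun _ => B) _ measurable_const hmr ⟨|B|, fun _ => le_rfl⟩ hp'b
  have k3 : ∫ x, F x.2 * p v A x.2 a ∂(cpl s s' μ) =
      ∫ x, F x.2 * ((s / s') * p' v A x.1 a + (1 - s / s') / (k + 1)) ∂(cpl s s' μ) := by
    simp only [add_mul] at k1
    rw [integral_add i1 i3, integral_add i2 i4, k2] at k1
    exact add_right_cancel k1
  -- conclusion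
  have i5 : Integrable (fun x : Cfg V k × Cfg V k => F x.2 * ((1 - s) / (k + 1))) (cpl s s' μ) :=
    hint _ (fun _ => (1 - s) / (k + 1)) hF2 measurable_const ⟨B, fun x => hFB _⟩
      ⟨|(1 - s) / (k + 1)|, fun _ => le_rfl⟩
  have e3 : ∀ x : Cfg V k × Cfg V k, F x.2 * PS p s v A x.2 a =
      F x.2 * p v A x.2 a - F x.2 * ((1 - s) / (k + 1)) := fun x => by
    unfold PS
    ring
  have e4 : ∀ x : Cfg V k × Cfg V k, F x.2 * ((s / s') * PS p' s' v A x.1 a) =
      F x.2 * ((s / s') * p' v A x.1 a + (1 - s / s') / (k + 1)) -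
        F x.2 * ((1 - s) / (k + 1)) := fun x => by
    unfold PS
    field_simp
    ring
  simp only [e3, e4]
  rw [integral_sub i1 i5, integral_sub i2 i5, k3]

end Pool.Agent.FD82
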