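import Pool.Agent.Lib.FD82.D3_Mart
import Pool.Agent.Lib.FD82.B4_Labels

/-! # D4_Pyth: Pythagoras and monotonicity

Under `cpl s s' μ`: `x.1 = Y' ~ nz s' μ`, `x.2 = Y ~ nz s μ`.
* `mart`: for `F ≥ 0` (or bounded real) depending on `A ∌ v` only, `E[F(Y) 1(Y v = a)]` is, on the one hand
  `E[F(Y) p v A Y a]` (`cond_exp` for `nz s μ`), on the other hand `E[F(Y) (r p' v A Y' a + (1 - r)/(k+1))]`, `r = s/s'`
  (`ns_indep` for the noise `N`, then `cond_exp` for `nz s' μ` with `F̃ y' = ∫⁻ N, F (corr y' N)`).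
  In terms of `PS`: `PS p s v A Y a = E[r PS p' s' v A Y' a | Y_A]` (use `s = r s'`, so
  `r (1-s')/(k+1) + (1-r)/(k+1) = (1-s)/(k+1)`).
* `pyth`: expand the square, `mart` with `F = PS p s v A · a` (bounded).
* `ee_bound`: `l1 (p(A,Y)) (p'(A,Y)) ≤ l1 (p(A,Y)) (p'(A,Y')) + l1 (p'(A,Y')) (p'(A,Y))`; the second term is handled by
  `mtp_ineq` for `Q` = law of `(Y', (Y, U))` and `cpl_dis`; for the first term
  `|p_a - p'_a| ≤ |PS - r PS'| + (1 - r) + (s' - s)`, `|PS'| ≤ 1`, and Cauchy-Schwarz: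
  `∫_t E_U 1(t ≤ U v) E_cpl |PS - r PS'| ≤ (∫_t E_U 1(t ≤ U v) (r² JJ s' - JJ s))^{1/2} ≤ (s² (II s' - II s))^{1/2}` for each `a`
  (each term `a` of `s² (II s' - II s)` is `≥ 0`). -/

set_option autoImplicit false

open MeasureTheory Set Filter Topology

namespace Pool.Agent.FD82

variable {V : Type} {k : ℕ} {G : SimpleGraph V} {C : ℝ} {p p' : Kern V k} {s s' : ℝ}

private theorem ker_le (hp : IsKer G C p) (v : V) (A : Set V) (y : Cfg V k) (a : Fin (k + 1)) :
    p v A y a ≤ 1 := by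
  rw [← hp.sum v A y]
  exact Finset.single_le_sum (f := fun a => p v A y a) (fun c _ => hp.nonneg v A y c)
    (Finset.mem_univ a)

private theorem PS_abs (hp : IsKer G C p) (h0 : 0 ≤ s) (h1 : s ≤ 1) (v : V) (A : Set V)
    (y : Cfg V k) (a : Fin (k + 1)) : |PS p s v A y a| ≤ 1 := by
  have h2 := hp.nonneg v A y a
  have h3 := ker_le hp v A y a
  have h4 : 0 ≤ (1 - s) / (k + 1) := div_nonneg (by linarith) (by positivity)
  have h5 : (1 - s) / (k + 1) ≤ 1 := by
    rw [div_le_one (by positivity)]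
    have : (0 : ℝ) ≤ k := Nat.cast_nonneg k
    linarith
  unfold PS
  rw [abs_le]
  constructor <;> linarith

private theorem PS_meas (hG : Geo G) (hp : IsKer G C p) (v : V) (A : Set V) (a : Fin (k + 1)) :
    Measurable (fun y : Cfg V k => PS p s v A y a) :=
  (meas_kerA hG hp v A a measurable_id).sub_const _

private theorem JJ_nonneg (μ : Measure (Cfg V k)) (v : V) (A : Set V) (a : Fin (k + 1)) :
    0 ≤ JJ μ s p v A a := integral_nonneg fun _ => sq_nonneg _

private theorem PS_sq_le (hp : IsKer G C p) (h0 : 0 ≤ s) (h1 : s ≤ 1) (v : V) (A : Set V)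
    (y : Cfg V k) (a : Fin (k + 1)) : (PS p s v A y a) ^ 2 ≤ 1 := by
  rw [← sq_abs]
  exact pow_le_one₀ (abs_nonneg _) (PS_abs hp h0 h1 v A y a)

private theorem JJ_le (hG : Geo G) (hp : IsKer G C p) (h0 : 0 ≤ s) (h1 : s ≤ 1)
    (μ : Measure (Cfg V k)) [IsProbabilityMeasure μ] (v : V) (A : Set V) (a : Fin (k + 1)) :
    JJ μ s p v A a ≤ 1 := by
  have := nz_prob h0 h1 μ
  unfold JJ
  calc ∫ y, (PS p s v A y a) ^ 2 ∂(nz s μ) ≤ ∫ _y, (1 : ℝ) ∂(nz s μ) := by
        refine integral_mono ?_ (integrable_const _) fun y => PS_sq_le hp h0 h1 v A y a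
        refine Integrable.of_bound (((PS_meas hG hp v A a).pow_const 2).aestronglyMeasurable) 1
          (ae_of_all _ fun y => ?_)
        rw [Real.norm_of_nonneg (sq_nonneg _)]
        exact PS_sq_le hp h0 h1 v A y a
    _ = 1 := by simp

theorem pyth (hG : Geo G) (hp : IsKer G C p) (hp' : IsKer G C p') (h0 : 0 < s) (h1 : s ≤ s')
    (h2 : s' < 1) {μ : Measure (Cfg V k)} [IsProbabilityMeasure μ] (hc : Cond (nz s μ) p)
    (hc' : Cond (nz s' μ) p') (A : Set V) (v : V) (hv : v ∉ A) (a : Fin (k + 1)) :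
    ∫ x, (PS p s v A x.2 a - (s / s') * PS p' s' v A x.1 a) ^ 2 ∂(cpl s s' μ) =
      (s / s') ^ 2 * JJ μ s' p' v A a - JJ μ s p v A a := by
  have hs' : 0 < s' := h0.trans_le h1
  have hs1 : s ≤ 1 := h1.trans h2.le
  have := cpl_prob h0 h1 h2.le μ
  have mf : Measurable (fun y : Cfg V k => PS p s v A y a) := PS_meas hG hp v A a
  have mg : Measurable (fun y : Cfg V k => PS p' s' v A y a) := PS_meas hG hp' v A a
  have bf : ∀ y : Cfg V k, |PS p s v A y a| ≤ 1 := fun y => PS_abs hp h0.le hs1 v A y a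
  have bg : ∀ y : Cfg V k, |PS p' s' v A y a| ≤ 1 := fun y => PS_abs hp' hs'.le h2.le v A y a
  have hm := mart hG hp hp' h0 h1 h2 hc hc' A v hv a (F := fun y => PS p s v A y a) mf (B := 1) bf
    (fun y y' h => by
      simp only [PS]
      rw [hp.dep v A h a])
  have mfs : Measurable (fun x : Cfg V k × Cfg V k => PS p s v A x.2 a) := mf.comp measurable_snd
  have mgf : Measurable (fun x : Cfg V k × Cfg V k => (s / s') * PS p' s' v A x.1 a) :=
    (mg.comp measurable_fst).const_mul _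
  have bgf : ∀ x : Cfg V k × Cfg V k, |(s / s') * PS p' s' v A x.1 a| ≤ 1 := by
    intro x
    rw [abs_mul, abs_of_nonneg (div_nonneg h0.le hs'.le)]
    exact mul_le_one₀ (div_le_one_of_le₀ h1 hs'.le) (abs_nonneg _) (bg _)
  have i1 : Integrable (fun x : Cfg V k × Cfg V k => PS p s v A x.2 a * PS p s v A x.2 a)
      (cpl s s' μ) := by
    refine Integrable.of_bound (mfs.mul mfs).aestronglyMeasurable 1 (ae_of_all _ fun x => ?_)
    rw [Real.norm_eq_abs, abs_mul]
    exact mul_le_one₀ (bf _) (abs_nonneg _) (bf _)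
  have i2 : Integrable (fun x : Cfg V k × Cfg V k => PS p s v A x.2 a *
      ((s / s') * PS p' s' v A x.1 a)) (cpl s s' μ) := by
    refine Integrable.of_bound (mfs.mul mgf).aestronglyMeasurable 1 (ae_of_all _ fun x => ?_)
    rw [Real.norm_eq_abs, abs_mul]
    exact mul_le_one₀ (bf _) (abs_nonneg _) (bgf x)
  have i3 : Integrable (fun x : Cfg V k × Cfg V k => (s / s') ^ 2 * (PS p' s' v A x.1 a) ^ 2)
      (cpl s s' μ) := by
    refine Integrable.of_bound (((mg.comp measurable_fst).pow_const 2).const_mul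
      _).aestronglyMeasurable 1 (ae_of_all _ fun x => ?_)
    rw [← mul_pow, Real.norm_eq_abs, abs_pow]
    exact pow_le_one₀ (abs_nonneg _) (bgf x)
  have e : ∀ x : Cfg V k × Cfg V k, (PS p s v A x.2 a - (s / s') * PS p' s' v A x.1 a) ^ 2 =
      (PS p s v A x.2 a * PS p s v A x.2 a -
        2 * (PS p s v A x.2 a * ((s / s') * PS p' s' v A x.1 a))) +
      (s / s') ^ 2 * (PS p' s' v A x.1 a) ^ 2 := by
    intro x
    ring
  simp only [e]
  have i4 : Integrable (fun x : Cfg V k × Cfg V k => PS p s v A x.2 a * PS p s v A x.2 a -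
      2 * (PS p s v A x.2 a * ((s / s') * PS p' s' v A x.1 a))) (cpl s s' μ) :=
    i1.sub (i2.const_mul 2)
  rw [integral_add i4 i3, integral_sub i1 (i2.const_mul 2),
    integral_const_mul, ← hm, integral_const_mul]
  have e1 : ∫ x, PS p s v A x.2 a * PS p s v A x.2 a ∂(cpl s s' μ) = JJ μ s p v A a := by
    rw [JJ, ← cpl_snd h0 h1 h2.le μ, integral_map measurable_snd.aemeasurable
      (mf.pow_const 2).aestronglyMeasurable]
    refine integral_congr_ae (ae_of_all _ fun x => ?_)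
    simp only [sq]
  have e2 : ∫ x, (PS p' s' v A x.1 a) ^ 2 ∂(cpl s s' μ) = JJ μ s' p' v A a := by
    rw [JJ, ← cpl_fst h0 h1 h2.le μ, integral_map measurable_fst.aemeasurable
      (mg.pow_const 2).aestronglyMeasurable]
  rw [e1, e2]
  ring

private theorem JJ_meas (hG : Geo G) (hp : IsKer G C p) (h0 : 0 ≤ s) (h1 : s ≤ 1)
    (μ : Measure (Cfg V k)) [IsProbabilityMeasure μ] (v : V) (a : Fin (k + 1)) :
    Measurable (fun x : ℝ × (V → ℝ) => JJ μ s p v (As x.2 x.1) a) := by
  have := nz_prob h0 h1 μ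
  have hm : Measurable (fun z : (ℝ × (V → ℝ)) × Cfg V k =>
      (PS p s v (As z.1.2 z.1.1) z.2 a) ^ 2) :=
    ((meas_ker hG hp v a (U := fun z : (ℝ × (V → ℝ)) × Cfg V k => z.1.2)
      (Y := fun z => z.2) (s := fun z => z.1.1) (measurable_snd.comp measurable_fst)
      measurable_snd (measurable_fst.comp measurable_fst)).sub_const _).pow_const 2
  exact (StronglyMeasurable.integral_prod_right' (ν := nz s μ) hm.stronglyMeasurable).measurable

private theorem ind_int (hG : Geo G) (hp : IsKer G C p) (h0 : 0 ≤ s) (h1 : s ≤ 1)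
    (μ : Measure (Cfg V k)) [IsProbabilityMeasure μ] (v : V) (a : Fin (k + 1)) :
    Integrable (fun x : ℝ × (V → ℝ) => if x.1 ≤ x.2 v then JJ μ s p v (As x.2 x.1) a else 0)
      (lam.prod (LL V)) := by
  have hle : MeasurableSet {x : ℝ × (V → ℝ) | x.1 ≤ x.2 v} :=
    measurableSet_le measurable_fst ((measurable_pi_apply v).comp measurable_snd)
  have hite : Measurable (fun x : ℝ × (V → ℝ) =>
      if x.1 ≤ x.2 v then JJ μ s p v (As x.2 x.1) a else 0) :=
    Measurable.ite hle (JJ_meas hG hp h0 h1 μ v a) measurable_const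
  refine Integrable.of_bound hite.aestronglyMeasurable 1 (ae_of_all _ fun x => ?_)
  split_ifs
  · rw [Real.norm_of_nonneg (JJ_nonneg _ _ _ _)]
    exact JJ_le hG hp h0 h1 μ v _ a
  · simp

theorem II_mono (hG : Geo G) (hp : IsKer G C p) (hp' : IsKer G C p') (h0 : 0 < s) (h1 : s ≤ s')
    (h2 : s' < 1) {μ : Measure (Cfg V k)} [IsProbabilityMeasure μ] (hc : Cond (nz s μ) p)
    (hc' : Cond (nz s' μ) p') (v : V) : II μ s p v ≤ II μ s' p' v := by
  have hs' : 0 < s' := h0.trans_le h1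
  have hs1 : s ≤ 1 := h1.trans h2.le
  unfold II
  rw [Finset.sum_div, Finset.sum_div]
  refine Finset.sum_le_sum fun a _ => ?_
  rw [← integral_div, ← integral_div]
  refine integral_mono ((ind_int hG hp h0.le hs1 μ v a).div_const _)
    ((ind_int hG hp' hs'.le h2.le μ v a).div_const _) fun x => ?_
  by_cases hx : x.1 ≤ x.2 v
  · simp only [if_pos hx]
    have hv : v ∉ As x.2 x.1 := fun h => absurd h (not_lt.2 hx)
    have h3 := pyth hG hp hp' h0 h1 h2 hc hc' (As x.2 x.1) v hv a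
    have h4 : 0 ≤ (s / s') ^ 2 * JJ μ s' p' v (As x.2 x.1) a - JJ μ s p v (As x.2 x.1) a := by
      rw [← h3]
      exact integral_nonneg fun _ => sq_nonneg _
    rw [div_le_div_iff₀ (by positivity) (by positivity)]
    rw [div_pow] at h4
    have h5 : JJ μ s p v (As x.2 x.1) a ≤ s ^ 2 / s' ^ 2 * JJ μ s' p' v (As x.2 x.1) a := by
      linarith
    calc JJ μ s p v (As x.2 x.1) a * s' ^ 2
        ≤ (s ^ 2 / s' ^ 2 * JJ μ s' p' v (As x.2 x.1) a) * s' ^ 2 :=
          mul_le_mul_of_nonneg_right h5 (by positivity)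
      _ = JJ μ s' p' v (As x.2 x.1) a * s ^ 2 := by
          field_simp
  · simp only [if_neg hx]
    simp

theorem II_le (hG : Geo G) (hp : IsKer G C p) (h0 : 0 < s) (h1 : s < 1) {μ : Measure (Cfg V k)}
    [IsProbabilityMeasure μ] (v : V) : II μ s p v ≤ (k + 1) / s ^ 2 := by
  unfold II
  refine div_le_div_of_nonneg_right ?_ (by positivity)
  calc ∑ a, ∫ x, (if x.1 ≤ x.2 v then JJ μ s p v (As x.2 x.1) a else 0) ∂(lam.prod (LL V))
      ≤ ∑ _a : Fin (k + 1), (1 : ℝ) := by
        refine Finset.sum_le_sum fun a _ => ?_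
        calc ∫ x, (if x.1 ≤ x.2 v then JJ μ s p v (As x.2 x.1) a else 0) ∂(lam.prod (LL V))
            ≤ ∫ _x, (1 : ℝ) ∂(lam.prod (LL V)) := by
              refine integral_mono (ind_int hG hp h0.le h1.le μ v a) (integrable_const _)
                fun x => ?_
              by_cases hx : x.1 ≤ x.2 v
              · simp only [if_pos hx]
                exact JJ_le hG hp h0.le h1.le μ v _ a
              · simp only [if_neg hx]
                exact zero_le_one
          _ = 1 := by simp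
    _ = k + 1 := by simp

end Pool.Agent.FD82
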