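import Pool.Agent.Lib.FD82.D4_Pyth
import Pool.Agent.Lib.FD82.C2_Mtp

/-! # D5_Ebd: the bound of the error term

Under `cpl s s' μ`: `x.1 = Y' ~ nz s' μ`, `x.2 = Y ~ nz s μ`.
* `mart`: for `F ≥ 0` (or bounded real) depending on `A ∌ v` only, `E[F(Y) 1(Y v = a)]` is, on the one hand
  `E[F(Y) p v A Y a]` (`cond_exp` for `nz s μ`), on the other hand `E[F(Y) (r p' v A Y' a + (1 - r)/(k+1))]`, `r = s/s'`
  (`ns_indep` for the noise `N`, then `cond_exp` for `nz s' μ` with `F̃ y' = ∫⁻ N, F (corr y' N)`).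
  In terms of `PS`: `PS p s v A Y a = E[r PS p' s' v A Y' a | Y_A]` (use `s = r s'`, so
  `r (1-s')/(k+1) + (1-r)/(k+1) = (1-s)/(k+1)`).
* `pyth`: expand the square, `mart` with `F = PS p s v A · a` (bounded).
* `ee_bound`: `l1 (p(A,Y)) (p'(A,Y)) ≤ l1 (p(A,Y)) (p'(A,Y')) + l1 (p'(A,Y')) (p'(A,Y))`; the second term is handled by
  `mtp_ineq` for `Q` = law of `(Y', (Y, U))` and `cpl_dis`; for the first term
  `|p_a - p'_a| ≤ |PS - r PS'| + (1 - r) + (s' - s)`, `|PS'| ≤ 1`, and Cauchy-Schwarz: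
  `∫_t E_U 1(t ≤ U v) E_cpl |PS - r PS'| ≤ (∫_t E_U 1(t ≤ U v) (r² JJ s' - JJ s))^{1/2} ≤ (s² (II s' - II s))^{1/2}` for each `a`
  (each term `a` of `s² (II s' - II s)` is `≥ 0`). -/

set_option autoImplicit false

open MeasureTheory Set Filter Topology

namespace Pool.Agent.FD82

variable {V : Type} {k : ℕ} {G : SimpleGraph V} {C : ℝ} {p p' : Kern V k} {s s' : ℝ}

namespace D5

private theorem le_one (hp : IsKer G C p) (v : V) (A : Set V) (y : Cfg V k) (a : Fin (k + 1)) :
    p v A y a ≤ 1 := by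
  rw [← hp.sum v A y]
  exact Finset.single_le_sum (f := fun a => p v A y a) (fun b _ => hp.nonneg v A y b)
    (Finset.mem_univ a)

private theorem PS_abs (hp : IsKer G C p) (h0 : 0 ≤ s) (h1 : s ≤ 1) (v : V) (A : Set V)
    (y : Cfg V k) (a : Fin (k + 1)) : |PS p s v A y a| ≤ 1 := by
  have h2 := le_one hp v A y a
  have h3 := hp.nonneg v A y a
  have hk : (0 : ℝ) < (k : ℝ) + 1 := by positivity
  have h4 : 0 ≤ (1 - s) / ((k : ℝ) + 1) := div_nonneg (by linarith) hk.le
  have h5 : (1 - s) / ((k : ℝ) + 1) ≤ 1 := by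
    rw [div_le_one hk]
    have : (0 : ℝ) ≤ k := by positivity
    linarith
  unfold PS
  rw [abs_le]
  constructor <;> linarith

private theorem diff_le (hp' : IsKer G C p') (h0 : 0 < s) (h1 : s ≤ s')
    (h2 : s' < 1) (v : V) (A : Set V) (y y' : Cfg V k) (a : Fin (k + 1)) :
    |p v A y a - p' v A y' a| ≤
      |PS p s v A y a - (s / s') * PS p' s' v A y' a| + 2 * (1 - s / s') := by
  have hs' : 0 < s' := by linarith
  have h3 := PS_abs hp' hs'.le h2.le v A y' a
  have hk : (1 : ℝ) ≤ (k : ℝ) + 1 := by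
    have : (0 : ℝ) ≤ k := by positivity
    linarith
  have hr : s / s' ≤ 1 := by rw [div_le_one hs']; exact h1
  have e1 : p v A y a - p' v A y' a = (PS p s v A y a - (s / s') * PS p' s' v A y' a) +
      (-((1 - s / s') * PS p' s' v A y' a) + (s' - s) / (k + 1)) := by
    unfold PS
    field_simp
    ring
  rw [e1]
  refine (abs_add_le _ _).trans ?_
  refine add_le_add le_rfl ((abs_add_le _ _).trans ?_)
  have e2 : |-((1 - s / s') * PS p' s' v A y' a)| ≤ 1 - s / s' := by
    rw [abs_neg, abs_mul, abs_of_nonneg (by linarith : 0 ≤ 1 - s / s')]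
    nlinarith [abs_nonneg (PS p' s' v A y' a)]
  have e3 : |(s' - s) / ((k : ℝ) + 1)| ≤ 1 - s / s' := by
    rw [abs_of_nonneg (div_nonneg (by linarith) (by linarith))]
    have e4 : (s' - s) / ((k : ℝ) + 1) ≤ s' - s := div_le_self (by linarith) hk
    have e5 : s' - s = s' * (1 - s / s') := by field_simp
    have e6 : s' * (1 - s / s') ≤ 1 - s / s' := by nlinarith
    linarith
  linarith

private theorem l1_tri (P P' P'' : Fin (k + 1) → ℝ) : l1 P P' ≤ l1 P P'' + l1 P'' P' := by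
  unfold l1
  rw [← Finset.sum_add_distrib]
  refine Finset.sum_le_sum (fun a _ => ?_)
  rw [← ENNReal.ofReal_add (abs_nonneg _) (abs_nonneg _)]
  exact ENNReal.ofReal_le_ofReal (abs_sub_le _ _ _)

open Classical in
private noncomputable def ff (p p' : Kern V k) (s s' : ℝ) (v : V) (a : Fin (k + 1))
    (z : (ℝ × (V → ℝ)) × (Cfg V k × Cfg V k)) : ℝ :=
  if z.1.1 ≤ z.1.2 v then
    |PS p s v (As z.1.2 z.1.1) z.2.2 a - (s / s') * PS p' s' v (As z.1.2 z.1.1) z.2.1 a| else 0

private theorem meas_ff (hG : Geo G) (hp : IsKer G C p) (hp' : IsKer G C p') (v : V)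
    (a : Fin (k + 1)) : Measurable (ff p p' s s' v a) := by
  unfold ff
  have hv : Measurable (fun z : (ℝ × (V → ℝ)) × (Cfg V k × Cfg V k) => z.1.2 v) :=
    (measurable_pi_apply v).comp (by fun_prop)
  refine Measurable.ite (measurableSet_le (by fun_prop) hv) ?_ measurable_const
  have e1 : Measurable (fun z : (ℝ × (V → ℝ)) × (Cfg V k × Cfg V k) =>
      p v (As z.1.2 z.1.1) z.2.2 a) :=
    meas_ker hG hp v a (by fun_prop) (by fun_prop) (by fun_prop)
  have e2 : Measurable (fun z : (ℝ × (V → ℝ)) × (Cfg V k × Cfg V k) =>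
      p' v (As z.1.2 z.1.1) z.2.1 a) :=
    meas_ker hG hp' v a (by fun_prop) (by fun_prop) (by fun_prop)
  unfold PS
  exact (((e1.sub measurable_const).sub ((e2.sub measurable_const).const_mul _))).abs

private theorem ff_nonneg (v : V) (a : Fin (k + 1)) (z : (ℝ × (V → ℝ)) × (Cfg V k × Cfg V k)) :
    0 ≤ ff p p' s s' v a z := by
  unfold ff
  split_ifs
  · exact abs_nonneg _
  · exact le_rfl

private theorem ff_le (hp : IsKer G C p) (hp' : IsKer G C p') (h0 : 0 < s) (h1 : s ≤ s')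
    (h2 : s' < 1) (v : V) (a : Fin (k + 1)) (z : (ℝ × (V → ℝ)) × (Cfg V k × Cfg V k)) :
    ff p p' s s' v a z ≤ 2 := by
  have hs' : 0 < s' := by linarith
  unfold ff
  split_ifs
  · have e1 := PS_abs hp h0.le (by linarith) v (As z.1.2 z.1.1) z.2.2 a
    have e2 := PS_abs hp' hs'.le h2.le v (As z.1.2 z.1.1) z.2.1 a
    have hr : s / s' ≤ 1 := by rw [div_le_one hs']; exact h1
    have hr0 : 0 ≤ s / s' := by positivity
    refine (abs_sub _ _).trans ?_
    rw [abs_mul, abs_of_nonneg hr0]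
    nlinarith [abs_nonneg (PS p' s' v (As z.1.2 z.1.1) z.2.1 a)]
  · norm_num

open Classical in
private noncomputable def jj (μ : Measure (Cfg V k)) (s : ℝ) (p : Kern V k) (v : V)
    (a : Fin (k + 1)) (w : ℝ × (V → ℝ)) : ℝ :=
  if w.1 ≤ w.2 v then JJ μ s p v (As w.2 w.1) a else 0

private theorem JJ_mem (hG : Geo G) (hp : IsKer G C p) (h0 : 0 ≤ s) (h1 : s ≤ 1)
    (μ : Measure (Cfg V k)) [IsProbabilityMeasure μ] (v : V) (A : Set V) (a : Fin (k + 1)) :
    0 ≤ JJ μ s p v A a ∧ JJ μ s p v A a ≤ 1 := by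
  have := nz_prob h0 h1 μ
  unfold JJ
  refine ⟨integral_nonneg (fun y => sq_nonneg _), ?_⟩
  have hb : ∀ y, (PS p s v A y a) ^ 2 ≤ 1 := by
    intro y
    have := PS_abs hp h0 h1 v A y a
    rw [← sq_abs]
    nlinarith [abs_nonneg (PS p s v A y a)]
  have hm : Measurable (fun y : Cfg V k => (PS p s v A y a) ^ 2) := by
    unfold PS
    exact ((meas_kerA hG hp v A a measurable_id).sub measurable_const).pow_const 2
  have hi : Integrable (fun y : Cfg V k => (PS p s v A y a) ^ 2) (nz s μ) := by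
    refine Integrable.of_bound hm.aestronglyMeasurable 1 (Eventually.of_forall (fun y => ?_))
    rw [Real.norm_eq_abs, abs_of_nonneg (sq_nonneg _)]
    exact hb y
  calc ∫ y, (PS p s v A y a) ^ 2 ∂(nz s μ) ≤ ∫ y, (1 : ℝ) ∂(nz s μ) :=
        integral_mono hi (integrable_const _) hb
    _ = 1 := by simp

private theorem int_jj (hG : Geo G) (hp : IsKer G C p) (h0 : 0 ≤ s) (h1 : s ≤ 1)
    (μ : Measure (Cfg V k)) [IsProbabilityMeasure μ] (v : V) (a : Fin (k + 1)) :
    Integrable (jj μ s p v a) (lam.prod (LL V)) := by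
  have := nz_prob h0 h1 μ
  have hv : Measurable (fun z : ℝ × (V → ℝ) => z.2 v) :=
    (measurable_pi_apply v).comp (by fun_prop)
  have hm : Measurable (jj μ s p v a) := by
    unfold jj
    refine Measurable.ite (measurableSet_le (by fun_prop) hv) ?_ measurable_const
    unfold JJ
    have e1 : Measurable (fun z : (ℝ × (V → ℝ)) × Cfg V k =>
        (PS p s v (As z.1.2 z.1.1) z.2 a) ^ 2) := by
      unfold PS
      exact ((meas_ker hG hp v a (by fun_prop) (by fun_prop) (by fun_prop)).sub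
        measurable_const).pow_const 2
    exact (e1.stronglyMeasurable.integral_prod_right').measurable
  refine Integrable.of_bound hm.aestronglyMeasurable 1 (Eventually.of_forall (fun w => ?_))
  unfold jj
  split_ifs
  · obtain ⟨h3, h4⟩ := JJ_mem hG hp h0 h1 μ v (As w.2 w.1) a
    rw [Real.norm_eq_abs, abs_of_nonneg h3]
    exact h4
  · simp

private theorem int_ff (hG : Geo G) (hp : IsKer G C p) (hp' : IsKer G C p') (h0 : 0 < s)
    (h1 : s ≤ s') (h2 : s' < 1) {μ : Measure (Cfg V k)} [IsProbabilityMeasure μ] (v : V)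
    (a : Fin (k + 1)) :
    Integrable (ff p p' s s' v a) ((lam.prod (LL V)).prod (cpl s s' μ)) := by
  have := cpl_prob h0 h1 h2.le μ
  refine Integrable.of_bound (meas_ff hG hp hp' v a).aestronglyMeasurable 2
    (Eventually.of_forall (fun z => ?_))
  rw [Real.norm_eq_abs, abs_of_nonneg (ff_nonneg v a z)]
  exact ff_le hp hp' h0 h1 h2 v a z

private theorem int_ff2 (hG : Geo G) (hp : IsKer G C p) (hp' : IsKer G C p') (h0 : 0 < s)
    (h1 : s ≤ s') (h2 : s' < 1) {μ : Measure (Cfg V k)} [IsProbabilityMeasure μ] (v : V)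
    (a : Fin (k + 1)) :
    Integrable (fun z => ff p p' s s' v a z ^ 2) ((lam.prod (LL V)).prod (cpl s s' μ)) := by
  have := cpl_prob h0 h1 h2.le μ
  refine Integrable.of_bound ((meas_ff hG hp hp' v a).pow_const 2).aestronglyMeasurable 4
    (Eventually.of_forall (fun z => ?_))
  rw [Real.norm_eq_abs, abs_of_nonneg (sq_nonneg _)]
  nlinarith [ff_nonneg (p := p) (p' := p') (s := s) (s' := s') v a z,
    ff_le hp hp' h0 h1 h2 v a z]

private theorem ff2_eq (hG : Geo G) (hp : IsKer G C p) (hp' : IsKer G C p') (h0 : 0 < s)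
    (h1 : s ≤ s') (h2 : s' < 1) {μ : Measure (Cfg V k)} [IsProbabilityMeasure μ]
    (hc : Cond (nz s μ) p) (hc' : Cond (nz s' μ) p') (v : V) (a : Fin (k + 1)) :
    ∫ z, ff p p' s s' v a z ^ 2 ∂((lam.prod (LL V)).prod (cpl s s' μ)) =
      (s / s') ^ 2 * ∫ w, jj μ s' p' v a w ∂(lam.prod (LL V)) -
        ∫ w, jj μ s p v a w ∂(lam.prod (LL V)) := by
  have := cpl_prob h0 h1 h2.le μ
  have hs' : 0 < s' := by linarith
  rw [integral_prod _ (int_ff2 hG hp hp' h0 h1 h2 v a)]
  have e1 : ∀ w : ℝ × (V → ℝ), ∫ x, ff p p' s s' v a (w, x) ^ 2 ∂(cpl s s' μ) =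
      (s / s') ^ 2 * jj μ s' p' v a w - jj μ s p v a w := by
    intro w
    by_cases hw : w.1 ≤ w.2 v
    · have hv : v ∉ As w.2 w.1 := fun h => absurd (show w.2 v < w.1 from h) (not_lt.mpr hw)
      simp only [ff, jj, if_pos hw, sq_abs]
      exact pyth hG hp hp' h0 h1 h2 hc hc' (As w.2 w.1) v hv a
    · simp [ff, jj, if_neg hw]
  simp_rw [e1]
  rw [integral_sub ((int_jj hG hp' hs'.le h2.le μ v a).const_mul _)
    (int_jj hG hp h0.le (by linarith) μ v a), integral_const_mul]

private theorem sum_ff2 (hG : Geo G) (hp : IsKer G C p) (hp' : IsKer G C p') (h0 : 0 < s)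
    (h1 : s ≤ s') (h2 : s' < 1) {μ : Measure (Cfg V k)} [IsProbabilityMeasure μ]
    (hc : Cond (nz s μ) p) (hc' : Cond (nz s' μ) p') (v : V) :
    ∑ a, ∫ z, ff p p' s s' v a z ^ 2 ∂((lam.prod (LL V)).prod (cpl s s' μ)) =
      s ^ 2 * (II μ s' p' v - II μ s p v) := by
  have hs' : 0 < s' := by linarith
  simp_rw [ff2_eq hG hp hp' h0 h1 h2 hc hc' v]
  rw [Finset.sum_sub_distrib, ← Finset.mul_sum]
  have e1 : ∀ (r : ℝ) (q : Kern V k), II μ r q v =
      (∑ a, ∫ w, jj μ r q v a w ∂(lam.prod (LL V))) / r ^ 2 := fun r q => rfl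
  rw [e1, e1]
  field_simp

private theorem cs {X : Type} [MeasurableSpace X] {K : Measure X} [IsProbabilityMeasure K]
    {f : X → ℝ} (hi : Integrable f K) (hi2 : Integrable (fun z => f z ^ 2) K) :
    (∫ z, f z ∂K) ^ 2 ≤ ∫ z, f z ^ 2 ∂K := by
  set c := ∫ z, f z ∂K with hcdef
  have e1 : 0 ≤ ∫ z, (f z - c) ^ 2 ∂K := integral_nonneg (fun z => sq_nonneg _)
  have e2 : ∫ z, (f z - c) ^ 2 ∂K = (∫ z, f z ^ 2 ∂K) - c ^ 2 := by
    have e3 : ∀ z, (f z - c) ^ 2 = (f z ^ 2 - (2 * c) * f z) + c ^ 2 := fun z => by ring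
    simp_rw [e3]
    have e4 : Integrable (fun z => f z ^ 2 - (2 * c) * f z) K := hi2.sub (hi.const_mul _)
    rw [integral_add e4 (integrable_const _), integral_sub hi2 (hi.const_mul _),
      integral_const_mul, ← hcdef]
    simp
    ring
  linarith

private theorem ff_bound (hG : Geo G) (hp : IsKer G C p) (hp' : IsKer G C p') (h0 : 0 < s)
    (h1 : s ≤ s') (h2 : s' < 1) {μ : Measure (Cfg V k)} [IsProbabilityMeasure μ]
    (hc : Cond (nz s μ) p) (hc' : Cond (nz s' μ) p') (v : V) (a : Fin (k + 1)) :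
    ∫ z, ff p p' s s' v a z ∂((lam.prod (LL V)).prod (cpl s s' μ)) ≤
      Real.sqrt (II μ s' p' v - II μ s p v) := by
  have := cpl_prob h0 h1 h2.le μ
  have hi := int_ff hG hp hp' h0 h1 h2 (μ := μ) v a
  have hi2 := int_ff2 hG hp hp' h0 h1 h2 (μ := μ) v a
  have hsq := cs hi hi2
  have h3 := sum_ff2 hG hp hp' h0 h1 h2 hc hc' v
  have h4 : ∫ z, ff p p' s s' v a z ^ 2 ∂((lam.prod (LL V)).prod (cpl s s' μ)) ≤
      ∑ a, ∫ z, ff p p' s s' v a z ^ 2 ∂((lam.prod (LL V)).prod (cpl s s' μ)) :=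
    Finset.single_le_sum
      (f := fun a => ∫ z, ff p p' s s' v a z ^ 2 ∂((lam.prod (LL V)).prod (cpl s s' μ)))
      (fun b _ => integral_nonneg (fun z => sq_nonneg _)) (Finset.mem_univ a)
  have h5 : 0 ≤ ∑ a, ∫ z, ff p p' s s' v a z ^ 2 ∂((lam.prod (LL V)).prod (cpl s s' μ)) :=
    Finset.sum_nonneg (fun b _ => integral_nonneg (fun z => sq_nonneg _))
  rw [h3] at h4 h5
  have h6 : 0 ≤ II μ s' p' v - II μ s p v := by
    by_contra hneg
    push Not at hneg
    nlinarith [mul_pos h0 h0]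
  have h7 : s ^ 2 ≤ 1 := by nlinarith
  refine Real.le_sqrt_of_sq_le (hsq.trans (h4.trans ?_))
  nlinarith

/-- the law of `(Y', (Y, U))` -/
private noncomputable def QQ' (s s' : ℝ) (μ : Measure (Cfg V k)) :
    Measure (Cfg V k × (Cfg V k × (V → ℝ))) :=
  ((cpl s s' μ).prod (LL V)).map (fun z => (z.1.1, (z.1.2, z.2)))

private theorem meas_re : Measurable (fun z : (Cfg V k × Cfg V k) × (V → ℝ) =>
    ((z.1.1, (z.1.2, z.2)) : Cfg V k × (Cfg V k × (V → ℝ)))) := by fun_prop

private theorem second (hG : Geo G) (hp' : IsKer G C p') (hC : 0 ≤ C) (h0 : 0 < s)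
    (h1 : s ≤ s') (h2 : s' < 1) {μ : Measure (Cfg V k)} [IsProbabilityMeasure μ] (hμ : Inv G μ)
    (v : V) (t : ℝ) :
    ∫⁻ z, ({z : (Cfg V k × Cfg V k) × (V → ℝ) | t ≤ z.2 v}.indicator
      (fun z => l1 (p' v (As z.2 t) z.1.1) (p' v (As z.2 t) z.1.2))) z
        ∂((cpl s s' μ).prod (LL V)) ≤ ENNReal.ofReal (C * (1 - s / s')) := by
  have hcp := cpl_prob h0 h1 h2.le μ
  have hcnt : Countable V := hG.countable
  have hQp : IsProbabilityMeasure (QQ' s s' μ) := Measure.isProbabilityMeasure_map meas_re.aemeasurable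
  have hQ : ∀ g : G ≃g G, (QQ' s s' μ).map (fun x => (x.1 ∘ g, (x.2.1 ∘ g, x.2.2 ∘ g))) =
      QQ' s s' μ := by
    intro g
    have e1 : Measurable (fun x : Cfg V k × (Cfg V k × (V → ℝ)) =>
        ((x.1 ∘ g, (x.2.1 ∘ g, x.2.2 ∘ g)) : Cfg V k × (Cfg V k × (V → ℝ)))) := by
      have c1 : ∀ {Z : Type} [MeasurableSpace Z], Measurable (fun y : V → Z => y ∘ g) := by
        intro Z _
        exact measurable_pi_iff.mpr (fun w => measurable_pi_apply (g w))
      exact (c1.comp measurable_fst).prodMk ((c1.comp (by fun_prop)).prodMk (c1.comp (by fun_prop)))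
    have c1 : ∀ {Z : Type} [MeasurableSpace Z], Measurable (fun y : V → Z => y ∘ g) := by
      intro Z _
      exact measurable_pi_iff.mpr (fun w => measurable_pi_apply (g w))
    have e2 : Measurable (fun x : Cfg V k × Cfg V k => ((x.1 ∘ g, x.2 ∘ g) : Cfg V k × Cfg V k)) :=
      (c1.comp measurable_fst).prodMk (c1.comp measurable_snd)
    have e3 : ((cpl s s' μ).prod (LL V)).map
        (Prod.map (fun x : Cfg V k × Cfg V k => (x.1 ∘ g, x.2 ∘ g)) (fun U : V → ℝ => U ∘ g)) =
        (cpl s s' μ).prod (LL V) := by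
      rw [← Measure.map_prod_map _ _ e2 c1, cpl_inv h0 h1 h2.le hμ g]
      congr 1
      exact LL_perm g.toEquiv
    unfold QQ'
    rw [Measure.map_map e1 meas_re]
    conv_rhs => rw [← e3]
    rw [Measure.map_map meas_re (by exact (e2.prodMap c1))]
    rfl
  have hinj : ∀ᵐ x ∂(QQ' s s' μ), Function.Injective x.2.2 := by
    unfold QQ'
    have e1 : ∀ᵐ z ∂((cpl s s' μ).prod (LL V)), Function.Injective z.2 :=
      (Measure.quasiMeasurePreserving_snd (μ := cpl s s' μ) (ν := LL V)).ae LL_inj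
    have hms : MeasurableSet {x : Cfg V k × (Cfg V k × (V → ℝ)) | Function.Injective x.2.2} := by
      have e2 : {x : Cfg V k × (Cfg V k × (V → ℝ)) | Function.Injective x.2.2} =
          ⋂ a : V, ⋂ b : V, {x | x.2.2 a = x.2.2 b → a = b} := by
        ext x
        simp only [mem_iInter, mem_ofPred_eq]
        exact ⟨fun h a b hab => h hab, fun h a b hab => h a b hab⟩
      rw [e2]
      refine MeasurableSet.iInter (fun a => MeasurableSet.iInter (fun b => ?_))
      by_cases hab : a = b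
      · simp [hab]
      · have e3 : {x : Cfg V k × (Cfg V k × (V → ℝ)) | x.2.2 a = x.2.2 b → a = b} =
            {x | x.2.2 a = x.2.2 b}ᶜ := by
          ext x
          simp only [mem_ofPred_eq, mem_compl_iff]
          exact ⟨fun h h' => hab (h h'), fun h h' => absurd h' h⟩
        rw [e3]
        exact (measurableSet_eq_fun ((measurable_pi_apply a).comp (by fun_prop))
          ((measurable_pi_apply b).comp (by fun_prop))).compl
    exact (ae_map_iff meas_re.aemeasurable hms).mpr e1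
  have key := mtp_ineq hG hp' hC (QQ' s s' μ) hQ hinj v t
  have hv : Measurable (fun x : Cfg V k × (Cfg V k × (V → ℝ)) => x.2.2 v) :=
    (measurable_pi_apply v).comp (by fun_prop)
  have hm : Measurable (({x : Cfg V k × (Cfg V k × (V → ℝ)) | t ≤ x.2.2 v}.indicator
      (fun x => l1 (p' v (As x.2.2 t) x.1) (p' v (As x.2.2 t) x.2.1)))) := by
    refine Measurable.indicator ?_ (hv measurableSet_Ici)
    exact meas_l1 (fun a => meas_ker hG hp' v a (by fun_prop) (by fun_prop) measurable_const)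
      (fun a => meas_ker hG hp' v a (by fun_prop) (by fun_prop) measurable_const)
  have e5 : ∫⁻ x, (({x : Cfg V k × (Cfg V k × (V → ℝ)) | t ≤ x.2.2 v}.indicator
      (fun x => l1 (p' v (As x.2.2 t) x.1) (p' v (As x.2.2 t) x.2.1)))) x ∂(QQ' s s' μ) =
      ∫⁻ z, ({z : (Cfg V k × Cfg V k) × (V → ℝ) | t ≤ z.2 v}.indicator
      (fun z => l1 (p' v (As z.2 t) z.1.1) (p' v (As z.2 t) z.1.2))) z
        ∂((cpl s s' μ).prod (LL V)) := by
    unfold QQ'
    rw [lintegral_map hm meas_re]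
    rfl
  rw [e5] at key
  refine key.trans ?_
  rw [ENNReal.ofReal_mul hC]
  refine mul_le_mul' le_rfl ?_
  refine le_trans ?_ (cpl_dis h0 h1 h2.le μ v)
  have hms : MeasurableSet {x : Cfg V k × Cfg V k | x.1 v ≠ x.2 v} :=
    (measurableSet_eq_fun ((measurable_pi_apply v).comp measurable_fst)
      ((measurable_pi_apply v).comp measurable_snd)).compl
  have hms' : MeasurableSet {x : Cfg V k × (Cfg V k × (V → ℝ)) | x.1 v ≠ x.2.1 v} :=
    (measurableSet_eq_fun ((measurable_pi_apply v).comp (by fun_prop))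
      ((measurable_pi_apply v).comp (by fun_prop))).compl
  calc QQ' s s' μ {x | x.1 v ≠ x.2.1 v ∧ x.2.2 v < t}
      ≤ QQ' s s' μ {x | x.1 v ≠ x.2.1 v} := measure_mono (fun x hx => hx.1)
    _ = ((cpl s s' μ).prod (LL V)) {z | z.1.1 v ≠ z.1.2 v} := by
        unfold QQ'
        rw [Measure.map_apply meas_re hms']
        rfl
    _ = ((cpl s s' μ).prod (LL V)) ({x | x.1 v ≠ x.2 v} ×ˢ univ) := by
        congr 1
        ext z
        simp
    _ = (cpl s s' μ) {x | x.1 v ≠ x.2 v} := by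
        rw [Measure.prod_prod, measure_univ, mul_one]
    _ ≤ _ := le_rfl

private theorem first (hG : Geo G) (hp : IsKer G C p) (hp' : IsKer G C p') (h0 : 0 < s)
    (h1 : s ≤ s') (h2 : s' < 1) {μ : Measure (Cfg V k)} [IsProbabilityMeasure μ]
    (v : V) (a : Fin (k + 1)) :
    ∫⁻ t in Ico 0 1, ∫⁻ z, ENNReal.ofReal (ff p p' s s' v a ((t, z.2), z.1))
        ∂((cpl s s' μ).prod (LL V)) =
      ENNReal.ofReal (∫ z, ff p p' s s' v a z ∂((lam.prod (LL V)).prod (cpl s s' μ))) := by
  have hcp := cpl_prob h0 h1 h2.le μ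
  have hm := meas_ff (s := s) (s' := s') hG hp hp' v a
  rw [ofReal_integral_eq_lintegral_ofReal (int_ff hG hp hp' h0 h1 h2 v a)
    (Eventually.of_forall (fun z => ff_nonneg v a z))]
  rw [lintegral_prod _ hm.ennreal_ofReal.aemeasurable]
  have e1 : Measurable (fun w : ℝ × (V → ℝ) =>
      ∫⁻ x, ENNReal.ofReal (ff p p' s s' v a (w, x)) ∂(cpl s s' μ)) :=
    hm.ennreal_ofReal.lintegral_prod_right'
  rw [lintegral_prod _ e1.aemeasurable]
  have e2 : lam = volume.restrict (Ico (0 : ℝ) 1) := restrict_Ico_eq_restrict_Icc.symm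
  rw [← e2]
  refine lintegral_congr (fun t => ?_)
  have e3 : Measurable (fun z : (Cfg V k × Cfg V k) × (V → ℝ) =>
      ENNReal.ofReal (ff p p' s s' v a ((t, z.2), z.1))) := by
    refine (hm.comp ?_).ennreal_ofReal
    fun_prop
  rw [lintegral_prod_symm' _ e3]

end D5

open D5 in
theorem ee_bound (hG : Geo G) (hp : IsKer G C p) (hp' : IsKer G C p') (hC : 0 ≤ C) (h0 : 0 < s)
    (h1 : s ≤ s') (h2 : s' < 1) {μ : Measure (Cfg V k)} [IsProbabilityMeasure μ] (hμ : Inv G μ)
    (hc : Cond (nz s μ) p) (hc' : Cond (nz s' μ) p') (v : V) :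
    ∫⁻ t in Ico 0 1, ee (nz s μ) p p' v t ≤
      ENNReal.ofReal ((k + 1) * Real.sqrt (II μ s' p' v - II μ s p v) +
        (2 * (k + 1) + C) * (1 - s / s')) := by
  have hcp := cpl_prob h0 h1 h2.le μ
  have hs' : 0 < s' := by linarith
  have hr : 0 ≤ 1 - s / s' := by
    have : s / s' ≤ 1 := by rw [div_le_one hs']; exact h1
    linarith
  have hmf : ∀ (a : Fin (k + 1)) (t : ℝ), Measurable (fun z : (Cfg V k × Cfg V k) × (V → ℝ) =>
      ENNReal.ofReal (ff p p' s s' v a ((t, z.2), z.1))) := by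
    intro a t
    refine ((meas_ff (s := s) (s' := s') hG hp hp' v a).comp ?_).ennreal_ofReal
    fun_prop
  -- pointwise in `t`
  have hpt : ∀ t : ℝ, ee (nz s μ) p p' v t ≤
      (∑ a, ∫⁻ z, ENNReal.ofReal (ff p p' s s' v a ((t, z.2), z.1))
        ∂((cpl s s' μ).prod (LL V))) + ENNReal.ofReal ((2 * (k + 1) + C) * (1 - s / s')) := by
    intro t
    have hv : Measurable (fun x : Cfg V k × (V → ℝ) => x.2 v) :=
      (measurable_pi_apply v).comp (by fun_prop)
    have hm : Measurable (({x : Cfg V k × (V → ℝ) | t ≤ x.2 v}.indicator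
        (fun x => l1 (p v (As x.2 t) x.1) (p' v (As x.2 t) x.1)))) := by
      refine Measurable.indicator ?_ (hv measurableSet_Ici)
      exact meas_l1 (fun a => meas_ker hG hp v a (by fun_prop) (by fun_prop) measurable_const)
        (fun a => meas_ker hG hp' v a (by fun_prop) (by fun_prop) measurable_const)
    have hmap : (nz s μ).prod (LL V) =
        ((cpl s s' μ).prod (LL V)).map (Prod.map Prod.snd id) := by
      rw [← Measure.map_prod_map _ _ measurable_snd measurable_id, cpl_snd h0 h1 h2.le μ,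
        Measure.map_id]
    unfold ee
    rw [hmap, lintegral_map hm (measurable_snd.prodMap measurable_id)]
    have hbd : ∀ z : (Cfg V k × Cfg V k) × (V → ℝ),
        ({x : Cfg V k × (V → ℝ) | t ≤ x.2 v}.indicator
        (fun x => l1 (p v (As x.2 t) x.1) (p' v (As x.2 t) x.1))) (Prod.map Prod.snd id z) ≤
        (∑ a, ENNReal.ofReal (ff p p' s s' v a ((t, z.2), z.1))) +
        (ENNReal.ofReal (2 * (k + 1) * (1 - s / s')) +
        ({z : (Cfg V k × Cfg V k) × (V → ℝ) | t ≤ z.2 v}.indicator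
      (fun z => l1 (p' v (As z.2 t) z.1.1) (p' v (As z.2 t) z.1.2))) z) := by
      intro z
      by_cases ht : t ≤ z.2 v
      · rw [indicator_of_mem (show (Prod.map Prod.snd id z : Cfg V k × (V → ℝ)) ∈
          {x : Cfg V k × (V → ℝ) | t ≤ x.2 v} from ht),
          indicator_of_mem (show z ∈ {z : (Cfg V k × Cfg V k) × (V → ℝ) | t ≤ z.2 v} from ht)]
        rw [← add_assoc]
        refine (l1_tri _ _ (p' v (As z.2 t) z.1.1)).trans (add_le_add ?_ le_rfl)
        have e1 : ENNReal.ofReal (2 * (k + 1) * (1 - s / s')) =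
            ∑ _a : Fin (k + 1), ENNReal.ofReal (2 * (1 - s / s')) := by
          rw [Finset.sum_const, Finset.card_univ, Fintype.card_fin, nsmul_eq_mul,
            ← ENNReal.ofReal_natCast, ← ENNReal.ofReal_mul (by positivity)]
          congr 1
          push_cast
          ring
        rw [e1, ← Finset.sum_add_distrib]
        unfold l1
        refine Finset.sum_le_sum (fun a _ => ?_)
        rw [← ENNReal.ofReal_add (ff_nonneg v a _) (by linarith)]
        refine ENNReal.ofReal_le_ofReal ?_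
        simp only [ff, if_pos ht]
        exact diff_le hp' h0 h1 h2 v (As z.2 t) z.1.2 z.1.1 a
      · rw [indicator_of_notMem (show (Prod.map Prod.snd id z : Cfg V k × (V → ℝ)) ∉
          {x : Cfg V k × (V → ℝ) | t ≤ x.2 v} from ht)]
        exact bot_le
    refine (lintegral_mono hbd).trans ?_
    rw [lintegral_add_left (Finset.measurable_sum _ (fun a _ => hmf a t)),
      lintegral_finsetSum _ (fun a _ => hmf a t), lintegral_add_left measurable_const,
      lintegral_const, measure_univ, mul_one]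
    refine add_le_add le_rfl ?_
    refine (add_le_add le_rfl (second hG hp' hC h0 h1 h2 hμ v t)).trans ?_
    rw [← ENNReal.ofReal_add (by positivity) (mul_nonneg hC hr)]
    refine ENNReal.ofReal_le_ofReal (le_of_eq ?_)
    ring
  refine (lintegral_mono hpt).trans ?_
  have hmt : ∀ a : Fin (k + 1), Measurable (fun t : ℝ =>
      ∫⁻ z, ENNReal.ofReal (ff p p' s s' v a ((t, z.2), z.1)) ∂((cpl s s' μ).prod (LL V))) := by
    intro a
    have : Measurable (fun w : ℝ × ((Cfg V k × Cfg V k) × (V → ℝ)) =>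
        ENNReal.ofReal (ff p p' s s' v a ((w.1, w.2.2), w.2.1))) := by
      refine ((meas_ff (s := s) (s' := s') hG hp hp' v a).comp ?_).ennreal_ofReal
      fun_prop
    exact this.lintegral_prod_right'
  rw [lintegral_add_right _ measurable_const, lintegral_finsetSum _ (fun a _ => hmt a)]
  simp_rw [first hG hp hp' h0 h1 h2 v]
  rw [lintegral_const, Measure.restrict_apply_univ, Real.volume_Ico]
  have e6 : (0 : ℝ) ≤ (2 * (k + 1) + C) * (1 - s / s') := mul_nonneg (by positivity) hr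
  have e7 : ENNReal.ofReal (1 - 0) = 1 := by simp
  rw [e7, mul_one, ENNReal.ofReal_add (by positivity) e6]
  refine add_le_add ?_ le_rfl
  calc ∑ a, ENNReal.ofReal (∫ z, ff p p' s s' v a z ∂((lam.prod (LL V)).prod (cpl s s' μ)))
      ≤ ∑ _a : Fin (k + 1), ENNReal.ofReal (Real.sqrt (II μ s' p' v - II μ s p v)) :=
        Finset.sum_le_sum (fun a _ =>
          ENNReal.ofReal_le_ofReal (ff_bound hG hp hp' h0 h1 h2 hc hc' v a))
    _ = ENNReal.ofReal ((k + 1) * Real.sqrt (II μ s' p' v - II μ s p v)) := by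
        rw [Finset.sum_const, Finset.card_univ, Fintype.card_fin, nsmul_eq_mul,
          ← ENNReal.ofReal_natCast, ← ENNReal.ofReal_mul (by positivity)]
        congr 1
        push_cast
        ring

end Pool.Agent.FD82
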