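import Pool.Agent.Lib.FD82.D2_Sol
import Pool.Agent.Lib.FD82.D5_Ebd

/-! # D6_Limit: the limit of vanishing noise

`s ↦ II μ s (p s) v` is monotone and bounded on `[1/2, 1)`, so there is a sequence `r j → 1` with
`∑_j ∫⁻ t in Ico 0 1, ee (nz (r j) μ) (p (r j)) (p (r (j+1))) v₀ t < ∞` (for one vertex `v₀`, hence for all: `ee_vertex`).
By `Psi_compare` and Borel-Cantelli `Psi (p (r j)) U ξ v` is a.s. eventually constant;
`Ψ U ξ v = ev (fun j => Psi (p (r j)) U ξ v)`. Law: `Psi_law`, `nz_tendsto`, `cyl_ext`. -/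

set_option autoImplicit false

open MeasureTheory Set Filter Topology

namespace Pool.Agent.FD82

variable {V : Type} {k : ℕ} {G : SimpleGraph V}

/-- A fast sequence of levels. -/
theorem D6_levels {f : ℝ → ℝ} {B : ℝ} (hm : ∀ s s', 0 < s → s ≤ s' → s' < 1 → f s ≤ f s')
    (hB : ∀ s, 1 / 2 ≤ s → s < 1 → f s ≤ B) :
    ∃ r : ℕ → ℝ, (∀ j, r j ≤ r (j + 1)) ∧ (∀ j, 1 / 2 ≤ r j ∧ r j < 1) ∧
      (∀ j, 1 - r j ≤ (1 / 2) ^ j) ∧ ∀ j, f (r (j + 1)) - f (r j) ≤ (1 / 4) ^ j := by
  set S := f '' Ico (1 / 2) 1 with hS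
  have hSne : S.Nonempty := ⟨f (1 / 2), ⟨1 / 2, ⟨le_rfl, by norm_num⟩, rfl⟩⟩
  have hSb : BddAbove S := ⟨B, by
    rintro _ ⟨s, hs, rfl⟩
    exact hB s hs.1 hs.2⟩
  have h1 : ∀ j : ℕ, ∃ s, (1 / 2 ≤ s ∧ s < 1) ∧ sSup S - (1 / 4) ^ j < f s := by
    intro j
    obtain ⟨_, ⟨s, hs, rfl⟩, h⟩ := exists_lt_of_lt_csSup hSne
      (show sSup S - (1 / 4) ^ j < sSup S by
        have : (0 : ℝ) < (1 / 4) ^ j := by positivity
        linarith)
    exact ⟨s, hs, h⟩
  choose s hs hs' using h1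
  set b : ℕ → ℝ := fun j => max (s j) (1 - (1 / 2) ^ (j + 1)) with hb
  have hb1 : ∀ j, b j < 1 := fun j => max_lt (hs j).2 (by
    have : (0 : ℝ) < (1 / 2) ^ (j + 1) := by positivity
    linarith)
  have hb2 : ∀ j, 1 / 2 ≤ b j := fun j => (hs j).1.trans (le_max_left _ _)
  set r : ℕ → ℝ := fun j => Nat.rec (b 0) (fun n x => max x (b (n + 1))) j with hr
  have hr1 : ∀ j, r (j + 1) = max (r j) (b (j + 1)) := fun j => rfl
  have hr2 : ∀ j, b j ≤ r j := by
    intro j
    cases j with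
    | zero => exact le_rfl
    | succ j => rw [hr1]; exact le_max_right _ _
  have hr3 : ∀ j, r j < 1 := by
    intro j
    induction j with
    | zero => exact hb1 0
    | succ j ih => rw [hr1]; exact max_lt ih (hb1 _)
  refine ⟨r, fun j => by rw [hr1]; exact le_max_left _ _, fun j => ⟨(hb2 j).trans (hr2 j), hr3 j⟩,
    fun j => ?_, fun j => ?_⟩
  · have h2 : 1 - (1 / 2 : ℝ) ^ (j + 1) ≤ r j := (le_max_right _ _).trans (hr2 j)
    have h3 : (1 / 2 : ℝ) ^ (j + 1) ≤ (1 / 2) ^ j := by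
      rw [pow_succ]
      have : (0 : ℝ) < (1 / 2) ^ j := by positivity
      linarith
    linarith
  · have h2 : f (r (j + 1)) ≤ sSup S := le_csSup hSb
      ⟨r (j + 1), ⟨(hb2 (j + 1)).trans (hr2 (j + 1)), hr3 (j + 1)⟩, rfl⟩
    have h3 : f (s j) ≤ f (r j) := hm _ _ (by linarith [(hs j).1])
      ((le_max_left _ _).trans (hr2 j)) (hr3 j)
    have h4 := hs' j
    linarith

theorem exists_factor (hG : Geo G) {C : ℝ} (hC : 0 ≤ C) {μ : Measure (Cfg V k)}
    [IsProbabilityMeasure μ] (hμ : Inv G μ)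
    (hker : ∀ s : ℝ, 0 < s → s < 1 → ∃ p : Kern V k, IsKer G C p ∧ Cond (nz s μ) p) :
    ∃ Ψ : (V → ℝ) × (V → ℝ) → Cfg V k, Measurable Ψ ∧
      (∀ (g : G ≃g G) (U ξ : V → ℝ), Ψ (U ∘ g, ξ ∘ g) = Ψ (U, ξ) ∘ g) ∧
      ((LL V).prod (LL V)).map Ψ = μ := by
  classical
  have hV : Nonempty V := hG.conn.nonempty
  have hcount : Countable V := hG.countable
  obtain ⟨v₀⟩ := hV
  -- the kernels
  have hP : ∀ s : ℝ, ∃ p : Kern V k, 0 < s → s < 1 → IsKer G C p ∧ Cond (nz s μ) p := by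
    intro s
    by_cases h : 0 < s ∧ s < 1
    · obtain ⟨p, hp⟩ := hker s h.1 h.2
      exact ⟨p, fun _ _ => hp⟩
    · exact ⟨fun _ _ _ _ => 0, fun h0 h1 => absurd ⟨h0, h1⟩ h⟩
  choose P hP using hP
  obtain ⟨r, hr1, hr2, hr3, hr4⟩ := D6_levels (f := fun s => II μ s (P s) v₀)
    (B := (k + 1) / (1 / 2) ^ 2)
    (fun s s' h0 h1 h2 => II_mono hG (hP s h0 (h1.trans_lt h2)).1 (hP s' (h0.trans_le h1) h2).1 h0 h1
      h2 (hP s h0 (h1.trans_lt h2)).2 (hP s' (h0.trans_le h1) h2).2 v₀)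
    (fun s h0 h1 => by
      refine (II_le hG (hP s (by linarith) h1).1 (by linarith) h1 v₀).trans ?_
      have : (0 : ℝ) < 1 / 2 := by norm_num
      gcongr)
  have hr0 : ∀ j, 0 < r j := fun j => by linarith [(hr2 j).1]
  have hK : ∀ j, IsKer G C (P (r j)) := fun j => (hP (r j) (hr0 j) (hr2 j).2).1
  have hD : ∀ j, Cond (nz (r j) μ) (P (r j)) := fun j => (hP (r j) (hr0 j) (hr2 j).2).2
  have hI : ∀ j, Inv G (nz (r j) μ) := fun j => nz_inv (hr0 j).le (hr2 j).2.le hμ
  have hprob : ∀ j, IsProbabilityMeasure (nz (r j) μ) := fun j => nz_prob (hr0 j).le (hr2 j).2.le μ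
  -- the bound of the error terms
  set a : ℕ → ℝ := fun j => (k + 1) * (1 / 2) ^ j + (2 * (k + 1) + C) * (1 / 2) ^ j with ha
  have ha0 : ∀ j, 0 ≤ a j := fun j => by positivity
  have hasum : Summable a := by
    refine Summable.add ?_ ?_
    · exact (summable_geometric_of_lt_one (by norm_num) (by norm_num)).mul_left _
    · exact (summable_geometric_of_lt_one (by norm_num) (by norm_num)).mul_left _
  have hee : ∀ v j, ∫⁻ t in Ico 0 1, ee (nz (r j) μ) (P (r j)) (P (r (j + 1))) v t ≤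
      ENNReal.ofReal (a j) := by
    intro v j
    have := hprob j
    have e1 : ∀ t, ee (nz (r j) μ) (P (r j)) (P (r (j + 1))) v t =
        ee (nz (r j) μ) (P (r j)) (P (r (j + 1))) v₀ t :=
      fun t => ee_vertex hG (hK j) (hK (j + 1)) (hI j) v v₀ t
    simp only [e1]
    refine (ee_bound hG (hK j) (hK (j + 1)) hC (hr0 j) (hr1 j) (hr2 (j + 1)).2 hμ (hD j)
      (hD (j + 1)) v₀).trans (ENNReal.ofReal_le_ofReal ?_)
    have e2 : Real.sqrt (II μ (r (j + 1)) (P (r (j + 1))) v₀ - II μ (r j) (P (r j)) v₀) ≤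
        (1 / 2) ^ j := by
      have e3 : ((1 / 2 : ℝ) ^ j) = Real.sqrt ((1 / 4) ^ j) := by
        rw [show (1 / 4 : ℝ) = (1 / 2) ^ 2 by norm_num, ← pow_mul, mul_comm, pow_mul,
          Real.sqrt_sq (by positivity)]
      rw [e3]
      exact Real.sqrt_le_sqrt (hr4 j)
    have e4 : 1 - r j / r (j + 1) ≤ (1 / 2) ^ j := by
      refine le_trans ?_ (hr3 j)
      have : r j ≤ r j / r (j + 1) := by
        rw [le_div_iff₀ (hr0 _)]
        have h1 := (hr2 (j + 1)).2
        have h2 := hr0 j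
        nlinarith
      linarith
    rw [ha]
    simp only
    gcongr
  -- almost surely eventually constant
  have hconst : ∀ᵐ x ∂((LL V).prod (LL V)), ∀ v, ∀ᶠ j in atTop,
      Psi (P (r j)) x.1 x.2 v = Psi (P (r (j + 1))) x.1 x.2 v := by
    have h1 : ∀ v, ∀ m : ℕ, ∀ᵐ x ∂((LL V).prod (LL V)), ∀ᶠ j in atTop,
        ¬ (Psi (P (r j)) x.1 x.2 v ≠ Psi (P (r (j + 1))) x.1 x.2 v ∧
          x.1 v < 1 - 1 / (m + 1 : ℝ)) := by
      intro v m
      set t : ℝ := 1 - 1 / (m + 1 : ℝ) with ht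
      have ht0 : 0 ≤ t := by
        rw [ht, sub_nonneg, div_le_one (by positivity)]
        have : (0 : ℝ) ≤ m := by positivity
        linarith
      have ht1 : t < 1 := by
        rw [ht]
        have : (0 : ℝ) < 1 / (m + 1 : ℝ) := by positivity
        linarith
      refine ae_eventually_notMem (s := fun j => {x : (V → ℝ) × (V → ℝ) |
        Psi (P (r j)) x.1 x.2 v ≠ Psi (P (r (j + 1))) x.1 x.2 v ∧ x.1 v < t}) ?_
      have h2 : ∀ j, ((LL V).prod (LL V)) {x : (V → ℝ) × (V → ℝ) |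
          Psi (P (r j)) x.1 x.2 v ≠ Psi (P (r (j + 1))) x.1 x.2 v ∧ x.1 v < t} ≤
          ENNReal.ofReal (k / (1 - t) * Real.exp (k / (1 - t) * C * t)) *
            ENNReal.ofReal (a j) := by
        intro j
        have := hprob j
        have := hprob (j + 1)
        refine (Psi_compare hG (hK j) (hK (j + 1)) hC (hI j) (hI (j + 1)) (hD j) (hD (j + 1)) v ht0
          ht1).trans ?_
        refine mul_le_mul_right ((lintegral_mono_set (Ico_subset_Ico_right ht1.le)).trans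
          (hee v j)) _
      refine ne_top_of_le_ne_top ?_ (ENNReal.tsum_le_tsum h2)
      rw [ENNReal.tsum_mul_left, ← ENNReal.ofReal_tsum_of_nonneg ha0 hasum]
      exact ENNReal.mul_ne_top ENNReal.ofReal_ne_top ENNReal.ofReal_ne_top
    have h3 : ∀ᵐ x ∂((LL V).prod (LL V)), ∀ v, 0 ≤ x.1 v ∧ x.1 v < 1 := by
      have h4 := (Measure.quasiMeasurePreserving_fst (μ := LL V) (ν := LL V)).ae (LL_mem (V := V))
      exact h4
    filter_upwards [h3, ae_all_iff.2 fun v => ae_all_iff.2 fun m => h1 v m] with x hx hx' v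
    obtain ⟨m, hm⟩ := exists_nat_one_div_lt (show 0 < 1 - x.1 v by linarith [(hx v).2])
    filter_upwards [hx' v m] with j hj
    by_contra h
    exact hj ⟨h, by linarith⟩
  -- the factor map
  set Ψ : (V → ℝ) × (V → ℝ) → Cfg V k := fun x v => ev (fun j => Psi (P (r j)) x.1 x.2 v) with hΨ
  have hmeasj : ∀ j, Measurable fun x : (V → ℝ) × (V → ℝ) => Psi (P (r j)) x.1 x.2 :=
    fun j => meas_Psi hG (hK j) measurable_fst measurable_snd
  have hmeas : Measurable Ψ := measurable_pi_iff.2 fun v =>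
    meas_ev fun j => (measurable_pi_apply v).comp (hmeasj j)
  have hev : ∀ᵐ x ∂((LL V).prod (LL V)), ∀ v, ∀ᶠ j in atTop, Psi (P (r j)) x.1 x.2 v = Ψ x v := by
    filter_upwards [hconst] with x hx v
    obtain ⟨N, hN⟩ := eventually_atTop.1 (hx v)
    have h1 : ∀ j, N ≤ j → Psi (P (r j)) x.1 x.2 v = Psi (P (r N)) x.1 x.2 v := by
      intro j hj
      induction j, hj using Nat.le_induction with
      | base => rfl
      | succ j hj ih => rw [← hN j hj, ih]
    have h2 : Ψ x v = Psi (P (r N)) x.1 x.2 v :=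
      ev_eq (eventually_atTop.2 ⟨N, h1⟩)
    exact eventually_atTop.2 ⟨N, fun j hj => (h1 j hj).trans h2.symm⟩
  refine ⟨Ψ, hmeas, fun g U ξ => ?_, ?_⟩
  · funext v
    simp only [hΨ, Function.comp_apply]
    congr 1
    funext j
    rw [Psi_equiv (hK j) g U ξ]
    rfl
  · have hprobΨ : IsProbabilityMeasure (((LL V).prod (LL V)).map Ψ) :=
      Measure.isProbabilityMeasure_map hmeas.aemeasurable
    refine cyl_ext fun A y => ?_
    have hcyl : MeasurableSet {ω : Cfg V k | ∀ w ∈ A, ω w = y w} := by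
      have : {ω : Cfg V k | ∀ w ∈ A, ω w = y w} = ⋂ w ∈ A, {ω | ω w = y w} := by
        ext ω
        simp
      rw [this]
      refine Finset.measurableSet_biInter A fun w _ => ?_
      exact measurableSet_preimage (f := fun ω : Cfg V k => ω w) (measurable_pi_apply w)
        (measurableSet_singleton (y w))
    have h1 : Tendsto (fun j => (((LL V).prod (LL V)).map
        (fun x => Psi (P (r j)) x.1 x.2)).real {ω | ∀ w ∈ A, ω w = y w}) atTop
        (𝓝 (μ.real {ω | ∀ w ∈ A, ω w = y w})) := by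
      have h2 : ∀ j, ((LL V).prod (LL V)).map (fun x => Psi (P (r j)) x.1 x.2) = nz (r j) μ := by
        intro j
        have := hprob j
        exact Psi_law hG (hK j) hC (hI j) (hD j)
      simp only [h2]
      refine nz_tendsto μ A y (fun j => ⟨hr0 j, (hr2 j).2⟩) ?_
      have h3 : Tendsto (fun j : ℕ => (1 : ℝ) - (1 / 2) ^ j) atTop (𝓝 (1 - 0)) :=
        tendsto_const_nhds.sub (tendsto_pow_atTop_nhds_zero_of_lt_one (by norm_num) (by norm_num))
      rw [sub_zero] at h3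
      exact tendsto_of_tendsto_of_tendsto_of_le_of_le h3 tendsto_const_nhds
        (fun j => by linarith [hr3 j]) (fun j => (hr2 j).2.le)
    have h4 : Tendsto (fun j => (((LL V).prod (LL V)).map
        (fun x => Psi (P (r j)) x.1 x.2)).real {ω | ∀ w ∈ A, ω w = y w}) atTop
        (𝓝 ((((LL V).prod (LL V)).map Ψ).real {ω | ∀ w ∈ A, ω w = y w})) := by
      have h5 : ∀ F : (V → ℝ) × (V → ℝ) → Cfg V k, Measurable F →
          (((LL V).prod (LL V)).map F).real {ω | ∀ w ∈ A, ω w = y w} =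
            ∫ x, (F ⁻¹' {ω | ∀ w ∈ A, ω w = y w}).indicator (fun _ => (1 : ℝ)) x
              ∂((LL V).prod (LL V)) := by
        intro F hF
        rw [integral_indicator (hF hcyl), integral_const, measureReal_restrict_apply_univ,
          smul_eq_mul, mul_one, measureReal_def, Measure.map_apply hF hcyl, measureReal_def]
      rw [h5 Ψ hmeas]
      simp only [h5 _ (hmeasj _)]
      refine tendsto_integral_of_dominated_convergence (fun _ => (1 : ℝ))
        (fun j => ((measurable_const.indicator ((hmeasj j) hcyl))).aestronglyMeasurable)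
        (integrable_const _) (fun j => Eventually.of_forall fun x => ?_) ?_
      · rw [Real.norm_eq_abs]
        by_cases h : x ∈ (fun x : (V → ℝ) × (V → ℝ) => Psi (P (r j)) x.1 x.2) ⁻¹'
            {ω | ∀ w ∈ A, ω w = y w}
        · rw [indicator_of_mem h]
          simp
        · rw [indicator_of_notMem h]
          simp
      · filter_upwards [hev] with x hx
        have h6 : ∀ᶠ j in atTop, ∀ w ∈ A, Psi (P (r j)) x.1 x.2 w = Ψ x w :=
          (Filter.eventually_all_finset A).2 fun w _ => hx w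
        refine tendsto_const_nhds.congr' ?_
        filter_upwards [h6] with j hj
        have h7 : x ∈ Ψ ⁻¹' {ω | ∀ w ∈ A, ω w = y w} ↔
            x ∈ (fun x : (V → ℝ) × (V → ℝ) => Psi (P (r j)) x.1 x.2) ⁻¹'
              {ω | ∀ w ∈ A, ω w = y w} := by
          simp only [mem_preimage, mem_ofPred_eq]
          exact forall₂_congr fun w hw => by rw [hj w hw]
        by_cases h : x ∈ Ψ ⁻¹' {ω | ∀ w ∈ A, ω w = y w}
        · rw [indicator_of_mem h, indicator_of_mem (h7.1 h)]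
        · rw [indicator_of_notMem h, indicator_of_notMem fun h' => h (h7.2 h')]
    exact tendsto_nhds_unique h4 h1

end Pool.Agent.FD82
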