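import Mathlib

/-! # Factors of i.i.d. for sector-stable finitely dependent processes on trees: definitions -/

set_option autoImplicit false

open MeasureTheory Set Filter Topology

namespace Pool.Agent.FD82

noncomputable section

/-- Configurations with `k + 1` symbols. -/
abbrev Cfg (V : Type) (k : ℕ) := V → Fin (k + 1)

/-- A kernel: `p v A y a` is the conditional probability of the symbol `a` at `v`, given the
configuration `y` on `A`. -/
abbrev Kern (V : Type) (k : ℕ) := V → Set V → Cfg V k → Fin (k + 1) → ℝ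

variable {V : Type} {k : ℕ}

/-! ## Labels and quantiles -/

/-- The uniform law on `[0, 1]`. -/
def lam : Measure ℝ := volume.restrict (Icc (0 : ℝ) 1)

instance : IsProbabilityMeasure lam := ⟨by simp [lam]⟩

/-- I.i.d. uniform labels. -/
def LL (V : Type) : Measure (V → ℝ) := Measure.infinitePi (fun _ : V => lam)

instance : IsProbabilityMeasure (LL V) := by unfold LL; infer_instance

/-- The vertices with label less than `s`. -/
def As (U : V → ℝ) (s : ℝ) : Set V := {w | U w < s}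

/-- Cumulated sums. -/
def cum (P : Fin (k + 1) → ℝ) (a : Fin (k + 1)) : ℝ := ∑ b ∈ Finset.Iic a, P b

/-- The quantile function: a variable with law `P` is `quant P x`, `x` uniform. -/
def quant (P : Fin (k + 1) → ℝ) (x : ℝ) : Fin (k + 1) :=
  ⟨(Finset.univ.filter (fun a : Fin k => cum P a.castSucc ≤ x)).card,
    Nat.lt_succ_of_le ((Finset.card_filter_le _ _).trans (by simp))⟩

/-- The affine map from `[0, 1]` onto the interval where `quant P = a`. -/
def rr (P : Fin (k + 1) → ℝ) (a : Fin (k + 1)) (c : ℝ) : ℝ := cum P a - P a + P a * c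

/-- `ℓ¹` distance of two probability vectors. -/
def l1 (P P' : Fin (k + 1) → ℝ) : ENNReal := ∑ a, ENNReal.ofReal |P a - P' a|

open Classical in
/-- The eventual value of a sequence of symbols. -/
def ev (f : ℕ → Fin (k + 1)) : Fin (k + 1) :=
  if h : ∃ a, ∀ᶠ n in atTop, f n = a then h.choose else 0

/-! ## Kernels -/

/-- `q n` are local approximations of the kernel `p`, with total influence of a vertex at most
`C + δ n`. -/
structure IsApx (G : SimpleGraph V) (C : ℝ) (p : Kern V k) (q : ℕ → Kern V k) (R : ℕ → ℕ)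
    (δ : ℕ → ℝ) : Prop where
  tend : Tendsto δ atTop (𝓝 0)
  loc : ∀ n v A A' y y' a, (∀ w, G.dist v w ≤ R n → (w ∈ A ↔ w ∈ A')) →
    (∀ w ∈ A, G.dist v w ≤ R n → y w = y' w) → q n v A y a = q n v A' y' a
  close : ∀ n v A y a, |q n v A y a - p v A y a| ≤ δ n
  col : ∀ n (A : Set V) (w : V) (y y' : Cfg V k), (∀ u, u ≠ w → y u = y' u) →
    ∀ T : Finset V, (∀ v ∈ T, v ∉ A) →
      ∑ v ∈ T, ∑ a, |q n v A y a - q n v A y' a| ≤ C + δ n
  qequiv : ∀ n (g : G ≃g G) v A y a, q n (g v) A y a = q n v (g ⁻¹' A) (y ∘ g) a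

/-- A good kernel. -/
structure IsKer (G : SimpleGraph V) (C : ℝ) (p : Kern V k) : Prop where
  nonneg : ∀ v A y a, 0 ≤ p v A y a
  sum : ∀ v A y, ∑ a, p v A y a = 1
  equiv : ∀ (g : G ≃g G) v A y a, p (g v) A y a = p v (g ⁻¹' A) (y ∘ g) a
  approx : ∃ q R δ, IsApx G C p q R δ

/-- `p` is the conditional probability kernel of `ν`. -/
def Cond (ν : Measure (Cfg V k)) (p : Kern V k) : Prop :=
  ∀ (A : Finset V) (v : V), v ∉ A → ∀ (y : Cfg V k) (a : Fin (k + 1)),
    ν.real {ω | (∀ w ∈ A, ω w = y w) ∧ ω v = a} =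
      p v (A : Set V) y a * ν.real {ω | ∀ w ∈ A, ω w = y w}

/-- Invariance of a law of configurations under the automorphisms of `G`. -/
def Inv (G : SimpleGraph V) (ν : Measure (Cfg V k)) : Prop :=
  ∀ g : G ≃g G, ν.map (fun y : Cfg V k => y ∘ g) = ν

/-- The geometric properties of `G` that are used. -/
structure Geo (G : SimpleGraph V) : Prop where
  conn : G.Connected
  swap : ∀ v w : V, ∃ g : G ≃g G, g v = w ∧ g w = v
  ball : ∀ v n, {w | G.dist v w ≤ n}.Finite
  dist : ∀ (g : G ≃g G) v w, G.dist (g v) (g w) = G.dist v w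

/-! ## Noise -/

instance : MeasurableSpace (Option (Fin (k + 1))) := ⊤

instance : DiscreteMeasurableSpace (Option (Fin (k + 1))) := ⟨fun _ => trivial⟩

/-- The noise: keep the symbol with probability `s`, else replace it by a uniform symbol. -/
def noiseM (k : ℕ) (s : ℝ) : Measure (Option (Fin (k + 1))) :=
  ENNReal.ofReal s • Measure.dirac none +
    ∑ a : Fin (k + 1), ENNReal.ofReal ((1 - s) / (k + 1)) • Measure.dirac (some a)

/-- Independent noise at all vertices. -/
def nsL (V : Type) (k : ℕ) (s : ℝ) : Measure (V → Option (Fin (k + 1))) :=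
  Measure.infinitePi (fun _ : V => noiseM k s)

/-- The noisy copy of a configuration. -/
def corr (y : Cfg V k) (N : V → Option (Fin (k + 1))) : Cfg V k := fun v => (N v).getD (y v)

/-- The law of the noisy copy of a random configuration with law `μ`. -/
def nz (s : ℝ) (μ : Measure (Cfg V k)) : Measure (Cfg V k) :=
  (μ.prod (nsL V k s)).map (fun x => corr x.1 x.2)

/-- The coupling of two noisy copies: `(Y', Y)` with `Y' ~ nz s' μ` and `Y` obtained from `Y'` by
noise of strength `s / s'`. -/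
def cpl (s s' : ℝ) (μ : Measure (Cfg V k)) : Measure (Cfg V k × Cfg V k) :=
  ((nz s' μ).prod (nsL V k (s / s'))).map (fun x => (x.1, corr x.1 x.2))

/-- Transition probabilities of the noise. -/
def kap (k : ℕ) (s : ℝ) (b c : Fin (k + 1)) : ℝ := s * (if b = c then 1 else 0) + (1 - s) / (k + 1)

/-! ## The equation -/

/-- The uniform variables that produce the configuration `Y` (`ζ` is an additional
randomisation). -/
def xi (p : Kern V k) (Y : Cfg V k) (U ζ : V → ℝ) : V → ℝ :=
  fun v => rr (p v (As U (U v)) Y) (Y v) (ζ v)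

/-- Picard iteration for `Y v = quant (p v (As U (U v)) Y) (ξ v)`. -/
def pic (p : Kern V k) : ℕ → (V → ℝ) → (V → ℝ) → Cfg V k
  | 0, _, _ => fun _ => 0
  | n + 1, U, ξ => fun v => quant (p v (As U (U v)) (pic p n U ξ)) (ξ v)

/-- The limit of the Picard iteration. -/
def Psi (p : Kern V k) (U ξ : V → ℝ) : Cfg V k := fun v => ev (fun n => pic p n U ξ v)

/-- The error term. -/
def ee (ν : Measure (Cfg V k)) (p p' : Kern V k) (v : V) (s : ℝ) : ENNReal :=
  ∫⁻ x, ({x : Cfg V k × (V → ℝ) | s ≤ x.2 v}.indicator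
    (fun x => l1 (p v (As x.2 s) x.1) (p' v (As x.2 s) x.1))) x ∂(ν.prod (LL V))

/-- The probability of a disagreement at `v` before time `t` after `n` iterations. -/
def Gt (ν : Measure (Cfg V k)) (p p' : Kern V k) (v : V) (n : ℕ) (t : ℝ) : ENNReal :=
  (ν.prod ((LL V).prod (LL V)))
    {x | pic p' n x.2.1 (xi p x.1 x.2.1 x.2.2) v ≠ x.1 v ∧ x.2.1 v < t}

/-! ## Hypotheses on the process -/

/-- The open sector. -/
def Sec (α : ℝ) : Set ℂ := {z | z ≠ 0 ∧ |z.arg| < α}

/-- Sector stability. -/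
def Stable (α : ℝ) (μ : Measure (Cfg V k)) : Prop :=
  ∀ (W : Finset V) (z : V → Fin (k + 1) → ℂ), (∀ v ∈ W, ∀ c, z v c ∈ Sec α) →
    ∫ ω, ∏ v ∈ W, z v (ω v) ∂μ ≠ 0

/-- Finite dependence, for cylinder events. -/
def MDep (G : SimpleGraph V) (m : ℕ) (μ : Measure (Cfg V k)) : Prop :=
  ∀ (A B : Finset V), (∀ a ∈ A, ∀ b ∈ B, m < G.dist a b) → ∀ y : Cfg V k,
    μ.real {ω | ∀ v, (v ∈ A ∨ v ∈ B) → ω v = y v} =
      μ.real {ω | ∀ v ∈ A, ω v = y v} * μ.real {ω | ∀ v ∈ B, ω v = y v}

/-! ## Complex weights -/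

/-- The weight `z ^ #{w ∈ A : ω w = y w}`. -/
def wt (A : Finset V) (y ω : Cfg V k) (z : ℂ) : ℂ := ∏ w ∈ A, if ω w = y w then z else 1

/-- Partition function. -/
def ZZ (μ : Measure (Cfg V k)) (A : Finset V) (y : Cfg V k) (z : ℂ) : ℂ := ∫ ω, wt A y ω z ∂μ

/-- Partition function with the symbol `a` at `v`. -/
def MM (μ : Measure (Cfg V k)) (A : Finset V) (y : Cfg V k) (v : V) (a : Fin (k + 1)) (z : ℂ) : ℂ :=
  ∫ ω, (if ω v = a then 1 else 0) * wt A y ω z ∂μ

/-- The (complex) posterior probability of `a` at `v`. -/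
def QQ (μ : Measure (Cfg V k)) (A : Finset V) (y : Cfg V k) (v : V) (a : Fin (k + 1)) (z : ℂ) : ℂ :=
  MM μ A y v a z / ZZ μ A y z

/-- The uniformisation of the sector by the unit disc. -/
def uz (α : ℝ) (u : ℂ) : ℂ :=
  Complex.exp (((2 * α / Real.pi : ℝ) : ℂ) * Complex.log ((1 + u) / (1 - u)))

/-- The Taylor polynomial of order `n` at `0`, evaluated at `u`. -/
def TT (n : ℕ) (u : ℂ) (f : ℂ → ℂ) : ℂ :=
  ∑ j ∈ Finset.range (n + 1), (iteratedDeriv j f 0 / (j.factorial : ℂ)) * u ^ j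

/-! ## The comparison of two noise levels -/

/-- The centred kernel. -/
def PS (p : Kern V k) (s : ℝ) (v : V) (A : Set V) (y : Cfg V k) (a : Fin (k + 1)) : ℝ :=
  p v A y a - (1 - s) / (k + 1)

/-- Its second moment. -/
def JJ (μ : Measure (Cfg V k)) (s : ℝ) (p : Kern V k) (v : V) (A : Set V) (a : Fin (k + 1)) : ℝ :=
  ∫ y, (PS p s v A y a) ^ 2 ∂(nz s μ)

/-- The averaged and normalised second moment. -/
def II (μ : Measure (Cfg V k)) (s : ℝ) (p : Kern V k) (v : V) : ℝ :=
  (∑ a, ∫ x, (if x.1 ≤ x.2 v then JJ μ s p v (As x.2 x.1) a else 0) ∂(lam.prod (LL V))) / s ^ 2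

end

end Pool.Agent.FD82
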