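import Pool.Agent.Lib.FD82.Defs
import Pool.Agent.Lib.MP_d9cd68_pr.Tree

/-! # E1_Tree: the regular tree

* `tree_geo`: the geometric properties of the regular tree (see `Pool/Agent/Lib/MP_d9cd68_pr/Tree.lean`, helper95's
  `exists_auto`, `dist_auto`, `ball_finite`; the swap automorphism exchanging `v` and `w`). -/

set_option autoImplicit false

open MeasureTheory Set Filter Topology

namespace Pool.Agent.FD82

namespace E1Tree

open Pool.Agent.FinDep

variable {V : Type} {G : SimpleGraph V}

/-- A partial isomorphism of a regular tree extends to an automorphism. -/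
theorem auto_of_piso (hT : G.IsTree) {d : ℕ} (hd : 1 ≤ d)
    (hreg : ∀ v, (G.neighborSet v).ncard = d) {x x' : V} {R₀ : Set (V × V)}
    (h₀ : PIso G x x' R₀) (hx₀ : (x, x') ∈ R₀) : ∃ g : G ≃g G, ∀ q ∈ R₀, g q.1 = q.2 := by
  have hc := hT.1
  obtain ⟨R, hR₀R, hmax⟩ := zorn_subset_nonempty {R | PIso G x x' R}
    (fun c hcS hchain hne => by
      refine ⟨⋃₀ c, ?_, fun s hs => Set.subset_sUnion_of_mem hs⟩
      have two : ∀ p ∈ ⋃₀ c, ∀ p' ∈ ⋃₀ c, ∃ R ∈ c, p ∈ R ∧ p' ∈ R := by
        rintro p ⟨R1, hR1, hp⟩ p' ⟨R2, hR2, hp'⟩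
        rcases hchain.total hR1 hR2 with h1 | h1
        · exact ⟨R2, hR2, h1 hp, hp'⟩
        · exact ⟨R1, hR1, hp, h1 hp'⟩
      refine ⟨?_, ?_, ?_, ?_⟩
      · intro p hp p' hp'
        obtain ⟨R, hR, h1, h2⟩ := two p hp p' hp'
        exact (hcS hR).inj p h1 p' h2
      · intro p hp p' hp'
        obtain ⟨R, hR, h1, h2⟩ := two p hp p' hp'
        exact (hcS hR).adj p h1 p' h2
      · rintro p ⟨R, hR, hp⟩
        exact (hcS hR).dist p hp
      · rintro p ⟨R, hR, hp⟩
        rcases (hcS hR).par p hp with h1 | ⟨p', hp', h2, h3⟩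
        · left; exact h1
        · right; exact ⟨p', ⟨R, hR, hp'⟩, h2, h3⟩) R₀ h₀
  have hR : PIso G x x' R := hmax.1
  have hxx : (x, x') ∈ R := hR₀R hx₀
  have hmax' : ∀ R', PIso G x x' R' → R ⊆ R' → R' ⊆ R := fun R' h1 h2 => hmax.2 h1 h2
  have hdom : ∀ (n : ℕ) (a : V), G.dist x a = n → ∃ b, (a, b) ∈ R := by
    intro n
    induction n with
    | zero =>
      intro a h1
      rw [← (hc.dist_eq_zero_iff).1 h1]
      exact ⟨x', hxx⟩
    | succ n ih =>
      intro a h1
      by_contra hcon
      push Not at hcon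
      have hax : a ≠ x := by
        rintro rfl
        simp at h1
      obtain ⟨a1, h2, h3⟩ := exists_parent hc hax
      obtain ⟨b1, h4⟩ := ih a1 (by omega)
      obtain ⟨b, h5⟩ := hR.extend hT hd hreg hxx hcon h4 h2 h3
      exact hcon b (hmax' _ h5 (Set.subset_insert _ _) (Set.mem_insert _ _))
  have hran : ∀ (n : ℕ) (b : V), G.dist x' b = n → ∃ a, (a, b) ∈ R := by
    intro n
    induction n with
    | zero =>
      intro b h1
      rw [← (hc.dist_eq_zero_iff).1 h1]
      exact ⟨x, hxx⟩
    | succ n ih =>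
      intro b h1
      by_contra hcon
      push Not at hcon
      have hbx : b ≠ x' := by
        rintro rfl
        simp at h1
      obtain ⟨b1, h2, h3⟩ := exists_parent hc hbx
      obtain ⟨a1, h4⟩ := ih b1 (by omega)
      have hsw := hR.swap hT
      obtain ⟨a, h5⟩ := hsw.extend hT hd hreg ⟨(x, x'), hxx, rfl⟩ (a := b) (a1 := b1) (b1 := a1)
        (by
          rintro a ⟨p, hp, he⟩
          have : p = (a, b) := by
            rw [← Prod.swap_swap p, he]; rfl
          rw [this] at hp
          exact hcon a hp) ⟨(a1, b1), h4, rfl⟩ h2 h3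
      have h6 := h5.swap hT
      have h7 : Prod.swap '' insert (b, a) (Prod.swap '' R) = insert (a, b) R := by
        rw [Set.image_insert_eq, Set.image_image]
        simp
      rw [h7] at h6
      exact hcon a (hmax' _ h6 (Set.subset_insert _ _) (Set.mem_insert _ _))
  choose f hf using fun a => hdom _ a rfl
  choose f' hf' using fun b => hran _ b rfl
  have hff' : ∀ b, f (f' b) = b := fun b => (hR.inj _ (hf (f' b)) _ (hf' b)).1 rfl
  have hf'f : ∀ a, f' (f a) = a := fun a => (hR.inj _ (hf' (f a)) _ (hf a)).2 rfl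
  refine ⟨⟨⟨f, f', hf'f, hff'⟩, ?_⟩, ?_⟩
  · intro a b
    exact (hR.adj _ (hf a) _ (hf b)).symm
  · intro q hq
    exact (hR.inj _ (hf q.1) _ (hR₀R hq)).1 rfl


/-- A geodesic between two vertices. -/
theorem exists_geodesic (hc : G.Connected) (v w : V) : ∃ p : ℕ → V, p 0 = v ∧
    p (G.dist v w) = w ∧ ∀ i j, i ≤ j → j ≤ G.dist v w → G.dist (p i) (p j) = j - i := by
  obtain ⟨W, hW⟩ := hc.exists_walk_length_eq_dist v w
  have h0 : W.getVert 0 = v := W.getVert_zero
  have h1 : W.getVert (G.dist v w) = w := by rw [← hW]; exact W.getVert_length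
  have hle : ∀ k i, i + k ≤ G.dist v w → G.dist (W.getVert i) (W.getVert (i + k)) ≤ k := by
    intro k
    induction k with
    | zero => intro i _; simp
    | succ k ih =>
      intro i hi
      have h2 := ih i (by omega)
      have h3 : G.Adj (W.getVert (i + k)) (W.getVert (i + k + 1)) :=
        W.adj_getVert_succ (by omega)
      have h4 : G.dist (W.getVert (i + k)) (W.getVert (i + k + 1)) = 1 :=
        SimpleGraph.dist_eq_one_iff_adj.2 h3
      have h5 := hc.dist_triangle (u := W.getVert i) (v := W.getVert (i + k))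
        (w := W.getVert (i + k + 1))
      rw [← add_assoc]
      omega
  refine ⟨W.getVert, h0, h1, fun i j hij hj => ?_⟩
  have a1 := hle i 0 (by omega)
  have a2 := hle (j - i) i (by omega)
  have a3 := hle (G.dist v w - j) j (by omega)
  rw [zero_add, h0] at a1
  rw [Nat.add_sub_cancel' hij] at a2
  rw [Nat.add_sub_cancel' hj, h1] at a3
  have b1 := hc.dist_triangle (u := v) (v := W.getVert i) (w := w)
  have b2 := hc.dist_triangle (u := W.getVert i) (v := W.getVert j) (w := w)
  omega

/-- Two vertices can be exchanged by an automorphism. -/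
theorem exists_swap (hT : G.IsTree) {d : ℕ} (hd : 1 ≤ d)
    (hreg : ∀ v, (G.neighborSet v).ncard = d) (v w : V) :
    ∃ g : G ≃g G, g v = w ∧ g w = v := by
  have hc := hT.1
  obtain ⟨p, hp0, hpn, hp⟩ := exists_geodesic hc v w
  set n := G.dist v w with hn
  have hp' : ∀ i j, i ≤ n → j ≤ n → G.dist (p i) (p j) = (i - j) + (j - i) := by
    intro i j hi hj
    rcases le_total i j with h | h
    · rw [hp i j h hj]; omega
    · rw [SimpleGraph.dist_comm, hp j i h hi]; omega
  have heq : ∀ i j, i ≤ n → j ≤ n → (p i = p j ↔ i = j) := by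
    intro i j hi hj
    rw [← hc.dist_eq_zero_iff, hp' i j hi hj]
    omega
  have hadj : ∀ i j, i ≤ n → j ≤ n → (G.Adj (p i) (p j) ↔ (i - j) + (j - i) = 1) := by
    intro i j hi hj
    rw [← SimpleGraph.dist_eq_one_iff_adj, hp' i j hi hj]
  set R₀ : Set (V × V) := {q | ∃ i, i ≤ n ∧ q = (p i, p (n - i))} with hR₀
  have h₀ : PIso G v w R₀ := by
    refine ⟨?_, ?_, ?_, ?_⟩
    · rintro _ ⟨i, hi, rfl⟩ _ ⟨j, hj, rfl⟩
      simp only
      rw [heq i j hi hj, heq (n - i) (n - j) (by omega) (by omega)]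
      omega
    · rintro _ ⟨i, hi, rfl⟩ _ ⟨j, hj, rfl⟩
      simp only
      rw [hadj i j hi hj, hadj (n - i) (n - j) (by omega) (by omega)]
      omega
    · rintro _ ⟨i, hi, rfl⟩
      simp only
      have e1 := hp' 0 i (by omega) hi
      have e2 := hp' n (n - i) le_rfl (by omega)
      rw [hp0] at e1
      rw [hpn] at e2
      rw [e1, e2]
      omega
    · rintro _ ⟨i, hi, rfl⟩
      rcases Nat.eq_zero_or_pos i with h | h
      · left
        rw [h]
        exact hp0
      · right
        refine ⟨(p (i - 1), p (n - (i - 1))), ⟨i - 1, by omega, rfl⟩, ?_, ?_⟩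
        · simp only
          rw [hadj (i - 1) i (by omega) hi]
          omega
        · simp only
          have e1 := hp' 0 i (by omega) hi
          have e2 := hp' 0 (i - 1) (by omega) (by omega)
          rw [hp0] at e1 e2
          rw [e1, e2]
          omega
  have m0 : (v, w) ∈ R₀ := ⟨0, Nat.zero_le _, by rw [hp0, Nat.sub_zero, hpn]⟩
  have m1 : (w, v) ∈ R₀ := ⟨n, le_rfl, by rw [hpn, Nat.sub_self, hp0]⟩
  obtain ⟨g, hg⟩ := auto_of_piso hT hd hreg h₀ m0
  exact ⟨g, hg _ m0, hg _ m1⟩

end E1Tree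

/-- The swap property etc. of the regular tree. -/
theorem tree_geo {d : ℕ} (hd : 3 ≤ d) {V : Type} (G : SimpleGraph V) (hG : G.IsTree)
    (hdeg : ∀ v : V, (G.neighborSet v).ncard = d) : Geo G where
  conn := hG.1
  swap := E1Tree.exists_swap hG (by omega) hdeg
  ball := fun v n => Pool.Agent.FinDep.ball_finite (by omega) hG.1 hdeg v n
  dist := fun g v w => Pool.Agent.FinDep.dist_auto hG.1 g v w

end Pool.Agent.FD82
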