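import Pool.Agent.Lib.FD82.Defs

/-! # E2_Lab: labels

* `tree_geo`: the geometric properties of the regular tree (see `Pool/Agent/Lib/MP_d9cd68_pr/Tree.lean`, helper95's
  `exists_auto`, `dist_auto`, `ball_finite`; the swap automorphism exchanging `v` and `w`).
* labels: `L : unitInterval → ℝ × ℝ` measurable with law `lam.prod lam`
  (`ProbabilityTheory.Kernel.exists_measurable_map_eq_unitInterval` or similar), `Φ x = Ψ (fun v => (L (x v)).1, fun v => (L (x v)).2)`. -/

set_option autoImplicit false

open MeasureTheory Set Filter Topology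

namespace Pool.Agent.FD82

/-- The product of two label fields is the law of a field indexed by `Fin 2 × V`. -/
theorem E2_prod (V : Type) :
    (Measure.infinitePi (fun _ : Fin 2 × V => lam)).map
      (fun m => ((fun v => m (0, v)), (fun v => m (1, v)))) = (LL V).prod (LL V) := by
  have h1 : (Measure.infinitePi (fun _ : Fin 2 × V => lam)).map (MeasurableEquiv.curry (Fin 2) V ℝ) =
      Measure.infinitePi (fun _ : Fin 2 => LL V) :=
    Measure.infinitePi_map_curry (fun (_ : Fin 2) (_ : V) => lam)
  have h2 : (Measure.infinitePi (fun _ : Fin 2 => LL V)).map (fun ω => (ω 0, ω 1)) =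
      (LL V).prod (LL V) :=
    Measure.infinitePi_map_eval_prod (i := (0 : Fin 2)) (j := 1) (P := fun _ => LL V)
      (by decide)
  rw [← h2, ← h1, Measure.map_map (by fun_prop) (by fun_prop)]
  rfl

/-- Exchanging the two indices. -/
theorem E2_swap (V : Type) :
    (Measure.infinitePi (fun _ : V × Fin 2 => lam)).map (fun n (p : Fin 2 × V) => n (p.2, p.1)) =
      Measure.infinitePi (fun _ : Fin 2 × V => lam) := by
  have h := Measure.infinitePi_map_piCongrLeft (fun _ : Fin 2 × V => lam)
    (Equiv.prodComm V (Fin 2))
  rw [← h]
  congr 1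

/-- Two i.i.d. label fields from one. -/
theorem exists_labels (V : Type) : ∃ L : unitInterval → ℝ × ℝ, Measurable L ∧
    (Measure.infinitePi (fun _ : V => (volume : Measure unitInterval))).map
      (fun x => ((fun v => (L (x v)).1), (fun v => (L (x v)).2))) = (LL V).prod (LL V) := by
  obtain ⟨L, hL, hL2⟩ := Measure.exists_measurable_map_eq
    (Measure.infinitePi (fun _ : Fin 2 => lam))
  refine ⟨fun t => (L t 0, L t 1), by fun_prop, ?_⟩
  have h1 : (Measure.infinitePi (fun _ : V => (volume : Measure unitInterval))).map
      (fun x v => L (x v)) = Measure.infinitePi (fun _ : V => Measure.infinitePi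
        (fun _ : Fin 2 => lam)) := by
    have := Measure.infinitePi_map_pi (fun _ : V => (volume : Measure unitInterval))
      (f := fun _ => L) (fun _ => hL)
    rw [this, hL2]
  have h2 : (Measure.infinitePi (fun _ : V × Fin 2 => lam)).map
      (MeasurableEquiv.curry V (Fin 2) ℝ) =
      Measure.infinitePi (fun _ : V => Measure.infinitePi (fun _ : Fin 2 => lam)) :=
    Measure.infinitePi_map_curry (fun (_ : V) (_ : Fin 2) => lam)
  have h3 : (Measure.infinitePi (fun _ : V => (volume : Measure unitInterval))).map
      (fun x => ((fun v => L (x v) 0), (fun v => L (x v) 1))) =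
      ((Measure.infinitePi (fun _ : V => (volume : Measure unitInterval))).map
        (fun x v => L (x v))).map (fun y : V → Fin 2 → ℝ => ((fun v => y v 0), fun v => y v 1)) := by
    rw [Measure.map_map (by fun_prop) (by fun_prop)]
    rfl
  rw [h3, h1, ← h2, ← E2_prod, ← E2_swap, Measure.map_map (by fun_prop) (by fun_prop),
    Measure.map_map (by fun_prop) (by fun_prop)]
  rfl

end Pool.Agent.FD82
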