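import Pool.Agent.Lib.FD82.A7_Ker
import Pool.Agent.Lib.FD82.D6_Limit
import Pool.Agent.Lib.FD82.E1_Tree
import Pool.Agent.Lib.FD82.E2_Lab

/-! # E3_Main: the final theorem

* `tree_geo`: the geometric properties of the regular tree (see `Pool/Agent/Lib/MP_d9cd68_pr/Tree.lean`, helper95's
  `exists_auto`, `dist_auto`, `ball_finite`; the swap automorphism exchanging `v` and `w`).
* labels: `L : unitInterval → ℝ × ℝ` measurable with law `lam.prod lam`
  (`ProbabilityTheory.Kernel.exists_measurable_map_eq_unitInterval` or similar), `Φ x = Ψ (fun v => (L (x v)).1, fun v => (L (x v)).2)`. -/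

set_option autoImplicit false

open MeasureTheory Set Filter Topology

namespace Pool.Agent.FD82

theorem mdep_of_iIndep {V : Type} {k m : ℕ} {G : SimpleGraph V} {μ : Measure (Cfg V k)}
    [IsProbabilityMeasure μ]
    (h : ∀ (p : ℕ) (K : Fin p → Set V),
      (∀ i j : Fin p, i ≠ j → ∀ u ∈ K i, ∀ w ∈ K j, m < G.dist u w) →
      ProbabilityTheory.iIndep (fun i : Fin p => MeasurableSpace.comap
        (fun x : V → Fin (k + 1) => fun v : K i => x v) MeasurableSpace.pi) μ) :
    MDep G m μ := by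
  intro A B hAB y
  let K : Fin 2 → Set V := ![(A : Set V), (B : Set V)]
  have hK : ∀ i j : Fin 2, i ≠ j → ∀ u ∈ K i, ∀ w ∈ K j, m < G.dist u w := by
    intro i j hij u hu w hw
    fin_cases i <;> fin_cases j
    · exact absurd rfl hij
    · exact hAB u hu w hw
    · rw [SimpleGraph.dist_comm]
      exact hAB w hw u hu
    · exact absurd rfl hij
  have hfin : ∀ i, Finite (K i) := by
    intro i
    fin_cases i
    · exact A.finite_toSet.to_subtype
    · exact B.finite_toSet.to_subtype
  have h2 := (h 2 K hK).meas_iInter (s := fun i => {ω : V → Fin (k + 1) | ∀ v ∈ K i, ω v = y v})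
    (by
      intro i
      have := hfin i
      refine ⟨{η | η = fun v : K i => y v}, ?_, ?_⟩
      · exact measurableSet_eq
      · ext ω
        simp only [mem_preimage, mem_ofPred_eq, funext_iff, Subtype.forall])
  rw [Fin.prod_univ_two] at h2
  have e1 : (⋂ i, {ω : V → Fin (k + 1) | ∀ v ∈ K i, ω v = y v}) =
      {ω : V → Fin (k + 1) | ∀ v, (v ∈ A ∨ v ∈ B) → ω v = y v} := by
    ext ω
    simp only [mem_iInter, mem_ofPred_eq, Fin.forall_fin_two]
    constructor
    · rintro ⟨h3, h4⟩ v (hv | hv)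
      · exact h3 v hv
      · exact h4 v hv
    · intro h3
      exact ⟨fun v hv => h3 v (Or.inl hv), fun v hv => h3 v (Or.inr hv)⟩
  rw [e1] at h2
  unfold Measure.real
  rw [h2, ENNReal.toReal_mul]
  rfl

/-- The main theorem. -/
theorem main_thm {d : ℕ} (hd : 3 ≤ d) (V : Type) (G : SimpleGraph V) (hG : G.IsTree)
    (hdeg : ∀ v : V, (G.neighborSet v).ncard = d) (k : ℕ) (μ : Measure (V → Fin k))
    (hprob : IsProbabilityMeasure μ)
    (hinv : ∀ g : G ≃g G, μ.map (fun x : V → Fin k => x ∘ ⇑g) = μ)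
    (hdep : ∃ m : ℕ, ∀ (p : ℕ) (K : Fin p → Set V),
      (∀ i j : Fin p, i ≠ j → ∀ u ∈ K i, ∀ w ∈ K j, m < G.dist u w) →
      ProbabilityTheory.iIndep (fun i : Fin p => MeasurableSpace.comap
        (fun x : V → Fin k => fun v : K i => x v) MeasurableSpace.pi) μ)
    (hst : ∃ α : ℝ, 0 < α ∧ ∀ (W : Finset V) (z : V → Fin k → ℂ),
      (∀ v c, z v c ≠ 0 ∧ |(z v c).arg| < α) → ∫ ω, ∏ v ∈ W, z v (ω v) ∂μ ≠ 0) :
    ∃ Φ : (V → unitInterval) → (V → Fin k), Measurable Φ ∧
      (∀ g : G ≃g G, ∀ x : V → unitInterval, Φ (x ∘ ⇑g) = Φ x ∘ ⇑g) ∧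
      (Measure.infinitePi (fun _ : V => (volume : Measure unitInterval))).map Φ = μ := by
  classical
  have hV : Nonempty V := hG.1.nonempty
  rcases Nat.eq_zero_or_pos k with rfl | hk
  · have hempty : IsEmpty (V → Fin 0) := ⟨fun f => (f hV.some).elim0⟩
    have h1 : μ Set.univ = 1 := hprob.measure_univ
    rw [Set.univ_eq_empty_iff.2 hempty, measure_empty] at h1
    exact absurd h1 zero_ne_one
  obtain ⟨k, rfl⟩ : ∃ k', k = k' + 1 := ⟨k - 1, by omega⟩
  obtain ⟨m, hm⟩ := hdep
  obtain ⟨α, hα, hz⟩ := hst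
  have hgeo := tree_geo hd G hG hdeg
  have hMD : MDep G m μ := mdep_of_iIndep hm
  set β : ℝ := min α (Real.pi / 2) with hβ
  have hβ0 : 0 < β := lt_min hα (by positivity)
  have hS : Stable β μ := by
    intro W z hWz
    have h1 := hz W (fun v c => if v ∈ W then z v c else 1) (by
      intro v c
      by_cases hv : v ∈ W
      · rw [if_pos hv]
        have h2 := hWz v hv c
        exact ⟨h2.1, lt_of_lt_of_le h2.2 (min_le_left _ _)⟩
      · rw [if_neg hv]
        simpa using hα)
    have h2 : (fun ω : V → Fin (k + 1) => ∏ v ∈ W, (if v ∈ W then z v (ω v) else 1)) =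
        fun ω => ∏ v ∈ W, z v (ω v) := by
      funext ω
      exact Finset.prod_congr rfl fun v hv => if_pos hv
    rw [h2] at h1
    exact h1
  obtain ⟨Ψ, hΨm, hΨe, hΨl⟩ := exists_factor hgeo (C := 4 * Real.pi / β) (by positivity)
    (μ := μ) hinv (fun s hs hs1 => exists_ker hgeo hinv hMD hβ0 (min_le_right _ _) hS hs hs1)
  obtain ⟨L, hL, hLl⟩ := exists_labels V
  have hT : Measurable (fun x : V → unitInterval =>
      ((fun v => (L (x v)).1), (fun v => (L (x v)).2))) := by
    refine Measurable.prodMk ?_ ?_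
    · exact measurable_pi_lambda _ fun v => measurable_fst.comp (hL.comp (measurable_pi_apply v))
    · exact measurable_pi_lambda _ fun v => measurable_snd.comp (hL.comp (measurable_pi_apply v))
  refine ⟨fun x => Ψ ((fun v => (L (x v)).1), (fun v => (L (x v)).2)), hΨm.comp hT, ?_, ?_⟩
  · intro g x
    exact hΨe g (fun v => (L (x v)).1) (fun v => (L (x v)).2)
  · have h1 : (Measure.infinitePi (fun _ : V => (volume : Measure unitInterval))).map
        (Ψ ∘ fun x : V → unitInterval => ((fun v => (L (x v)).1), (fun v => (L (x v)).2))) = μ := by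
      rw [← Measure.map_map hΨm hT, hLl, hΨl]
    exact h1

end Pool.Agent.FD82
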