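import Pool.Agent.Lib.FD82.Defs

/-! # E4_Det: determinantal processes

`K` Hermitian, `μ(σ = 1 on F) = det K_F` (then `0 ≤ K_W ≤ 1` for all finite `W`). Then
`E ∏_{v ∈ W} (1 + (l_v - 1) σ_v) = ∑_{F ⊆ W} ∏_{v ∈ F} (l_v - 1) det K_F = det (1 - K_W + D K_W)`, `D = diag l`. If this is zero there is
`f ≠ 0` with `(1 - K) f = - D K f`, `0 ≤ ⟨K f, (1 - K) f⟩ = - ∑ l_v |K f v|²` (`K (1 - K) ≥ 0`), and `Re l_v > 0`, so
`K f = 0` and then `f = 0`. With `l_v = z v 1 / z v 0`. -/

set_option autoImplicit false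

open MeasureTheory Set Filter Topology
open scoped ComplexOrder

namespace Pool.Agent.FD82

variable {V : Type}

open Classical in
/-- The correlation functions of `μ` are the minors of `K`. -/
def Minors (K : V → V → ℂ) (μ : Measure (V → Fin 2)) : Prop :=
  ∀ W : Finset V, ((μ.real {ω | ∀ v ∈ W, ω v = 1} : ℝ) : ℂ) =
    (Matrix.of (fun u v : W => K u v)).det

namespace E4

/-- Expansion into principal minors. -/
theorem det_expand {n : Type*} [Fintype n] [DecidableEq n] (d : n → ℂ) (M : Matrix n n ℂ) :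
    (1 + Matrix.diagonal d * M).det =
      ∑ s : Finset n, (∏ i ∈ s, d i) *
        (M.submatrix (Subtype.val : s → n) (Subtype.val : s → n)).det := by
  let D : (n → ℂ) [⋀^n]→ₗ[ℂ] ℂ := Matrix.detRowAlternating
  let A : n → n → ℂ := fun i j => d i * M i j
  let M' : n → n → ℂ := fun i j => M i j
  let B : n → n → ℂ := fun i j => (1 : Matrix n n ℂ) i j
  have h0 : (1 + Matrix.diagonal d * M).det = D (A + B) := by
    rw [add_comm]
    change D _ = D _
    congr 1
    funext i j
    change (Matrix.diagonal d * M + 1) i j = A i j + B i j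
    rw [Matrix.add_apply, Matrix.diagonal_mul]
  rw [h0, D.map_add_univ]
  refine Finset.sum_congr rfl fun s _ => ?_
  have h_smul : s.piecewise A B = fun i => (if i ∈ s then d i else 1) • s.piecewise M' B i := by
    funext i j
    simp only [Finset.piecewise, Pi.smul_apply, smul_eq_mul]
    split_ifs
    · rfl
    · rw [one_mul]
  rw [h_smul, D.map_smul_univ, smul_eq_mul]
  congr 1
  · simp only [Finset.prod_ite_mem, Finset.univ_inter]
  · exact Matrix.det_piecewise_one_eq_submatrix_det M s

/-- The key non-vanishing. -/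
theorem det_ne {n : Type*} [Fintype n] [DecidableEq n] {K : Matrix n n ℂ} (h1 : K.PosSemidef)
    (h2 : (1 - K).PosSemidef) (l : n → ℂ) (hl : ∀ i, 0 < (l i).re) :
    (1 + Matrix.diagonal (fun i => l i - 1) * K).det ≠ 0 := by
  intro h
  obtain ⟨v, hv, h⟩ := Matrix.exists_mulVec_eq_zero_iff.2 h
  set u : n → ℂ := K.mulVec v with hu
  set w : n → ℂ := (1 - K).mulVec v with hw
  have huw : v = u + w := by
    rw [hu, hw, Matrix.sub_mulVec, Matrix.one_mulVec]
    abel
  have hcomm : (1 - K).mulVec u = K.mulVec w := by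
    rw [hu, hw, Matrix.mulVec_mulVec, Matrix.mulVec_mulVec]
    congr 1
    noncomm_ring
  have hherm : star v ⬝ᵥ (K.mulVec w) = star u ⬝ᵥ w := by
    rw [Matrix.dotProduct_mulVec, hu, Matrix.star_mulVec, h1.isHermitian.eq]
  have key : star u ⬝ᵥ ((1 - K).mulVec u) + star w ⬝ᵥ (K.mulVec w) = star u ⬝ᵥ w := by
    rw [hcomm, ← add_dotProduct, ← star_add, ← huw, hherm]
  have hpos : 0 ≤ star u ⬝ᵥ w := by
    rw [← key]
    exact add_nonneg (h2.dotProduct_mulVec_nonneg u) (h1.dotProduct_mulVec_nonneg w)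
  have hwi : ∀ i, w i = -(l i * u i) := by
    intro i
    have h3 := congrFun h i
    rw [Matrix.add_mulVec, Matrix.one_mulVec, ← Matrix.mulVec_mulVec, ← hu] at h3
    simp only [Pi.add_apply, Matrix.mulVec_diagonal, Pi.zero_apply] at h3
    have h4 : w i = v i - u i := by
      rw [huw]
      simp
    rw [h4]
    linear_combination h3
  have hre : (star u ⬝ᵥ w).re = -∑ i, (l i).re * Complex.normSq (u i) := by
    rw [dotProduct, Complex.re_sum, ← Finset.sum_neg_distrib]
    refine Finset.sum_congr rfl fun i _ => ?_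
    rw [hwi i, Pi.star_apply, Complex.star_def]
    simp only [Complex.mul_re, Complex.neg_re, Complex.neg_im, Complex.mul_im, Complex.conj_re,
      Complex.conj_im, Complex.normSq_apply]
    ring
  have h5 : 0 ≤ (star u ⬝ᵥ w).re := (Complex.le_def.1 hpos).1
  rw [hre] at h5
  have h6 : ∀ i, 0 ≤ (l i).re * Complex.normSq (u i) := fun i =>
    mul_nonneg (hl i).le (Complex.normSq_nonneg _)
  have h7 : ∑ i, (l i).re * Complex.normSq (u i) = 0 :=
    le_antisymm (by linarith) (Finset.sum_nonneg fun i _ => h6 i)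
  have h8 : ∀ i, u i = 0 := by
    intro i
    have h9 := (Finset.sum_eq_zero_iff_of_nonneg fun i _ => h6 i).1 h7 i (Finset.mem_univ i)
    rcases mul_eq_zero.1 h9 with h10 | h10
    · exact absurd h10 (hl i).ne'
    · exact Complex.normSq_eq_zero.1 h10
  apply hv
  rw [huw]
  funext i
  rw [Pi.add_apply, hwi i, h8 i]
  simp

theorem abs_im_lt {z : ℂ} (hz : z ∈ Sec (Real.pi / 4)) : |z.im| < z.re := by
  obtain ⟨h0, h1⟩ := hz
  have hn : 0 < ‖z‖ := norm_pos_iff.2 h0
  have hc : Real.cos (Real.pi / 4) < Real.cos z.arg := by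
    rw [← Real.cos_abs z.arg]
    exact Real.cos_lt_cos_of_nonneg_of_le_pi_div_two (abs_nonneg _) (by linarith [Real.pi_pos]) h1
  rw [Real.cos_pi_div_four] at hc
  have h2 : (√2 / 2) ^ 2 = 1 / 2 := by
    rw [div_pow, Real.sq_sqrt (by norm_num)]
    norm_num
  have h3 : 1 / 2 < Real.cos z.arg ^ 2 := by
    rw [← h2]
    exact pow_lt_pow_left₀ hc (by positivity) two_ne_zero
  have h4 : Real.sin z.arg ^ 2 < Real.cos z.arg ^ 2 := by
    have := Real.sin_sq_add_cos_sq z.arg
    linarith
  have hcp : 0 < Real.cos z.arg := lt_trans (by positivity) hc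
  have h5 : |Real.sin z.arg| < Real.cos z.arg := by
    rw [← abs_of_pos hcp]
    exact sq_lt_sq.1 h4
  have hre : z.re = ‖z‖ * Real.cos z.arg := (Complex.norm_mul_cos_arg z).symm
  have him : z.im = ‖z‖ * Real.sin z.arg := (Complex.norm_mul_sin_arg z).symm
  rw [hre, him, abs_mul, abs_of_pos hn]
  exact mul_lt_mul_of_pos_left h5 hn

theorem re_div_pos {z w : ℂ} (hz : z ∈ Sec (Real.pi / 4)) (hw : w ∈ Sec (Real.pi / 4)) :
    0 < (z / w).re := by
  have h1 := abs_im_lt hz
  have h2 := abs_im_lt hw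
  have h3 : |z.im| * |w.im| < z.re * w.re :=
    mul_lt_mul'' h1 h2 (abs_nonneg _) (abs_nonneg _)
  have h4 : -(|z.im| * |w.im|) ≤ z.im * w.im := by
    rw [← abs_mul]
    exact neg_abs_le _
  have h5 : 0 < Complex.normSq w := Complex.normSq_pos.2 hw.1
  rw [Complex.div_re, ← add_div]
  exact div_pos (by linarith) h5

open Classical in
/-- The generating function. -/
theorem gen {K : V → V → ℂ} {μ : Measure (V → Fin 2)} [IsProbabilityMeasure μ]
    (h : Minors K μ) (W : Finset V) (d : V → ℂ) :
    ∫ ω, ∏ v ∈ W, (1 + d v * (if ω v = 1 then 1 else 0)) ∂μ =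
      (1 + Matrix.diagonal (fun v : W => d v) * Matrix.of (fun u v : W => K u v)).det := by
  have hmeas : ∀ t : Finset V, MeasurableSet {ω : V → Fin 2 | ∀ v ∈ t, ω v = 1} := by
    intro t
    have e : {ω : V → Fin 2 | ∀ v ∈ t, ω v = 1} = ⋂ v ∈ t, {ω : V → Fin 2 | ω v = 1} := by
      ext ω
      simp
    rw [e]
    refine Finset.measurableSet_biInter t fun v _ => ?_
    have hm : Measurable (fun ω : V → Fin 2 => ω v) := measurable_pi_apply v
    exact hm (measurableSet_singleton (1 : Fin 2))
  have hpt : ∀ ω : V → Fin 2, ∏ v ∈ W, (1 + d v * (if ω v = 1 then 1 else 0)) =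
      ∑ t ∈ W.powerset, (∏ v ∈ t, d v) *
        ({ω : V → Fin 2 | ∀ v ∈ t, ω v = 1}.indicator (fun _ => (1 : ℂ)) ω) := by
    intro ω
    rw [Finset.prod_one_add]
    refine Finset.sum_congr rfl fun t _ => ?_
    rw [Finset.prod_mul_distrib, Finset.prod_ite_zero, Finset.prod_const_one, Set.indicator_apply]
    rfl
  simp_rw [hpt]
  rw [integral_finsetSum _ fun t _ =>
    ((integrable_const (1 : ℂ)).indicator (hmeas t)).const_mul _]
  have hint : ∀ t ∈ W.powerset, ∫ ω, (∏ v ∈ t, d v) *
        ({ω : V → Fin 2 | ∀ v ∈ t, ω v = 1}.indicator (fun _ => (1 : ℂ)) ω) ∂μ =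
      (∏ v ∈ t, d v) * (Matrix.of (fun u v : t => K u v)).det := by
    intro t _
    rw [integral_const_mul, integral_indicator_const _ (hmeas t), ← h t]
    simp
  rw [Finset.sum_congr rfl hint, det_expand]
  have hinj : Function.Injective
      (fun s : Finset W => s.map (Function.Embedding.subtype (· ∈ W))) :=
    Finset.map_injective _
  have hpow : W.powerset = (Finset.univ : Finset (Finset W)).map
      ⟨fun s : Finset W => s.map (Function.Embedding.subtype (· ∈ W)), hinj⟩ := by
    ext t
    simp only [Finset.mem_powerset, Finset.mem_map, Finset.mem_univ, true_and,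
      Function.Embedding.coeFn_mk]
    constructor
    · intro ht
      refine ⟨t.subtype (· ∈ W), ?_⟩
      exact Finset.subtype_map_of_mem fun x hx => ht hx
    · rintro ⟨s, rfl⟩ x hx
      obtain ⟨y, _, rfl⟩ := Finset.mem_map.1 hx
      exact y.2
  rw [hpow, Finset.sum_map]
  refine Finset.sum_congr rfl fun s _ => ?_
  simp only [Function.Embedding.coeFn_mk]
  congr 1
  · rw [Finset.prod_map]
    rfl
  · let e : s ≃ (s.map (Function.Embedding.subtype (· ∈ W)) : Finset V) :=
      Equiv.ofBijective (fun x => ⟨x.1.1, Finset.mem_map.2 ⟨x.1, x.2, rfl⟩⟩) (by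
        constructor
        · intro x y hxy
          have h3 := congrArg Subtype.val hxy
          exact Subtype.ext (Subtype.ext h3)
        · rintro ⟨y, hy⟩
          obtain ⟨x, hx, hxy⟩ := Finset.mem_map.1 hy
          exact ⟨⟨x, hx⟩, Subtype.ext hxy⟩)
    rw [← Matrix.det_submatrix_equiv_self e]
    rfl

open Classical in
/-- The generating function is positive for positive weights. -/
theorem gen_real {K : V → V → ℂ} {μ : Measure (V → Fin 2)} [IsProbabilityMeasure μ]
    (h : Minors K μ) (W : Finset V) {t : ℝ} (ht : -1 < t) :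
    (1 + (t : ℂ) • (Matrix.of (fun u v : W => K u v))).det ≠ 0 := by
  classical
  have h1 := gen h W (fun _ => (t : ℂ))
  have h2 : (1 + (t : ℂ) • (Matrix.of (fun u v : W => K u v))) =
      (1 + Matrix.diagonal (fun _ : W => (t : ℂ)) * Matrix.of (fun u v : W => K u v)) := by
    congr 1
    ext i j
    rw [Matrix.diagonal_mul]
    rfl
  have h3 : (1 + (t : ℂ) • (Matrix.of (fun u v : W => K u v))).det =
      ∫ ω, ∏ v ∈ W, (1 + (t : ℂ) * (if ω v = 1 then 1 else 0)) ∂μ := by
    rw [h1, h2]
  rw [h3]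
  have h4 : ∀ ω : V → Fin 2, ∏ v ∈ W, (1 + (t : ℂ) * (if ω v = 1 then 1 else 0)) =
      ((∏ v ∈ W, (1 + t * (if ω v = 1 then 1 else 0)) : ℝ) : ℂ) := by
    intro ω
    push_cast
    refine Finset.prod_congr rfl fun v _ => ?_
    split_ifs <;> simp
  simp_rw [h4]
  rw [integral_complex_ofReal]
  have hpos : ∀ ω : V → Fin 2, (min 1 (1 + t)) ^ W.card ≤
      ∏ v ∈ W, (1 + t * (if ω v = 1 then 1 else 0)) := by
    intro ω
    rw [← Finset.prod_const]
    refine Finset.prod_le_prod (fun _ _ => le_min (by norm_num) (by linarith)) fun v _ => ?_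
    split_ifs
    · rw [mul_one]; exact min_le_right _ _
    · rw [mul_zero, add_zero]; exact min_le_left _ _
  have hbd : ∀ ω : V → Fin 2, ∏ v ∈ W, (1 + t * (if ω v = 1 then 1 else 0)) ≤
      (max 1 (1 + t)) ^ W.card := by
    intro ω
    rw [← Finset.prod_const]
    refine Finset.prod_le_prod (fun v _ => ?_) fun v _ => ?_
    · split_ifs
      · rw [mul_one]; linarith
      · rw [mul_zero, add_zero]; norm_num
    · split_ifs
      · rw [mul_one]; exact le_max_right _ _
      · rw [mul_zero, add_zero]; exact le_max_left _ _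
  have hmeas : Measurable (fun ω : V → Fin 2 =>
      ∏ v ∈ W, (1 + t * (if ω v = 1 then (1 : ℝ) else 0))) := by
    refine Finset.measurable_prod _ fun v _ => ?_
    refine measurable_const.add (measurable_const.mul ?_)
    have hm : Measurable (fun ω : V → Fin 2 => ω v) := measurable_pi_apply v
    have hs : MeasurableSet {ω : V → Fin 2 | ω v = 1} := hm (measurableSet_singleton (1 : Fin 2))
    exact Measurable.ite hs measurable_const measurable_const
  have hint : Integrable (fun ω : V → Fin 2 =>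
      ∏ v ∈ W, (1 + t * (if ω v = 1 then (1 : ℝ) else 0))) μ := by
    refine Integrable.of_bound hmeas.aestronglyMeasurable ((max 1 (1 + t)) ^ W.card) ?_
    refine Filter.Eventually.of_forall fun ω => ?_
    rw [Real.norm_eq_abs, abs_of_nonneg]
    · exact hbd ω
    · refine le_trans ?_ (hpos ω)
      exact pow_nonneg (le_min (by norm_num) (by linarith)) _
  have hlow : (min 1 (1 + t)) ^ W.card ≤
      ∫ ω, ∏ v ∈ W, (1 + t * (if ω v = 1 then (1 : ℝ) else 0)) ∂μ := by
    calc (min 1 (1 + t)) ^ W.card = ∫ _, (min 1 (1 + t)) ^ W.card ∂μ := by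
          rw [integral_const]; simp
      _ ≤ _ := integral_mono (integrable_const _) hint hpos
  have h5 : 0 < (min 1 (1 + t)) ^ W.card := pow_pos (lt_min (by norm_num) (by linarith)) _
  exact_mod_cast (lt_of_lt_of_le h5 hlow).ne'

/-- A Hermitian matrix with `det (1 + t K) ≠ 0` for all `t > -1` satisfies `0 ≤ K ≤ 1`. -/
theorem psd_of {n : Type*} [Fintype n] [DecidableEq n] {K : Matrix n n ℂ} (hK : K.IsHermitian)
    (h : ∀ t : ℝ, -1 < t → (1 + (t : ℂ) • K).det ≠ 0) :
    K.PosSemidef ∧ (1 - K).PosSemidef := by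
  -- eigenvalues
  have key : ∀ (r : ℝ) (v : n → ℂ), v ≠ 0 → K.mulVec v = (r : ℂ) • v → 0 ≤ r ∧ r ≤ 1 := by
    intro r v hv hr
    have hz : ∀ t : ℝ, 1 + t * r = 0 → ¬ -1 < t := by
      intro t ht hlt
      apply h t hlt
      rw [← Matrix.exists_mulVec_eq_zero_iff]
      refine ⟨v, hv, ?_⟩
      rw [Matrix.add_mulVec, Matrix.one_mulVec, Matrix.smul_mulVec, hr, smul_smul]
      have : v + ((t : ℂ) * (r : ℂ)) • v = ((1 + t * r : ℝ) : ℂ) • v := by
        push_cast
        rw [add_smul, one_smul]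
      rw [this, ht]
      simp
    constructor
    · by_contra hneg
      push Not at hneg
      refine hz (-1 / r) ?_ ?_
      · have : r ≠ 0 := hneg.ne
        field_simp
        ring
      · have : 0 < -1 / r := div_pos_of_neg_of_neg (by norm_num) hneg
        linarith
    · by_contra hgt
      push Not at hgt
      have hr0 : 0 < r := by linarith
      refine hz (-1 / r) ?_ ?_
      · have : r ≠ 0 := hr0.ne'
        field_simp
        ring
      · rw [neg_div, neg_lt_neg_iff, div_lt_one hr0]
        exact hgt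
  constructor
  · rw [hK.posSemidef_iff_eigenvalues_nonneg]
    intro i
    have h1 := hK.mulVec_eigenvectorBasis i
    have h2 : (hK.eigenvectorBasis i : n → ℂ) ≠ 0 := by
      intro h0
      have := (hK.eigenvectorBasis.orthonormal.ne_zero i)
      apply this
      ext j
      exact congrFun h0 j
    exact (key _ _ h2 (by rw [h1]; rfl)).1
  · have hK' : (1 - K).IsHermitian := Matrix.isHermitian_one.sub hK
    rw [hK'.posSemidef_iff_eigenvalues_nonneg]
    intro i
    have h1 := hK'.mulVec_eigenvectorBasis i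
    have h2 : (hK'.eigenvectorBasis i : n → ℂ) ≠ 0 := by
      intro h0
      have := (hK'.eigenvectorBasis.orthonormal.ne_zero i)
      apply this
      ext j
      exact congrFun h0 j
    have h3 := key (1 - hK'.eigenvalues i) _ h2 (by
      rw [Matrix.sub_mulVec, Matrix.one_mulVec] at h1
      have h4 : K.mulVec (hK'.eigenvectorBasis i : n → ℂ) =
          (hK'.eigenvectorBasis i : n → ℂ) -
            (hK'.eigenvalues i) • (hK'.eigenvectorBasis i : n → ℂ) := by
        rw [← h1]
        abel
      rw [h4]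
      push_cast
      rw [sub_smul, one_smul]
      rfl)
    show 0 ≤ hK'.eigenvalues i
    linarith [h3.2]

end E4

/-- Determinantal measures with a Hermitian kernel are sector stable. -/
theorem det_stable {K : V → V → ℂ} (hK : ∀ u v, K v u = star (K u v)) {μ : Measure (V → Fin 2)}
    [IsProbabilityMeasure μ] (h : Minors K μ) : Stable (k := 1) (Real.pi / 4) μ := by
  classical
  intro W z hz
  have hpt : ∀ ω : V → Fin 2, ∏ v ∈ W, z v (ω v) = (∏ v ∈ W, z v 0) *
      ∏ v ∈ W, (1 + (z v 1 / z v 0 - 1) * (if ω v = 1 then 1 else 0)) := by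
    intro ω
    rw [← Finset.prod_mul_distrib]
    refine Finset.prod_congr rfl fun v hv => ?_
    have h0 : z v 0 ≠ 0 := (hz v hv 0).1
    have h2 : ω v = 0 ∨ ω v = 1 := by
      have := (ω v).isLt
      rcases Nat.lt_or_ge (ω v).val 1 with h3 | h3
      · left
        exact Fin.ext (by simp; omega)
      · right
        exact Fin.ext (by simp; omega)
    rcases h2 with h2 | h2
    · rw [h2]
      simp
    · rw [h2, if_pos rfl]
      field_simp
      ring
  have hI : ∫ ω, ∏ v ∈ W, z v (ω v) ∂μ = (∏ v ∈ W, z v 0) *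
      (1 + Matrix.diagonal (fun v : W => z v 1 / z v 0 - 1) *
        Matrix.of (fun u v : W => K u v)).det := by
    have h1 := E4.gen h W (fun v => z v 1 / z v 0 - 1)
    calc ∫ ω, ∏ v ∈ W, z v (ω v) ∂μ = ∫ ω : V → Fin 2, (∏ v ∈ W, z v 0) *
          ∏ v ∈ W, (1 + (z v 1 / z v 0 - 1) * (if ω v = 1 then 1 else 0)) ∂μ :=
          integral_congr_ae (Filter.Eventually.of_forall hpt)
      _ = _ := by
          rw [integral_const_mul, h1]
  intro h0
  have h1 : ∫ ω, ∏ v ∈ W, z v (ω v) ∂μ = 0 := h0
  rw [hI] at h1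
  rcases mul_eq_zero.1 h1 with h2 | h2
  · exact Finset.prod_ne_zero_iff.2 (fun v hv => (hz v hv 0).1) h2
  · have hH : (Matrix.of (fun u v : W => K u v)).IsHermitian := by
      ext i j
      rw [Matrix.conjTranspose_apply, Matrix.of_apply, Matrix.of_apply]
      exact (hK j i).symm
    have hpsd := E4.psd_of hH (fun t ht => by
      convert E4.gen_real h W ht)
    exact E4.det_ne (K := Matrix.of (fun u v : W => K u v)) hpsd.1 hpsd.2
      (fun v : W => z v 1 / z v 0) (fun v => E4.re_div_pos (hz v v.2 1) (hz v v.2 0)) h2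

end Pool.Agent.FD82
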